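import Pool.Agent.H64.PV.PDef
import Pool.Agent.H64.LG.Alg

/-!
# PV.Ad : derivatives and square roots of algebraic power series

PROOFS. `A0_dd`: `f ∈ A0` means `IsAlgebraic (Polynomial Kbar) f`. Let `P = ∑ Q_i Y^i ≠ 0`, `Q_i ∈ Kbar[X]`, `P(f) = 0`, of least degree in `Y`; `d = P_Y(f) = ∑ i Q_i f^(i-1) ≠ 0` (least degree, characteristic `0`; `P` is not constant in `Y`), `d ∈ A0`. Differentiate `∑ Q_i f^i = 0`: `d * dd f + ∑ Q_i' f^i = 0`, the sum is in `A0`, so `d * dd f ∈ A0` and `dd f ∈ A0` (`alg_of_mul` in `LG/Alg.lean`).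
`A0_sqrt`: `φ = C φ0 * (1 + r)`, `φ0 = constantCoeff φ`. A power series `θ` with `θ^2 = φ`: choose `b` with `b^2 = φ0` (`IsAlgClosed.exists_pow_nat_eq` / `exists_eq_mul_self`), and solve for the coefficients recursively: `θ_0 = b`, `2 b θ_n = φ_n - ∑_{0<i<n} θ_i θ_(n-i)` (or Hensel's lemma, or the binomial series `(1 + X)^(1/2)` substituted, `binSer` in `H61/QF/Defs.lean`). `θ` is algebraic over `Kbar[X]` because `θ^2` is
(`IsAlgebraic.of_pow` / the algebraic closure in a domain is integrally closed; or: `P(θ^2) = 0`). `A0_map`: nothing else needed.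
-/

set_option autoImplicit false

namespace Pool.Agent.H64.PV

open Pool.H61.QF Pool.Agent.H64.LG PowerSeries

private theorem ad_dd_add (u v : PowerSeries Kbar) : dd (u + v) = dd u + dd v :=
  map_add (PowerSeries.derivative Kbar) u v

private theorem ad_dd_zero : dd (0 : PowerSeries Kbar) = 0 :=
  map_zero (PowerSeries.derivative Kbar)

private theorem ad_dd_mul (u v : PowerSeries Kbar) : dd (u * v) = u * dd v + v * dd u :=
  (PowerSeries.derivative Kbar).leibniz u v

private theorem ad_dd_pow (u : PowerSeries Kbar) (n : ℕ) : dd (u ^ n) = n * u ^ (n - 1) * dd u := by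
  have h := (PowerSeries.derivative Kbar).leibniz_pow u n
  rw [smul_eq_mul, nsmul_eq_mul] at h
  rw [mul_assoc]
  exact h

private theorem ad_coe_mem (a : Polynomial Kbar) : (a : PowerSeries Kbar) ∈ A0 := by
  have h : IsAlgebraic (Polynomial Kbar) (algebraMap (Polynomial Kbar) (PowerSeries Kbar) a) :=
    isAlgebraic_algebraMap _
  exact h

private theorem ad_algebraMap (a : Polynomial Kbar) :
    algebraMap (Polynomial Kbar) (PowerSeries Kbar) a = (a : PowerSeries Kbar) := rfl

private theorem ad_dd_coe (a : Polynomial Kbar) : dd (a : PowerSeries Kbar) ∈ A0 := by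
  have e : dd (a : PowerSeries Kbar) = ((Polynomial.derivative a : Polynomial Kbar) : PowerSeries Kbar) := by
    exact PowerSeries.derivative_coe a
  rw [e]
  exact ad_coe_mem _

private theorem ad_aeval_mem {f : PowerSeries Kbar} (hf : f ∈ A0) (P : Polynomial (Polynomial Kbar)) :
    Polynomial.aeval f P ∈ A0 := by
  induction P using Polynomial.induction_on' with
  | add P Q hP hQ => rw [map_add]; exact A0.add_mem hP hQ
  | monomial n a =>
    rw [Polynomial.aeval_monomial, ad_algebraMap]
    exact A0.mul_mem (ad_coe_mem a) (A0.pow_mem hf n)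

private theorem ad_formula {f : PowerSeries Kbar} (hf : f ∈ A0) (P : Polynomial (Polynomial Kbar)) :
    ∃ e ∈ A0, dd (Polynomial.aeval f P) = Polynomial.aeval f (Polynomial.derivative P) * dd f + e := by
  induction P using Polynomial.induction_on' with
  | add P Q hP hQ =>
    obtain ⟨e1, h1, g1⟩ := hP
    obtain ⟨e2, h2, g2⟩ := hQ
    refine ⟨e1 + e2, A0.add_mem h1 h2, ?_⟩
    rw [map_add, ad_dd_add, g1, g2, map_add, map_add]
    ring
  | monomial n a =>
    refine ⟨dd (a : PowerSeries Kbar) * f ^ n, A0.mul_mem (ad_dd_coe a) (A0.pow_mem hf n), ?_⟩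
    rw [Polynomial.aeval_monomial, ad_algebraMap, ad_dd_mul, ad_dd_pow,
      Polynomial.derivative_monomial, Polynomial.aeval_monomial, ad_algebraMap]
    simp only [Polynomial.coe_mul]
    have e : (((n : ℕ) : Polynomial Kbar) : PowerSeries Kbar) = (n : PowerSeries Kbar) := by
      exact map_natCast (Polynomial.coeToPowerSeries.ringHom (R := Kbar)) n
    rw [e]
    ring

theorem A0_dd {f : PowerSeries Kbar} (hf : f ∈ A0) : dd f ∈ A0 := by
  classical
  have h1 : ∃ P : Polynomial (Polynomial Kbar), P ≠ 0 ∧ Polynomial.aeval f P = 0 := hf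
  have h2 : ∃ n : ℕ, ∃ P : Polynomial (Polynomial Kbar), P.natDegree = n ∧ P ≠ 0 ∧ Polynomial.aeval f P = 0 := by
    obtain ⟨P, hP⟩ := h1
    exact ⟨_, P, rfl, hP⟩
  obtain ⟨P, hn, hP0, hP⟩ := Nat.find_spec h2
  have hmin := fun m (hm : m < Nat.find h2) => Nat.find_min h2 hm
  have hdeg : 0 < P.natDegree := by
    rw [Nat.pos_iff_ne_zero]
    intro h0
    rw [Polynomial.natDegree_eq_zero] at h0
    obtain ⟨q, hq⟩ := h0
    rw [← hq, Polynomial.aeval_C, ad_algebraMap] at hP
    apply hP0
    rw [← hq]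
    have : q = 0 := by
      have := Polynomial.coe_injective Kbar (a₁ := q) (a₂ := 0) (by rw [hP]; simp)
      exact this
    rw [this, Polynomial.C_0]
  have hd0 : Polynomial.aeval f (Polynomial.derivative P) ≠ 0 := by
    intro h
    have hlt : (Polynomial.derivative P).natDegree < Nat.find h2 := by
      rw [← hn]
      exact Polynomial.natDegree_derivative_lt hdeg.ne'
    refine hmin _ hlt ⟨Polynomial.derivative P, rfl, ?_, h⟩
    intro h3
    exact hdeg.ne' (Polynomial.derivative_eq_zero.1 h3)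
  obtain ⟨e, he, hf2⟩ := ad_formula hf P
  rw [hP, ad_dd_zero] at hf2
  refine alg_of_mul (ad_aeval_mem hf (Polynomial.derivative P)) hd0 ?_
  have h4 : Polynomial.aeval f (Polynomial.derivative P) * dd f = -e := by
    linear_combination -hf2
  rw [h4]
  exact A0.neg_mem he

theorem A0_sqrt {φ : PowerSeries Kbar} (hφ : φ ∈ A0) (h0 : constantCoeff φ ≠ 0) :
    ∃ θ ∈ A0, θ ^ 2 = φ ∧ constantCoeff θ ≠ 0 := by
  obtain ⟨b, hb⟩ := IsAlgClosed.exists_eq_mul_self (constantCoeff φ)
  set a : Kbar := constantCoeff φ with ha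
  let r : PowerSeries Kbar := C a⁻¹ * φ - 1
  have hr : constantCoeff r = 0 := by
    show constantCoeff (C a⁻¹ * φ - 1) = 0
    rw [map_sub, map_mul, constantCoeff_C, map_one, ← ha, inv_mul_cancel₀ h0, sub_self]
  have hs : PowerSeries.HasSubst r := PowerSeries.HasSubst.of_constantCoeff_zero' hr
  let B : PowerSeries Kbar := binomialSeries Kbar (1 / 2 : ℚ)
  have hB : B * B = 1 + X := by
    show binomialSeries Kbar (1 / 2 : ℚ) * binomialSeries Kbar (1 / 2 : ℚ) = 1 + X
    rw [← binomialSeries_add]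
    have := binomialSeries_nat (R := ℚ) (A := Kbar) 1
    norm_num at this ⊢
    exact this
  have hBs : B.subst r * B.subst r = 1 + r := by
    rw [← PowerSeries.subst_mul hs, hB, PowerSeries.subst_add hs, PowerSeries.subst_X hs]
    congr 1
    rw [← PowerSeries.coe_substAlgHom hs, map_one]
  have hθ : (C b * B.subst r) ^ 2 = φ := by
    have e1 : (C b * B.subst r) ^ 2 = C (b * b) * (B.subst r * B.subst r) := by
      rw [map_mul]; ring
    rw [e1, hBs, ← hb]
    show C a * (1 + (C a⁻¹ * φ - 1)) = φ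
    have e2 : C a * C a⁻¹ = (1 : PowerSeries Kbar) := by
      rw [← map_mul, mul_inv_cancel₀ h0, map_one]
    linear_combination φ * e2
  refine ⟨C b * B.subst r, ?_, hθ, ?_⟩
  · have h5 : IsAlgebraic (Polynomial Kbar) ((C b * B.subst r) ^ 2) := by
      rw [hθ]; exact hφ
    exact IsAlgebraic.of_pow (by norm_num) h5
  · intro h
    apply h0
    rw [ha, ← hθ, map_pow, h]
    ring

end Pool.Agent.H64.PV
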