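import Pool.Agent.H64.PV.PDef

/-!
# PV.Apx : the polynomials HP with M = (p^n - 1) / 2 satisfy the equation of Legendre modulo p^n

PROOF. `M = (p^n - 1) / 2`, `2 M + 1 = p^n` (`p` odd), `b_i = cb i cb (M - i)` for `i ≤ M`, `b_i = 0` for `i > M` (coefficients of `HP ℚ_p M`). The coefficient of `x^i` is `4 (i + 1)^2 b_(i+1) - (2 i + 1)^2 b_i` (`Polynomial.coeff_derivative`, `coeff_X_mul`..). Case `i < M`, `k = M - i - 1`: `2 (i + 1) cb (i + 1) = (2 i + 1) cb i` (`Nat.succ_mul_centralBinom_succ`), and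
`2 (k + 1) cb (k + 1) = (2 k + 1) cb k`, so it is `2 (i + 1) (2 i + 1) cb i cb k - (2 i + 1)^2 cb i (2 k + 1) cb k / (2 (k + 1)) = (2 i + 1) cb i cb k / (2 (k + 1)) * (4 (i + 1) (k + 1) - (2 i + 1) (2 k + 1))`, and the last factor is `2 i + 2 k + 3 = 2 M + 1 = p^n`. `cb k / (k + 1)` is a Catalan number divided by `4^k` (`Nat.succ_dvd_centralBinom`), norm `≤ 1` as `‖2‖ = 1`; `cb i`, `2 i + 1` have
norm `≤ 1`; `‖p^n‖ = p^(-n)`. Case `i = M`: `-(2 M + 1)^2 b_M = -p^(2n) b_M`. Case `i > M`: `0`.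
-/

set_option autoImplicit false

namespace Pool.Agent.H64.PV

open Pool.H61.QF Pool.Agent.H64.LG PowerSeries

private lemma apx_coeff (K : Type) [Field K] (M i : ℕ) :
    (HP K M).coeff i = if i ≤ M then cb K i * cb K (M - i) else 0 := by
  unfold HP
  rw [Polynomial.finsetSum_coeff]
  simp only [Polynomial.coeff_C_mul_X_pow]
  rw [Finset.sum_ite_eq]
  simp only [Finset.mem_range, Nat.lt_succ_iff]

private lemma apx_ode (K : Type) [Field K] (P : Polynomial K) (i : ℕ) :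
    (4 * (Polynomial.X * (1 - Polynomial.X) * Polynomial.derivative (Polynomial.derivative P) +
      (1 - 2 * Polynomial.X) * Polynomial.derivative P) - P).coeff i =
      4 * ((i : K) + 1) ^ 2 * P.coeff (i + 1) - (2 * (i : K) + 1) ^ 2 * P.coeff i := by
  have e : 4 * (Polynomial.X * (1 - Polynomial.X) * Polynomial.derivative (Polynomial.derivative P) +
      (1 - 2 * Polynomial.X) * Polynomial.derivative P) - P =
      Polynomial.C 4 * (Polynomial.X * Polynomial.derivative (Polynomial.derivative P) -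
        Polynomial.X * (Polynomial.X * Polynomial.derivative (Polynomial.derivative P)) +
        Polynomial.derivative P - Polynomial.C 2 * (Polynomial.X * Polynomial.derivative P)) - P := by
    have h4 : (Polynomial.C (4 : K) : Polynomial K) = 4 := Polynomial.C_ofNat 4
    have h2 : (Polynomial.C (2 : K) : Polynomial K) = 2 := Polynomial.C_ofNat 2
    rw [h4, h2]
    ring
  rw [e]
  simp only [Polynomial.coeff_sub, Polynomial.coeff_add, Polynomial.coeff_C_mul]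
  rcases i with _ | i
  · simp only [Polynomial.coeff_X_mul_zero, Polynomial.coeff_derivative]
    push_cast
    ring
  · rw [Polynomial.coeff_X_mul, Polynomial.coeff_X_mul, Polynomial.coeff_X_mul]
    rcases i with _ | i
    · simp only [Polynomial.coeff_X_mul_zero, Polynomial.coeff_derivative]
      push_cast
      ring
    · rw [Polynomial.coeff_X_mul]
      simp only [Polynomial.coeff_derivative]
      push_cast
      ring

private lemma apx_nat {p : ℕ} [Fact p.Prime] (m : ℕ) : ‖((m : ℕ) : ℚ_[p])‖ ≤ 1 :=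
  IsUltrametricDist.norm_natCast_le_one ℚ_[p] m

private lemma apx_two {p : ℕ} [hp : Fact p.Prime] (h2 : p ≠ 2) : ‖(2 : ℚ_[p])‖ = 1 := by
  have h : ‖((2 : ℕ) : ℚ_[p])‖ = 1 := by
    rw [Padic.norm_natCast_eq_one_iff]
    exact (Nat.coprime_primes hp.out Nat.prime_two).2 h2
  rwa [Nat.cast_ofNat] at h

private lemma apx_four {p : ℕ} [hp : Fact p.Prime] (h2 : p ≠ 2) : ‖(4 : ℚ_[p])‖ = 1 := by
  have e : (4 : ℚ_[p]) = 2 * 2 := by norm_num
  rw [e, norm_mul, apx_two h2, mul_one]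

private lemma apx_frac {p : ℕ} [hp : Fact p.Prime] (h2 : p ≠ 2) (w k : ℕ) :
    ‖((w : ℕ) : ℚ_[p]) / 4 ^ k‖ ≤ 1 := by
  rw [norm_div, norm_pow, apx_four h2, one_pow, div_one]
  exact apx_nat w

private lemma apx_cb {p : ℕ} [hp : Fact p.Prime] (h2 : p ≠ 2) (k : ℕ) : ‖cb ℚ_[p] k‖ ≤ 1 :=
  apx_frac h2 _ k

private lemma apx_rec {p : ℕ} [hp : Fact p.Prime] (i : ℕ) :
    2 * ((i : ℚ_[p]) + 1) * cb ℚ_[p] (i + 1) = (2 * (i : ℚ_[p]) + 1) * cb ℚ_[p] i := by
  unfold cb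
  have h := congrArg (Nat.cast (R := ℚ_[p])) (Nat.succ_mul_centralBinom_succ i)
  push_cast at h
  have h4 : (4 : ℚ_[p]) ≠ 0 := by norm_num
  rw [pow_succ]
  field_simp
  linear_combination 2 * h

theorem apx (p : ℕ) [Fact p.Prime] (h2 : p ≠ 2) (n i : ℕ) :
    ‖(4 * (Polynomial.X * (1 - Polynomial.X) *
        Polynomial.derivative (Polynomial.derivative (HP ℚ_[p] ((p ^ n - 1) / 2))) +
      (1 - 2 * Polynomial.X) * Polynomial.derivative (HP ℚ_[p] ((p ^ n - 1) / 2))) -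
        HP ℚ_[p] ((p ^ n - 1) / 2)).coeff i‖ ≤ (p : ℝ) ^ (-(n : ℤ)) := by
  have hp : p.Prime := Fact.out
  have hodd : p ^ n % 2 = 1 := by
    have h1 : p % 2 = 1 := Nat.odd_iff.1 (hp.odd_of_ne_two h2)
    exact Nat.odd_iff.1 ((Nat.odd_iff.2 h1).pow)
  obtain ⟨M, hM⟩ : ∃ M, (p ^ n - 1) / 2 = M := ⟨_, rfl⟩
  have hM2 : 2 * M + 1 = p ^ n := by omega
  have hMc : (2 * (M : ℚ_[p]) + 1) = (p : ℚ_[p]) ^ n := by
    have h := congrArg (Nat.cast (R := ℚ_[p])) hM2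
    push_cast at h
    exact h
  have hpn : ‖(p : ℚ_[p]) ^ n‖ = (p : ℝ) ^ (-(n : ℤ)) := by
    rw [norm_pow, Padic.norm_p, zpow_neg, zpow_natCast, inv_pow]
  rw [hM, apx_ode, apx_coeff, apx_coeff]
  rcases lt_trichotomy i M with hi | hi | hi
  · obtain ⟨k, rfl⟩ : ∃ k, M = i + 1 + k := ⟨M - (i + 1), by omega⟩
    rw [if_pos (by omega), if_pos (by omega), show i + 1 + k - (i + 1) = k by omega,
      show i + 1 + k - i = k + 1 by omega]
    obtain ⟨w, hw⟩ := Nat.succ_dvd_centralBinom k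
    have hk0 : ((k : ℚ_[p]) + 1) ≠ 0 := by exact_mod_cast Nat.succ_ne_zero k
    have hcw : cb ℚ_[p] k = ((k : ℚ_[p]) + 1) * (((w : ℕ) : ℚ_[p]) / 4 ^ k) := by
      unfold cb
      rw [hw]
      push_cast
      ring
    have hi1 := apx_rec (p := p) i
    have hk1 := apx_rec (p := p) k
    have h20 : (2 : ℚ_[p]) ≠ 0 := by norm_num
    have hck : cb ℚ_[p] (k + 1) = (2 * (k : ℚ_[p]) + 1) * (((w : ℕ) : ℚ_[p]) / 4 ^ k) / 2 := by
      rw [hcw] at hk1
      have h3 : ((k : ℚ_[p]) + 1) * (2 * cb ℚ_[p] (k + 1)) =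
          ((k : ℚ_[p]) + 1) * ((2 * (k : ℚ_[p]) + 1) * (((w : ℕ) : ℚ_[p]) / 4 ^ k)) := by
        linear_combination hk1
      have h4 := mul_left_cancel₀ hk0 h3
      rw [eq_div_iff h20]
      linear_combination h4
    have e : 4 * ((i : ℚ_[p]) + 1) ^ 2 * (cb ℚ_[p] (i + 1) * cb ℚ_[p] k) -
        (2 * (i : ℚ_[p]) + 1) ^ 2 * (cb ℚ_[p] i * cb ℚ_[p] (k + 1)) =
        ((2 * i + 1 : ℕ) : ℚ_[p]) * cb ℚ_[p] i * (((w : ℕ) : ℚ_[p]) / 4 ^ k) / 2 * (p : ℚ_[p]) ^ n := by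
      rw [← hMc, hck, hcw]
      push_cast
      linear_combination 2 * ((i : ℚ_[p]) + 1) * (((k : ℚ_[p]) + 1) * (((w : ℕ) : ℚ_[p]) / 4 ^ k)) * hi1
    rw [e, norm_mul, hpn]
    have h5 : ‖((2 * i + 1 : ℕ) : ℚ_[p]) * cb ℚ_[p] i * (((w : ℕ) : ℚ_[p]) / 4 ^ k) / 2‖ ≤ 1 := by
      rw [norm_div, apx_two h2, div_one, norm_mul, norm_mul]
      exact mul_le_one₀ (mul_le_one₀ (apx_nat _) (norm_nonneg _) (apx_cb h2 i)) (norm_nonneg _)
        (apx_frac h2 w k)
    exact mul_le_of_le_one_left (by positivity) h5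
  · subst hi
    rw [if_neg (by omega), if_pos le_rfl, mul_zero, zero_sub, norm_neg, hMc, norm_mul, norm_pow, hpn,
      Nat.sub_self]
    have h6 : ‖cb ℚ_[p] i * cb ℚ_[p] 0‖ ≤ 1 := by
      rw [norm_mul]
      exact mul_le_one₀ (apx_cb h2 i) (norm_nonneg _) (apx_cb h2 0)
    have h7 : (p : ℝ) ^ (-(n : ℤ)) ≤ 1 := by
      rw [← hpn, ← hMc]
      have := apx_nat (p := p) (2 * i + 1)
      push_cast at this
      exact this
    have h8 : (0 : ℝ) ≤ (p : ℝ) ^ (-(n : ℤ)) := by positivity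
    calc ((p : ℝ) ^ (-(n : ℤ))) ^ 2 * ‖cb ℚ_[p] i * cb ℚ_[p] 0‖ ≤
        ((p : ℝ) ^ (-(n : ℤ))) ^ 2 * 1 := mul_le_mul_of_nonneg_left h6 (by positivity)
      _ ≤ (p : ℝ) ^ (-(n : ℤ)) := by nlinarith
  · rw [if_neg (by omega), if_neg (by omega), mul_zero, mul_zero, sub_zero, norm_zero]
    positivity

end Pool.Agent.H64.PV
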