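import Pool.Agent.H64.PV.CarQ

/-!
# PV.CarP : the Cartier operator and the Hasse polynomial

PROOF. `h = HP (ZMod p) m`, `m = (p - 1) / 2`, `R = h^(p-2) (X (1 - X))^(p-1)`, `E = ∑_{k ≤ m} R_(p k + p - 1) X^k`. (1) `natDegree R ≤ m (p - 2) + 2 (p - 1) = p m + (p - 1)`, so `R_(p k + p - 1) = 0` for `k > m`. (2) `E^p = expand p E` (`ZMod.expand_card`), so `R - X^(p-1) E^p` has zero coefficients at all indices `= -1 mod p`, hence it is a derivative `S'` (`S = ∑ (coefficient n) / (n + 1) X^(n+1)` over the other `n`).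
(3) Every root `r` of `h` in an algebraic closure `k` is a root of `E`: the coefficient of `X^(p-1)` in `taylor r R` is `∑_n R_n (n choose (p - 1)) r^(n - (p - 1))`, and `(n choose (p - 1))` mod `p` is `1` if `n = p k + p - 1` and `0` otherwise (Lucas), so it is `∑_k R_(pk+p-1) r^(p k) = (E(r))^p` (the coefficients are in `F_p`), and it is `0` by `carQ1`. (4) `h` is separable (`carQ2`), `k` algebraically closed, so
`h ∣ E` (in `k[X]` and so over `ZMod p`: `Polynomial.map_dvd_map'`), and `natDegree h = m` (`cb m cb 0 ≠ 0`), `natDegree E ≤ m`, so `E = C e * h`. (5) Constant coefficients: `E_0 = R_(p-1)` = constant coefficient of `h^(p-2) (1 - X)^(p-1)` `= h_0^(p-2)` and `h_0 = cb 0 cb m = cb m ≠ 0`, so `e = cb m ^ (p - 3)`.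
-/

set_option autoImplicit false

namespace Pool.Agent.H64.PV

open Pool.H61.QF Pool.Agent.H64.LG PowerSeries

private lemma carP_pow (p : ℕ) [hp : Fact p.Prime] (k : Type) [Field k] [CharP k p]
    (Y : Polynomial k) (j : ℕ) (hj : j < p) : (Y ^ p).coeff j = if j = 0 then Y.coeff 0 ^ p else 0 := by
  have : ExpChar k p := ExpChar.prime hp.out
  rw [← Polynomial.map_frobenius_expand (p := p), Polynomial.coeff_map,
    Polynomial.coeff_expand hp.out.pos]
  by_cases h : j = 0
  · subst h
    simp [frobenius_def]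
  · rw [if_neg h, if_neg, map_zero]
    intro hd
    exact h (Nat.eq_zero_of_dvd_of_lt hd hj)

private lemma carP_tay (p : ℕ) [hp : Fact p.Prime] (k : Type) [Field k] [CharP k p]
    (Y : Polynomial k) (r : k) :
    ((Polynomial.X + Polynomial.C r) ^ (p - 1) * Y ^ p).coeff (p - 1) = Y.coeff 0 ^ p := by
  have hp1 := hp.out.pos
  rw [Polynomial.coeff_mul, Finset.sum_eq_single (p - 1, 0)]
  · rw [carP_pow p k Y 0 hp1, if_pos rfl, Polynomial.coeff_X_add_C_pow]
    simp
  · rintro ⟨i, j⟩ hij hne
    rw [Finset.HasAntidiagonal.mem_antidiagonal] at hij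
    simp only at hij ⊢
    have hj : j < p := by omega
    rw [carP_pow p k Y j hj, if_neg, mul_zero]
    rintro rfl
    apply hne
    ext <;> simp
    omega
  · intro h
    exact absurd (Finset.HasAntidiagonal.mem_antidiagonal.2 (by simp)) h

private lemma carP_der (p : ℕ) [hp : Fact p.Prime] (k : Type) [Field k] [CharP k p]
    (S : Polynomial k) (r : k) :
    (Polynomial.taylor r (Polynomial.derivative S)).coeff (p - 1) = 0 := by
  have h1 : Polynomial.taylor r (Polynomial.derivative S) =
      Polynomial.derivative (Polynomial.taylor r S) := by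
    simp [Polynomial.taylor_apply, Polynomial.derivative_comp]
  rw [h1, Polynomial.coeff_derivative]
  have h2 : ((p - 1 : ℕ) : k) + 1 = 0 := by
    have h3 : ((p - 1 : ℕ) : k) + 1 = ((p - 1 + 1 : ℕ) : k) := by push_cast; ring
    rw [h3, Nat.sub_add_cancel hp.out.pos, CharP.cast_eq_zero]
  rw [h2, mul_zero]

/-- antiderivative -/
private lemma carP_anti (p : ℕ) [hp : Fact p.Prime] (D : Polynomial (ZMod p))
    (h : ∀ j : ℕ, D.coeff (p * j + (p - 1)) = 0) :
    ∃ S : Polynomial (ZMod p), Polynomial.derivative S = D := by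
  refine ⟨∑ n ∈ Finset.range (D.natDegree + 1),
    Polynomial.monomial (n + 1) (D.coeff n / ((n : ZMod p) + 1)), ?_⟩
  rw [map_sum]
  conv_rhs => rw [D.as_sum_range' (D.natDegree + 1) (Nat.lt_succ_self _)]
  refine Finset.sum_congr rfl fun n _ => ?_
  rw [Polynomial.derivative_monomial, Nat.add_sub_cancel]
  congr 1
  push_cast
  by_cases hn : (n : ZMod p) + 1 = 0
  · rw [hn, mul_zero]
    have h1 : ((n + 1 : ℕ) : ZMod p) = 0 := by push_cast; exact hn
    rw [ZMod.natCast_eq_zero_iff] at h1
    obtain ⟨t, ht⟩ := h1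
    have ht1 : 1 ≤ t := by
      rcases Nat.eq_zero_or_pos t with h0 | h0
      · rw [h0] at ht; omega
      · exact h0
    obtain ⟨j, rfl⟩ := Nat.exists_eq_add_of_le ht1
    have hnj : n = p * j + (p - 1) := by
      have hp1 := hp.out.pos
      have : n + 1 = p + p * j := by rw [ht]; ring
      omega
    rw [hnj, h]
  · rw [div_mul_cancel₀ _ hn]

private lemma carP_E (p : ℕ) [hp : Fact p.Prime] (R E : Polynomial (ZMod p))
    (hE : ∀ j : ℕ, E.coeff j = R.coeff (p * j + (p - 1))) :
    ∃ S : Polynomial (ZMod p), R = Polynomial.X ^ (p - 1) * E ^ p + Polynomial.derivative S := by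
  have hp1 := hp.out.pos
  obtain ⟨S, hS⟩ := carP_anti p (R - Polynomial.X ^ (p - 1) * E ^ p) (fun j => by
    rw [Polynomial.coeff_sub, Polynomial.coeff_X_pow_mul', if_pos (by omega),
      ← ZMod.expand_card, Nat.add_sub_cancel, Polynomial.coeff_expand hp1,
      if_pos (Dvd.intro _ rfl), Nat.mul_div_cancel_left _ hp1, hE, sub_self])
  exact ⟨S, by rw [hS]; ring⟩

/-- roots of `R`'s Cartier image -/
private lemma carP_root (p : ℕ) [hp : Fact p.Prime] (R E : Polynomial (ZMod p))
    (hE : ∀ j : ℕ, E.coeff j = R.coeff (p * j + (p - 1)))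
    (k : Type) [Field k] [Algebra (ZMod p) k] (r : k)
    (hr : (Polynomial.taylor r (Polynomial.map (algebraMap (ZMod p) k) R)).coeff (p - 1) = 0) :
    (E.map (algebraMap (ZMod p) k)).eval r = 0 := by
  have : CharP k p := charP_of_injective_algebraMap (algebraMap (ZMod p) k).injective p
  obtain ⟨S, hS⟩ := carP_E p R E hE
  rw [hS, Polynomial.map_add, Polynomial.map_mul, Polynomial.map_pow, Polynomial.map_X,
    Polynomial.map_pow, ← Polynomial.derivative_map, map_add, Polynomial.coeff_add,
    carP_der, add_zero, Polynomial.taylor_mul, Polynomial.taylor_pow, Polynomial.taylor_pow,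
    Polynomial.taylor_X, carP_tay, Polynomial.taylor_coeff_zero] at hr
  exact pow_eq_zero_iff hp.out.ne_zero |>.1 hr

theorem carP (p : ℕ) [Fact p.Prime] (h5 : 5 ≤ p) : ∃ S : Polynomial (ZMod p),
    HP (ZMod p) ((p - 1) / 2) ^ (p - 2) * (Polynomial.X * (1 - Polynomial.X)) ^ (p - 1) =
      Polynomial.X ^ (p - 1) *
        (Polynomial.C (cb (ZMod p) ((p - 1) / 2) ^ (p - 3)) * HP (ZMod p) ((p - 1) / 2)) ^ p +
      Polynomial.derivative S := by
  have hpp : p.Prime := Fact.out
  have hodd : p % 2 = 1 := hpp.eq_two_or_odd.resolve_left (by omega)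
  set m := (p - 1) / 2 with hm
  have h2m : 2 * m = p - 1 := by omega
  set h := HP (ZMod p) m with hh
  set R := h ^ (p - 2) * (Polynomial.X * (1 - Polynomial.X)) ^ (p - 1) with hR
  have hdh : h.natDegree ≤ m := by
    rw [Polynomial.natDegree_le_iff_coeff_eq_zero]
    intro N hN
    rw [hh, hp_coeff, if_neg (by omega)]
  have hcm : cb (ZMod p) m ≠ 0 := cb_ne p (by omega) m (by omega)
  have hc0 : cb (ZMod p) 0 = 1 := by simp [cb]
  have hh0 : h.coeff 0 = cb (ZMod p) m := by
    rw [hh, hp_coeff, if_pos (Nat.zero_le _), hc0, one_mul, Nat.sub_zero]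
  have hhm : h.coeff m = cb (ZMod p) m := by
    rw [hh, hp_coeff, if_pos le_rfl, Nat.sub_self, hc0, mul_one]
  have hdeg : h.natDegree = m := by
    refine le_antisymm hdh (Polynomial.le_natDegree_of_ne_zero ?_)
    rw [hhm]; exact hcm
  have hne : h ≠ 0 := by
    intro h0
    rw [h0, Polynomial.coeff_zero] at hhm
    exact hcm hhm.symm
  have hdR : R.natDegree ≤ p * m + (p - 1) := by
    have h1 : ((Polynomial.X * (1 - Polynomial.X) : Polynomial (ZMod p))).natDegree ≤ 2 := by
      compute_degree
    calc R.natDegree ≤ (h ^ (p - 2)).natDegree +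
          ((Polynomial.X * (1 - Polynomial.X) : Polynomial (ZMod p)) ^ (p - 1)).natDegree :=
        Polynomial.natDegree_mul_le
      _ ≤ (p - 2) * m + (p - 1) * 2 := by
        refine Nat.add_le_add ?_ ?_
        · exact Polynomial.natDegree_pow_le.trans (Nat.mul_le_mul_left _ hdh)
        · exact Polynomial.natDegree_pow_le.trans (Nat.mul_le_mul_left _ h1)
      _ = p * m + (p - 1) := by
        have h2 : p * m = (p - 2) * m + 2 * m := by
          rw [← Nat.add_mul, Nat.sub_add_cancel (by omega)]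
        rw [h2, h2m]; ring
  -- the Cartier image
  set E : Polynomial (ZMod p) := ∑ j ∈ Finset.range (m + 1),
    Polynomial.monomial j (R.coeff (p * j + (p - 1))) with hEdef
  have hE : ∀ j : ℕ, E.coeff j = R.coeff (p * j + (p - 1)) := by
    intro j
    rw [hEdef, Polynomial.finsetSum_coeff]
    simp only [Polynomial.coeff_monomial]
    rw [Finset.sum_ite_eq' (Finset.range (m + 1)) j]
    split_ifs with hj
    · rfl
    · rw [Finset.mem_range, not_lt] at hj
      symm
      refine Polynomial.coeff_eq_zero_of_natDegree_lt (lt_of_le_of_lt hdR ?_)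
      have : p * (m + 1) ≤ p * j := Nat.mul_le_mul_left _ hj
      rw [Nat.mul_add] at this
      omega
  have hEd : E.natDegree ≤ m := by
    rw [Polynomial.natDegree_le_iff_coeff_eq_zero]
    intro N hN
    rw [hE]
    refine Polynomial.coeff_eq_zero_of_natDegree_lt (lt_of_le_of_lt hdR ?_)
    have : p * (m + 1) ≤ p * N := Nat.mul_le_mul_left _ hN
    rw [Nat.mul_add] at this
    omega
  have hE0 : E.coeff 0 = cb (ZMod p) m ^ (p - 2) := by
    rw [hE, Nat.mul_zero, Nat.zero_add, hR, mul_pow, mul_left_comm, Polynomial.coeff_X_pow_mul',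
      if_pos le_rfl, Nat.sub_self, Polynomial.mul_coeff_zero]
    simp only [Polynomial.coeff_zero_eq_eval_zero, Polynomial.eval_pow, Polynomial.eval_sub,
      Polynomial.eval_one, Polynomial.eval_X, sub_zero, one_pow, mul_one]
    rw [← Polynomial.coeff_zero_eq_eval_zero, hh0]
  have hEne : E ≠ 0 := by
    intro h0
    rw [h0, Polynomial.coeff_zero] at hE0
    exact pow_ne_zero _ hcm hE0.symm
  have hdvd : h ∣ E := by
    let k := AlgebraicClosure (ZMod p)
    rw [← Polynomial.map_dvd_map' (algebraMap (ZMod p) k)]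
    have hsep : (h.map (algebraMap (ZMod p) k)).Separable := (carQ2 p h5).map
    refine (IsAlgClosed.splits _).dvd_of_roots_le_roots ?_ ?_
    · exact (Polynomial.map_ne_zero_iff (algebraMap (ZMod p) k).injective).2 hne
    · rw [Multiset.le_iff_subset (Polynomial.nodup_roots hsep)]
      intro r hr
      rw [Polynomial.mem_roots
        ((Polynomial.map_ne_zero_iff (algebraMap (ZMod p) k).injective).2 hne)] at hr
      rw [Polynomial.mem_roots
        ((Polynomial.map_ne_zero_iff (algebraMap (ZMod p) k).injective).2 hEne)]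
      refine carP_root p R E hE k r ?_
      refine carQ1 p h5 k r ?_
      rw [Polynomial.aeval_def, Polynomial.eval₂_eq_eval_map]
      exact hr
  obtain ⟨G, hG⟩ := hdvd
  have hGne : G ≠ 0 := by
    rintro rfl
    rw [mul_zero] at hG
    exact hEne hG
  have hGd : G.natDegree = 0 := by
    have h1 := Polynomial.natDegree_mul hne hGne
    rw [← hG, hdeg] at h1
    omega
  rw [Polynomial.eq_C_of_natDegree_eq_zero hGd] at hG
  have hg : G.coeff 0 = cb (ZMod p) m ^ (p - 3) := by
    have h1 : E.coeff 0 = cb (ZMod p) m * G.coeff 0 := by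
      rw [hG, Polynomial.mul_coeff_zero, hh0, Polynomial.coeff_C_zero]
    rw [hE0, show p - 2 = (p - 3) + 1 by omega, pow_succ'] at h1
    exact (mul_left_cancel₀ hcm h1).symm
  obtain ⟨S, hS⟩ := carP_E p R E hE
  refine ⟨S, ?_⟩
  rw [hS, hG, hg]
  ring

end Pool.Agent.H64.PV
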