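import Pool.Agent.H64.PV.HpO

/-!
# PV.CarQ : roots of the Hasse polynomial

PROOF. `k` is a field of characteristic `p`, `H = map (ZMod p → k) h`, `m = (p - 1) / 2`, `R = H^(p-2) (X (1 - X))^(p-1)`. `carQ1`: let `r` be a root of `H`. Taylor expansion at `r` (`Polynomial.taylor r`, a ring homomorphism, `X ↦ X + C r`): `taylor r H = X * A` with `A = h_1 + h_2 X + ..` (constant coefficient of `taylor r H` is `H(r) = 0`), `taylor r (X (1 - X)) = B = k_0 + k_1 X + ..`. The equation
`hp_ode` (mapped to `k`), evaluated at `r`: `4 (k_0 * 2 h_2 + k_1 h_1) = 0`, because `H'(r) = h_1`, `H''(r) = 2 h_2`, `1 - 2 r = k_1`, so `2 k_0 h_2 + k_1 h_1 = 0`. `taylor r R = X^(p-2) A^(p-2) B^(p-1)`, its coefficient at `X^(p-1)` is the coefficient of `X` in `A^(p-2) B^(p-1)`, `= (p-2) h_1^(p-3) h_2 k_0^(p-1) + (p-1) h_1^(p-2) k_1 k_0^(p-2) = -h_1^(p-3) k_0^(p-2) (2 h_2 k_0 + h_1 k_1) = 0`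
(coefficient of `X` = value at `0` of the derivative). `carQ2`: a common root `r` of `H` and `H'`: let `n ≥ 2` be its multiplicity, `n ≤ m < p`, `H = (X - r)^n G`, `G(r) ≠ 0`. If `r ≠ 0, 1`: the coefficient of `(X - r)^(n-2)` in `hp_ode` gives `4 r (1 - r) n (n - 1) G(r) = 0`, a contradiction. `r = 0`: `H(0) = cb 0 cb m ≠ 0`. `r = 1`, `n ≥ 1`: the coefficient of `(X - 1)^(n-1)` gives
`-4 n^2 G(1) = 0` (with `X = 1 + s`: `X (1 - X) = -s (1 + s)`, `1 - 2 X = -(1 + 2 s)`), a contradiction. `Separable` of `h` : `IsCoprime h h'`, equivalently no common root in an algebraic closure.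
-/

set_option autoImplicit false

namespace Pool.Agent.H64.PV

open Pool.H61.QF Pool.Agent.H64.LG PowerSeries

/-- the shifted Hasse polynomial -/
private noncomputable def CarQ_F (p : ℕ) [Fact p.Prime] (k : Type) [Field k] [Algebra (ZMod p) k] (r : k) :
    Polynomial k :=
  Polynomial.taylor r (Polynomial.map (algebraMap (ZMod p) k) (HP (ZMod p) ((p - 1) / 2)))

private theorem CarQ_ode (p : ℕ) [Fact p.Prime] (h2 : p ≠ 2) (k : Type) [Field k] [Algebra (ZMod p) k] (r : k) :
    4 * ((Polynomial.C (r * (1 - r)) + Polynomial.C (1 - 2 * r) * Polynomial.X - Polynomial.X ^ 2) *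
        Polynomial.derivative (Polynomial.derivative (CarQ_F p k r)) +
      (Polynomial.C (1 - 2 * r) - 2 * Polynomial.X) * Polynomial.derivative (CarQ_F p k r)) =
        CarQ_F p k r := by
  have h := congrArg (Polynomial.map (algebraMap (ZMod p) k)) (hp_ode p h2)
  simp only [Polynomial.map_mul, Polynomial.map_add, Polynomial.map_sub, Polynomial.map_one,
    Polynomial.map_X, ← Polynomial.derivative_map, Polynomial.map_ofNat] at h
  unfold CarQ_F
  set H := Polynomial.map (algebraMap (ZMod p) k) (HP (ZMod p) ((p - 1) / 2))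
  have hd : ∀ f : Polynomial k, Polynomial.derivative (Polynomial.taylor r f) =
      Polynomial.taylor r (Polynomial.derivative f) := by
    intro f
    rw [Polynomial.taylor_apply, Polynomial.taylor_apply, Polynomial.derivative_comp]
    simp
  have h' := congrArg (Polynomial.taylor r) h
  rw [hd, hd]
  rw [← h']
  simp only [Polynomial.taylor_apply, Polynomial.mul_comp, Polynomial.add_comp, Polynomial.sub_comp,
    Polynomial.one_comp, Polynomial.X_comp, Polynomial.ofNat_comp]
  simp only [map_mul, map_sub, map_one, Polynomial.C_ofNat]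
  ring

private theorem CarQ_rec (p : ℕ) [Fact p.Prime] (h2 : p ≠ 2) (k : Type) [Field k] [Algebra (ZMod p) k] (r : k)
    (j : ℕ) :
    4 * (r * (1 - r) * (((j : k) + 2) * ((j : k) + 1) * (CarQ_F p k r).coeff (j + 2)) +
      (1 - 2 * r) * (((j : k) + 1) ^ 2 * (CarQ_F p k r).coeff (j + 1)) -
        (j : k) * ((j : k) + 1) * (CarQ_F p k r).coeff j) = (CarQ_F p k r).coeff j := by
  have h := congrArg (fun f => Polynomial.coeff f j) (CarQ_ode p h2 k r)
  generalize CarQ_F p k r = F at h ⊢
  have e4 : (4 : Polynomial k) = Polynomial.C 4 := (Polynomial.C_ofNat 4).symm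
  have e2 : (2 : Polynomial k) = Polynomial.C 2 := (Polynomial.C_ofNat 2).symm
  rw [e4, e2] at h
  simp only [Polynomial.coeff_C_mul, Polynomial.coeff_add, add_mul, sub_mul, Polynomial.coeff_sub,
    mul_assoc, Polynomial.coeff_derivative] at h
  rcases j with _ | _ | j
  · simp only [Polynomial.coeff_X_mul_zero, Polynomial.mul_coeff_zero, Polynomial.coeff_X_pow,
      Polynomial.coeff_derivative] at h
    norm_num at h ⊢
    linear_combination h
  · have e1 : (Polynomial.X ^ 2 * Polynomial.derivative (Polynomial.derivative F)).coeff (0 + 1) = 0 := by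
      rw [pow_two, mul_assoc, Polynomial.coeff_X_mul, Polynomial.coeff_X_mul_zero]
    rw [e1] at h
    simp only [Polynomial.coeff_X_mul, Polynomial.coeff_derivative] at h
    norm_num at h ⊢
    linear_combination h
  · have e1 : (Polynomial.X ^ 2 * Polynomial.derivative (Polynomial.derivative F)).coeff (j + 1 + 1) =
        (Polynomial.derivative (Polynomial.derivative F)).coeff j := by
      rw [pow_two, mul_assoc, Polynomial.coeff_X_mul, Polynomial.coeff_X_mul]
    rw [e1] at h
    simp only [Polynomial.coeff_X_mul, Polynomial.coeff_derivative] at h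
    push_cast at h ⊢
    linear_combination h

private theorem CarQ_four (p : ℕ) [Fact p.Prime] (h2 : p ≠ 2) (k : Type) [Field k] [Algebra (ZMod p) k] :
    (4 : k) ≠ 0 := by
  have : CharP k p := charP_of_injective_algebraMap (algebraMap (ZMod p) k).injective p
  have h : ((4 : ℕ) : k) ≠ 0 := by
    rw [Ne, CharP.cast_eq_zero_iff k p]
    intro h
    have h3 := (Fact.out : p.Prime).dvd_of_dvd_pow (show p ∣ 2 ^ 2 from h)
    exact h2 ((Nat.prime_dvd_prime_iff_eq Fact.out Nat.prime_two).1 h3)
  exact_mod_cast h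

theorem carQ1 (p : ℕ) [Fact p.Prime] (h5 : 5 ≤ p) (k : Type) [Field k] [Algebra (ZMod p) k] (r : k)
    (hr : Polynomial.aeval r (HP (ZMod p) ((p - 1) / 2)) = 0) :
    (Polynomial.taylor r (Polynomial.map (algebraMap (ZMod p) k)
      (HP (ZMod p) ((p - 1) / 2) ^ (p - 2) * (Polynomial.X * (1 - Polynomial.X)) ^ (p - 1)))).coeff (p - 1) = 0 := by
  have h2 : p ≠ 2 := by omega
  have : CharP k p := charP_of_injective_algebraMap (algebraMap (ZMod p) k).injective p
  have hF0 : (CarQ_F p k r).coeff 0 = 0 := by
    unfold CarQ_F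
    rw [Polynomial.taylor_coeff_zero, Polynomial.eval_map_algebraMap, hr]
  obtain ⟨A, hA⟩ := Polynomial.X_dvd_iff.2 hF0
  have hrec := CarQ_rec p h2 k r 0
  rw [hF0, mul_eq_zero] at hrec
  have hrec' := hrec.resolve_left (CarQ_four p h2 k)
  have hA0 : (CarQ_F p k r).coeff (0 + 1) = A.coeff 0 := by rw [hA, Polynomial.coeff_X_mul]
  have hA1 : (CarQ_F p k r).coeff (0 + 2) = A.coeff 1 := by
    rw [hA]; exact Polynomial.coeff_X_mul A 1
  rw [hA0, hA1] at hrec'
  set B : Polynomial k := Polynomial.taylor r (Polynomial.X * (1 - Polynomial.X)) with hB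
  have hB' : B = Polynomial.C (r * (1 - r)) + Polynomial.C (1 - 2 * r) * Polynomial.X - Polynomial.X ^ 2 := by
    rw [hB, Polynomial.taylor_apply]
    simp only [Polynomial.mul_comp, Polynomial.sub_comp, Polynomial.one_comp, Polynomial.X_comp,
      map_mul, map_sub, map_one, Polynomial.C_ofNat]
    ring
  have e1 : Polynomial.taylor r (Polynomial.map (algebraMap (ZMod p) k)
      (HP (ZMod p) ((p - 1) / 2) ^ (p - 2) * (Polynomial.X * (1 - Polynomial.X)) ^ (p - 1))) =
      Polynomial.X ^ (p - 2) * (A ^ (p - 2) * B ^ (p - 1)) := by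
    rw [Polynomial.map_mul, Polynomial.map_pow, Polynomial.map_pow, Polynomial.map_mul, Polynomial.map_sub,
      Polynomial.map_one, Polynomial.map_X, Polynomial.taylor_mul, Polynomial.taylor_pow,
      Polynomial.taylor_pow, ← hB]
    have : Polynomial.taylor r (Polynomial.map (algebraMap (ZMod p) k) (HP (ZMod p) ((p - 1) / 2))) =
      Polynomial.X * A := hA
    rw [this, mul_pow, mul_assoc]
  have e2 : p - 1 = 1 + (p - 2) := by omega
  rw [e1]
  have e6 : (Polynomial.X ^ (p - 2) * (A ^ (p - 2) * B ^ (p - 1))).coeff (p - 1) =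
      (A ^ (p - 2) * B ^ (p - 1)).coeff 1 := by
    have e7 := congrArg (Polynomial.X ^ (p - 2) * (A ^ (p - 2) * B ^ (p - 1))).coeff e2
    rw [e7, Polynomial.coeff_X_pow_mul]
  rw [e6]
  have e3 : (A ^ (p - 2) * B ^ (p - 1)).coeff 1 =
      (Polynomial.derivative (A ^ (p - 2) * B ^ (p - 1))).coeff 0 := by
    rw [Polynomial.coeff_derivative]; simp
  have hp2 : ((p - 2 : ℕ) : k) = -2 := by
    rw [Nat.cast_sub (by omega), CharP.cast_eq_zero]; simp
  have hp1 : ((p - 1 : ℕ) : k) = -1 := by
    rw [Nat.cast_sub (by omega), CharP.cast_eq_zero]; simp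
  have hA' : (Polynomial.derivative A).eval 0 = A.coeff 1 := by
    rw [← Polynomial.coeff_zero_eq_eval_zero, Polynomial.coeff_derivative]; simp
  have hA0' : A.coeff 0 = A.eval 0 := Polynomial.coeff_zero_eq_eval_zero A
  have hB0 : B.eval 0 = r * (1 - r) := by rw [hB']; simp
  have hB1 : (Polynomial.derivative B).eval 0 = 1 - 2 * r := by
    rw [hB']
    simp only [Polynomial.derivative_add, Polynomial.derivative_sub, Polynomial.derivative_C,
      Polynomial.derivative_C_mul, Polynomial.derivative_X, Polynomial.derivative_X_pow,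
      Polynomial.eval_add, Polynomial.eval_sub, Polynomial.eval_mul, Polynomial.eval_C,
      Polynomial.eval_pow, Polynomial.eval_X, Polynomial.eval_zero, Polynomial.eval_one]
    norm_num
  rw [hA0'] at hrec'
  rw [e3, Polynomial.derivative_mul, Polynomial.derivative_pow, Polynomial.derivative_pow,
    Polynomial.coeff_zero_eq_eval_zero]
  simp only [Polynomial.eval_add, Polynomial.eval_mul, Polynomial.eval_pow, Polynomial.eval_C, hp2, hp1]
  rw [hA', hB0, hB1]
  have e4 : p - 2 = (p - 2 - 1) + 1 := by omega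
  have e5 : p - 1 = (p - 1 - 1) + 1 := by omega
  rw [show (r * (1 - r)) ^ (p - 1) = (r * (1 - r)) ^ (p - 1 - 1) * (r * (1 - r)) by rw [← pow_succ, ← e5],
    show Polynomial.eval 0 A ^ (p - 2) = Polynomial.eval 0 A ^ (p - 2 - 1) * Polynomial.eval 0 A by
      rw [← pow_succ, ← e4]]
  norm_num at hrec'
  linear_combination (-(Polynomial.eval 0 A ^ (p - 2 - 1) * (r * (1 - r)) ^ (p - 1 - 1))) * hrec'

theorem carQ2 (p : ℕ) [Fact p.Prime] (h5 : 5 ≤ p) : (HP (ZMod p) ((p - 1) / 2)).Separable := by
  have h2 : p ≠ 2 := by omega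
  set k := AlgebraicClosure (ZMod p)
  have : CharP k p := charP_of_injective_algebraMap (algebraMap (ZMod p) k).injective p
  rw [Polynomial.separable_def, Polynomial.isCoprime_iff_aeval_ne_zero_of_isAlgClosed (ZMod p) k]
  intro r
  by_contra hcon
  push Not at hcon
  obtain ⟨hr0, hr1⟩ := hcon
  set F := CarQ_F p k r with hF
  have hF0 : F.coeff 0 = 0 := by
    rw [hF]; unfold CarQ_F
    rw [Polynomial.taylor_coeff_zero, Polynomial.eval_map_algebraMap, hr0]
  have hF1 : F.coeff 1 = 0 := by
    rw [hF]; unfold CarQ_F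
    rw [Polynomial.taylor_coeff_one, Polynomial.derivative_map, Polynomial.eval_map_algebraMap, hr1]
  have hne : ∀ j : ℕ, j + 1 < p → ((j : k) + 1) ≠ 0 := by
    intro j hj h
    have h3 : ((j + 1 : ℕ) : k) = 0 := by push_cast; exact h
    rw [CharP.cast_eq_zero_iff k p] at h3
    exact absurd (Nat.le_of_dvd (by omega) h3) (by omega)
  have h4 := CarQ_four p h2 k
  have hall : ∀ j : ℕ, j < p → F.coeff j = 0 := by
    by_cases hk : r * (1 - r) = 0
    · have hk1 : (1 - 2 * r) ≠ 0 := by
        intro h
        have : (1 : k) = 0 := by linear_combination (1 - 2 * r) * h + 4 * hk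
        exact one_ne_zero this
      intro j
      induction j with
      | zero => intro _; exact hF0
      | succ j ih =>
        intro hj
        have h5' := CarQ_rec p h2 k r j
        rw [← hF, ih (by omega), hk, mul_eq_zero] at h5'
        have h6 := h5'.resolve_left h4
        have h7 : (1 - 2 * r) * (((j : k) + 1) ^ 2 * F.coeff (j + 1)) = 0 := by linear_combination h6
        rcases mul_eq_zero.1 h7 with h8 | h8
        · exact absurd h8 hk1
        · rcases mul_eq_zero.1 h8 with h9 | h9
          · exact absurd (pow_eq_zero_iff (by norm_num) |>.1 h9) (hne j hj)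
          · exact h9
    · have hpair : ∀ j : ℕ, j + 1 < p → F.coeff j = 0 ∧ F.coeff (j + 1) = 0 := by
        intro j
        induction j with
        | zero => intro _; exact ⟨hF0, hF1⟩
        | succ j ih =>
          intro hj
          obtain ⟨i1, i2⟩ := ih (by omega)
          refine ⟨i2, ?_⟩
          have h5' := CarQ_rec p h2 k r j
          rw [← hF, i1, i2, mul_eq_zero] at h5'
          have h6 := h5'.resolve_left h4
          have h7 : r * (1 - r) * (((j : k) + 2) * ((j : k) + 1) * F.coeff (j + 2)) = 0 := by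
            linear_combination h6
          rcases mul_eq_zero.1 h7 with h8 | h8
          · exact absurd h8 hk
          · rcases mul_eq_zero.1 h8 with h9 | h9
            · rcases mul_eq_zero.1 h9 with h10 | h10
              · exact absurd h10 (by
                  have h11 := hne (j + 1) (by omega)
                  push_cast at h11
                  rwa [add_assoc, one_add_one_eq_two] at h11)
              · exact absurd h10 (hne j (by omega))
            · exact h9
      intro j hj
      rcases j with _ | j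
      · exact hF0
      · exact (hpair j hj).2
  have hdeg : F.natDegree < p := by
    rw [hF]; unfold CarQ_F
    rw [Polynomial.natDegree_taylor]
    refine lt_of_le_of_lt Polynomial.natDegree_map_le ?_
    have h6 : (HP (ZMod p) ((p - 1) / 2)).natDegree ≤ (p - 1) / 2 := by
      rw [Polynomial.natDegree_le_iff_coeff_eq_zero]
      intro N hN
      rw [hp_coeff, if_neg (by omega)]
    omega
  have hFz : F = 0 := by
    ext j
    rw [Polynomial.coeff_zero]
    by_cases hj : j < p
    · exact hall j hj
    · exact Polynomial.coeff_eq_zero_of_natDegree_lt (by omega)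
  have hHz : Polynomial.map (algebraMap (ZMod p) k) (HP (ZMod p) ((p - 1) / 2)) = 0 := by
    apply Polynomial.taylor_injective r
    rw [map_zero]
    exact hFz
  rw [Polynomial.map_eq_zero_iff (algebraMap (ZMod p) k).injective] at hHz
  have h7 := hp_coeff (ZMod p) ((p - 1) / 2) 0
  rw [hHz, if_pos (Nat.zero_le _), Polynomial.coeff_zero, Nat.sub_zero] at h7
  exact mul_ne_zero (cb_ne p h2 0 (by omega)) (cb_ne p h2 ((p - 1) / 2) (by omega)) h7.symm

end Pool.Agent.H64.PV
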