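import Pool.Agent.H64.PV.PDef

/-!
# PV.CarS : rules for the Cartier operator

PROOFS. `coeff m (Ct f) = coeff (p m + (p - 1)) f`. `Ct_add`, `Ct_C`: clear. `Ct_der`: `coeff n (dd f) = (n + 1) coeff (n + 1) f` and `p m + (p - 1) + 1 = p (m + 1) = 0` in `ZMod p`. `Ct_pow`: `g^p = expand p g` (Frobenius over `ZMod p`: `PowerSeries.map_frobenius_expand` with `frobenius = id`, or `MvPowerSeries.map_frobenius_expand`, see `sl_coeff_pow` in `LG/SLoc.lean`), i.e. `coeff n (g^p) = if p ∣ n then coeff (n / p) g else 0`; so `coeff (p m + p - 1) (g^p f) = ∑_{i ≤ m} g_i f_(p (m - i) + p - 1)`. `Ct_kap`: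
lift `κ` to a power series `k` over `ℤ` (coefficientwise, `ZMod.intCast_surjective`). `k^p = expand p k + C p * δ` for some `δ` over `ℤ` (all coefficients of `k^p - expand p k` are divisible by `p`, because it is `0` in `ZMod p`). Derivative: `p k^(p-1) k' = (expand p k)' + p δ'`, and `(expand p k)' = p X^(p-1) expand p (k')`; divide by `p` (`PowerSeries ℤ` is torsion free): `k^(p-1) k' = X^(p-1) expand p (k') + δ'`. Reduce mod `p` and apply
`Ct`: `Ct (X^(p-1) g^p) = g * Ct (X^(p-1)) = g` with `g = κ'` (`expand p (κ') = κ'^p` over `ZMod p`), `Ct (X^(p-1)) = 1`, `Ct (δ') = 0`.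
-/

set_option autoImplicit false

namespace Pool.Agent.H64.PV

open Pool.H61.QF Pool.Agent.H64.LG PowerSeries

private theorem cars_coeff {p : ℕ} [Fact p.Prime] (f : PowerSeries (ZMod p)) (m : ℕ) :
    coeff m (Ct f) = coeff (p * m + (p - 1)) f := by
  unfold Ct
  rw [PowerSeries.coeff_mk]

private theorem cars_coeff_pow {p : ℕ} [hp : Fact p.Prime] (w : PowerSeries (ZMod p)) (n : ℕ) :
    coeff n (w ^ p) = if p ∣ n then coeff (n / p) w else 0 := by
  have hp0 : p ≠ 0 := hp.out.ne_zero
  have hE : ExpChar (ZMod p) p := ExpChar.prime hp.out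
  have h : w ^ p = PowerSeries.map (frobenius (ZMod p) p) (PowerSeries.expand p hp0 w) :=
    (MvPowerSeries.map_frobenius_expand p hp0).symm
  rw [h, PowerSeries.coeff_map, PowerSeries.coeff_expand]
  split_ifs with hd
  · rw [frobenius_def, ZMod.pow_card]
  · exact map_zero _

private theorem cars_succ {p : ℕ} [hp : Fact p.Prime] (m : ℕ) :
    p * m + (p - 1) + 1 = p * (m + 1) := by
  have := hp.out.pos
  rw [mul_add, mul_one]
  omega

theorem Ct_add {p : ℕ} [Fact p.Prime] (f g : PowerSeries (ZMod p)) : Ct (f + g) = Ct f + Ct g := by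
  ext m
  rw [cars_coeff, map_add, map_add, cars_coeff, cars_coeff]

theorem Ct_C {p : ℕ} [Fact p.Prime] (x : ZMod p) (f : PowerSeries (ZMod p)) :
    Ct (C x * f) = C x * Ct f := by
  ext m
  rw [cars_coeff, coeff_C_mul, coeff_C_mul, cars_coeff]

theorem Ct_der {p : ℕ} [Fact p.Prime] (f : PowerSeries (ZMod p)) : Ct (dd f) = 0 := by
  ext m
  rw [cars_coeff, PowerSeries.coeff_derivative]
  have h : (((p * m + (p - 1) : ℕ) : ZMod p) + 1) = 0 := by
    have h1 : ((p * m + (p - 1) + 1 : ℕ) : ZMod p) = 0 := by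
      rw [cars_succ, Nat.cast_mul, ZMod.natCast_self, zero_mul]
    rw [Nat.cast_add, Nat.cast_one] at h1
    exact h1
  rw [h, mul_zero, map_zero]

theorem Ct_pow {p : ℕ} [Fact p.Prime] (g f : PowerSeries (ZMod p)) : Ct (g ^ p * f) = g * Ct f := by
  have hp : 0 < p := (Fact.out : p.Prime).pos
  ext m
  rw [cars_coeff, coeff_mul, coeff_mul]
  symm
  refine Finset.sum_of_injOn (fun ab : ℕ × ℕ => (p * ab.1, p * ab.2 + (p - 1))) ?_ ?_ ?_ ?_
  · rintro ⟨a, b⟩ _ ⟨a', b'⟩ _ h
    simp only [Prod.mk.injEq] at h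
    have h1 : a = a' := Nat.eq_of_mul_eq_mul_left hp h.1
    have h2 : b = b' := Nat.eq_of_mul_eq_mul_left hp (by omega)
    rw [h1, h2]
  · rintro ⟨a, b⟩ h
    rw [Finset.mem_coe, Finset.HasAntidiagonal.mem_antidiagonal] at h ⊢
    simp only at h ⊢
    rw [← h, mul_add]
    omega
  · rintro ⟨i, j⟩ h hne
    rw [Finset.HasAntidiagonal.mem_antidiagonal] at h
    simp only at h ⊢
    rw [cars_coeff_pow]
    split_ifs with hd
    · exfalso
      obtain ⟨a, rfl⟩ := hd
      apply hne
      have ha : a ≤ m := by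
        by_contra hcon
        push Not at hcon
        have h1 : p * (m + 1) ≤ p * a := Nat.mul_le_mul_left p hcon
        rw [mul_add, mul_one] at h1
        omega
      refine ⟨(a, m - a), ?_, ?_⟩
      · rw [Finset.mem_coe, Finset.HasAntidiagonal.mem_antidiagonal]
        simp only
        omega
      · simp only [Prod.mk.injEq, true_and]
        have h1 : p * m = p * a + p * (m - a) := by
          rw [← mul_add]
          congr 1
          omega
        omega
    · rw [zero_mul]
  · rintro ⟨a, b⟩ _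
    simp only
    rw [cars_coeff_pow, if_pos (dvd_mul_right p a), Nat.mul_div_cancel_left a hp, cars_coeff]

theorem Ct_kap {p : ℕ} [Fact p.Prime] (κ : PowerSeries (ZMod p)) : Ct (κ ^ (p - 1) * dd κ) = dd κ := by
  have hp : p.Prime := Fact.out
  set φ : ℤ →+* ZMod p := Int.castRingHom (ZMod p) with hφ
  obtain ⟨k, hk⟩ : ∃ k : PowerSeries ℤ, PowerSeries.map φ k = κ := by
    have hs : ∀ n, ∃ z : ℤ, φ z = coeff n κ := fun n => ZMod.intCast_surjective (coeff n κ)
    choose z hz using hs
    refine ⟨PowerSeries.mk z, ?_⟩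
    ext n
    rw [PowerSeries.coeff_map, PowerSeries.coeff_mk, hz]
  have hd : PowerSeries.map φ (PowerSeries.derivative ℤ k) = PowerSeries.derivative (ZMod p) κ := by
    ext n
    rw [PowerSeries.coeff_map, PowerSeries.coeff_derivative, PowerSeries.coeff_derivative, map_mul,
      ← PowerSeries.coeff_map, hk, map_add, map_natCast, map_one]
  have hder : ∀ n, (p : ℤ) * coeff n (k ^ (p - 1) * PowerSeries.derivative ℤ k) =
      coeff (n + 1) (k ^ p) * ((n : ℤ) + 1) := by
    intro n
    rw [← PowerSeries.coeff_derivative, Derivation.leibniz_pow, smul_eq_mul, ← nsmul_eq_mul,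
      map_nsmul]
  ext m
  rw [cars_coeff, PowerSeries.coeff_derivative]
  have h1 := hder (p * m + (p - 1))
  have hc : ((p * m + (p - 1) : ℕ) : ℤ) + 1 = (p : ℤ) * ((m : ℤ) + 1) := by
    have := cars_succ (p := p) m
    exact_mod_cast this
  rw [cars_succ, hc] at h1
  have hp0 : (p : ℤ) ≠ 0 := by exact_mod_cast hp.ne_zero
  have h2 : coeff (p * m + (p - 1)) (k ^ (p - 1) * PowerSeries.derivative ℤ k) =
      coeff (p * (m + 1)) (k ^ p) * ((m : ℤ) + 1) := by
    apply mul_left_cancel₀ hp0
    rw [h1]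
    ring
  have h3 := congrArg φ h2
  rw [← PowerSeries.coeff_map, map_mul (PowerSeries.map φ), map_pow, hk, hd, map_mul φ,
    ← PowerSeries.coeff_map, map_pow, hk, cars_coeff_pow, if_pos (dvd_mul_right p (m + 1)), Nat.mul_div_cancel_left _ hp.pos, map_add,
    map_natCast, map_one] at h3
  exact h3

end Pool.Agent.H64.PV
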