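import Pool.Agent.H64.PV.PDef
import Pool.Agent.H64.LG.Cap

/-!
# PV.CasR : the Casimir operator over a ring

PROOF. Strong induction on `totalDegree P`. If it is `0` then `P = C r` and `eval₂Hom φ G P = φ r`. Let `d = totalDegree P ≥ 1`. As in `scas` of `LG/SCas.lean` (copy its private lemmas `coeff_xp`, `coeff_Eu`, `co_zero`, `td_le`, `co_Om`, .., which are for a general ring): `hker` twice (with `h0 : Pr 0`, since `eval (DN N P) = 0`) gives that `2 (D_E D_F + D_F D_E) P + D_H D_H P` has value `0` (`D_N = DN (fun i k => κ (N i k))` with the matrices of `capelli`, `κ 1 = 1`, `κ (-1) = -1`), so by `capelli` and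
`hw`: `R' = Eu (Eu P) + 2 Eu P - C (4 w) * Om P` has value `0`. `P' = P - C (κ ((d (d + 2))⁻¹)) * R'` has the same value as `P` and smaller total degree: `Eu` multiplies monomials of degree `n` by `n` and `Om` lowers the degree by `2`, so the part of degree `d` of `R'` is `d (d + 2)` times that of `P` (`κ (x⁻¹) * x = 1` for `x = d (d + 2)`).
-/

set_option autoImplicit false

namespace Pool.Agent.H64.PV

open Pool.H61.QF Pool.Agent.H64.LG PowerSeries

private lemma coeff_xp {R : Type} [CommRing R] (P : MvPolynomial (Fin 2 × Fin 2) R) (i : Fin 2 × Fin 2)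
    (s : (Fin 2 × Fin 2) →₀ ℕ) :
    MvPolynomial.coeff s (MvPolynomial.X i * MvPolynomial.pderiv i P) = (s i : R) * MvPolynomial.coeff s P := by
  classical
  rw [MvPolynomial.coeff_X_mul']
  by_cases h : i ∈ s.support
  · have h0 : s i ≠ 0 := Finsupp.mem_support_iff.1 h
    have h1 : s - Finsupp.single i 1 + Finsupp.single i 1 = s := by
      ext j
      by_cases hj : j = i
      · subst hj
        simp
        omega
      · simp [Ne.symm hj]
    rw [if_pos h, MvPolynomial.coeff_pderiv, h1]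
    have h2 : ((s - (Finsupp.single i 1 : (Fin 2 × Fin 2) →₀ ℕ)) i : ℕ) + 1 = s i := by
      simp
      omega
    have h3 : (((s - (Finsupp.single i 1 : (Fin 2 × Fin 2) →₀ ℕ)) i : ℕ) : R) + 1 = (s i : R) := by
      rw [← h2]
      push_cast
      rfl
    rw [h3, mul_comm]
  · have h0 : s i = 0 := Finsupp.notMem_support_iff.1 h
    rw [if_neg h, h0]
    simp

private lemma coeff_Eu {R : Type} [CommRing R] (P : MvPolynomial (Fin 2 × Fin 2) R)
    (s : (Fin 2 × Fin 2) →₀ ℕ) :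
    MvPolynomial.coeff s (Eu P) = ((∑ i, s i : ℕ) : R) * MvPolynomial.coeff s P := by
  unfold Eu
  rw [MvPolynomial.coeff_sum, Nat.cast_sum, Finset.sum_mul]
  exact Finset.sum_congr rfl fun i _ => coeff_xp P i s

private lemma sum_supp (s : (Fin 2 × Fin 2) →₀ ℕ) : ∑ i ∈ s.support, s i = ∑ i, s i :=
  Finset.sum_subset (Finset.subset_univ _) fun _ _ hi => Finsupp.notMem_support_iff.1 hi

private lemma co_zero {R : Type} [CommRing R] {P : MvPolynomial (Fin 2 × Fin 2) R} {d : ℕ}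
    (h : P.totalDegree ≤ d) {s : (Fin 2 × Fin 2) →₀ ℕ} (hs : d < ∑ i, s i) : MvPolynomial.coeff s P = 0 := by
  refine MvPolynomial.coeff_eq_zero_of_totalDegree_lt ?_
  rw [sum_supp]
  omega

private lemma td_le {R : Type} [CommRing R] {P : MvPolynomial (Fin 2 × Fin 2) R} {d : ℕ}
    (h : ∀ s : (Fin 2 × Fin 2) →₀ ℕ, d < ∑ i, s i → MvPolynomial.coeff s P = 0) : P.totalDegree ≤ d := by
  unfold MvPolynomial.totalDegree
  refine Finset.sup_le fun s hs => ?_
  by_contra hc
  push Not at hc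
  have h1 : (s.sum fun _ e => e) = ∑ i, s i := Finsupp.sum_fintype _ _ fun _ => rfl
  rw [h1] at hc
  exact (MvPolynomial.mem_support_iff.1 hs) (h s hc)

private lemma co_Om {R : Type} [CommRing R] {P : MvPolynomial (Fin 2 × Fin 2) R} {d : ℕ}
    (h : P.totalDegree ≤ d + 1) {s : (Fin 2 × Fin 2) →₀ ℕ} (hs : d < ∑ i, s i) :
    MvPolynomial.coeff s (Om P) = 0 := by
  unfold Om
  have key : ∀ a b : Fin 2 × Fin 2,
      MvPolynomial.coeff (s + Finsupp.single a 1 + Finsupp.single b 1) P = 0 := by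
    intro a b
    refine co_zero h ?_
    have h1 : ∑ i, (s + (Finsupp.single a 1 : (Fin 2 × Fin 2) →₀ ℕ) + (Finsupp.single b 1 : (Fin 2 × Fin 2) →₀ ℕ)) i =
        (∑ i, s i) + (∑ i, (Finsupp.single a 1 : (Fin 2 × Fin 2) →₀ ℕ) i) +
          ∑ i, (Finsupp.single b 1 : (Fin 2 × Fin 2) →₀ ℕ) i := by
      rw [← Finset.sum_add_distrib, ← Finset.sum_add_distrib]
      rfl
    have h2 : ∀ c : Fin 2 × Fin 2, (∑ i, (Finsupp.single c 1 : (Fin 2 × Fin 2) →₀ ℕ) i) = 1 := by
      intro c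
      rw [Finset.sum_eq_single c]
      · simp
      · intro j _ hj
        simp [Ne.symm hj]
      · intro hc
        exact absurd (Finset.mem_univ c) hc
    rw [h1, h2, h2]
    omega
  rw [MvPolynomial.coeff_sub, MvPolynomial.coeff_pderiv, MvPolynomial.coeff_pderiv,
    MvPolynomial.coeff_pderiv, MvPolynomial.coeff_pderiv, key, key]
  simp

private lemma dn_cast {R : Type} [CommRing R] (κ : Kbar →+* R) (N : Fin 2 → Fin 2 → Kbar)
    (N' : Fin 2 → Fin 2 → R) (h : ∀ i l, N' i l = κ (N i l)) : DN (fun i k => κ (N i k)) = DN N' := by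
  congr 1
  funext i l
  exact (h i l).symm

private lemma casR_step {R : Type} [CommRing R] (κ : Kbar →+* R) (φ : R →+* PowerSeries Kbar)
    (G : Ff → PowerSeries Kbar) (w : R) (hw : φ w = G (0, 0) * G (1, 1) - G (1, 0) * G (0, 1))
    (Pr : PowerSeries Kbar → Prop) (h0 : Pr 0)
    (hker : ∀ P : MvPolynomial Ff R, Pr (MvPolynomial.eval₂Hom φ G P) →
      ∀ N : Fin 2 → Fin 2 → Kbar, N 0 0 + N 1 1 = 0 →
        MvPolynomial.eval₂Hom φ G (DN (fun i k => κ (N i k)) P) = 0)
    (P : MvPolynomial Ff R) (hP : Pr (MvPolynomial.eval₂Hom φ G P)) :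
    MvPolynomial.eval₂Hom φ G
      (Eu (Eu P) + MvPolynomial.C 2 * Eu P - MvPolynomial.C (4 * w) * Om P) = 0 := by
  have hE : DN (fun i k => κ ((fun i l : Fin 2 => if i = 0 ∧ l = 1 then (1 : Kbar) else 0) i k)) =
      DN (fun i l : Fin 2 => if i = 0 ∧ l = 1 then (1 : R) else 0) :=
    dn_cast κ _ _ fun i l => by split_ifs <;> simp
  have hF : DN (fun i k => κ ((fun i l : Fin 2 => if i = 1 ∧ l = 0 then (1 : Kbar) else 0) i k)) =
      DN (fun i l : Fin 2 => if i = 1 ∧ l = 0 then (1 : R) else 0) :=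
    dn_cast κ _ _ fun i l => by split_ifs <;> simp
  have hH : DN (fun i k => κ ((fun i l : Fin 2 => if i = 0 ∧ l = 0 then (1 : Kbar) else
        if i = 1 ∧ l = 1 then -1 else 0) i k)) =
      DN (fun i l : Fin 2 => if i = 0 ∧ l = 0 then (1 : R) else if i = 1 ∧ l = 1 then -1 else 0) :=
    dn_cast κ _ _ fun i l => by split_ifs <;> simp
  have tE : (fun i l : Fin 2 => if i = 0 ∧ l = 1 then (1 : Kbar) else 0) 0 0 +
      (fun i l : Fin 2 => if i = 0 ∧ l = 1 then (1 : Kbar) else 0) 1 1 = 0 := by simp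
  have tF : (fun i l : Fin 2 => if i = 1 ∧ l = 0 then (1 : Kbar) else 0) 0 0 +
      (fun i l : Fin 2 => if i = 1 ∧ l = 0 then (1 : Kbar) else 0) 1 1 = 0 := by simp
  have tH : (fun i l : Fin 2 => if i = 0 ∧ l = 0 then (1 : Kbar) else
        if i = 1 ∧ l = 1 then -1 else 0) 0 0 +
      (fun i l : Fin 2 => if i = 0 ∧ l = 0 then (1 : Kbar) else
        if i = 1 ∧ l = 1 then -1 else 0) 1 1 = 0 := by simp
  have kE : ∀ Q : MvPolynomial Ff R, Pr (MvPolynomial.eval₂Hom φ G Q) → MvPolynomial.eval₂Hom φ G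
      (DN (fun i l : Fin 2 => if i = 0 ∧ l = 1 then (1 : R) else 0) Q) = 0 := by
    intro Q hQ
    rw [← hE]
    exact hker Q hQ (fun i l : Fin 2 => if i = 0 ∧ l = 1 then (1 : Kbar) else 0) tE
  have kF : ∀ Q : MvPolynomial Ff R, Pr (MvPolynomial.eval₂Hom φ G Q) → MvPolynomial.eval₂Hom φ G
      (DN (fun i l : Fin 2 => if i = 1 ∧ l = 0 then (1 : R) else 0) Q) = 0 := by
    intro Q hQ
    rw [← hF]
    exact hker Q hQ (fun i l : Fin 2 => if i = 1 ∧ l = 0 then (1 : Kbar) else 0) tF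
  have kH : ∀ Q : MvPolynomial Ff R, Pr (MvPolynomial.eval₂Hom φ G Q) → MvPolynomial.eval₂Hom φ G
      (DN (fun i l : Fin 2 => if i = 0 ∧ l = 0 then (1 : R) else if i = 1 ∧ l = 1 then -1 else 0) Q) = 0 := by
    intro Q hQ
    rw [← hH]
    exact hker Q hQ (fun i l : Fin 2 => if i = 0 ∧ l = 0 then (1 : Kbar) else
        if i = 1 ∧ l = 1 then -1 else 0) tH
  have e1 := kE _ (by rw [kF P hP]; exact h0)
  have e2 := kF _ (by rw [kE P hP]; exact h0)
  have e3 := kH _ (by rw [kH P hP]; exact h0)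
  have hc := congrArg (MvPolynomial.eval₂Hom φ G) (capelli P)
  rw [map_add, map_mul, map_add, e1, e2, e3] at hc
  have h2 : MvPolynomial.eval₂Hom φ G (MvPolynomial.C 2 : MvPolynomial Ff R) = 2 := by
    rw [MvPolynomial.coe_eval₂Hom, MvPolynomial.eval₂_C, map_ofNat]
  have h4 : MvPolynomial.eval₂Hom φ G (MvPolynomial.C (4 * w) : MvPolynomial Ff R) = 4 *
      (G (0, 0) * G (1, 1) - G (1, 0) * G (0, 1)) := by
    rw [MvPolynomial.coe_eval₂Hom, MvPolynomial.eval₂_C, map_mul, map_ofNat, hw]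
  have hX : ∀ x : Ff, MvPolynomial.eval₂Hom φ G (MvPolynomial.X x : MvPolynomial Ff R) = G x := by
    intro x
    rw [MvPolynomial.coe_eval₂Hom, MvPolynomial.eval₂_X]
  rw [map_sub, map_add, map_mul, map_mul, h2, h4]
  rw [map_sub, map_add, map_mul, map_mul, map_mul, map_sub, map_mul, map_mul, hX, hX, hX, hX,
    map_ofNat, map_ofNat] at hc
  linear_combination -hc

private lemma casR_deg {R : Type} [CommRing R] (κ : Kbar →+* R) (w : R) (P : MvPolynomial Ff R)
    {d : ℕ} (hd : P.totalDegree ≤ d + 1) :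
    (P - MvPolynomial.C (κ ((((d + 1) * (d + 3) : ℕ) : Kbar)⁻¹)) *
      (Eu (Eu P) + MvPolynomial.C 2 * Eu P - MvPolynomial.C (4 * w) * Om P)).totalDegree ≤ d := by
  set n : ℕ := (d + 1) * (d + 3) with hn
  have hn0 : (n : Kbar) ≠ 0 := by
    have : n ≠ 0 := by rw [hn]; positivity
    exact_mod_cast this
  set k : R := κ ((n : Kbar)⁻¹) with hk
  have hkn : k * (n : R) = 1 := by
    rw [hk, ← map_natCast κ, ← map_mul, inv_mul_cancel₀ hn0, map_one]
  refine td_le fun s hs => ?_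
  rw [MvPolynomial.coeff_sub, MvPolynomial.coeff_C_mul, MvPolynomial.coeff_sub, MvPolynomial.coeff_add,
    MvPolynomial.coeff_C_mul, MvPolynomial.coeff_C_mul, coeff_Eu, coeff_Eu, co_Om hd hs, mul_zero,
    sub_zero]
  rcases Nat.lt_or_ge (d + 1) (∑ i, s i) with h1 | h1
  · rw [co_zero hd h1]
    simp
  · have h2 : ∑ i, s i = d + 1 := by omega
    rw [h2]
    have h3 : ((n : ℕ) : R) = ((d : R) + 1) * ((d : R) + 3) := by
      rw [hn]; push_cast; ring
    rw [h3] at hkn
    push_cast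
    linear_combination (-(MvPolynomial.coeff s P)) * hkn

theorem casR {R : Type} [CommRing R] (κ : Kbar →+* R) (φ : R →+* PowerSeries Kbar)
    (G : Ff → PowerSeries Kbar) (w : R) (hw : φ w = G (0, 0) * G (1, 1) - G (1, 0) * G (0, 1))
    (Pr : PowerSeries Kbar → Prop) (h0 : Pr 0)
    (hker : ∀ P : MvPolynomial Ff R, Pr (MvPolynomial.eval₂Hom φ G P) →
      ∀ N : Fin 2 → Fin 2 → Kbar, N 0 0 + N 1 1 = 0 →
        MvPolynomial.eval₂Hom φ G (DN (fun i k => κ (N i k)) P) = 0)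
    (P : MvPolynomial Ff R) (hP : Pr (MvPolynomial.eval₂Hom φ G P)) :
    ∃ r : R, MvPolynomial.eval₂Hom φ G P = φ r := by
  have main : ∀ (d : ℕ) (P : MvPolynomial Ff R), P.totalDegree ≤ d →
      Pr (MvPolynomial.eval₂Hom φ G P) → ∃ r : R, MvPolynomial.eval₂Hom φ G P = φ r := by
    intro d
    induction d with
    | zero =>
      intro P hd _
      have h1 := MvPolynomial.totalDegree_eq_zero_iff_eq_C.1 (Nat.le_zero.1 hd)
      refine ⟨MvPolynomial.coeff 0 P, ?_⟩
      conv_lhs => rw [h1]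
      rw [MvPolynomial.coe_eval₂Hom, MvPolynomial.eval₂_C]
    | succ d ih =>
      intro P hd hP
      have h1 := casR_step κ φ G w hw Pr h0 hker P hP
      have h2 := casR_deg κ w P hd
      have h3 : MvPolynomial.eval₂Hom φ G (P - MvPolynomial.C (κ ((((d + 1) * (d + 3) : ℕ) : Kbar)⁻¹)) *
          (Eu (Eu P) + MvPolynomial.C 2 * Eu P - MvPolynomial.C (4 * w) * Om P)) =
          MvPolynomial.eval₂Hom φ G P := by
        rw [map_sub, map_mul, h1, mul_zero, sub_zero]
      obtain ⟨r, hr⟩ := ih _ h2 (by rw [h3]; exact hP)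
      exact ⟨r, by rw [← h3]; exact hr⟩
  exact main _ P le_rfl hP

end Pool.Agent.H64.PV
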