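import Pool.Agent.H64.PV.PDef

/-!
# PV.Chn : the chain rule

PROOF. All coefficients of `Q` are in `Bd p`, so `Q = map (Bd p).subtype Q'` with `Q' : MvPolynomial (J × Ff) (Bd p)` (`MvPolynomial.mem_map_range`, or `∑ monomial`). Let `Θ : MvPolynomial (J × Ff) (Bd p) → MvPolynomial J (Bd p)` be the ring homomorphism (`eval₂Hom C`) with `X (j, (0,0)) ↦ (1 - C v_j X_j) C y_j`, `X (j, (1,0)) ↦ X_j C y_j`, `X (j, (0,1)) ↦ (1 - C v_j X_j) C y1_j - C (v_j W1_j)`,
`X (j, (1,1)) ↦ C W1_j + X_j C y1_j` (constants of `ℚ_p` are in `Bd p`). `F = Θ Q'`. (1) `eval₂ T F = evF c τ Q`: both are ring homomorphisms in `Q'`, equal on constants and variables by `h00`, `h10`, `h01`, `h11`. (2) `pderiv j (Θ Q') = Θ (DP (Pi.single j N) Q')`, `N i k = Nv v_j i k ∈ Bd p`: both sides are additive and satisfy the product rule along `Θ` (`MvPolynomial.induction_on`), on the variables: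
for `X (j', ..)` with `j' ≠ j` both are `0`; for `j`: `d/dX_j` of the four polynomials is `-v y`, `y`, `-v y1`, `y1`; on the other side `-v (1 - v X) y - v^2 X y = -v y`, `(1 - v X) y + v X y = y`, `-v ((1 - v X) y1 - v W1) - v^2 (W1 + X y1) = -v y1`, `((1 - v X) y1 - v W1) + v (W1 + X y1) = y1`. Then apply (1) to `DP .. Q'` (`map` commutes with `DP`).
-/

set_option autoImplicit false

namespace Pool.Agent.H64.PV

open Pool.H61.QF Pool.Agent.H64.LG PowerSeries

private theorem chn_cBd (p : ℕ) [Fact p.Prime] (a : ℚ_[p]) : (C a : PowerSeries ℚ_[p]) ∈ Bd p := by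
  rw [Bd_iff]
  have hp : (1 : ℝ) < p := by exact_mod_cast (Fact.out : p.Prime).one_lt
  obtain ⟨M, hM⟩ := pow_unbounded_of_one_lt ‖a‖ hp
  refine ⟨M, fun n => ?_⟩
  rw [PowerSeries.coeff_C]
  split_ifs
  · exact hM.le
  · rw [norm_zero]
    positivity

private theorem chn_map_DP {J R R' : Type} [CommRing R] [CommRing R'] (f : R →+* R')
    (N : J → Fin 2 → Fin 2 → R) (q : MvPolynomial (J × Ff) R) :
    MvPolynomial.map f (DP N q) = DP (fun j i k => f (N j i k)) (MvPolynomial.map f q) := by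
  induction q using MvPolynomial.induction_on with
  | C a =>
    rw [MvPolynomial.map_C]
    rw [MvPolynomial.derivation_C, MvPolynomial.derivation_C, map_zero]
  | add a b ha hb => rw [map_add, map_add, map_add, map_add, ha, hb]
  | mul_X a x ha =>
    rw [Derivation.leibniz, map_add, smul_eq_mul, smul_eq_mul, map_mul, map_mul, ha, map_mul, Derivation.leibniz,
      smul_eq_mul, smul_eq_mul, MvPolynomial.map_X]
    congr 2
    unfold DP
    rw [MvPolynomial.mkDerivation_X, MvPolynomial.mkDerivation_X, map_sum]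
    refine Finset.sum_congr rfl fun k _ => ?_
    rw [map_mul, MvPolynomial.map_C, MvPolynomial.map_X]

/-- the four polynomials of one family -/
private noncomputable def chn_th {J S : Type} [CommRing S] (v y y1 W : J → S) (x : J × Ff) : MvPolynomial J S :=
  if x.2.2 = 0 then
    (if x.2.1 = 0 then (1 - MvPolynomial.C (v x.1) * MvPolynomial.X x.1) * MvPolynomial.C (y x.1)
      else MvPolynomial.X x.1 * MvPolynomial.C (y x.1))
  else
    (if x.2.1 = 0 then (1 - MvPolynomial.C (v x.1) * MvPolynomial.X x.1) * MvPolynomial.C (y1 x.1) -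
        MvPolynomial.C (v x.1) * MvPolynomial.C (W x.1)
      else MvPolynomial.C (W x.1) + MvPolynomial.X x.1 * MvPolynomial.C (y1 x.1))

private theorem chn_pderiv {J S : Type} [DecidableEq J] [CommRing S] (v y y1 W : J → S) (j : J)
    (q : MvPolynomial (J × Ff) S) :
    MvPolynomial.pderiv j (MvPolynomial.aeval (chn_th v y y1 W) q) =
      MvPolynomial.aeval (chn_th v y y1 W)
        (DP (Pi.single j (![![-v j, -v j ^ 2], ![1, v j]] : Fin 2 → Fin 2 → S)) q) := by
  induction q using MvPolynomial.induction_on with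
  | C a =>
    have h1 : (DP (Pi.single j (![![-v j, -v j ^ 2], ![1, v j]] : Fin 2 → Fin 2 → S)))
        (MvPolynomial.C a : MvPolynomial (J × Ff) S) = 0 := MvPolynomial.derivation_C _ _
    rw [h1, map_zero, MvPolynomial.aeval_C, MvPolynomial.algebraMap_eq, MvPolynomial.pderiv_C]
  | add a b ha hb => rw [map_add, map_add, map_add, map_add, ha, hb]
  | mul_X a x ha =>
    rw [map_mul, Derivation.leibniz, Derivation.leibniz, map_add, smul_eq_mul, smul_eq_mul, smul_eq_mul,
      smul_eq_mul, map_mul, map_mul, ha, MvPolynomial.aeval_X]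
    congr 2
    have h1 : (DP (Pi.single j (![![-v j, -v j ^ 2], ![1, v j]] : Fin 2 → Fin 2 → S)))
        (MvPolynomial.X x : MvPolynomial (J × Ff) S) =
        ∑ k : Fin 2, MvPolynomial.C ((Pi.single j (![![-v j, -v j ^ 2], ![1, v j]] : Fin 2 → Fin 2 → S) :
          J → Fin 2 → Fin 2 → S) x.1 x.2.1 k) * MvPolynomial.X (x.1, (k, x.2.2)) := by
      unfold DP
      rw [MvPolynomial.mkDerivation_X]
    rw [h1, Fin.sum_univ_two, map_add, map_mul, map_mul, MvPolynomial.aeval_X, MvPolynomial.aeval_X,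
      MvPolynomial.aeval_C, MvPolynomial.aeval_C, MvPolynomial.algebraMap_eq]
    obtain ⟨j', i, l⟩ := x
    by_cases hj : j' = j
    · subst hj
      rw [Pi.single_eq_same]
      fin_cases i <;> fin_cases l
      · simp [chn_th, MvPolynomial.pderiv_X_self, Derivation.leibniz]
        ring
      · simp [chn_th, MvPolynomial.pderiv_X_self, Derivation.leibniz]
        ring
      · simp [chn_th, MvPolynomial.pderiv_X_self, Derivation.leibniz]
        ring
      · simp [chn_th, MvPolynomial.pderiv_X_self, Derivation.leibniz]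
        ring
    · rw [Pi.single_eq_of_ne hj]
      fin_cases i <;> fin_cases l <;>
      simp [chn_th, MvPolynomial.pderiv_X_of_ne hj, Derivation.leibniz]

theorem chn (p : ℕ) [Fact p.Prime] {J : Type} [Fintype J] [DecidableEq J] (c : J → ℚ_[p])
    (τ : J → PowerSeries ℚ_[p]) (v : J → ℚ_[p]) (T y y1 W1 : J → PowerSeries ℚ_[p])
    (hy : ∀ j, y j ∈ Bd p) (hy1 : ∀ j, y1 j ∈ Bd p) (hW : ∀ j, W1 j ∈ Bd p)
    (h00 : ∀ j, (dgF (c j) (0, 0)).subst (τ j) = (1 - C (v j) * T j) * y j)
    (h10 : ∀ j, (dgF (c j) (1, 0)).subst (τ j) = T j * y j)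
    (h01 : ∀ j, (dgF (c j) (0, 1)).subst (τ j) = (1 - C (v j) * T j) * y1 j - C (v j) * W1 j)
    (h11 : ∀ j, (dgF (c j) (1, 1)).subst (τ j) = W1 j + T j * y1 j)
    (Q : MvPolynomial (J × Ff) (PowerSeries ℚ_[p])) (hQ : ∀ m, Q.coeff m ∈ Bd p) :
    ∃ F : MvPolynomial J (Bd p), MvPolynomial.eval₂ (Bd p).subtype T F = evF c τ Q ∧
      ∀ j, MvPolynomial.eval₂ (Bd p).subtype T (MvPolynomial.pderiv j F) =
        evF c τ (DP (Pi.single j fun i k => C (Nv (v j) i k)) Q) := by
  classical
  let vs : J → Bd p := fun j => ⟨C (v j), chn_cBd p (v j)⟩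
  let ys : J → Bd p := fun j => ⟨y j, hy j⟩
  let y1s : J → Bd p := fun j => ⟨y1 j, hy1 j⟩
  let Ws : J → Bd p := fun j => ⟨W1 j, hW j⟩
  let Q' : MvPolynomial (J × Ff) (Bd p) := ∑ m ∈ Q.support, MvPolynomial.monomial m ⟨Q.coeff m, hQ m⟩
  have hQ' : MvPolynomial.map (Bd p).subtype Q' = Q := by
    rw [map_sum]
    conv_rhs => rw [← MvPolynomial.support_sum_monomial_coeff Q]
    refine Finset.sum_congr rfl fun m _ => ?_
    rw [MvPolynomial.map_monomial]
    rfl
  have h1 : ∀ q : MvPolynomial (J × Ff) (Bd p),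
      MvPolynomial.eval₂ (Bd p).subtype T (MvPolynomial.aeval (chn_th vs ys y1s Ws) q) =
        evF c τ (MvPolynomial.map (Bd p).subtype q) := by
    have h2 : (MvPolynomial.eval₂Hom (Bd p).subtype T).comp
        (MvPolynomial.aeval (R := Bd p) (chn_th vs ys y1s Ws)).toRingHom =
        (evF c τ).comp (MvPolynomial.map (Bd p).subtype) := by
      apply MvPolynomial.ringHom_ext
      · intro r
        simp [evF, MvPolynomial.algebraMap_eq]
      · rintro ⟨j, i, l⟩
        have h3 : ((evF c τ).comp (MvPolynomial.map (Bd p).subtype)) (MvPolynomial.X (j, i, l)) =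
            (dgF (c j) (i, l)).subst (τ j) := by
          simp [evF]
        rw [h3]
        fin_cases i <;> fin_cases l
        · rw [show ((⟨0, by norm_num⟩ : Fin 2), (⟨0, by norm_num⟩ : Fin 2)) = ((0 : Fin 2), (0 : Fin 2)) from rfl]
          erw [h00 j]
          simp [chn_th, vs, ys, y1s, Ws]
        · erw [h01 j]
          simp [chn_th, vs, ys, y1s, Ws]
        · erw [h10 j]
          simp [chn_th, vs, ys, y1s, Ws]
        · erw [h11 j]
          simp [chn_th, vs, ys, y1s, Ws]
    intro q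
    exact congrArg (fun φ : MvPolynomial (J × Ff) (Bd p) →+* PowerSeries ℚ_[p] => φ q) h2
  refine ⟨MvPolynomial.aeval (chn_th vs ys y1s Ws) Q', ?_, fun j => ?_⟩
  · rw [h1, hQ']
  · have hN : (fun (j' : J) (i k : Fin 2) => (Bd p).subtype
        ((Pi.single j (![![-vs j, -vs j ^ 2], ![1, vs j]] : Fin 2 → Fin 2 → Bd p) :
          J → Fin 2 → Fin 2 → Bd p) j' i k)) =
        (Pi.single j fun i k => C (Nv (v j) i k) : J → Fin 2 → Fin 2 → PowerSeries ℚ_[p]) := by
      funext j' i k
      by_cases hj : j' = j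
      · subst hj
        rw [Pi.single_eq_same, Pi.single_eq_same]
        fin_cases i <;> fin_cases k <;> simp [Nv, vs]
      · rw [Pi.single_eq_of_ne hj, Pi.single_eq_of_ne hj]
        simp
    rw [chn_pderiv, h1, chn_map_DP, hQ', hN]

end Pool.Agent.H64.PV
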