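import Pool.Agent.H64.PV.EmbA

/-!
# PV.Emb : infinitely many primes p = 1 mod 4 with an embedding into Q_p

PROOF. Let `i0 ∈ Kbar` with `i0^2 = -1` and `K' = K ⊔ ℚ(i0)`, finite dimensional over `ℚ`, so `K' = ℚ(θ)`. Take `f ∈ ℤ[X]` with `map f = n * minpoly ℚ θ`, irreducible over `ℚ`. `embA` with `max P0 2`: `p > P0`, `p > 2` and a root `x ∈ ℤ_p ⊂ ℚ_p` of `f`, so of `minpoly ℚ θ`: ring homomorphism
`K' → ℚ_p`, restrict it to `K`. The image of `i0` is a square root of `-1` in `ℚ_p`, of norm `1`, so in `ℤ_p`, and its reduction in `ZMod p` is a square root of `-1`: `p % 4 ≠ 3`, `p` odd, so `p % 4 = 1`.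
-/

set_option autoImplicit false

namespace Pool.Agent.H64.PV

open Pool.H61.QF Pool.Agent.H64.LG PowerSeries

theorem emb_mod (p : ℕ) [hp : Fact p.Prime] (hp2 : 2 < p) (z : ℚ_[p]) (hz : z ^ 2 = -1) : p % 4 = 1 := by
  have h1 : ‖z‖ ^ 2 = 1 := by rw [← norm_pow, hz, norm_neg, norm_one]
  have h2 : ‖z‖ ≤ 1 := by
    nlinarith [norm_nonneg z]
  let y : ℤ_[p] := ⟨z, h2⟩
  have h3 : y ^ 2 = -1 := by
    apply Subtype.ext
    change z ^ 2 = -1
    exact hz
  have h4 : (PadicInt.toZMod y) ^ 2 = -1 := by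
    rw [← map_pow, h3, map_neg, map_one]
  have h5 := ZMod.mod_four_ne_three_of_sq_eq_neg_one h4
  have h6 : p % 2 = 1 := by
    rcases hp.out.eq_two_or_odd with h | h
    · omega
    · exact h
  omega

theorem emb (K : IntermediateField ℚ Kbar) [FiniteDimensional ℚ K] (P0 : ℕ) :
    ∃ p : ℕ, P0 < p ∧ p % 4 = 1 ∧ ∃ _ : Fact p.Prime, Nonempty (K →+* ℚ_[p]) := by
  obtain ⟨i0, hi0⟩ := IsAlgClosed.exists_pow_nat_eq (-1 : Kbar) (n := 2) (by norm_num)
  have hint : IsIntegral ℚ i0 := by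
    refine ⟨Polynomial.X ^ 2 + Polynomial.C 1, Polynomial.monic_X_pow_add_C 1 (by norm_num), ?_⟩
    rw [Polynomial.eval₂_add, Polynomial.eval₂_pow, Polynomial.eval₂_X, Polynomial.eval₂_C, hi0, map_one]
    ring
  have hfd : FiniteDimensional ℚ (IntermediateField.adjoin ℚ {i0}) :=
    IntermediateField.adjoin.finiteDimensional hint
  let K' : IntermediateField ℚ Kbar := K ⊔ IntermediateField.adjoin ℚ {i0}
  have hK' : FiniteDimensional ℚ K' := IntermediateField.finiteDimensional_sup _ _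
  let pb : PowerBasis ℚ K' := Field.powerBasisOfFiniteOfSeparable ℚ K'
  have hirr : Irreducible (minpoly ℚ pb.gen) := minpoly.irreducible pb.isIntegral_gen
  obtain ⟨b, hb, hbm⟩ := IsLocalization.integerNormalization_spec (nonZeroDivisors ℤ) (minpoly ℚ pb.gen)
  set f : Polynomial ℤ := IsLocalization.integerNormalization (nonZeroDivisors ℤ) (minpoly ℚ pb.gen) with hf
  have hb0 : (b : ℚ) ≠ 0 := by
    exact_mod_cast nonZeroDivisors.ne_zero hb
  have hmap : f.map (Int.castRingHom ℚ) = Polynomial.C (b : ℚ) * minpoly ℚ pb.gen := by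
    have : f.map (Int.castRingHom ℚ) = b • minpoly ℚ pb.gen := hbm
    rw [this, zsmul_eq_mul]
    rfl
  have hfirr : Irreducible (f.map (Int.castRingHom ℚ)) := by
    rw [hmap, irreducible_isUnit_mul (Polynomial.isUnit_C.2 (isUnit_iff_ne_zero.2 hb0))]
    exact hirr
  obtain ⟨p, hP, hpf, x, hx⟩ := embA f hfirr (max P0 2)
  have hx' : Polynomial.aeval (x : ℚ_[p]) (minpoly ℚ pb.gen) = 0 := by
    have h1 : Polynomial.aeval (x : ℚ_[p]) (f.map (Int.castRingHom ℚ)) = 0 := by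
      have h2 : Polynomial.aeval (x : ℚ_[p]) (f.map (algebraMap ℤ ℚ)) = Polynomial.aeval (x : ℚ_[p]) f :=
        Polynomial.aeval_map_algebraMap ℚ (x : ℚ_[p]) f
      rw [show (Int.castRingHom ℚ) = algebraMap ℤ ℚ from rfl, h2]
      have h3 : Polynomial.aeval (algebraMap ℤ_[p] ℚ_[p] x) f = algebraMap ℤ_[p] ℚ_[p] (Polynomial.aeval x f) :=
        Polynomial.aeval_algebraMap_apply ℚ_[p] x f
      rw [hx, map_zero] at h3
      exact h3
    rw [hmap, map_mul, Polynomial.aeval_C] at h1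
    rcases mul_eq_zero.1 h1 with h | h
    · exfalso
      rw [_root_.map_eq_zero] at h
      exact hb0 h
    · exact h
  let φ : K' →ₐ[ℚ] ℚ_[p] := pb.lift (x : ℚ_[p]) hx'
  have hi0K : i0 ∈ K' := by
    have h1 : IntermediateField.adjoin ℚ {i0} ≤ K' := le_sup_right
    exact h1 (IntermediateField.mem_adjoin_simple_self ℚ i0)
  have hz : (φ ⟨i0, hi0K⟩) ^ 2 = -1 := by
    rw [← map_pow]
    have : (⟨i0, hi0K⟩ : K') ^ 2 = -1 := by
      apply Subtype.ext
      change i0 ^ 2 = -1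
      exact hi0
    rw [this, map_neg, map_one]
  refine ⟨p, lt_of_le_of_lt (le_max_left _ _) hP, emb_mod p (lt_of_le_of_lt (le_max_right _ _) hP) _ hz, hpf,
    ⟨φ.toRingHom.comp (IntermediateField.inclusion (le_sup_left : K ≤ K')).toRingHom⟩⟩

end Pool.Agent.H64.PV
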