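import Pool.Agent.H64.PV.PDef

/-!
# PV.Fld : the coefficients of an algebraic power series lie in a number field

PROOF. `fld`: let `P = ∑ Q_i Y^i` over `Kbar[X]`, `P ≠ 0` of least degree in `Y` with `P(f) = 0` (`f ∈ A0`: `IsAlgebraic (Polynomial Kbar) f`). `d = P_Y(f) ≠ 0` (degree; characteristic `0`; if `P` is constant in `Y` then `P = 0`). Let `m` be the order of `d` and `K₁ = ℚ(all coefficients of the Q_i, coeff 0 f, .., coeff m f)`, finite over `ℚ` (`IntermediateField.adjoin` of a finite set of algebraic elements). Let `σ : Kbar ≃ₐ[K₁] Kbar`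
and `g = map σ f`. `P(g) = map σ (P(f)) = 0` (`σ` fixes the coefficients of the `Q_i`) and `X^(m+1) ∣ g - f`. Taylor: `P(g) = P(f) + (g - f) d + (g - f)^2 r` (`Polynomial` identity `Polynomial.evalSubFactor`/`binomExpansion`), so `(g - f) (d + (g - f) r) = 0`, and `d + (g - f) r` has order `m`, so it is not `0` and `g = f`. So `σ` fixes all coefficients of `f`. `Kbar / K₁` is Galois (characteristic `0`,
algebraically closed), so the elements fixed by all `σ` are in `K₁` (`InfiniteGalois.fixedField_bot`.., or: all roots of the minimal polynomial over `K₁` are conjugate, it is separable, so it has degree `1`). `fldS`: the supremum of finitely many finite dimensional intermediate fields is finite dimensional (`IntermediateField.finiteDimensional_iSup_of_finite`, `finiteDimensional_sup`).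
-/

set_option autoImplicit false

namespace Pool.Agent.H64.PV

open Pool.H61.QF Pool.Agent.H64.LG PowerSeries

private lemma fld_alg : Algebra.IsAlgebraic ℚ Kbar := AlgebraicClosure.isAlgebraic ℚ

private lemma fld_gal : IsGalois ℚ Kbar := by
  have h1 : Algebra.IsAlgebraic ℚ Kbar := fld_alg
  have h2 : IsAlgClosure ℚ Kbar := ⟨inferInstance, h1⟩
  exact IsGalois.mk

private lemma fld_int (x : Kbar) : IsIntegral ℚ x :=
  ((AlgebraicClosure.isAlgebraic ℚ).isAlgebraic x).isIntegral

/-- a polynomial of least degree -/
private lemma fld_min (f : PowerSeries Kbar) (hf : IsAlgebraic (Polynomial Kbar) f) :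
    ∃ P : Polynomial (Polynomial Kbar), Polynomial.aeval f P = 0 ∧
      Polynomial.aeval f (Polynomial.derivative P) ≠ 0 := by
  classical
  have hex : ∃ n : ℕ, ∃ P : Polynomial (Polynomial Kbar), P ≠ 0 ∧ Polynomial.aeval f P = 0 ∧
      P.natDegree = n := by
    obtain ⟨P, hP, h⟩ := hf
    exact ⟨_, P, hP, h, rfl⟩
  obtain ⟨P, hP, h, hn⟩ := Nat.find_spec hex
  refine ⟨P, h, fun hd => ?_⟩
  have hpos : P.natDegree ≠ 0 := by
    intro h0
    rw [Polynomial.eq_C_of_natDegree_eq_zero h0, Polynomial.aeval_C] at h
    have hinj : Function.Injective (algebraMap (Polynomial Kbar) (PowerSeries Kbar)) := by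
      intro a b hab
      have h1 : ((a : PowerSeries Kbar)) = (b : PowerSeries Kbar) := hab
      exact Polynomial.coe_injective Kbar h1
    have h2 : P.coeff 0 = 0 := hinj (by rw [h, map_zero])
    apply hP
    rw [Polynomial.eq_C_of_natDegree_eq_zero h0, h2, Polynomial.C_0]
  have hlt : (Polynomial.derivative P).natDegree < P.natDegree :=
    Polynomial.natDegree_derivative_lt hpos
  have hne : Polynomial.derivative P ≠ 0 := by
    intro h0
    exact hpos (Polynomial.derivative_eq_zero.1 h0)
  refine Nat.find_min hex (m := (Polynomial.derivative P).natDegree) ?_ ⟨_, hne, hd, rfl⟩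
  rw [← hn]
  exact hlt

theorem fld (f : PowerSeries Kbar) (hf : f ∈ A0) :
    ∃ K : IntermediateField ℚ Kbar, FiniteDimensional ℚ K ∧ ∀ n, coeff n f ∈ K := by
  classical
  have hf' : IsAlgebraic (Polynomial Kbar) f := hf
  obtain ⟨P, hP, hd⟩ := fld_min f hf'
  obtain ⟨m, hm⟩ : ∃ m, coeff m (Polynomial.aeval f (Polynomial.derivative P)) ≠ 0 := by
    by_contra hc
    push Not at hc
    exact hd (PowerSeries.ext fun n => by rw [hc n, map_zero])
  obtain ⟨S, hS⟩ : ∃ S : Finset Kbar, S = (P.support.biUnion fun i => (P.coeff i).coeffs) ∪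
    (Finset.range (m + 1)).image fun i => coeff i f := ⟨_, rfl⟩
  have hS1 : ∀ i n, (P.coeff i).coeff n ∈ IntermediateField.adjoin ℚ (S : Set Kbar) := by
    intro i n
    by_cases h1 : (P.coeff i).coeff n = 0
    · rw [h1]; exact zero_mem _
    · refine IntermediateField.subset_adjoin ℚ _ ?_
      rw [hS, Finset.mem_coe, Finset.mem_union]
      left
      rw [Finset.mem_biUnion]
      refine ⟨i, ?_, Polynomial.coeff_mem_coeffs h1⟩
      rw [Polynomial.mem_support_iff]
      intro h0
      rw [h0, Polynomial.coeff_zero] at h1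
      exact h1 rfl
  have hS2 : ∀ i ≤ m, coeff i f ∈ IntermediateField.adjoin ℚ (S : Set Kbar) := by
    intro i hi
    refine IntermediateField.subset_adjoin ℚ _ ?_
    rw [hS, Finset.mem_coe, Finset.mem_union]
    right
    exact Finset.mem_image_of_mem _ (Finset.mem_range.2 (by omega))
  refine ⟨IntermediateField.adjoin ℚ (S : Set Kbar), ?_, ?_⟩
  · exact IntermediateField.finiteDimensional_adjoin fun x _ => fld_int x
  · obtain ⟨K₁, hK₁⟩ : ∃ K₁, K₁ = IntermediateField.adjoin ℚ (S : Set Kbar) := ⟨_, rfl⟩
    rw [← hK₁] at hS1 hS2 ⊢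
    intro n
    have key : ∀ σ : Kbar ≃ₐ[K₁] Kbar, PowerSeries.map (σ : Kbar →+* Kbar) f = f := by
      intro σ
      have hfix : ∀ x ∈ K₁, σ x = x := fun x hx => σ.commutes ⟨x, hx⟩
      obtain ⟨g, hg⟩ : ∃ g, g = PowerSeries.map (σ : Kbar →+* Kbar) f := ⟨_, rfl⟩
      have hgc : ∀ i, coeff i g = σ (coeff i f) := by
        intro i
        rw [hg, PowerSeries.coeff_map]
        rfl
      have hPg : Polynomial.aeval g P = 0 := by
        have h1 : PowerSeries.map (σ : Kbar →+* Kbar) (Polynomial.aeval f P) =
            Polynomial.aeval g P := by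
          rw [Polynomial.aeval_eq_sum_range, Polynomial.aeval_eq_sum_range, map_sum]
          refine Finset.sum_congr rfl fun i _ => ?_
          rw [Algebra.smul_def, Algebra.smul_def, map_mul, map_pow, ← hg]
          congr 1
          ext k
          rw [PowerSeries.coeff_map]
          have h2 : coeff k (algebraMap (Polynomial Kbar) (PowerSeries Kbar) (P.coeff i)) =
              (P.coeff i).coeff k := Polynomial.coeff_coe _ _
          rw [h2]
          exact hfix _ (hS1 i k)
        rw [← h1, hP, map_zero]
      have hgf : ∀ i ≤ m, coeff i (g - f) = 0 := by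
        intro i hi
        rw [map_sub, hgc, hfix _ (hS2 i hi), sub_self]
      obtain ⟨k, hk⟩ := Polynomial.binomExpansion
        (P.map (algebraMap (Polynomial Kbar) (PowerSeries Kbar))) f (g - f)
      rw [add_sub_cancel, Polynomial.derivative_map, Polynomial.eval_map_algebraMap,
        Polynomial.eval_map_algebraMap, Polynomial.eval_map_algebraMap, hPg, hP] at hk
      have h3 : (g - f) * (Polynomial.aeval f (Polynomial.derivative P) + k * (g - f)) = 0 := by
        rw [zero_add] at hk
        rw [mul_add, hk.trans ?_]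
        ring
      rcases mul_eq_zero.1 h3 with h4 | h4
      · rw [← hg]
        exact sub_eq_zero.1 h4
      · exfalso
        apply hm
        have h5 : coeff m (k * (g - f)) = 0 := by
          rw [PowerSeries.coeff_mul]
          refine Finset.sum_eq_zero fun x hx => ?_
          rw [Finset.HasAntidiagonal.mem_antidiagonal] at hx
          rw [hgf x.2 (by omega), mul_zero]
        have h6 := congrArg (coeff m) h4
        rw [map_add, h5, add_zero, map_zero] at h6
        exact h6
    have hgal : IsGalois ℚ Kbar := fld_gal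
    have h7 : coeff n f ∈ (⊥ : IntermediateField K₁ Kbar) := by
      rw [InfiniteGalois.mem_bot_iff_fixed]
      intro σ
      have h8 := congrArg (coeff n) (key σ)
      rw [PowerSeries.coeff_map] at h8
      exact h8
    obtain ⟨y, hy⟩ := IntermediateField.mem_bot.1 h7
    rw [← hy]
    exact y.2

theorem fldS {ι : Type} [Finite ι] (f : ι → PowerSeries Kbar) (hf : ∀ a, f a ∈ A0) (S : Finset Kbar) :
    ∃ K : IntermediateField ℚ Kbar, FiniteDimensional ℚ K ∧ (∀ a n, coeff n (f a) ∈ K) ∧
      ∀ x ∈ S, x ∈ K := by
  choose K hK hKf using fun a => fld (f a) (hf a)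
  have h1 : FiniteDimensional ℚ (⨆ a, K a : IntermediateField ℚ Kbar) :=
    IntermediateField.finiteDimensional_iSup_of_finite
  have h2 : FiniteDimensional ℚ (IntermediateField.adjoin ℚ (S : Set Kbar)) :=
    IntermediateField.finiteDimensional_adjoin fun x _ => fld_int x
  refine ⟨(⨆ a, K a) ⊔ IntermediateField.adjoin ℚ (S : Set Kbar), ?_, ?_, ?_⟩
  · exact IntermediateField.finiteDimensional_sup _ _
  · intro a n
    exact (le_iSup K a |>.trans le_sup_left) (hKf a n)
  · intro x hx
    exact (le_sup_right : IntermediateField.adjoin ℚ (S : Set Kbar) ≤ _)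
      (IntermediateField.subset_adjoin ℚ _ hx)

end Pool.Agent.H64.PV
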