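import Pool.Agent.H64.PV.PDef
import Pool.Agent.H64.LG.Alg
import Pool.Agent.H64.LG.Dk

/-!
# PV.PDk : the derivations and the Lie algebra

PROOFS (as `LG/Dk.lean` and `LG/SAnn.lean`, which are the case of one family / of sums). `DPK N = ∑_{j,i,k} C (cst (N j i k)) • DPK (Pi.single j (Em i k))`, `[DPK M, DPK N] = DPK (..)`, `DPK (M + N)`, `DPK (x • N)`, `DPK 0 = 0`: derivations, compare them on the variables (`MvPolynomial.derivation_ext`, `mkDerivation_X`). `SP_comm`: if `evP Q` is globally bounded then `evP (DPK N Q) = 0` is globally bounded (`gb_zero`), so `evP (DPK M (DPK N Q)) = 0`.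
-/

set_option autoImplicit false

namespace Pool.Agent.H64.PV

open Pool.H61.QF Pool.Agent.H64.LG PowerSeries

theorem evP_C {J : Type} (c : J → Kbar) (τ : J → PowerSeries Kbar) (x : A0) :
    evP c τ (MvPolynomial.C x) = (x : PowerSeries Kbar) := by
  unfold evP
  rw [MvPolynomial.coe_eval₂Hom, MvPolynomial.eval₂_C]
  rfl

theorem evP_X {J : Type} (c : J → Kbar) (τ : J → PowerSeries Kbar) (x : J × Ff) :
    evP c τ (MvPolynomial.X x) = (dg (c x.1) x.2).subst (τ x.1) := by
  unfold evP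
  rw [MvPolynomial.coe_eval₂Hom, MvPolynomial.eval₂_X]

private theorem DPK_X {J : Type} (N : J → Fin 2 → Fin 2 → Kbar) (x : J × Ff) :
    DPK N (MvPolynomial.X x) = MvPolynomial.C (cst (N x.1 x.2.1 0)) * MvPolynomial.X (x.1, (0, x.2.2)) +
      MvPolynomial.C (cst (N x.1 x.2.1 1)) * MvPolynomial.X (x.1, (1, x.2.2)) := by
  unfold DPK DP
  rw [MvPolynomial.mkDerivation_X, Fin.sum_univ_two]

private theorem DPK_C {J : Type} (N : J → Fin 2 → Fin 2 → Kbar) (x : A0) :
    DPK N (MvPolynomial.C x) = 0 := MvPolynomial.derivation_C (DPK N) x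

private theorem DPK_CX {J : Type} (N : J → Fin 2 → Fin 2 → Kbar) (y : A0) (x : J × Ff) :
    DPK N (MvPolynomial.C y * MvPolynomial.X x) = MvPolynomial.C y *
      (MvPolynomial.C (cst (N x.1 x.2.1 0)) * MvPolynomial.X (x.1, (0, x.2.2)) +
      MvPolynomial.C (cst (N x.1 x.2.1 1)) * MvPolynomial.X (x.1, (1, x.2.2))) := by
  rw [Derivation.leibniz, DPK_C, DPK_X, smul_zero, add_zero, smul_eq_mul]

private theorem dpk_sum_apply {J ι : Type} (s : Finset ι)
    (D : ι → Derivation A0 (MvPolynomial (J × Ff) A0) (MvPolynomial (J × Ff) A0))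
    (a : MvPolynomial (J × Ff) A0) : (∑ i ∈ s, D i) a = ∑ i ∈ s, D i a := by
  classical
  induction s using Finset.induction_on with
  | empty => simp
  | insert i s hi ih => rw [Finset.sum_insert hi, Finset.sum_insert hi, Derivation.add_apply, ih]

private theorem DPK_lin {J : Type} [Fintype J] [DecidableEq J] (N : J → Fin 2 → Fin 2 → Kbar)
    (Q : MvPolynomial (J × Ff) A0) :
    DPK N Q = ∑ j, ∑ i : Fin 2, ∑ k : Fin 2,
      MvPolynomial.C (cst (N j i k)) * DPK (Pi.single j (Em i k)) Q := by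
  have h : DPK N = ∑ j, ∑ i : Fin 2, ∑ k : Fin 2,
      (MvPolynomial.C (cst (N j i k)) : MvPolynomial (J × Ff) A0) • DPK (Pi.single j (Em i k)) := by
    apply MvPolynomial.derivation_ext
    rintro ⟨j0, a, b⟩
    rw [dpk_sum_apply, Finset.sum_eq_single j0]
    · simp only [Fin.sum_univ_two, Derivation.add_apply, Derivation.smul_apply, DPK_X,
        Pi.single_eq_same]
      fin_cases a <;> simp [Em]
    · intro j _ hj
      simp only [Fin.sum_univ_two, Derivation.add_apply, Derivation.smul_apply, DPK_X,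
        Pi.single_eq_of_ne (Ne.symm hj)]
      simp
    · intro h
      exact absurd (Finset.mem_univ j0) h
  conv_lhs => rw [h]
  rw [dpk_sum_apply]
  refine Finset.sum_congr rfl fun j _ => ?_
  rw [dpk_sum_apply]
  refine Finset.sum_congr rfl fun i _ => ?_
  rw [dpk_sum_apply]
  rfl

private theorem DPK_comm {J : Type} (M N : J → Fin 2 → Fin 2 → Kbar) (Q : MvPolynomial (J × Ff) A0) :
    DPK M (DPK N Q) - DPK N (DPK M Q) =
      DPK (fun j i l => ∑ k : Fin 2, (N j i k * M j k l - M j i k * N j k l)) Q := by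
  have h : ⁅DPK M, DPK N⁆ =
      DPK (fun j i l => ∑ k : Fin 2, (N j i k * M j k l - M j i k * N j k l)) := by
    apply MvPolynomial.derivation_ext
    rintro ⟨j, a, b⟩
    rw [Derivation.commutator_apply, DPK_X, DPK_X, DPK_X, map_add, map_add, DPK_CX, DPK_CX, DPK_CX,
      DPK_CX]
    simp only [Fin.sum_univ_two, map_add, map_sub, map_mul]
    ring
  rw [← Derivation.commutator_apply, h]

private theorem DPK_add {J : Type} (M N : J → Fin 2 → Fin 2 → Kbar) (Q : MvPolynomial (J × Ff) A0) :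
    DPK (M + N) Q = DPK M Q + DPK N Q := by
  have h : DPK (M + N) = DPK M + DPK N := by
    apply MvPolynomial.derivation_ext
    intro a
    rw [Derivation.add_apply, DPK_X, DPK_X, DPK_X]
    simp only [Pi.add_apply, map_add]
    ring
  rw [h, Derivation.add_apply]

private theorem DPK_smul {J : Type} (x : Kbar) (N : J → Fin 2 → Fin 2 → Kbar)
    (Q : MvPolynomial (J × Ff) A0) : DPK (x • N) Q = MvPolynomial.C (cst x) * DPK N Q := by
  have h : DPK (x • N) = (MvPolynomial.C (cst x) : MvPolynomial (J × Ff) A0) • DPK N := by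
    apply MvPolynomial.derivation_ext
    intro a
    rw [Derivation.smul_apply, DPK_X, DPK_X, smul_eq_mul]
    simp only [Pi.smul_apply, smul_eq_mul, map_mul]
    ring
  rw [h, Derivation.smul_apply, smul_eq_mul]

private theorem DPK_zero {J : Type} (Q : MvPolynomial (J × Ff) A0) : DPK 0 Q = 0 := by
  have h := DPK_smul 0 0 Q
  rw [smul_zero, map_zero, map_zero, zero_mul] at h
  exact h

theorem evP_DPK {J : Type} [Fintype J] [DecidableEq J] (c : J → Kbar) (τ : J → PowerSeries Kbar)
    (N : J → Fin 2 → Fin 2 → Kbar) (Q : MvPolynomial (J × Ff) A0) (n : ℕ) :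
    coeff n (evP c τ (DPK N Q)) = ∑ j, ∑ i : Fin 2, ∑ k : Fin 2, N j i k * flP c τ Q n j i k := by
  have hC : ∀ x : Kbar, evP c τ (MvPolynomial.C (cst x)) = PowerSeries.C x := fun x => by
    rw [evP_C]
    rfl
  rw [DPK_lin, map_sum, map_sum]
  refine Finset.sum_congr rfl fun j _ => ?_
  rw [map_sum, map_sum]
  refine Finset.sum_congr rfl fun i _ => ?_
  rw [map_sum, map_sum]
  refine Finset.sum_congr rfl fun k _ => ?_
  rw [map_mul, hC, PowerSeries.coeff_C_mul]
  rfl

theorem SP_comm {J : Type} (c : J → Kbar) (τ : J → PowerSeries Kbar)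
    (M N : J → Fin 2 → Fin 2 → Kbar) (hM : SP c τ M) (hN : SP c τ N) :
    SP c τ (fun j i l => ∑ k : Fin 2, (N j i k * M j k l - M j i k * N j k l)) := by
  intro Q hQ
  have h1 := hN Q hQ
  have h2 := hM Q hQ
  have h3 := hM (DPK N Q) (by rw [h1]; exact gb_zero)
  have h4 := hN (DPK M Q) (by rw [h2]; exact gb_zero)
  rw [← DPK_comm, map_sub, h3, h4, sub_zero]

theorem SP_add {J : Type} (c : J → Kbar) (τ : J → PowerSeries Kbar)
    (M N : J → Fin 2 → Fin 2 → Kbar) (hM : SP c τ M) (hN : SP c τ N) : SP c τ (M + N) := by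
  intro Q hQ
  rw [DPK_add, map_add, hM Q hQ, hN Q hQ, add_zero]

theorem SP_smul {J : Type} (c : J → Kbar) (τ : J → PowerSeries Kbar) (x : Kbar)
    (N : J → Fin 2 → Fin 2 → Kbar) (hN : SP c τ N) : SP c τ (x • N) := by
  intro Q hQ
  rw [DPK_smul, map_mul, hN Q hQ, mul_zero]

theorem SP_zero {J : Type} (c : J → Kbar) (τ : J → PowerSeries Kbar) : SP c τ 0 := by
  intro Q _
  rw [DPK_zero, map_zero]

end Pool.Agent.H64.PV
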