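import Pool.Agent.H64.PV.DicA
import Pool.Agent.H64.PV.Fld
import Pool.Agent.H64.PV.Emb
import Pool.Agent.H64.PV.PDk
import Pool.Agent.H64.LG.Pls
import Pool.Agent.H64.LG.Alg

/-!
# PV.Dic : the dichotomy

PROOF. Suppose there is no `N` as in the first alternative. On the finite dimensional space of the `N : J × Fin 2 × Fin 2 → Kbar` consider the functionals `F = fun x => flP c τ Q n x.1 x.2.1 x.2.2` (`evP c τ Q` globally bounded, `n ∈ ℕ`) and `e_(j,a,b)`. If all of them vanish on `N` then `SP c τ N` (`evP_DPK`: all coefficients of `evP (DPK N Q)` are `0`) and `N j = 0`, so `N i 1 0 = 0`. By finite dimensional duality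
(`mem_span_of_dual` in `LG/SAnn.lean`, private there: copy it) the functional `e_(i,1,0)` is in the span of these functionals, so (`Submodule.mem_span_set'` or `Finsupp.mem_span_iff_linearCombination`..) there are a finite type `A = Fin r`, `Q α` with `evP c τ (Q α)` globally bounded, `nn α`, `y α`, `θ a b` in `Kbar` with the identity `hid` of `dicA`. `fldS` for the finitely many series `τ k` and the nonzero
coefficients `(Q α).coeff m`, and the finite set of all `c k`, `y α`, `θ a b`: `K`. Write `c = algebraMap c0`, `τ = map τ0`, `y`, `θ` over `K`. For all primes `p > P1` all hypotheses of `dicA` hold: `hc, hci` (`eventually_mem`), `hτ, hQi` (`ev_alg`, `ev_Q` in `LG/Pls.lean` are stated for places, use `eisenstein`, `algSeries_of_mem` and `locInt_of_pow` for `p > N`), `hev` (globally bounded),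
`hd`: `τ k ≠ 0` with `coeff 0 = 0`, so some `coeff (n + 1) (τ k) ≠ 0`, `coeff n (dd ..) = (n + 1) coeff (n + 1) ≠ 0`, its inverse is in `LocInt p` for large `p`. `emb` gives `p > max P0 P1`, `p % 4 = 1` and `ι`. So `iot_zero` applies to every coefficient of `SnD` over `K`: it is `0`. Map to `Kbar`.
-/

set_option autoImplicit false

namespace Pool.Agent.H64.PV

open Pool.H61.QF Pool.Agent.H64.LG PowerSeries

private lemma dic_map_dd {R S : Type} [CommRing R] [CommRing S] (φ : R →+* S) (f : PowerSeries R) :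
    PowerSeries.map φ (dd f) = dd (PowerSeries.map φ f) := by
  ext n
  simp [dd, PowerSeries.coeff_derivative]

private lemma dic_map_SnD {R S : Type} [CommRing R] [CommRing S] (φ : R →+* S)
    (f g : PowerSeries R) :
    PowerSeries.map φ (SnD f g) = SnD (PowerSeries.map φ f) (PowerSeries.map φ g) := by
  simp only [SnD, Sn, ax, map_sub, map_mul, map_add, map_pow, dic_map_dd, map_one, map_ofNat]

/-- finite dimensional duality -/
private theorem dic_span_of_dual {ι : Type} [Fintype ι] [DecidableEq ι] (𝓕 : Set (ι → Kbar)) (L : ι → Kbar)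
    (h : ∀ N : ι → Kbar, (∀ F ∈ 𝓕, ∑ x, N x * F x = 0) → ∑ x, N x * L x = 0) :
    L ∈ Submodule.span Kbar 𝓕 := by
  by_contra hL
  obtain ⟨f, hf, hk⟩ := Submodule.exists_le_ker_of_notMem hL
  have hsum : ∀ F : ι → Kbar, f F = ∑ x, f (fun y => if x = y then 1 else 0) * F x := by
    intro F
    rw [LinearMap.pi_apply_eq_sum_univ]
    refine Finset.sum_congr rfl fun x _ => ?_
    rw [smul_eq_mul, mul_comm]
  apply hf
  rw [hsum]
  apply h
  intro F hF
  rw [← hsum]
  exact hk (Submodule.subset_span hF)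

/-- integrality for large primes -/
private lemma dic_mem (x : Kbar) : ∀ᶠ p : ℕ in Filter.atTop, ∀ _ : Fact p.Prime, x ∈ LocInt p := by
  obtain ⟨P0, hP0⟩ := eventually_mem x
  filter_upwards [Filter.eventually_ge_atTop P0] with p hp hF
  exact hP0 p hp

private lemma dic_gb (f : PowerSeries Kbar) (hf : GloballyBounded f) :
    ∀ᶠ p : ℕ in Filter.atTop, ∀ _ : Fact p.Prime, ∀ n, coeff n f ∈ LocInt p := by
  obtain ⟨N, hN, h⟩ := hf
  filter_upwards [Filter.eventually_gt_atTop N] with p hp hF n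
  obtain ⟨e, he⟩ := h n
  refine locInt_of_pow p N (fun hd => ?_) e _ he
  have := Nat.le_of_dvd (by omega) hd
  omega

/-- the functionals which vanish outside the family `j` -/
private def dicV {J : Type} (j : J) : Submodule Kbar (J × Fin 2 × Fin 2 → Kbar) where
  carrier := {F | ∀ x, x.1 ≠ j → F x = 0}
  add_mem' := by
    intro F G hF hG x hx
    rw [Pi.add_apply, hF x hx, hG x hx, add_zero]
  zero_mem' := fun x _ => rfl
  smul_mem' := by
    intro a F hF x hx
    rw [Pi.smul_apply, hF x hx, smul_zero]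

/-- the linear relation -/
private lemma dic_rel {J : Type} [Fintype J] [DecidableEq J] (c : J → Kbar)
    (τ : J → PowerSeries Kbar) (i j : J)
    (h : ∀ N : J → Fin 2 → Fin 2 → Kbar, SP c τ N → N j = 0 → N i 1 0 = 0) :
    ∃ (A : Type) (_ : Fintype A) (Q : A → MvPolynomial (J × Ff) A0) (nn : A → ℕ) (y : A → Kbar)
      (θ : Fin 2 → Fin 2 → Kbar), (∀ α, GloballyBounded (evP c τ (Q α))) ∧
      ∀ k a b, (if k = i ∧ a = 1 ∧ b = 0 then (1 : Kbar) else 0) =
      (if k = j then θ a b else 0) + ∑ α, y α * flP c τ (Q α) (nn α) k a b := by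
  classical
  let G : {Q : MvPolynomial (J × Ff) A0 // GloballyBounded (evP c τ Q)} × ℕ →
    (J × Fin 2 × Fin 2 → Kbar) := fun q x => flP c τ q.1.1 q.2 x.1 x.2.1 x.2.2
  let L : J × Fin 2 × Fin 2 → Kbar := fun x => if x.1 = i ∧ x.2.1 = 1 ∧ x.2.2 = 0 then 1 else 0
  have hsum3 : ∀ (G : J → Fin 2 → Fin 2 → Kbar),
      ∑ x : J × Fin 2 × Fin 2, G x.1 x.2.1 x.2.2 = ∑ j, ∑ i : Fin 2, ∑ k : Fin 2, G j i k := by
    intro G
    rw [Fintype.sum_prod_type]
    refine Finset.sum_congr rfl fun j _ => ?_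
    rw [Fintype.sum_prod_type]
  have hL : L ∈ Submodule.span Kbar (Set.range G ∪ (dicV j : Set (J × Fin 2 × Fin 2 → Kbar))) := by
    apply dic_span_of_dual
    intro N hN
    have hSp : SP c τ (fun j i k => N (j, i, k)) := by
      intro Q hQ
      ext n
      have h1 := hN (G (⟨Q, hQ⟩, n)) (Or.inl ⟨_, rfl⟩)
      have h2 : ∑ x : J × Fin 2 × Fin 2, N x * G (⟨Q, hQ⟩, n) x =
          ∑ j, ∑ i : Fin 2, ∑ k : Fin 2, N (j, i, k) * flP c τ Q n j i k :=
        hsum3 (fun j i k => N (j, i, k) * flP c τ Q n j i k)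
      rw [evP_DPK, map_zero, ← h1, h2]
    have hNj : (fun j i k => N (j, i, k)) j = (0 : Fin 2 → Fin 2 → Kbar) := by
      funext a b
      have h1 := hN (fun y => if ((j, a, b) : J × Fin 2 × Fin 2) = y then 1 else 0) (Or.inr (by
        intro x hx
        show (if ((j, a, b) : J × Fin 2 × Fin 2) = x then (1 : Kbar) else 0) = 0
        rw [if_neg]
        rintro rfl
        exact hx rfl))
      simp only [mul_ite, mul_one, mul_zero, Finset.sum_ite_eq, Finset.mem_univ, if_true] at h1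
      exact h1
    have h3 := h _ hSp hNj
    have h4 : ∀ x : J × Fin 2 × Fin 2, N x * L x = if x = (i, 1, 0) then N (i, 1, 0) else 0 := by
      rintro ⟨k, a, b⟩
      show N (k, a, b) * (if k = i ∧ a = 1 ∧ b = 0 then (1 : Kbar) else 0) = _
      by_cases hx : k = i ∧ a = 1 ∧ b = 0
      · obtain ⟨rfl, rfl, rfl⟩ := hx
        simp
      · rw [if_neg hx, if_neg, mul_zero]
        intro he
        apply hx
        simpa only [Prod.mk.injEq] using he
    rw [Finset.sum_congr rfl fun x _ => h4 x, Finset.sum_ite_eq', if_pos (Finset.mem_univ _)]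
    exact h3
  rw [Submodule.span_union, Submodule.span_eq] at hL
  obtain ⟨y, hy, z, hz, hyz⟩ := Submodule.mem_sup.1 hL
  obtain ⟨l, hl⟩ := Finsupp.mem_span_range_iff_exists_finsupp.1 hy
  refine ⟨{q // q ∈ l.support}, inferInstance, fun α => α.1.1.1, fun α => α.1.2, fun α => l α.1,
    fun a b => z (j, a, b), fun α => α.1.1.2, fun k a b => ?_⟩
  have e1 : (if k = i ∧ a = 1 ∧ b = 0 then (1 : Kbar) else 0) = y (k, a, b) + z (k, a, b) := by
    have := congrFun hyz (k, a, b)
    rw [Pi.add_apply] at this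
    exact this.symm
  have e2 : z (k, a, b) = if k = j then z (j, a, b) else 0 := by
    by_cases hk : k = j
    · rw [if_pos hk, hk]
    · rw [if_neg hk]
      exact hz (k, a, b) hk
  have e3 : y (k, a, b) = ∑ α : {q // q ∈ l.support}, l α.1 * flP c τ α.1.1.1 α.1.2 k a b := by
    rw [← hl, Finsupp.sum, Finset.sum_apply,
      Finset.sum_coe_sort l.support (fun q => l q * flP c τ q.1.1 q.2 k a b)]
    rfl
  rw [e1, e2, e3, add_comm]

theorem dic {J : Type} [Fintype J] [DecidableEq J] (c : J → Kbar) (hc0 : ∀ j, c j ≠ 0)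
    (hc1 : ∀ j, c j ≠ 1) (τ : J → PowerSeries Kbar) (hτ : ∀ j, τ j ∈ A0)
    (hτ0 : ∀ j, constantCoeff (τ j) = 0) (hτn : ∀ j, τ j ≠ 0) (i j : J) (hij : i ≠ j) :
    (∃ N : J → Fin 2 → Fin 2 → Kbar, SP c τ N ∧ N j = 0 ∧ N i 1 0 ≠ 0) ∨
      SnD (C (c i) + τ i) (C (c j) + τ j) = 0 := by
  classical
  by_contra hcon
  push Not at hcon
  obtain ⟨h1, h2⟩ := hcon
  apply h2
  obtain ⟨A, hA, Q, nn, y, θ, hgb, hid⟩ := dic_rel c τ i j h1
  -- the number field
  let S : Finset Kbar := (Finset.univ.image c) ∪ (Finset.univ.image y) ∪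
    (Finset.univ.image fun ab : Fin 2 × Fin 2 => θ ab.1 ab.2)
  let ff : J ⊕ (Σ α : A, {m // m ∈ (Q α).support}) → PowerSeries Kbar :=
    Sum.elim τ fun x => (((Q x.1).coeff x.2.1 : A0) : PowerSeries Kbar)
  obtain ⟨K, hK, hKf, hKS⟩ := fldS ff (by
    rintro (k | x)
    · exact hτ k
    · exact ((Q x.1).coeff x.2.1).2) S
  obtain ⟨c0, hc0'⟩ : ∃ c0 : J → K, ∀ k, (c0 k : Kbar) = c k :=
    ⟨fun k => ⟨c k, hKS _ (by simp [S])⟩, fun k => rfl⟩
  obtain ⟨y0, hy0⟩ : ∃ y0 : A → K, ∀ k, (y0 k : Kbar) = y k :=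
    ⟨fun k => ⟨y k, hKS _ (by simp [S])⟩, fun k => rfl⟩
  obtain ⟨θ0, hθ0⟩ : ∃ θ0 : Fin 2 → Fin 2 → K, ∀ a b, (θ0 a b : Kbar) = θ a b :=
    ⟨fun a b => ⟨θ a b, hKS _ (by
      refine Finset.mem_union_right _ (Finset.mem_image.2 ⟨(a, b), Finset.mem_univ _, rfl⟩))⟩,
      fun a b => rfl⟩
  obtain ⟨τ0, hτ0'⟩ : ∃ τ0 : J → PowerSeries K, ∀ k n, ((coeff n (τ0 k) : K) : Kbar) = coeff n (τ k) :=
    ⟨fun k => PowerSeries.mk fun n => ⟨coeff n (τ k), hKf (Sum.inl k) n⟩, fun k n => by
      rw [coeff_mk]⟩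
  have hcf : (fun j => algebraMap K Kbar (c0 j)) = c := funext hc0'
  have hτf : (fun j => PowerSeries.map (algebraMap K Kbar) (τ0 j)) = τ := by
    funext k
    ext n
    rw [coeff_map]
    exact hτ0' k n
  have hQK : ∀ α m n, coeff n (((Q α).coeff m : A0) : PowerSeries Kbar) ∈ K := by
    intro α m n
    by_cases hm : m ∈ (Q α).support
    · exact hKf (Sum.inr ⟨α, ⟨m, hm⟩⟩) n
    · rw [MvPolynomial.notMem_support_iff.1 hm]
      have : coeff n (((0 : A0)) : PowerSeries Kbar) = 0 := by simp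
      rw [this]
      exact zero_mem _
  have hdk : ∀ k, ∃ n, coeff n (dd (τ0 k)) ≠ 0 := by
    intro k
    have h3 : ∃ n, coeff n (τ k) ≠ 0 := by
      by_contra hc
      push Not at hc
      exact hτn k (PowerSeries.ext fun n => by rw [hc n, map_zero])
    obtain ⟨n, hn⟩ := h3
    obtain _ | n := n
    · exfalso
      apply hn
      rw [coeff_zero_eq_constantCoeff_apply]
      exact hτ0 k
    · refine ⟨n, ?_⟩
      rw [PowerSeries.coeff_derivative]
      refine mul_ne_zero ?_ ?_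
      · intro h0
        apply hn
        rw [← hτ0', h0]
        rfl
      · have : ((n + 1 : ℕ) : K) ≠ 0 := Nat.cast_ne_zero.2 (Nat.succ_ne_zero n)
        push_cast at this
        exact this
  choose m hm using hdk
  have hev : ∀ᶠ p : ℕ in Filter.atTop, ∀ _ : Fact p.Prime,
      (∀ k, (c0 k : Kbar) ∈ LocInt p) ∧
      (∀ k, ((c0 k : Kbar) * (1 - (c0 k : Kbar)))⁻¹ ∈ LocInt p) ∧
      (∀ k n, ((coeff n (τ0 k) : K) : Kbar) ∈ LocInt p) ∧
      (∀ k, ∃ n, coeff n (dd (τ0 k)) ≠ 0 ∧ ((coeff n (dd (τ0 k)) : K) : Kbar)⁻¹ ∈ LocInt p) ∧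
      (∀ α m n, coeff n (((Q α).coeff m : A0) : PowerSeries Kbar) ∈ LocInt p) ∧
      (∀ α n, coeff n (evP (fun j => algebraMap K Kbar (c0 j))
      (fun j => PowerSeries.map (algebraMap K Kbar) (τ0 j)) (Q α)) ∈ LocInt p) := by
    have E5 : ∀ᶠ p : ℕ in Filter.atTop, ∀ α, ∀ m ∈ (Q α).support, ∀ _ : Fact p.Prime,
        ∀ n, coeff n (((Q α).coeff m : A0) : PowerSeries Kbar) ∈ LocInt p := by
      rw [Filter.eventually_all]
      intro α
      rw [Filter.eventually_all_finset]
      intro m _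
      exact dic_gb _ (gb_of_mem ((Q α).coeff m).2)
    filter_upwards [Filter.eventually_all.2 fun k => dic_mem (c0 k : Kbar),
      Filter.eventually_all.2 fun k => dic_mem (((c0 k : Kbar) * (1 - (c0 k : Kbar)))⁻¹),
      Filter.eventually_all.2 fun k => dic_gb (τ k) (gb_of_mem (hτ k)),
      Filter.eventually_all.2 fun k => dic_mem (((coeff (m k) (dd (τ0 k)) : K) : Kbar)⁻¹),
      E5, Filter.eventually_all.2 fun α => dic_gb _ (hgb α)] with p e1 e2 e3 e4 e5 e6 hF
    refine ⟨fun k => e1 k hF, fun k => e2 k hF, fun k n => ?_, fun k => ⟨m k, hm k, e4 k hF⟩,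
      fun α m n => ?_, fun α n => ?_⟩
    · rw [hτ0']
      exact e3 k hF n
    · by_cases hm : m ∈ (Q α).support
      · exact e5 α m hm hF n
      · rw [MvPolynomial.notMem_support_iff.1 hm]
        have : coeff n (((0 : A0)) : PowerSeries Kbar) = 0 := by simp
        rw [this]
        exact (LocInt p).zero_mem
    · rw [hcf, hτf]
      exact e6 α hF n
  obtain ⟨P0, hP0⟩ := Filter.eventually_atTop.1 hev
  have hc01 : ∀ k, c0 k * (1 - c0 k) ≠ 0 := by
    intro k h0
    have h3 : c k * (1 - c k) = 0 := by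
      rw [← hc0' k]
      have := congrArg (fun x : K => (x : Kbar)) h0
      push_cast at this
      exact this
    rcases mul_eq_zero.1 h3 with h4 | h4
    · exact hc0 k h4
    · exact hc1 k (sub_eq_zero.1 h4).symm
  have hτ00 : ∀ k, constantCoeff (τ0 k) = 0 := by
    intro k
    have h3 := hτ0' k 0
    rw [coeff_zero_eq_constantCoeff_apply, coeff_zero_eq_constantCoeff_apply, hτ0 k] at h3
    exact_mod_cast h3
  have hid0 : ∀ k a b, (if k = i ∧ a = 1 ∧ b = 0 then (1 : Kbar) else 0) =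
      (if k = j then (θ0 a b : Kbar) else 0) +
        ∑ α, (y0 α : Kbar) * flP (fun j => algebraMap K Kbar (c0 j))
          (fun j => PowerSeries.map (algebraMap K Kbar) (τ0 j)) (Q α) (nn α) k a b := by
    intro k a b
    rw [hcf, hτf, hid k a b, hθ0]
    simp only [hy0]
  have key : SnD (C (c0 i) + τ0 i) (C (c0 j) + τ0 j) = 0 := by
    refine PowerSeries.ext fun n => ?_
    rw [map_zero]
    apply iot_zero K
    intro P1
    obtain ⟨p, hp, h4, hF, ⟨ι⟩⟩ := emb K (max P0 P1)
    refine ⟨p, lt_of_le_of_lt (le_max_right _ _) hp, hF, ι, ?_⟩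
    obtain ⟨g1, g2, g3, g4, g5, g6⟩ := hP0 p ((le_max_left _ _).trans hp.le) hF
    exact dicA p h4 K ι c0 τ0 hτ00 i j hij g1 hc01 g2 g3 g4 Q nn hQK g5 g6 y0 θ0 hid0 n
  have h5 := congrArg (PowerSeries.map (algebraMap K Kbar)) key
  rw [dic_map_SnD, map_add, map_add, map_C, map_C, map_zero] at h5
  have h6 : ∀ k, PowerSeries.map (algebraMap K Kbar) (τ0 k) = τ k := fun k => congrFun hτf k
  have h7 : ∀ k, algebraMap K Kbar (c0 k) = c k := fun k => congrFun hcf k
  rw [h6, h6, h7, h7] at h5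
  exact h5

end Pool.Agent.H64.PV
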