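import Pool.Agent.H64.PV.PDef
import Pool.Agent.H61.QF.Pl

/-!
# PV.Iot : integrality under embeddings

PROOFS. `iot`: `x ∈ LocInt p` means: there is `s : ℕ`, `p ∤ s`, with `s x` integral over `ℤ`; then `ι (s x) = s ι x` is integral over `ℤ` (transport the monic polynomial through `K → Kbar` injective and `ι`), so `‖s ι x‖ ≤ 1` (an element of `ℚ_p` integral over `ℤ` has norm `≤ 1`: `‖y‖ > 1` and `y^n = -∑ a_i y^i` contradict the ultrametric inequality; or `ℤ_p` is integrally closed), and `‖s‖ = 1`. `iot_zero`: if `x ≠ 0` then `x⁻¹ ∈ LocInt p` for all large `p`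
(`eventually_mem` in `H61/QF/Pl.lean`), so `‖(ι x)⁻¹‖ ≤ 1` for large `p`, contradicting `‖ι x‖ < 1`.
-/

set_option autoImplicit false

namespace Pool.Agent.H64.PV

open Pool.H61.QF Pool.Agent.H64.LG

/-- an element of `ℚ_p` integral over `ℤ` has norm at most one -/
private theorem iot_norm_le (p : ℕ) [Fact p.Prime] (y : ℚ_[p]) (hy : IsIntegral ℤ y) : ‖y‖ ≤ 1 := by
  have h1 : IsIntegral ℤ_[p] y := hy.tower_top
  obtain ⟨z, hz⟩ := (IsIntegrallyClosed.isIntegral_iff (R := ℤ_[p]) (K := ℚ_[p])).1 h1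
  rw [← hz]
  exact z.2

theorem iot (p : ℕ) [Fact p.Prime] (K : IntermediateField ℚ Kbar) (ι : K →+* ℚ_[p]) (x : K)
    (hx : (x : Kbar) ∈ LocInt p) : ‖ι x‖ ≤ 1 := by
  obtain ⟨s, hs, hint⟩ := hx
  have h1 : IsIntegral ℤ (((s : K) * x : K) : Kbar) := by
    have e : (((s : K) * x : K) : Kbar) = (s : Kbar) * (x : Kbar) := by
      push_cast
      rfl
    rw [e]
    exact hint
  have h2 : IsIntegral ℤ ((s : K) * x) :=
    (isIntegral_algebraMap_iff (algebraMap K Kbar).injective).1 h1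
  have h3 : IsIntegral ℤ (ι ((s : K) * x)) := h2.map ι.toIntAlgHom
  have h4 := iot_norm_le p _ h3
  rw [map_mul, map_natCast, norm_mul] at h4
  have h5 : ‖((s : ℕ) : ℚ_[p])‖ = 1 := by
    rw [Padic.norm_natCast_eq_one_iff]
    exact ((Fact.out : p.Prime).coprime_iff_not_dvd.2 hs)
  rwa [h5, one_mul] at h4

theorem iot_zero (K : IntermediateField ℚ Kbar) (x : K)
    (h : ∀ P0 : ℕ, ∃ p : ℕ, P0 < p ∧ ∃ _ : Fact p.Prime, ∃ ι : K →+* ℚ_[p], ‖ι x‖ < 1) : x = 0 := by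
  by_contra hx
  obtain ⟨P0, hP0⟩ := eventually_mem ((x⁻¹ : K) : Kbar)
  obtain ⟨p, hp, hF, ι, hι⟩ := h P0
  have h1 : ((x⁻¹ : K) : Kbar) ∈ LocInt p := hP0 p hp.le
  have h2 := iot p K ι x⁻¹ h1
  have h3 : ι x * ι x⁻¹ = 1 := by
    rw [← map_mul, mul_inv_cancel₀ hx, map_one]
  have h4 : ‖ι x‖ * ‖ι x⁻¹‖ = 1 := by
    rw [← norm_mul, h3, norm_one]
  have h5 : ‖ι x‖ * ‖ι x⁻¹‖ ≤ ‖ι x‖ := mul_le_of_le_one_right (norm_nonneg _) h2
  linarith

end Pool.Agent.H64.PV
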