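import Pool.Agent.H64.PV.Fun

/-!
# PV.Lft : polynomials with coefficients over a number field

PROOF. `r = algebraMap K Kbar` (injective). For every `m` the series `(Q.coeff m : PowerSeries Kbar)` is `map r` of a (unique) series over `K` (`hQ`); `Q0 = ∑_{m ∈ support Q} monomial m (..)`, so `MvPolynomial.map (PowerSeries.map r) Q0 = MvPolynomial.map A0.subtype Q`. `map_evF` for `r`: `map r (evF c0 τ0 Q0) = evF c τ (map (map r) Q0) = evF c τ (MvPolynomial.map A0.subtype Q) = evP c τ Q` (`dg_eq`, `eval₂_map`). The last claim in the same way with `map_DP`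
(`DPK (Pi.single j (Em i k)) = DP ..` with entries `cst (Em i k a b)`, `A0.subtype (cst x) = C x`, and `C 1 = 1`, `C 0 = 0`).
-/

set_option autoImplicit false

namespace Pool.Agent.H64.PV

open Pool.H61.QF Pool.Agent.H64.LG PowerSeries

theorem lft (K : IntermediateField ℚ Kbar) {J : Type} [DecidableEq J] (c0 : J → K)
    (τ0 : J → PowerSeries K) (hτ0 : ∀ j, constantCoeff (τ0 j) = 0) (Q : MvPolynomial (J × Ff) A0)
    (hQ : ∀ m n, coeff n ((Q.coeff m : A0) : PowerSeries Kbar) ∈ K) :
    ∃ Q0 : MvPolynomial (J × Ff) (PowerSeries K),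
      (∀ m, PowerSeries.map (algebraMap K Kbar) (Q0.coeff m) = ((Q.coeff m : A0) : PowerSeries Kbar)) ∧
      PowerSeries.map (algebraMap K Kbar) (evF c0 τ0 Q0) =
        evP (fun j => algebraMap K Kbar (c0 j)) (fun j => PowerSeries.map (algebraMap K Kbar) (τ0 j)) Q ∧
      ∀ j i k, PowerSeries.map (algebraMap K Kbar)
          (evF c0 τ0 (DP (Pi.single j fun a b => if a = i ∧ b = k then 1 else 0) Q0)) =
        evP (fun j => algebraMap K Kbar (c0 j)) (fun j => PowerSeries.map (algebraMap K Kbar) (τ0 j))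
          (DPK (Pi.single j (Em i k)) Q) := by
  classical
  have hq0 : ∀ m, PowerSeries.map (algebraMap K Kbar)
      (PowerSeries.mk fun n => (⟨coeff n ((Q.coeff m : A0) : PowerSeries Kbar), hQ m n⟩ : K)) =
        ((Q.coeff m : A0) : PowerSeries Kbar) := by
    intro m
    ext n
    rw [PowerSeries.coeff_map, PowerSeries.coeff_mk]
    rfl
  obtain ⟨q0, hq⟩ : ∃ q0 : ((J × Ff) →₀ ℕ) → PowerSeries K, ∀ m,
      PowerSeries.map (algebraMap K Kbar) (q0 m) = ((Q.coeff m : A0) : PowerSeries Kbar) :=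
    ⟨_, hq0⟩
  have hinj : Function.Injective (PowerSeries.map (algebraMap K Kbar)) :=
    PowerSeries.map_injective _ (algebraMap K Kbar).injective
  have hq00 : ∀ m, m ∉ Q.support → q0 m = 0 := by
    intro m hm
    apply hinj
    rw [hq, MvPolynomial.notMem_support_iff.1 hm, map_zero]
    rfl
  have hQ0 : ∀ m, (∑ m ∈ Q.support, MvPolynomial.monomial m (q0 m) :
      MvPolynomial (J × Ff) (PowerSeries K)).coeff m = q0 m := by
    intro m
    rw [MvPolynomial.coeff_sum]
    simp only [MvPolynomial.coeff_monomial]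
    rw [Finset.sum_ite_eq']
    split_ifs with h
    · rfl
    · exact (hq00 m h).symm
  obtain ⟨Q0, hQ0'⟩ : ∃ Q0 : MvPolynomial (J × Ff) (PowerSeries K), ∀ m, Q0.coeff m = q0 m :=
    ⟨_, hQ0⟩
  have hmap : MvPolynomial.map (PowerSeries.map (algebraMap K Kbar)) Q0 =
      MvPolynomial.map A0.subtype Q := by
    ext1 m
    rw [MvPolynomial.coeff_map, MvPolynomial.coeff_map, hQ0', hq]
    rfl
  have hev : ∀ P : MvPolynomial (J × Ff) A0,
      evP (fun j => algebraMap K Kbar (c0 j)) (fun j => PowerSeries.map (algebraMap K Kbar) (τ0 j)) P =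
        evF (fun j => algebraMap K Kbar (c0 j)) (fun j => PowerSeries.map (algebraMap K Kbar) (τ0 j))
          (MvPolynomial.map A0.subtype P) := by
    intro P
    unfold evP evF
    rw [MvPolynomial.coe_eval₂Hom, MvPolynomial.coe_eval₂Hom, MvPolynomial.eval₂_map, RingHom.id_comp]
    simp only [dg_eq]
  refine ⟨Q0, fun m => by rw [hQ0', hq], ?_, fun j i k => ?_⟩
  · rw [map_evF _ _ _ hτ0, hmap, hev]
  · rw [map_evF _ _ _ hτ0, map_DP, hmap, hev, DPK, map_DP]
    have hfun : (fun (j' : J) (i' k' : Fin 2) => PowerSeries.map (algebraMap K Kbar)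
        ((Pi.single j (fun a b => if a = i ∧ b = k then 1 else 0) :
          J → Fin 2 → Fin 2 → PowerSeries K) j' i' k')) =
        fun (j' : J) (i' k' : Fin 2) => A0.subtype (cst
          ((Pi.single j (Em i k) : J → Fin 2 → Fin 2 → Kbar) j' i' k')) := by
      funext j' i' k'
      rcases eq_or_ne j' j with rfl | hj
      · rw [Pi.single_eq_same, Pi.single_eq_same, Em]
        split_ifs
        · rw [map_one, map_one, map_one]
        · rw [map_zero, map_zero, map_zero]
      · rw [Pi.single_eq_of_ne hj, Pi.single_eq_of_ne hj, Pi.zero_apply, Pi.zero_apply,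
          Pi.zero_apply, Pi.zero_apply, map_zero, map_zero, map_zero]
    rw [hfun]

end Pool.Agent.H64.PV
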