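import Pool.Agent.H64.PV.Pad
import Pool.Agent.H64.PV.Lft
import Pool.Agent.H64.PV.Iot

/-!
# PV.DicA : transfer to one prime

PROOF. `c, τ` as in the statement (images in `Kbar`). By `iot` (norm `≤ 1`) there are `c' k ∈ ℤ_p`, `s k ∈ ℤ_p[[X]]` with `(c' k : ℚ_p) = ι (c0 k)`, `map q (s k) = map ι (τ0 k)` (`q = PadicInt.Coe.ringHom`); `c' k (1 - c' k)` is a unit (it and its inverse have norm `≤ 1`, and `c0 k (1 - c0 k) ≠ 0`), `constantCoeff (s k) = 0`, and the coefficient `n` of `dd (s k)` from `hd` has norm `1`, so its reduction is `≠ 0`. Apply `pad` to `i, j`.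
SECOND alternative: `map q (SnD (C (c' i) + s i) ..) = map ι (SnD (C (c0 i) + τ0 i) ..)` (ring homomorphisms commute with `dd`, `ax`, `Sn`), and `p ∣ x` implies `‖x‖ ≤ 1/p < 1`. FIRST alternative is impossible: let `N` be given. For every `α : A`, `lft` gives `Q0 α`; `Qp α = MvPolynomial.map (PowerSeries.map ι) (Q0 α)` has coefficients in `Bd p` (all norms `≤ 1` by `iot` and `hQi`), and
`evF (ι c0) (map ι τ0) (Qp α) = map ι (evF c0 τ0 (Q0 α))` (`map_evF`) is in `Bd p` by `hev`. So `evF (DP (C N) (Qp α)) = 0`; by `evF_DP`, `map_DP`, `map_evF` its coefficient `nn α` is `∑_{k,a,b} N k a b * ι (x α k a b)`, where `x α k a b = coeff (nn α) (evF c0 τ0 (DP (single k (E a b)) (Q0 α))) ∈ K` has image `flP c τ (Q α) (nn α) k a b` in `Kbar`. `hid` is an identity in `Kbar` between elements of `K`, so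
it holds in `K`; apply `ι`, multiply by `N k a b` and sum over `k, a, b`: `N i 1 0 = ∑_{a,b} N j a b ι (θ a b) + ∑_α ι (y α) * 0 = 0`. Contradiction.
-/

set_option autoImplicit false

namespace Pool.Agent.H64.PV

open Pool.H61.QF Pool.Agent.H64.LG PowerSeries

private lemma DicA_map_dd {R S : Type} [CommRing R] [CommRing S] (φ : R →+* S) (f : PowerSeries R) :
    PowerSeries.map φ (dd f) = dd (PowerSeries.map φ f) := by
  ext n
  simp [dd, PowerSeries.coeff_derivative]

private lemma DicA_map_SnD {R S : Type} [CommRing R] [CommRing S] (φ : R →+* S)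
    (f g : PowerSeries R) :
    PowerSeries.map φ (SnD f g) = SnD (PowerSeries.map φ f) (PowerSeries.map φ g) := by
  simp only [SnD, Sn, ax, map_sub, map_mul, map_add, map_pow, DicA_map_dd, map_one, map_ofNat]

private lemma DicA_norm_one (p : ℕ) [Fact p.Prime] (K : IntermediateField ℚ Kbar)
    (ι : K →+* ℚ_[p]) (x : K) (hx : x ≠ 0) (h : ‖ι x‖ ≤ 1)
    (hi : ((x : K) : Kbar)⁻¹ ∈ LocInt p) : ‖ι x‖ = 1 := by
  have h1 : ((x⁻¹ : K) : Kbar) ∈ LocInt p := by
    have e : ((x⁻¹ : K) : Kbar) = ((x : K) : Kbar)⁻¹ := by simp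
    rw [e]
    exact hi
  have h2 := iot p K ι _ h1
  rw [map_inv₀, norm_inv] at h2
  have h3 : 0 < ‖ι x‖ := norm_pos_iff.2 ((map_ne_zero ι).2 hx)
  have h4 : 1 ≤ ‖ι x‖ := by
    rw [inv_le_one₀ h3] at h2
    exact h2
  exact le_antisymm h h4

theorem dicA (p : ℕ) [Fact p.Prime] (h4 : p % 4 = 1) (K : IntermediateField ℚ Kbar) (ι : K →+* ℚ_[p])
    {J : Type} [Fintype J] [DecidableEq J] (c0 : J → K) (τ0 : J → PowerSeries K)
    (hτ0 : ∀ j, constantCoeff (τ0 j) = 0) (i j : J) (hij : i ≠ j)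
    (hc : ∀ k, (c0 k : Kbar) ∈ LocInt p) (hc01 : ∀ k, c0 k * (1 - c0 k) ≠ 0)
    (hci : ∀ k, ((c0 k : Kbar) * (1 - (c0 k : Kbar)))⁻¹ ∈ LocInt p)
    (hτ : ∀ k n, ((coeff n (τ0 k) : K) : Kbar) ∈ LocInt p)
    (hd : ∀ k, ∃ n, coeff n (dd (τ0 k)) ≠ 0 ∧ ((coeff n (dd (τ0 k)) : K) : Kbar)⁻¹ ∈ LocInt p)
    {A : Type} [Fintype A] (Q : A → MvPolynomial (J × Ff) A0) (nn : A → ℕ)
    (hQK : ∀ α m n, coeff n (((Q α).coeff m : A0) : PowerSeries Kbar) ∈ K)
    (hQi : ∀ α m n, coeff n (((Q α).coeff m : A0) : PowerSeries Kbar) ∈ LocInt p)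
    (hev : ∀ α n, coeff n (evP (fun j => algebraMap K Kbar (c0 j))
      (fun j => PowerSeries.map (algebraMap K Kbar) (τ0 j)) (Q α)) ∈ LocInt p)
    (y : A → K) (θ : Fin 2 → Fin 2 → K)
    (hid : ∀ k a b, (if k = i ∧ a = 1 ∧ b = 0 then (1 : Kbar) else 0) =
      (if k = j then (θ a b : Kbar) else 0) +
        ∑ α, (y α : Kbar) * flP (fun j => algebraMap K Kbar (c0 j))
          (fun j => PowerSeries.map (algebraMap K Kbar) (τ0 j)) (Q α) (nn α) k a b) (n : ℕ) :
    ‖ι (coeff n (SnD (C (c0 i) + τ0 i) (C (c0 j) + τ0 j)))‖ < 1 := by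
  classical
  have hιc : ∀ k, ‖ι (c0 k)‖ ≤ 1 := fun k => iot p K ι _ (hc k)
  have hιτ : ∀ k n, ‖ι (coeff n (τ0 k))‖ ≤ 1 := fun k n => iot p K ι _ (hτ k n)
  set cp : J → ℤ_[p] := fun k => ⟨ι (c0 k), hιc k⟩ with hcp
  set sp : J → PowerSeries ℤ_[p] := fun k => PowerSeries.mk fun n => ⟨ι (coeff n (τ0 k)), hιτ k n⟩
    with hsp
  have hcc : ∀ k, ((cp k : ℤ_[p]) : ℚ_[p]) = ι (c0 k) := fun k => rfl
  have hss : ∀ k, PowerSeries.map PadicInt.Coe.ringHom (sp k) = PowerSeries.map ι (τ0 k) := by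
    intro k
    ext n
    simp only [coeff_map, hsp, coeff_mk]
    rfl
  have hunit : ∀ k, IsUnit (cp k * (1 - cp k)) := by
    intro k
    rw [PadicInt.isUnit_iff]
    have e : ((cp k * (1 - cp k) : ℤ_[p]) : ℚ_[p]) = ι (c0 k * (1 - c0 k)) := by
      rw [PadicInt.coe_mul, PadicInt.coe_sub, PadicInt.coe_one, hcc, map_mul, map_sub, map_one]
    rw [PadicInt.norm_def, e]
    apply DicA_norm_one p K ι _ (hc01 k)
    · rw [← e, ← PadicInt.norm_def]
      exact PadicInt.norm_le_one _
    · have h := hci k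
      simpa using h
  have hs0 : ∀ k, constantCoeff (sp k) = 0 := by
    intro k
    rw [← coeff_zero_eq_constantCoeff_apply]
    simp only [hsp, coeff_mk]
    apply Subtype.ext
    show ι (coeff 0 (τ0 k)) = 0
    rw [coeff_zero_eq_constantCoeff_apply, hτ0 k, map_zero]
  have hs1 : ∀ k, PowerSeries.map PadicInt.toZMod (dd (sp k)) ≠ 0 := by
    intro k h0
    obtain ⟨m, hm1, hm2⟩ := hd k
    have e : ((coeff m (dd (sp k)) : ℤ_[p]) : ℚ_[p]) = ι (coeff m (dd (τ0 k))) := by
      have h := congrArg (coeff m) (congrArg dd (hss k))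
      rw [← DicA_map_dd, ← DicA_map_dd, coeff_map, coeff_map] at h
      exact h
    have h1 : ‖ι (coeff m (dd (τ0 k)))‖ = 1 := by
      apply DicA_norm_one p K ι _ hm1 _ hm2
      rw [← e, ← PadicInt.norm_def]
      exact PadicInt.norm_le_one _
    have h2 := congrArg (coeff m) h0
    rw [coeff_map, map_zero] at h2
    have h3 : coeff m (dd (sp k)) ∈ RingHom.ker (PadicInt.toZMod : ℤ_[p] →+* ZMod p) := h2
    rw [PadicInt.ker_toZMod, IsLocalRing.mem_maximalIdeal, mem_nonunits_iff,
      PadicInt.isUnit_iff, PadicInt.norm_def, e] at h3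
    exact h3 h1
  rcases pad p h4 cp hunit sp hs0 hs1 i j hij with ⟨N, hNj, hNi, hN⟩ | hdvd
  · exfalso
    choose Q0 hQ1 hQ2 hQ3 using fun α => lft K c0 τ0 hτ0 (Q α) (hQK α)
    have hevp : ∀ P : MvPolynomial (J × Ff) (PowerSeries K),
        evF (fun k => ((cp k : ℤ_[p]) : ℚ_[p]))
          (fun k => PowerSeries.map PadicInt.Coe.ringHom (sp k))
          (MvPolynomial.map (PowerSeries.map ι) P) = PowerSeries.map ι (evF c0 τ0 P) := by
      intro P
      rw [map_evF ι c0 τ0 hτ0 P]
      simp only [hss]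
      rfl
    have hz : ∀ α, evF (fun k => ((cp k : ℤ_[p]) : ℚ_[p]))
        (fun k => PowerSeries.map PadicInt.Coe.ringHom (sp k))
        (DP (fun k a b => C (N k a b)) (MvPolynomial.map (PowerSeries.map ι) (Q0 α))) = 0 := by
      intro α
      apply hN
      · intro m
        rw [Bd_iff]
        refine ⟨0, fun n' => ?_⟩
        rw [MvPolynomial.coeff_map, coeff_map, pow_zero]
        apply iot
        have h := congrArg (coeff n') (hQ1 α m)
        rw [coeff_map] at h
        have h' : ((coeff n' ((Q0 α).coeff m) : K) : Kbar) =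
          coeff n' (((Q α).coeff m : A0) : PowerSeries Kbar) := h
        rw [h']
        exact hQi α m n'
      · rw [hevp, Bd_iff]
        refine ⟨0, fun n' => ?_⟩
        rw [coeff_map, pow_zero]
        apply iot
        have h := congrArg (coeff n') (hQ2 α)
        rw [coeff_map] at h
        have h' : ((coeff n' (evF c0 τ0 (Q0 α)) : K) : Kbar) =
          coeff n' (evP (fun j => algebraMap K Kbar (c0 j))
            (fun j => PowerSeries.map (algebraMap K Kbar) (τ0 j)) (Q α)) := h
        rw [h']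
        exact hev α n'
    set x : A → J → Fin 2 → Fin 2 → K := fun α k a b =>
      coeff (nn α) (evF c0 τ0 (DP (Pi.single k fun a' b' => if a' = a ∧ b' = b then 1 else 0)
        (Q0 α))) with hx
    have hsum : ∀ α, ∑ k, ∑ a : Fin 2, ∑ b : Fin 2, N k a b * ι (x α k a b) = 0 := by
      intro α
      have h := hz α
      rw [evF_DP] at h
      have h' := congrArg (coeff (nn α)) h
      rw [map_zero, map_sum] at h'
      rw [← h']
      refine Finset.sum_congr rfl fun k _ => ?_
      rw [map_sum]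
      refine Finset.sum_congr rfl fun a _ => ?_
      rw [map_sum]
      refine Finset.sum_congr rfl fun b _ => ?_
      rw [coeff_C_mul]
      congr 1
      have e : (Pi.single k fun a' b' => if a' = a ∧ b' = b then (1 : PowerSeries ℚ_[p]) else 0 :
          J → Fin 2 → Fin 2 → PowerSeries ℚ_[p]) = fun k' a' b' => PowerSeries.map ι
          ((Pi.single k fun a' b' => if a' = a ∧ b' = b then (1 : PowerSeries K) else 0 :
            J → Fin 2 → Fin 2 → PowerSeries K) k' a' b') := by
        funext k' a' b'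
        by_cases hk : k' = k
        · subst hk
          simp only [Pi.single_eq_same]
          split_ifs <;> simp
        · rw [Pi.single_eq_of_ne hk, Pi.single_eq_of_ne hk]
          simp
      rw [e, ← map_DP (PowerSeries.map ι), hevp, coeff_map]
    have hxf : ∀ α k a b, ((x α k a b : K) : Kbar) =
        flP (fun j => algebraMap K Kbar (c0 j))
          (fun j => PowerSeries.map (algebraMap K Kbar) (τ0 j)) (Q α) (nn α) k a b := by
      intro α k a b
      have h := congrArg (coeff (nn α)) (hQ3 α k a b)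
      rw [coeff_map] at h
      exact h
    have hidK : ∀ k a b, (if k = i ∧ a = 1 ∧ b = 0 then (1 : K) else 0) =
        (if k = j then θ a b else 0) + ∑ α, y α * x α k a b := by
      intro k a b
      apply Subtype.ext
      have h := hid k a b
      simp only [← hxf] at h
      push_cast
      split_ifs at h ⊢ <;> simpa using h
    have hidp : ∀ k a b, (if k = i ∧ a = 1 ∧ b = 0 then (1 : ℚ_[p]) else 0) =
        (if k = j then ι (θ a b) else 0) + ∑ α, ι (y α) * ι (x α k a b) := by
      intro k a b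
      have h := congrArg ι (hidK k a b)
      rw [map_add, map_sum, apply_ite ι, apply_ite ι, map_one, map_zero] at h
      simp only [map_mul] at h
      exact h
    have h1 : ∑ k, ∑ a : Fin 2, ∑ b : Fin 2, N k a b *
        (if k = i ∧ a = 1 ∧ b = 0 then (1 : ℚ_[p]) else 0) = N i 1 0 := by
      rw [Finset.sum_eq_single i]
      · simp [Fin.sum_univ_two]
      · intro k _ hk
        simp [hk]
      · intro h
        exact absurd (Finset.mem_univ _) h
    have h2 : ∑ k, ∑ a : Fin 2, ∑ b : Fin 2, N k a b * (if k = j then ι (θ a b) else 0) = 0 := by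
      refine Finset.sum_eq_zero fun k _ => Finset.sum_eq_zero fun a _ =>
        Finset.sum_eq_zero fun b _ => ?_
      by_cases hk : k = j
      · rw [hk, hNj]
        simp
      · rw [if_neg hk, mul_zero]
    have h3 : ∑ k, ∑ a : Fin 2, ∑ b : Fin 2, N k a b * ∑ α, ι (y α) * ι (x α k a b) = 0 := by
      have h4 : ∀ α, ∑ k, ∑ a : Fin 2, ∑ b : Fin 2, N k a b * (ι (y α) * ι (x α k a b)) = 0 := by
        intro α
        have h5 := congrArg (fun z => ι (y α) * z) (hsum α)
        simp only [Finset.mul_sum, mul_zero] at h5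
        rw [← h5]
        refine Finset.sum_congr rfl fun k _ => Finset.sum_congr rfl fun a _ =>
          Finset.sum_congr rfl fun b _ => ?_
        ring
      simp only [Finset.mul_sum]
      have h6 : ∀ k a, ∑ b : Fin 2, ∑ α, N k a b * (ι (y α) * ι (x α k a b)) =
          ∑ α, ∑ b : Fin 2, N k a b * (ι (y α) * ι (x α k a b)) := fun k a => Finset.sum_comm
      simp only [h6]
      have h7 : ∀ k, ∑ a : Fin 2, ∑ α, ∑ b : Fin 2, N k a b * (ι (y α) * ι (x α k a b)) =
          ∑ α, ∑ a : Fin 2, ∑ b : Fin 2, N k a b * (ι (y α) * ι (x α k a b)) :=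
        fun k => Finset.sum_comm
      simp only [h7]
      rw [Finset.sum_comm]
      exact Finset.sum_eq_zero fun α _ => h4 α
    apply hNi
    rw [← h1]
    simp only [hidp, mul_add, Finset.sum_add_distrib]
    rw [h2, h3, add_zero]
  · have e : ((coeff n (SnD (C (cp i) + sp i) (C (cp j) + sp j)) : ℤ_[p]) : ℚ_[p]) =
        ι (coeff n (SnD (C (c0 i) + τ0 i) (C (c0 j) + τ0 j))) := by
      have h1 : PowerSeries.map PadicInt.Coe.ringHom (SnD (C (cp i) + sp i) (C (cp j) + sp j)) =
          PowerSeries.map ι (SnD (C (c0 i) + τ0 i) (C (c0 j) + τ0 j)) := by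
        rw [DicA_map_SnD, DicA_map_SnD, map_add, map_add, map_add, map_add, hss, hss]
        simp only [map_C]
        rfl
      have h2 := congrArg (coeff n) h1
      rw [coeff_map, coeff_map] at h2
      exact h2
    rw [← e, ← PadicInt.norm_def, PadicInt.norm_lt_one_iff_dvd]
    exact hdvd n

end Pool.Agent.H64.PV
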