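import Pool.Agent.H64.PV.PDef

/-!
# PV.Dpm : a relation with bounded error becomes proportionality modulo p

PROOF. Let `‖coeff n g‖ ≤ p^M` and write `a_n`, `b_n` for the coefficients of `w₁`, `w₂`. For `s, m`: `n = p^s (m + 1) - 1`; `coeff n (dd g) = p^s (m + 1) coeff (n + 1) g` has norm `≤ p^(M - s)`. Also `coeff m (Ct^[s] f) = coeff (p^s (m + 1) - 1) f` (induction: `p (p^s (m+1) - 1) + p - 1 = p^(s+1) (m + 1) - 1`) and `Ct (C ε * f) = C ε * Ct f`, so `coeff n (w̄₁) = ε₁^s coeff m (w̄₁)` and the same for `w̄₂`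
(bars: reduction, `toZMod`). Let `s = M + 1`, so for all `m`: `a_n - x b_n` has norm `≤ 1/p`, `n = p^s (m+1) - 1`. CASE `‖x‖ ≤ 1`: `x ∈ ℤ_p`, reduce: `ε₁^s coeff m w̄₁ = x̄ ε₂^s coeff m w̄₂` for all `m`. `x̄ ≠ 0` as `w̄₁ ≠ 0`, `ρ = x̄ ε₂^s / ε₁^s`. CASE `‖x‖ > 1`: then `‖x⁻¹‖ ≤ 1/p` and `b_n - x⁻¹ a_n` has norm `≤ 1/p`, so `‖b_n‖ ≤ 1/p`, so `ε₂^s coeff m w̄₂ = 0` for all `m`, a contradiction. (`toZMod z = 0 ↔ ‖z‖ < 1`.)
-/

set_option autoImplicit false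

namespace Pool.Agent.H64.PV

open Pool.H61.QF Pool.Agent.H64.LG PowerSeries

theorem dpm_ct {p : ℕ} [Fact p.Prime] (f : PowerSeries (ZMod p)) (s : ℕ) :
    ∀ m, coeff m (Ct^[s] f) = coeff (p ^ s * (m + 1) - 1) f := by
  induction s with
  | zero => intro m; simp
  | succ s ih =>
    intro m
    have hp : 0 < p := (Fact.out : p.Prime).pos
    rw [Function.iterate_succ_apply', Ct, coeff_mk, ih]
    congr 1
    have e : p * m + (p - 1) + 1 = p * (m + 1) := by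
      rw [mul_add, mul_one]; omega
    rw [e, ← mul_assoc, ← pow_succ]

theorem dpm_C {p : ℕ} [Fact p.Prime] (ε : ZMod p) (f : PowerSeries (ZMod p)) :
    Ct (C ε * f) = C ε * Ct f := by
  ext m
  rw [Ct, coeff_mk, coeff_C_mul, coeff_C_mul, Ct, coeff_mk]

theorem dpm_it {p : ℕ} [Fact p.Prime] (ε : ZMod p) (f : PowerSeries (ZMod p))
    (h : Ct f = C ε * f) (s : ℕ) : Ct^[s] f = C (ε ^ s) * f := by
  induction s with
  | zero => simp
  | succ s ih =>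
    rw [Function.iterate_succ_apply', ih, dpm_C, h, ← mul_assoc, ← map_mul, ← pow_succ]

theorem dpm_z {p : ℕ} [Fact p.Prime] (z : ℤ_[p]) (h : ‖z‖ < 1) : PadicInt.toZMod z = 0 := by
  rw [← RingHom.mem_ker, PadicInt.ker_toZMod, IsLocalRing.mem_maximalIdeal]
  exact PadicInt.mem_nonunits.2 h

theorem dpm (p : ℕ) [Fact p.Prime] (w₁ w₂ : PowerSeries ℤ_[p]) (ε₁ ε₂ : ZMod p) (hε₁ : ε₁ ≠ 0)
    (hε₂ : ε₂ ≠ 0)
    (h1 : Ct (PowerSeries.map PadicInt.toZMod w₁) = C ε₁ * PowerSeries.map PadicInt.toZMod w₁)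
    (h2 : Ct (PowerSeries.map PadicInt.toZMod w₂) = C ε₂ * PowerSeries.map PadicInt.toZMod w₂)
    (n1 : PowerSeries.map PadicInt.toZMod w₁ ≠ 0) (n2 : PowerSeries.map PadicInt.toZMod w₂ ≠ 0)
    (x : ℚ_[p]) (g : PowerSeries ℚ_[p]) (hg : g ∈ Bd p)
    (h : PowerSeries.map PadicInt.Coe.ringHom w₁ =
      C x * PowerSeries.map PadicInt.Coe.ringHom w₂ + dd g) :
    ∃ ρ : ZMod p, ρ ≠ 0 ∧
      PowerSeries.map PadicInt.toZMod w₁ = C ρ * PowerSeries.map PadicInt.toZMod w₂ := by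
  have hp : 0 < p := (Fact.out : p.Prime).pos
  have hp1 : (1 : ℝ) < p := by exact_mod_cast (Fact.out : p.Prime).one_lt
  obtain ⟨M, hM⟩ := (Bd_iff p g).1 hg
  set s := M + 1 with hs
  have A1 : ∀ m, ε₁ ^ s * PadicInt.toZMod (coeff m w₁) =
      PadicInt.toZMod (coeff (p ^ s * (m + 1) - 1) w₁) := by
    intro m
    have e := dpm_ct (PowerSeries.map PadicInt.toZMod w₁) s m
    rw [dpm_it ε₁ _ h1 s, coeff_C_mul, coeff_map, coeff_map] at e
    exact e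
  have A2 : ∀ m, ε₂ ^ s * PadicInt.toZMod (coeff m w₂) =
      PadicInt.toZMod (coeff (p ^ s * (m + 1) - 1) w₂) := by
    intro m
    have e := dpm_ct (PowerSeries.map PadicInt.toZMod w₂) s m
    rw [dpm_it ε₂ _ h2 s, coeff_C_mul, coeff_map, coeff_map] at e
    exact e
  have B : ∀ m, ‖((coeff (p ^ s * (m + 1) - 1) w₁ : ℤ_[p]) : ℚ_[p]) -
      x * ((coeff (p ^ s * (m + 1) - 1) w₂ : ℤ_[p]) : ℚ_[p])‖ < 1 := by
    intro m
    have hpos : 0 < p ^ s * (m + 1) := by positivity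
    have e := congrArg (coeff (p ^ s * (m + 1) - 1)) h
    rw [map_add, coeff_map, coeff_C_mul, coeff_map, dd, coeff_derivative] at e
    have e1 : ((coeff (p ^ s * (m + 1) - 1) w₁ : ℤ_[p]) : ℚ_[p]) -
      x * ((coeff (p ^ s * (m + 1) - 1) w₂ : ℤ_[p]) : ℚ_[p]) =
        coeff (p ^ s * (m + 1) - 1 + 1) g * (((p ^ s * (m + 1) - 1 : ℕ) : ℚ_[p]) + 1) := by
      rw [sub_eq_iff_eq_add]
      exact e.trans (add_comm _ _)
    rw [e1, norm_mul]
    have e2 : (((p ^ s * (m + 1) - 1 : ℕ) : ℚ_[p]) + 1) = (p : ℚ_[p]) ^ s * ((m + 1 : ℕ) : ℚ_[p]) := by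
      have e3 : (p ^ s * (m + 1) - 1) + 1 = p ^ s * (m + 1) := by omega
      have e4 : (((p ^ s * (m + 1) - 1) + 1 : ℕ) : ℚ_[p]) = ((p ^ s * (m + 1) : ℕ) : ℚ_[p]) :=
        congrArg _ e3
      rw [Nat.cast_add, Nat.cast_one] at e4
      rw [e4]
      push_cast
      ring
    rw [e2, norm_mul, norm_pow, Padic.norm_p]
    have h5 : ‖((m + 1 : ℕ) : ℚ_[p])‖ ≤ 1 := by
      have := Padic.norm_int_le_one (p := p) ((m + 1 : ℕ) : ℤ)
      simpa using this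
    calc ‖coeff (p ^ s * (m + 1) - 1 + 1) g‖ * ((p : ℝ)⁻¹ ^ s * ‖((m + 1 : ℕ) : ℚ_[p])‖)
        ≤ (p : ℝ) ^ M * ((p : ℝ)⁻¹ ^ s * 1) := by
          apply mul_le_mul (hM _) _ (by positivity) (by positivity)
          exact mul_le_mul_of_nonneg_left h5 (by positivity)
      _ = (p : ℝ)⁻¹ := by
          rw [hs, mul_one, inv_pow, pow_succ]
          field_simp
      _ < 1 := inv_lt_one_of_one_lt₀ hp1
  by_cases hx : ‖x‖ ≤ 1
  · set X : ℤ_[p] := ⟨x, hx⟩ with hX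
    have D : ∀ m, ε₁ ^ s * PadicInt.toZMod (coeff m w₁) =
        PadicInt.toZMod X * (ε₂ ^ s * PadicInt.toZMod (coeff m w₂)) := by
      intro m
      rw [A1, A2, ← map_mul, ← sub_eq_zero, ← map_sub]
      apply dpm_z
      have hB := B m
      rw [PadicInt.norm_def, PadicInt.coe_sub, PadicInt.coe_mul]
      exact hB
    have hne : ε₁ ^ s ≠ 0 := pow_ne_zero _ hε₁
    have F : PowerSeries.map PadicInt.toZMod w₁ =
        C ((ε₁ ^ s)⁻¹ * (PadicInt.toZMod X * ε₂ ^ s)) * PowerSeries.map PadicInt.toZMod w₂ := by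
      ext m
      rw [coeff_C_mul, coeff_map, coeff_map, mul_assoc, mul_assoc, ← D m, ← mul_assoc,
        inv_mul_cancel₀ hne, one_mul]
    refine ⟨_, ?_, F⟩
    intro h0
    rw [h0, map_zero, zero_mul] at F
    exact n1 F
  · exfalso
    rw [not_le] at hx
    apply n2
    ext m
    rw [coeff_map, map_zero]
    have hne : ε₂ ^ s ≠ 0 := pow_ne_zero _ hε₂
    have h6 : PadicInt.toZMod (coeff (p ^ s * (m + 1) - 1) w₂) = 0 := by
      apply dpm_z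
      by_contra h7
      rw [not_lt] at h7
      have h8 : ‖x * ((coeff (p ^ s * (m + 1) - 1) w₂ : ℤ_[p]) : ℚ_[p])‖ ≤ 1 := by
        have e : x * ((coeff (p ^ s * (m + 1) - 1) w₂ : ℤ_[p]) : ℚ_[p]) =
          ((coeff (p ^ s * (m + 1) - 1) w₁ : ℤ_[p]) : ℚ_[p]) -
          (((coeff (p ^ s * (m + 1) - 1) w₁ : ℤ_[p]) : ℚ_[p]) -
            x * ((coeff (p ^ s * (m + 1) - 1) w₂ : ℤ_[p]) : ℚ_[p])) := by ring
        rw [e]
        rw [sub_eq_add_neg]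
        refine (IsUltrametricDist.norm_add_le_max _ _).trans (max_le ?_ ?_)
        · exact PadicInt.norm_le_one _
        · rw [norm_neg]; exact (B m).le
      rw [norm_mul] at h8
      have h9 : ‖x‖ * 1 ≤ ‖x‖ * ‖((coeff (p ^ s * (m + 1) - 1) w₂ : ℤ_[p]) : ℚ_[p])‖ :=
        mul_le_mul_of_nonneg_left h7 (norm_nonneg _)
      linarith
    have h7 := A2 m
    rw [h6] at h7
    rcases mul_eq_zero.1 h7 with h8 | h8
    · exact absurd h8 hne
    · exact h8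

end Pool.Agent.H64.PV
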