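import Pool.Agent.H64.PV.CarP
import Pool.Agent.H64.PV.CarS

/-!
# PV.Eig : an eigenvector of the Cartier operator

PROOF. `h = HP (ZMod p) m`, `m = (p - 1) / 2`, `h(κ) = aeval κ h`, `c = constantCoeff κ`, `a = aK c m` `= constantCoeff (h(κ))` (`hp_eval`), `e = cb m ^ (p - 3)`. Let `D = ax κ * h(κ) * y^2`, all four factors `κ, 1 - κ, h(κ), y` have nonzero constant coefficients (so `≠ 0`, in fact units). CLAIM `D^p * w = C (C0 * a^2) * (h(κ)^(p-2) (ax κ)^(p-1)) * dd κ`. Indeed `D^p w = (ax κ)^(p-1) h(κ)^p y^(2p) (ax κ w)`; multiply by `y^2`: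
`y^2 D^p w = (ax κ)^(p-1) h(κ)^p y^(2p) C C0 κ'` (`hw`), and `C (a^2) y^2 = h(κ)^2 y^(2p)` (`hy` squared), so `C (a^2) y^2 * (claimed right side) = ..`: `y^2 * C (C0 a^2) h(κ)^(p-2) (ax κ)^(p-1) κ' = C C0 h(κ)^p y^(2p) (ax κ)^(p-1) κ'`. Cancel `y^2`. By `carP`, applied to `κ` (`aeval κ`): `h(κ)^(p-2) (ax κ)^(p-1) κ' = κ^(p-1) κ' (C e h(κ))^p + S'(κ) κ'` and `S'(κ) κ' = dd (aeval κ S)` (chain rule
`Derivation.leibniz`, `Polynomial` induction, or `derivative` and `aeval`). Apply `Ct`: left `D * Ct w` (`Ct_pow`), right `C (C0 a^2) * C e * h(κ) * κ'` (`Ct_C`, `Ct_add`, `Ct_pow`, `Ct_kap`, `Ct_der`). Cancel `h(κ)`: `ax κ y^2 Ct w = C (e a^2) * C C0 κ' = C (e a^2) * w * ax κ y^2` (`hw`). Cancel `ax κ y^2`.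
-/

set_option autoImplicit false

namespace Pool.Agent.H64.PV

open Pool.H61.QF Pool.Agent.H64.LG PowerSeries

private theorem eig_cc {p : ℕ} [Fact p.Prime] (κ : PowerSeries (ZMod p))
    (P : Polynomial (ZMod p)) :
    constantCoeff (Polynomial.aeval κ P) = P.eval (constantCoeff κ) := by
  induction P using Polynomial.induction_on' with
  | add P Q hP hQ => rw [map_add, map_add, hP, hQ, Polynomial.eval_add]
  | monomial n r =>
    rw [Polynomial.aeval_monomial, map_mul, map_pow, Polynomial.eval_monomial]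
    congr 1

theorem eig (p : ℕ) [Fact p.Prime] (h5 : 5 ≤ p) (κ y w : PowerSeries (ZMod p)) (C0 : ZMod p)
    (h0 : constantCoeff κ ≠ 0) (h1 : constantCoeff κ ≠ 1)
    (hh : aK (constantCoeff κ) ((p - 1) / 2) ≠ 0) (hy1 : constantCoeff y = 1)
    (hy : C (aK (constantCoeff κ) ((p - 1) / 2)) * y =
      Polynomial.aeval κ (HP (ZMod p) ((p - 1) / 2)) * y ^ p)
    (hw : w * ax κ * y ^ 2 = C C0 * dd κ) :
    Ct w = C (cb (ZMod p) ((p - 1) / 2) ^ (p - 3) * aK (constantCoeff κ) ((p - 1) / 2) ^ 2) * w := by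
  obtain ⟨S, hS⟩ := carP p h5
  set h : Polynomial (ZMod p) := HP (ZMod p) ((p - 1) / 2) with hh0
  set a : ZMod p := aK (constantCoeff κ) ((p - 1) / 2) with ha
  set e : ZMod p := cb (ZMod p) ((p - 1) / 2) ^ (p - 3) with he
  clear_value e
  obtain ⟨H, hH⟩ : ∃ H, H = Polynomial.aeval κ h := ⟨_, rfl⟩
  have hHc : constantCoeff H = a := by
    rw [hH, eig_cc, hh0, hp_eval]
  rw [← hH] at hy
  have hH0 : H ≠ 0 := by
    intro h2
    rw [h2, map_zero] at hHc
    exact hh hHc.symm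
  have hy0 : y ≠ 0 := by
    intro h2
    rw [h2, map_zero] at hy1
    exact zero_ne_one hy1
  have hA0 : ax κ ≠ 0 := by
    unfold ax
    refine mul_ne_zero ?_ ?_
    · intro h2
      rw [h2, map_zero] at h0
      exact h0 rfl
    · intro h2
      have h3 := congrArg constantCoeff h2
      rw [map_sub, map_one, map_zero] at h3
      exact h1 (sub_eq_zero.1 h3).symm
  have e1 : ax κ ^ p = ax κ ^ (p - 1) * ax κ := by
    rw [← pow_succ]
    congr 1
    omega
  have e2 : H ^ p = H ^ (p - 2) * H ^ 2 := by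
    rw [← pow_add]
    congr 1
    omega
  have e3 : (ax κ * H * y ^ 2) ^ p * w =
      C (a ^ 2 * C0) * (H ^ (p - 2) * ax κ ^ (p - 1) * dd κ) := by
    have e4 : (y ^ 2) ^ p = (y ^ p) ^ 2 := by rw [← pow_mul, ← pow_mul, mul_comm]
    rw [mul_pow, mul_pow, e1, e2, e4, map_mul, map_pow]
    linear_combination (ax κ ^ (p - 1) * H ^ (p - 2) * C a ^ 2) * hw -
      (ax κ ^ (p - 1) * H ^ (p - 2) * ax κ * w * (C a * y + H * y ^ p)) * hy
  have e5 : H ^ (p - 2) * ax κ ^ (p - 1) * dd κ =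
      (C e * H) ^ p * (κ ^ (p - 1) * dd κ) + dd (Polynomial.aeval κ S) := by
    have e6 := congrArg (Polynomial.aeval κ) hS
    have e7 : (Polynomial.aeval κ) (Polynomial.C e) = C e := by
      rw [Polynomial.aeval_C]
      rfl
    rw [map_mul, map_pow, map_pow, map_mul, map_sub, map_one, map_add, map_mul, map_pow, map_pow,
      map_mul, Polynomial.aeval_X, e7, ← hH] at e6
    have e8 : dd (Polynomial.aeval κ S) = Polynomial.aeval κ (Polynomial.derivative S) * dd κ := by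
      unfold dd
      rw [Derivation.map_aeval, smul_eq_mul]
    have e9 : κ * (1 - κ) = ax κ := rfl
    rw [e9] at e6
    rw [e8, e6]
    ring
  have e10 := congrArg Ct e3
  rw [Ct_pow, Ct_C, e5, Ct_add, Ct_pow, Ct_kap, Ct_der, add_zero] at e10
  have e11 : (H * (ax κ * y ^ 2)) * Ct w = (H * (ax κ * y ^ 2)) * (C (e * a ^ 2) * w) := by
    rw [map_mul, map_pow]
    rw [map_mul, map_pow] at e10
    linear_combination e10 - (C e * C a ^ 2 * H) * hw
  exact mul_left_cancel₀ (mul_ne_zero hH0 (mul_ne_zero hA0 (pow_ne_zero _ hy0))) e11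

end Pool.Agent.H64.PV
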