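import Pool.Agent.H64.PV.Ad
import Pool.Agent.H64.PV.PDk

/-!
# PV.Elm : elimination of a family

PROOF. The set of the `g` with `dd (τ i) ^ d * g` in the range of the evaluation at the other families, for some `d`, is closed under sums and products; it contains the constants and the values of all variables.
-/

set_option autoImplicit false

namespace Pool.Agent.H64.PV

open Pool.H61.QF Pool.Agent.H64.LG PowerSeries

theorem elm {J : Type} [DecidableEq J] (c : J → Kbar) (τ : J → PowerSeries Kbar)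
    (hτ : ∀ j, τ j ∈ A0) (hτ0 : ∀ j, constantCoeff (τ j) = 0) (i j : J) (hij : j ≠ i)
    (ϑ : PowerSeries Kbar) (hϑ : ϑ ∈ A0) (m : Fin 2 → Fin 2 → Kbar)
    (h : ∀ b, (gs (c i) b).subst (τ i) = ϑ * ∑ a : Fin 2, C (m b a) * (gs (c j) a).subst (τ j))
    (Q : MvPolynomial (J × Ff) A0) :
    ∃ (d : ℕ) (Q' : MvPolynomial ({k : J // k ≠ i} × Ff) A0),
      dd (τ i) ^ d * evP c τ Q = evP (fun k : {k : J // k ≠ i} => c k.1) (fun k => τ k.1) Q' := by
  have ddmul : ∀ f g : PowerSeries Kbar, dd (f * g) = f * dd g + g * dd f := fun f g => by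
    have := Derivation.leibniz (PowerSeries.derivative Kbar) f g
    simpa [smul_eq_mul] using this
  set E := evP (fun k : {k : J // k ≠ i} => c k.1) (fun k => τ k.1) with hE
  suffices hs : ∃ d : ℕ, dd (τ i) ^ d * evP c τ Q ∈ E.range by
    obtain ⟨d, Q', hQ'⟩ := hs
    exact ⟨d, Q', hQ'.symm⟩
  have hA : ∀ f : PowerSeries Kbar, f ∈ A0 → f ∈ E.range := fun f hf =>
    ⟨MvPolynomial.C ⟨f, hf⟩, evP_C _ _ _⟩
  have hX : ∀ (k : J) (_ : k ≠ i) (x : Ff), (dg (c k) x).subst (τ k) ∈ E.range := fun k hk x =>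
    ⟨MvPolynomial.X (⟨k, hk⟩, x), evP_X _ _ _⟩
  have hg : ∀ a : Fin 2, (gs (c j) a).subst (τ j) ∈ E.range := fun a => by
    have h1 := hX j hij (a, 0)
    have h2 : dg (c j) (a, 0) = gs (c j) a := by simp [dg]
    rwa [h2] at h1
  have hg' : ∀ a : Fin 2, (dd (gs (c j) a)).subst (τ j) ∈ E.range := fun a => by
    have h1 := hX j hij (a, 1)
    have h2 : dg (c j) (a, 1) = dd (gs (c j) a) := by simp [dg]
    rwa [h2] at h1
  have hdi : dd (τ i) ∈ E.range := hA _ (A0_dd (hτ i))
  have hdj : dd (τ j) ∈ E.range := hA _ (A0_dd (hτ j))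
  have hC : ∀ x : Kbar, (C x : PowerSeries Kbar) ∈ E.range := fun x => hA _ (cst_mem x)
  have hmul : ∀ f g : PowerSeries Kbar, (∃ d : ℕ, dd (τ i) ^ d * f ∈ E.range) →
      (∃ d : ℕ, dd (τ i) ^ d * g ∈ E.range) → ∃ d : ℕ, dd (τ i) ^ d * (f * g) ∈ E.range := by
    rintro f g ⟨d, hd⟩ ⟨d', hd'⟩
    refine ⟨d + d', ?_⟩
    have := mul_mem hd hd'
    rwa [show dd (τ i) ^ d * f * (dd (τ i) ^ d' * g) = dd (τ i) ^ (d + d') * (f * g) by ring] at this
  have hvar : ∀ x : J × Ff, ∃ d : ℕ, dd (τ i) ^ d * (dg (c x.1) x.2).subst (τ x.1) ∈ E.range := by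
    rintro ⟨k, b, l⟩
    by_cases hk : k = i
    · subst hk
      have hb : (gs (c k) b).subst (τ k) ∈ E.range := by
        rw [h b]
        exact mul_mem (hA _ hϑ) (sum_mem fun a _ => mul_mem (hC _) (hg a))
      by_cases hl : l = 0
      · refine ⟨0, ?_⟩
        have h2 : dg (c k) (b, l) = gs (c k) b := by simp [dg, hl]
        rw [pow_zero, one_mul]
        show (dg (c k) (b, l)).subst (τ k) ∈ E.range
        rw [h2]
        exact hb
      · refine ⟨1, ?_⟩
        have h2 : dg (c k) (b, l) = dd (gs (c k) b) := by simp [dg, hl]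
        rw [pow_one]
        show dd (τ k) * (dg (c k) (b, l)).subst (τ k) ∈ E.range
        rw [h2]
        have h3 : dd (τ k) * (dd (gs (c k) b)).subst (τ k) = dd ((gs (c k) b).subst (τ k)) := by
          rw [mul_comm]
          exact (PowerSeries.derivative_subst (HasSubst.of_constantCoeff_zero' (hτ0 k))).symm
        rw [h3, h b]
        have h4 : dd (ϑ * ∑ a : Fin 2, C (m b a) * (gs (c j) a).subst (τ j)) =
            dd ϑ * (∑ a : Fin 2, C (m b a) * (gs (c j) a).subst (τ j)) +
              ϑ * ∑ a : Fin 2, C (m b a) * ((dd (gs (c j) a)).subst (τ j) * dd (τ j)) := by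
          have h5 : ∀ a : Fin 2, dd (C (m b a) * (gs (c j) a).subst (τ j)) =
              C (m b a) * ((dd (gs (c j) a)).subst (τ j) * dd (τ j)) := by
            intro a
            have h6 : dd ((gs (c j) a).subst (τ j)) = (dd (gs (c j) a)).subst (τ j) * dd (τ j) :=
              PowerSeries.derivative_subst (HasSubst.of_constantCoeff_zero' (hτ0 j))
            have h7 : dd (C (m b a) : PowerSeries Kbar) = 0 := PowerSeries.derivative_C
            rw [ddmul, h6, h7, mul_zero, add_zero]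
          have h8 : dd (∑ a : Fin 2, C (m b a) * (gs (c j) a).subst (τ j)) =
              ∑ a : Fin 2, C (m b a) * ((dd (gs (c j) a)).subst (τ j) * dd (τ j)) := by
            have h9 := map_sum (PowerSeries.derivative Kbar)
              (fun a : Fin 2 => C (m b a) * (gs (c j) a).subst (τ j)) Finset.univ
            exact h9.trans (Finset.sum_congr rfl fun a _ => h5 a)
          rw [ddmul, h8]
          ring
        rw [h4]
        exact add_mem
          (mul_mem (hA _ (A0_dd hϑ)) (sum_mem fun a _ => mul_mem (hC _) (hg a)))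
          (mul_mem (hA _ hϑ) (sum_mem fun a _ => mul_mem (hC _) (mul_mem (hg' a) hdj)))
    · exact ⟨0, by rw [pow_zero, one_mul]; exact hX k hk (b, l)⟩
  induction Q using MvPolynomial.induction_on with
  | C a => exact ⟨0, by rw [pow_zero, one_mul, evP_C]; exact hA _ a.2⟩
  | add p q hp hq =>
    obtain ⟨d, hd⟩ := hp
    obtain ⟨d', hd'⟩ := hq
    refine ⟨d + d', ?_⟩
    have := add_mem (mul_mem (pow_mem hdi d') hd) (mul_mem (pow_mem hdi d) hd')
    rw [map_add]
    rwa [show dd (τ i) ^ d' * (dd (τ i) ^ d * evP c τ p) + dd (τ i) ^ d * (dd (τ i) ^ d' * evP c τ q) =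
      dd (τ i) ^ (d + d') * (evP c τ p + evP c τ q) by ring] at this
  | mul_X p n hp =>
    rw [map_mul, evP_X]
    exact hmul _ _ hp (hvar n)

end Pool.Agent.H64.PV
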