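import Pool.Agent.H64.PV.PDef

/-!
# PV.EmbA : infinitely many primes modulo which a polynomial has a simple root

PROOF. `f` irreducible over `ℚ`, so separable: `A f + B f' = D` with `A, B ∈ ℤ[X]`, `D ∈ ℤ`, `D ≠ 0` (clear denominators in a Bezout relation over `ℚ`). There are infinitely many primes dividing some value `f(n)`, `n ∈ ℤ` (`f` not constant): let `q_1, .., q_r` be finitely many primes (those `≤ P0 + |D|`); if `f(0) = 0` every prime divides `f(0)`; otherwise let `a = f(0)`, `f(a N x) = a (1 + N x (..))` with `N = q_1 ⋯ q_r`,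
`f(a N x) / a = 1 mod N` for all `x ∈ ℤ`, and for large `x` it is not `±1` (a non constant polynomial takes each value finitely often), so it has a prime divisor `p`, not one of the `q_i`. (Search Mathlib first: `Polynomial.exists_primes..`.) So `p > P0`, `p` does not divide `D`, `p ∣ f(n)`, so `p` does not divide `f'(n)`. Hensel's lemma (`hensels_lemma` in `NumberTheory/Padics/Hensel`): `‖f(n)‖ < 1 = ‖f'(n)‖^2` gives a root in `ℤ_p`.
-/

set_option autoImplicit false

namespace Pool.Agent.H64.PV

open Pool.H61.QF Pool.Agent.H64.LG PowerSeries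

private theorem embA_bez (f : Polynomial ℤ) (hf : Irreducible (f.map (Int.castRingHom ℚ))) :
    ∃ (D : ℤ) (A B : Polynomial ℤ), D ≠ 0 ∧
      A * f + B * Polynomial.derivative f = Polynomial.C D := by
  have hsep : (f.map (Int.castRingHom ℚ)).Separable := hf.separable
  obtain ⟨a, b, hab⟩ := hsep
  obtain ⟨s, hs, hs2⟩ := IsLocalization.integerNormalization_spec (nonZeroDivisors ℤ) a
  obtain ⟨t, ht, ht2⟩ := IsLocalization.integerNormalization_spec (nonZeroDivisors ℤ) b
  set A := IsLocalization.integerNormalization (nonZeroDivisors ℤ) a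
  set B := IsLocalization.integerNormalization (nonZeroDivisors ℤ) b
  have hs0 : s ≠ 0 := nonZeroDivisors.ne_zero hs
  have ht0 : t ≠ 0 := nonZeroDivisors.ne_zero ht
  refine ⟨s * t, Polynomial.C t * A, Polynomial.C s * B, mul_ne_zero hs0 ht0, ?_⟩
  apply Polynomial.map_injective (Int.castRingHom ℚ) (RingHom.injective_int _)
  rw [algebraMap_int_eq] at hs2 ht2
  rw [Polynomial.map_add, Polynomial.map_mul, Polynomial.map_mul, Polynomial.map_mul,
    Polynomial.map_mul, Polynomial.map_C, Polynomial.map_C, Polynomial.map_C, hs2, ht2,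
    ← Polynomial.derivative_map]
  rw [zsmul_eq_mul, zsmul_eq_mul]
  simp only [map_mul, eq_intCast, map_intCast]
  linear_combination ((s : Polynomial ℚ) * (t : Polynomial ℚ)) * hab

private theorem embA_primes (f : Polynomial ℤ) (hdeg : 0 < f.natDegree) (m : ℕ) :
    ∃ (p : ℕ) (n : ℤ), m < p ∧ p.Prime ∧ (p : ℤ) ∣ f.eval n := by
  by_cases h0 : f.eval 0 = 0
  · obtain ⟨p, hp1, hp2⟩ := Nat.exists_infinite_primes (m + 1)
    exact ⟨p, 0, by omega, hp2, by rw [h0]; exact dvd_zero _⟩
  · set a := f.eval 0 with ha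
    set N : ℤ := (m.factorial : ℤ) with hN
    have hN0 : N ≠ 0 := by
      rw [hN]
      exact_mod_cast Nat.factorial_ne_zero m
    have haN : a * N ≠ 0 := mul_ne_zero h0 hN0
    set g := f.comp (Polynomial.C (a * N) * Polynomial.X) with hg
    have hgdeg : g.natDegree = f.natDegree := by
      rw [hg, Polynomial.natDegree_comp, Polynomial.natDegree_C_mul_X _ haN, mul_one]
    have hge : ∀ x, g.eval x = f.eval (a * N * x) := by
      intro x
      rw [hg, Polynomial.eval_comp, Polynomial.eval_mul, Polynomial.eval_C, Polynomial.eval_X]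
    have hne : ∀ c : ℤ, g - Polynomial.C c ≠ 0 := by
      intro c h
      have h1 : g = Polynomial.C c := sub_eq_zero.1 h
      rw [h1, Polynomial.natDegree_C] at hgdeg
      omega
    have hfin : Set.Finite {x : ℤ | g.eval x = a ∨ g.eval x = -a} := by
      refine ((Polynomial.finite_setOfPred_isRoot (hne a)).union
        (Polynomial.finite_setOfPred_isRoot (hne (-a)))).subset ?_
      rintro x (hx | hx)
      · left
        change Polynomial.eval x _ = 0
        rw [Polynomial.eval_sub, Polynomial.eval_C, hx, sub_self]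
      · right
        change Polynomial.eval x _ = 0
        rw [Polynomial.eval_sub, Polynomial.eval_C, hx, sub_self]
    obtain ⟨x, hx⟩ := hfin.infinite_compl.nonempty
    have hx' : ¬ (g.eval x = a ∨ g.eval x = -a) := hx
    obtain ⟨t, ht⟩ := Polynomial.sub_dvd_eval_sub (a * N * x) 0 f
    rw [sub_zero, ← ha] at ht
    have hfu : f.eval (a * N * x) = a * (1 + N * x * t) := by
      linear_combination ht
    have hu : (1 + N * x * t).natAbs ≠ 1 := by
      intro h
      rcases Int.natAbs_eq_iff.1 h with h1 | h1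
      · apply hx'
        left
        rw [hge, hfu, h1]
        push_cast
        ring
      · apply hx'
        right
        rw [hge, hfu, h1]
        push_cast
        ring
    obtain ⟨p, hp, hpd⟩ := Nat.exists_prime_and_dvd hu
    have hpd' : (p : ℤ) ∣ 1 + N * x * t := Int.natCast_dvd.2 hpd
    refine ⟨p, a * N * x, ?_, hp, ?_⟩
    · by_contra hcon
      push Not at hcon
      have h1 : p ∣ m.factorial := (Nat.Prime.dvd_factorial hp).2 hcon
      have h2 : (p : ℤ) ∣ N := by
        rw [hN]
        exact_mod_cast h1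
      have h3 : (p : ℤ) ∣ 1 := by
        have h4 : (1 : ℤ) = (1 + N * x * t) - N * (x * t) := by ring
        rw [h4]
        exact dvd_sub hpd' (Dvd.dvd.mul_right h2 _)
      have h5 : p ∣ 1 := by exact_mod_cast h3
      exact hp.one_lt.ne' (Nat.dvd_one.1 h5)
    · rw [hfu]
      exact Dvd.dvd.mul_left hpd' _

theorem embA (f : Polynomial ℤ) (hf : Irreducible (f.map (Int.castRingHom ℚ))) (P0 : ℕ) :
    ∃ p : ℕ, P0 < p ∧ ∃ _ : Fact p.Prime, ∃ x : ℤ_[p], Polynomial.aeval x f = 0 := by
  obtain ⟨D, A, B, hD, hAB⟩ := embA_bez f hf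
  have hdeg : 0 < f.natDegree := by
    have h1 : 0 < (f.map (Int.castRingHom ℚ)).natDegree :=
      Polynomial.natDegree_pos_iff_degree_pos.2 (Polynomial.degree_pos_of_irreducible hf)
    exact lt_of_lt_of_le h1 Polynomial.natDegree_map_le
  obtain ⟨p, n, hp1, hp2, hp3⟩ := embA_primes f hdeg (P0 + D.natAbs)
  have hpD : ¬ (p : ℤ) ∣ D := by
    intro h
    have h1 : p ∣ D.natAbs := Int.natCast_dvd.1 h
    have h2 := Nat.le_of_dvd (Int.natAbs_pos.2 hD) h1
    omega
  have hpd : ¬ (p : ℤ) ∣ (Polynomial.derivative f).eval n := by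
    intro h
    apply hpD
    have h1 := congrArg (Polynomial.eval n) hAB
    rw [Polynomial.eval_add, Polynomial.eval_mul, Polynomial.eval_mul, Polynomial.eval_C] at h1
    rw [← h1]
    exact dvd_add (Dvd.dvd.mul_left hp3 _) (Dvd.dvd.mul_left h _)
  have hfact : Fact p.Prime := ⟨hp2⟩
  refine ⟨p, by omega, hfact, ?_⟩
  have hev : ∀ g : Polynomial ℤ, Polynomial.aeval ((n : ℤ) : ℤ_[p]) g = ((g.eval n : ℤ) : ℤ_[p]) := by
    intro g
    have h := Polynomial.aeval_algebraMap_apply ℤ_[p] n g
    rw [algebraMap_int_eq, eq_intCast, eq_intCast, Polynomial.coe_aeval_eq_eval] at h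
    exact h
  have hlt : ‖Polynomial.aeval ((n : ℤ) : ℤ_[p]) f‖ <
      ‖Polynomial.aeval ((n : ℤ) : ℤ_[p]) (Polynomial.derivative f)‖ ^ 2 := by
    rw [hev, hev]
    have h1 : ‖((f.eval n : ℤ) : ℤ_[p])‖ < 1 := PadicInt.norm_intCast_lt_one_iff.2 hp3
    have h2 : ‖(((Polynomial.derivative f).eval n : ℤ) : ℤ_[p])‖ = 1 := by
      rcases lt_or_eq_of_le (PadicInt.norm_le_one (((Polynomial.derivative f).eval n : ℤ) : ℤ_[p])) with h | h
      · exact absurd (PadicInt.norm_intCast_lt_one_iff.1 h) hpd
      · exact h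
    rw [h2, one_pow]
    exact h1
  obtain ⟨z, hz, _⟩ := hensels_lemma hlt
  exact ⟨z, hz⟩

end Pool.Agent.H64.PV
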