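import Pool.Agent.H64.PV.Exu
import Pool.Agent.H64.LG.Rec

/-!
# PV.Exp : power series solutions of the pulled back equation

PROOFS. `od_gs`: `g = gs c b` satisfies `Leg c g` (`leg_iff`, `gs_rec` in `LG/Rec.lean`). `y = g(τ)`, `y' = g'(τ) τ'`, `y'' = g''(τ) τ'^2 + g'(τ) τ''` (`PowerSeries.derivative_subst`), `κ = C c + τ`, `dd κ = τ'`, `dd (ax κ) = τ' (1 - 2 κ)`, so the left side of `OD` is `4 τ'^3 (ax κ g''(τ) + (1 - 2 κ) g'(τ)) = τ'^3 g(τ)` (substitute `τ` into `Leg`). `od_lin`: `OD` is linear over constants. `od_two`: let `G_b = (gs c b).subst τ`: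
`coeff 0 G_0 = 1`, `coeff 0 G_1 = 0`, `coeff e G_1 = coeff e τ ≠ 0` (`gs c 1 = X + O(X^2)`, `gs_init`). Choose `α = coeff 0 y`, `β = (coeff e y - α coeff e G_0) / coeff e G_1`, apply `exu` to `y - C α G_0 - C β G_1`.
-/

set_option autoImplicit false

namespace Pool.Agent.H64.PV

open Pool.H61.QF Pool.Agent.H64.LG PowerSeries

private theorem exp_ddC (c : Kbar) : dd (C c : PowerSeries Kbar) = 0 := derivative_C

private theorem exp_ddm (f g : PowerSeries Kbar) : dd (f * g) = f * dd g + g * dd f := by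
  show derivative Kbar (f * g) = _
  rw [Derivation.leibniz, smul_eq_mul, smul_eq_mul]

private theorem exp_dda (f g : PowerSeries Kbar) : dd (f + g) = dd f + dd g := map_add _ f g

private theorem exp_dds (f g : PowerSeries Kbar) : dd (f - g) = dd f - dd g := map_sub _ f g

private theorem exp_dd1 : dd (1 : PowerSeries Kbar) = 0 := by
  have h := exp_ddC 1
  rwa [map_one] at h

private theorem exp_sub {τ : PowerSeries Kbar} (hτ : HasSubst τ) (f : PowerSeries Kbar) :
    dd (f.subst τ) = (dd f).subst τ * dd τ := derivative_subst hτ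

private theorem exp_cc {τ : PowerSeries Kbar} (r : Kbar) :
    (C r : PowerSeries Kbar).subst τ = C r := subst_C r

private theorem exp_leg {c : Kbar} {τ g : PowerSeries Kbar} (hτ : HasSubst τ) (hg : Leg c g) :
    (C c + τ) * (1 - (C c + τ)) * (dd (dd g)).subst τ + (1 - 2 * (C c + τ)) * (dd g).subst τ -
      C (1 / 4) * g.subst τ = 0 := by
  unfold Leg at hg
  have h := congrArg (substAlgHom (R := Kbar) hτ) hg
  simp only [map_sub, map_add, map_mul, map_one, map_ofNat, map_zero] at h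
  simp only [coe_substAlgHom, subst_X hτ, exp_cc] at h
  exact h

private theorem exp_const {τ : PowerSeries Kbar} (hτ0 : constantCoeff τ = 0) (f : PowerSeries Kbar) :
    constantCoeff (f.subst τ) = constantCoeff f := by
  have hτ : HasSubst τ := HasSubst.of_constantCoeff_zero' hτ0
  have h1 : X ∣ f - C (constantCoeff f) := by
    rw [X_dvd_iff, map_sub, constantCoeff_C, sub_self]
  obtain ⟨h, hh⟩ := h1
  have h2 : f = C (constantCoeff f) + X * h := by rw [← hh]; ring
  have h3 : f.subst τ = C (constantCoeff f) + τ * h.subst τ := by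
    conv_lhs => rw [h2]
    rw [subst_add hτ, subst_mul hτ, subst_X hτ, exp_cc]
  rw [h3, map_add, map_mul, hτ0, zero_mul, add_zero, constantCoeff_C]

theorem od_gs (c : Kbar) (hc0 : c ≠ 0) (hc1 : c ≠ 1) (τ : PowerSeries Kbar)
    (hτ0 : constantCoeff τ = 0) (b : Fin 2) : OD (C c + τ) ((gs c b).subst τ) := by
  have hτ : HasSubst τ := HasSubst.of_constantCoeff_zero' hτ0
  have hg : Leg c (gs c b) := (leg_iff c _).2 fun n => gs_rec c hc0 hc1 b n
  have hL := exp_leg hτ hg
  have hq : (4 : PowerSeries Kbar) * C (1 / 4) = 1 := by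
    have h4 : (4 : PowerSeries Kbar) = C 4 := (map_ofNat _ 4).symm
    rw [h4, ← map_mul]
    norm_num
  unfold OD ax
  have e1 : dd ((gs c b).subst τ) = (dd (gs c b)).subst τ * dd τ := exp_sub hτ _
  have e2 : dd (dd ((gs c b).subst τ)) =
      (dd (gs c b)).subst τ * dd (dd τ) + dd τ * ((dd (dd (gs c b))).subst τ * dd τ) := by
    rw [e1, exp_ddm, exp_sub hτ]
  have e3 : dd (C c + τ) = dd τ := by rw [exp_dda, exp_ddC, zero_add]
  have e4 : dd ((C c + τ) * (1 - (C c + τ))) = (C c + τ) * (0 - dd τ) + (1 - (C c + τ)) * dd τ := by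
    rw [exp_ddm, exp_dds, exp_dd1, e3]
  rw [e2, e1, e4, e3]
  linear_combination (4 * dd τ ^ 3) * hL + (dd τ ^ 3 * (gs c b).subst τ) * hq

theorem od_lin (κ y₁ y₂ : PowerSeries Kbar) (h1 : OD κ y₁) (h2 : OD κ y₂) (α β : Kbar) :
    OD κ (C α * y₁ + C β * y₂) := by
  unfold OD at h1 h2 ⊢
  have e1 : dd (C α * y₁ + C β * y₂) = C α * dd y₁ + C β * dd y₂ := by
    rw [exp_dda, exp_ddm, exp_ddm, exp_ddC, exp_ddC]
    ring
  have e2 : dd (dd (C α * y₁ + C β * y₂)) = C α * dd (dd y₁) + C β * dd (dd y₂) := by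
    rw [e1, exp_dda, exp_ddm, exp_ddm, exp_ddC, exp_ddC]
    ring
  rw [e2, e1]
  linear_combination (C α) * h1 + (C β) * h2

theorem od_two (c : Kbar) (hc0 : c ≠ 0) (hc1 : c ≠ 1) (τ : PowerSeries Kbar) (e : ℕ) (he : 1 ≤ e)
    (hτe : ∀ n, n < e → coeff n τ = 0) (hσ : coeff e τ ≠ 0) (y : PowerSeries Kbar)
    (hy : OD (C c + τ) y) :
    ∃ α β : Kbar, y = C α * (gs c 0).subst τ + C β * (gs c 1).subst τ := by
  have hτ0 : constantCoeff τ = 0 := by
    rw [← coeff_zero_eq_constantCoeff_apply]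
    exact hτe 0 (by omega)
  have hτ : HasSubst τ := HasSubst.of_constantCoeff_zero' hτ0
  obtain ⟨i1, i2, i3, i4⟩ := gs_init c
  rw [coeff_zero_eq_constantCoeff_apply] at i1 i3
  have g0 : coeff 0 ((gs c 0).subst τ : PowerSeries Kbar) = 1 := by
    rw [coeff_zero_eq_constantCoeff_apply, exp_const hτ0, i1]
  have g1 : coeff 0 ((gs c 1).subst τ : PowerSeries Kbar) = 0 := by
    rw [coeff_zero_eq_constantCoeff_apply, exp_const hτ0, i3]
  have ge : coeff e ((gs c 1).subst τ : PowerSeries Kbar) = coeff e τ := by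
    obtain ⟨h, hh⟩ := X_dvd_iff.2 i3
    obtain ⟨σ, hs⟩ := X_pow_dvd_iff.2 hτe
    have h1 : constantCoeff h = 1 := by
      rw [hh, show (1 : ℕ) = 0 + 1 from rfl, coeff_succ_X_mul, coeff_zero_eq_constantCoeff_apply] at i4
      exact i4
    have h2 : (gs c 1).subst τ = X ^ e * (σ * h.subst τ) := by
      rw [hh, subst_mul hτ, subst_X hτ]
      conv_lhs => rw [show τ * (h.subst τ : PowerSeries Kbar) = (h.subst τ : PowerSeries Kbar) * τ from mul_comm _ _]
      conv_lhs => rw [show (h.subst τ : PowerSeries Kbar) * τ = (h.subst τ : PowerSeries Kbar) * (X ^ e * σ) from by rw [← hs]]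
      ring
    have h3 : coeff e τ = constantCoeff σ := by
      conv_lhs => rw [hs]
      have h4 := coeff_X_pow_mul σ e 0
      rw [zero_add, coeff_zero_eq_constantCoeff_apply] at h4
      exact h4
    have h5 := coeff_X_pow_mul (σ * (h.subst τ : PowerSeries Kbar)) e 0
    rw [zero_add, coeff_zero_eq_constantCoeff_apply] at h5
    have h6 : constantCoeff (σ * (h.subst τ : PowerSeries Kbar)) = constantCoeff σ := by
      rw [map_mul, exp_const hτ0, h1, mul_one]
    rw [h2, h3, h5, h6]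
  have hne : coeff e ((gs c 1).subst τ : PowerSeries Kbar) ≠ 0 := by rw [ge]; exact hσ
  generalize hG0 : (gs c 0).subst τ = G0 at g0
  generalize hG1 : (gs c 1).subst τ = G1 at g1 ge hne
  have o0 : OD (C c + τ) G0 := by
    rw [← hG0]
    exact od_gs c hc0 hc1 τ hτ0 0
  have o1 : OD (C c + τ) G1 := by
    rw [← hG1]
    exact od_gs c hc0 hc1 τ hτ0 1
  refine ⟨coeff 0 y, (coeff e y - coeff 0 y * coeff e G0) / coeff e G1, ?_⟩
  generalize hβ : (coeff e y - coeff 0 y * coeff e G0) / coeff e G1 = β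
  have hβ' : β * coeff e G1 = coeff e y - coeff 0 y * coeff e G0 := by
    rw [← hβ, div_mul_cancel₀ _ hne]
  have hz := od_lin _ _ _ hy (od_lin _ _ _ o0 o1 (coeff 0 y) β) 1 (-1)
  have hz0 := exu c hc0 hc1 τ e he hτe hσ _ hz
    (by
      rw [map_add, coeff_C_mul, coeff_C_mul, map_add, coeff_C_mul, coeff_C_mul, g0, g1]
      ring)
    (by
      rw [map_add, coeff_C_mul, coeff_C_mul, map_add, coeff_C_mul, coeff_C_mul, hβ']
      ring)
  rw [map_one, map_neg, map_one] at hz0
  linear_combination hz0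

end Pool.Agent.H64.PV
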