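import Pool.Agent.H64.PV.PDef

/-!
# PV.Exu : power series solutions of the pulled back equation, uniqueness

PROOF. `κ = C c + τ`. Write `dd κ = X^(e-1) * u`, `u_0 = e τ_e ≠ 0`. Multiply `OD` by `X^2` and use `X * dd (dd κ) = X^(e-1) (C (e-1) u + X u')`: dividing by `X^(e-1)` (a domain): `4 (u a (X^2 y'') + (X u a' - (C (e-1) u + X u') a) (X y')) = X^2 (dd κ)^2 u y`, with `a = ax κ`, `a_0 = c (1 - c) ≠ 0`. Suppose `y_k = 0` for all `k < n`. The coefficient of `X^n`: `X^2 y''` and `X y'` have the coefficients `n (n-1) y_n` and `n y_n` at `X^n` and `0` below, so it is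
`4 (u_0 a_0 n (n - 1) y_n - (e - 1) u_0 a_0 n y_n) = 4 u_0 a_0 n (n - e) y_n` on the left and `0` on the right (`X^2 y` vanishes to order `n + 2`). So `y_n = 0` unless `n = 0` or `n = e`, where it is assumed. Strong induction.
-/

set_option autoImplicit false

namespace Pool.Agent.H64.PV

open Pool.H61.QF Pool.Agent.H64.LG PowerSeries

private theorem exu_xd (m : ℕ) (u : PowerSeries Kbar) :
    X * dd (X ^ m * u) = X ^ m * ((m : PowerSeries Kbar) * u + X * dd u) := by
  have h1 : dd (X ^ m * u) = X ^ m * dd u + u * ((m : PowerSeries Kbar) * X ^ (m - 1)) := by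
    unfold dd
    rw [Derivation.leibniz, Derivation.leibniz_pow, derivative_X]
    simp only [smul_eq_mul, nsmul_eq_mul, mul_one]
  rw [h1]
  rcases Nat.eq_zero_or_pos m with h | h
  · subst h
    simp
  · obtain ⟨k, rfl⟩ : ∃ k, m = k + 1 := ⟨m - 1, by omega⟩
    rw [Nat.add_sub_cancel]
    ring

private theorem exu_c0 (κ : PowerSeries Kbar) (m n : ℕ) (u z : PowerSeries Kbar)
    (hκ : dd κ = X ^ m * u) (hy : OD κ (X ^ (n + 1) * z)) (ha : coeff 0 (ax κ) ≠ 0)
    (hu : coeff 0 u ≠ 0) (hmn : n ≠ m) : coeff 0 z = 0 := by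
  unfold OD at hy
  -- the first derivative
  have hw : dd (X ^ (n + 1) * z) = X ^ n * (((n + 1 : ℕ) : PowerSeries Kbar) * z + X * dd z) := by
    have h := exu_xd (n + 1) z
    have h2 : (X : PowerSeries Kbar) * dd (X ^ (n + 1) * z) =
        X * (X ^ n * (((n + 1 : ℕ) : PowerSeries Kbar) * z + X * dd z)) := by
      rw [h]; ring
    exact mul_left_cancel₀ X_ne_zero h2
  set w : PowerSeries Kbar := ((n + 1 : ℕ) : PowerSeries Kbar) * z + X * dd z with hwd
  rw [hw, hκ] at hy
  have hw2 := exu_xd n w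
  have hu2 := exu_xd m u
  have key : (X : PowerSeries Kbar) ^ (m + n) *
      (4 * (u * ax κ * ((n : PowerSeries Kbar) * w + X * dd w) +
        (X * (u * dd (ax κ)) - ((m : PowerSeries Kbar) * u + X * dd u) * ax κ) * w)) =
      X ^ (m + n) * (X * (X * (X ^ (2 * m) * u ^ 3 * z))) := by
    have h1 := congrArg (fun t => (X : PowerSeries Kbar) * t) hy
    have h2 : (X : PowerSeries Kbar) * (4 * (X ^ m * u * ax κ * dd (X ^ n * w) +
        (X ^ m * u * dd (ax κ) - dd (X ^ m * u) * ax κ) * (X ^ n * w))) =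
        4 * (X ^ m * u * ax κ * (X * dd (X ^ n * w)) +
        (X * (X ^ m * u * dd (ax κ)) - (X * dd (X ^ m * u)) * ax κ) * (X ^ n * w)) := by ring
    rw [h2, hw2, hu2] at h1
    calc _ = 4 * (X ^ m * u * ax κ * (X ^ n * ((n : PowerSeries Kbar) * w + X * dd w)) +
        (X * (X ^ m * u * dd (ax κ)) - (X ^ m * ((m : PowerSeries Kbar) * u + X * dd u)) * ax κ) *
          (X ^ n * w)) := by ring
      _ = _ := h1
      _ = _ := by ring
  have key2 := mul_left_cancel₀ (pow_ne_zero _ X_ne_zero) key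
  have h0 := congrArg (coeff 0) key2
  simp only [coeff_zero_eq_constantCoeff, map_mul, map_add, map_sub, constantCoeff_X, zero_mul,
    map_natCast, zero_sub, add_zero, map_ofNat] at h0
  have hw0 : constantCoeff w = ((n : Kbar) + 1) * constantCoeff z := by
    rw [hwd]
    simp only [map_add, map_mul, constantCoeff_X, zero_mul, add_zero, map_natCast]
    push_cast
    ring
  rw [coeff_zero_eq_constantCoeff] at ha hu ⊢
  rw [hw0] at h0
  have h3 : (constantCoeff u * constantCoeff (ax κ)) * (((n : Kbar) - m) * (((n : Kbar) + 1) *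
      constantCoeff z)) = 0 := by
    have h4 : (4 : Kbar) * ((constantCoeff u * constantCoeff (ax κ)) * (((n : Kbar) - m) *
      (((n : Kbar) + 1) * constantCoeff z))) = 0 := by
      rw [← h0]; ring
    rcases mul_eq_zero.1 h4 with h | h
    · norm_num at h
    · exact h
  have h5 : ((n : Kbar) - m) ≠ 0 := by
    intro h
    exact hmn (by exact_mod_cast sub_eq_zero.1 h)
  have h6 : ((n : Kbar) + 1) ≠ 0 := by exact_mod_cast Nat.succ_ne_zero n
  rcases mul_eq_zero.1 h3 with h | h
  · exact absurd h (mul_ne_zero hu ha)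
  · rcases mul_eq_zero.1 h with h | h
    · exact absurd h h5
    · rcases mul_eq_zero.1 h with h | h
      · exact absurd h h6
      · exact h

theorem exu (c : Kbar) (hc0 : c ≠ 0) (hc1 : c ≠ 1) (τ : PowerSeries Kbar) (e : ℕ) (he : 1 ≤ e)
    (hτe : ∀ n, n < e → coeff n τ = 0) (hσ : coeff e τ ≠ 0) (y : PowerSeries Kbar)
    (hy : OD (C c + τ) y) (y0 : coeff 0 y = 0) (ye : coeff e y = 0) : y = 0 := by
  have hτ0 : coeff 0 τ = 0 := hτe 0 (by omega)
  have hdvd : (X : PowerSeries Kbar) ^ (e - 1) ∣ dd (C c + τ) := by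
    rw [X_pow_dvd_iff]
    intro k hk
    unfold dd
    rw [coeff_derivative, map_add, hτe (k + 1) (by omega), coeff_C, if_neg (Nat.succ_ne_zero k)]
    simp
  obtain ⟨u, hu⟩ := hdvd
  have hu0 : coeff 0 u ≠ 0 := by
    have h1 : coeff (e - 1) (dd (C c + τ)) = coeff 0 u := by
      rw [hu]
      have h2 := coeff_X_pow_mul u (e - 1) 0
      rw [zero_add] at h2
      exact h2
    rw [← h1]
    unfold dd
    have h3 : e - 1 + 1 = e := by omega
    rw [coeff_derivative, map_add, h3, coeff_C, if_neg (by omega), zero_add]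
    refine mul_ne_zero hσ ?_
    have h4 : ((e - 1 : ℕ) : Kbar) + 1 = (e : Kbar) := by exact_mod_cast congrArg (fun t : ℕ => (t : Kbar)) h3
    rw [h4]
    exact_mod_cast (by omega : e ≠ 0)
  have ha0 : coeff 0 (ax (C c + τ)) ≠ 0 := by
    unfold ax
    rw [coeff_zero_eq_constantCoeff] at hτ0 ⊢
    rw [map_mul, map_sub, map_add, map_one, hτ0, constantCoeff_C, add_zero]
    exact mul_ne_zero hc0 (sub_ne_zero.2 (Ne.symm hc1))
  have main : ∀ n, coeff n y = 0 := by
    intro n
    induction n using Nat.strong_induction_on with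
    | _ n ih =>
      rcases Nat.eq_zero_or_pos n with h | h
      · rw [h]; exact y0
      · obtain ⟨k, rfl⟩ : ∃ k, n = k + 1 := ⟨n - 1, by omega⟩
        by_cases hke : k + 1 = e
        · rw [hke]; exact ye
        · obtain ⟨z, hz⟩ := X_pow_dvd_iff.2 ih
          have h1 := exu_c0 (C c + τ) (e - 1) k u z hu (by rw [← hz]; exact hy) ha0 hu0 (by omega)
          rw [hz]
          have h2 := coeff_X_pow_mul z (k + 1) 0
          rw [zero_add] at h2
          rw [h2, h1]
  ext n
  rw [main n, map_zero]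

end Pool.Agent.H64.PV
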