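import Pool.Agent.H64.PV.PDef

/-!
# PV.Fam : one family over Z_p

PROOF. All over `ℚ_p` unless said otherwise; `q = PadicInt.Coe.ringHom`, `κ = C c + s`. Let `u = map q U`, `g_i = gsF c i`, `v = coeff 1 u`. Legendre's equation means the recursion `c (1 - c) (n + 2) (n + 1) y_(n+2) + (1 - 2 c) (n + 1)^2 y_(n+1) - (n + 1/2)^2 y_n = 0` (as `gs_rec`, `leg_iff` in `LG/Rec.lean`), so a solution is determined by its first two coefficients: `u = g_0 + C v g_1`. Wronskian `W = u g_1' - u' g_1`:
`(ax (C c + X) W)' = 0` by the equations (as `wron` in `LG/Rec.lean`), so `ax (C c + X) * W = C (c (1 - c))`. Over `ℤ_p`: `ax (C c + X)` and `U` are units (constant coefficients `c (1 - c)`, `1`), `W_Z = C (c (1 - c)) * (ax (C c + X))⁻¹`, `map q W_Z = W`. `T_0 = g_1 * u⁻¹` (over the field `ℚ_p`), `T_0' = W / u^2`, `g_1 = T_0 u`, `g_0 = (1 - C v T_0) u`, `g_1' = W / u + T_0 u'`,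
`g_0' = (1 - C v T_0) u' - C v W / u`. Substitute `s` (`map_subst`, `derivative_subst`): `T = T_0.subst (map q s)`, `y1 = (dd U).subst s`, `W1 = (W_Z U⁻¹).subst s`, `w = (W_Z U⁻²).subst s * dd s`; `dd T = T_0'(s) s'`. `dd (C c + s) = dd s`, `ax (C c + s) = (ax (C c + X)).subst s`. `OD (C c + s) (U.subst s)`: `y = U(s)`, `y' = U'(s) s'`, `y'' = U''(s) s'^2 + U'(s) s''`,
`dd (ax κ) = s' (1 - 2 κ)`, so the left side of `OD` is `4 s'^3 (ax κ U''(s) + (1 - 2 κ) U'(s)) = s'^3 U(s)`.
-/

set_option autoImplicit false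

namespace Pool.Agent.H64.PV

open Pool.H61.QF Pool.Agent.H64.LG PowerSeries

section fieldPart

variable {F : Type} [Field F] [CharZero F]

omit [CharZero F] in
private theorem fam_c0 (c : F) (i : Fin 2) (n : ℕ) :
    coeff n (gsF c i) = (gcF c (if i = 0 then 1 else 0) (if i = 0 then 0 else 1) n).1 := by
  unfold gsF
  rw [PowerSeries.coeff_mk]

private theorem fam_rec (c : F) (hc0 : c ≠ 0) (hc1 : c ≠ 1) (i : Fin 2) (n : ℕ) :
    c * (1 - c) * ((n : F) + 2) * ((n : F) + 1) * coeff (n + 2) (gsF c i) =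
      ((n : F) + 1 / 2) ^ 2 * coeff n (gsF c i) - (1 - 2 * c) * ((n : F) + 1) ^ 2 * coeff (n + 1) (gsF c i) := by
  have h1 : (n : F) + 2 ≠ 0 := by exact_mod_cast Nat.succ_ne_zero (n + 1)
  have h2 : (n : F) + 1 ≠ 0 := by exact_mod_cast Nat.succ_ne_zero n
  have h3 : 1 - c ≠ 0 := sub_ne_zero.2 (Ne.symm hc1)
  have h4 : c * (1 - c) * ((n : F) + 2) * ((n : F) + 1) ≠ 0 :=
    mul_ne_zero (mul_ne_zero (mul_ne_zero hc0 h3) h1) h2
  rw [fam_c0, fam_c0, fam_c0]
  simp only [gcF]
  rw [mul_div_cancel₀ _ h4]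

omit [CharZero F] in
private theorem fam_init (c : F) : coeff 0 (gsF c 0) = 1 ∧ coeff 1 (gsF c 0) = 0 ∧ coeff 0 (gsF c 1) = 0 ∧
    coeff 1 (gsF c 1) = 1 := by
  refine ⟨?_, ?_, ?_, ?_⟩ <;> rw [fam_c0] <;> simp [gcF]

omit [CharZero F] in
private theorem fam_cX (f : PowerSeries F) (n : ℕ) :
    coeff n (X * derivative F f) = (n : F) * coeff n f := by
  cases n with
  | zero => simp
  | succ n =>
    rw [coeff_succ_X_mul, coeff_derivative]
    push_cast
    ring

omit [CharZero F] in
private theorem fam_cXX (f : PowerSeries F) (n : ℕ) :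
    coeff n (X * (X * derivative F (derivative F f))) = (n : F) * ((n : F) - 1) * coeff n f := by
  cases n with
  | zero => simp
  | succ n =>
    rw [coeff_succ_X_mul]
    cases n with
    | zero => simp
    | succ n =>
      rw [coeff_succ_X_mul, coeff_derivative, coeff_derivative]
      push_cast
      ring

private theorem fam_coeff (c : F) (y : PowerSeries F) (n : ℕ) :
    coeff n ((C c + X) * (1 - (C c + X)) * derivative F (derivative F y) +
      (1 - 2 * (C c + X)) * derivative F y - C (1 / 4) * y) =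
    c * (1 - c) * ((n : F) + 2) * ((n : F) + 1) * coeff (n + 2) y -
      (((n : F) + 1 / 2) ^ 2 * coeff n y - (1 - 2 * c) * ((n : F) + 1) ^ 2 * coeff (n + 1) y) := by
  have e : (C c + X) * (1 - (C c + X)) * derivative F (derivative F y) +
      (1 - 2 * (C c + X)) * derivative F y - C (1 / 4) * y =
      C (c * (1 - c)) * derivative F (derivative F y) +
        C (1 - 2 * c) * (X * derivative F (derivative F y)) -
        X * (X * derivative F (derivative F y)) + C (1 - 2 * c) * derivative F y -
        C 2 * (X * derivative F y) - C (1 / 4) * y := by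
    simp only [map_mul, map_sub, map_one, map_ofNat]
    ring
  rw [e]
  generalize 1 - 2 * c = α
  generalize c * (1 - c) = β
  simp only [map_sub, map_add, coeff_C_mul]
  rw [fam_cXX, fam_cX, fam_cX]
  simp only [coeff_derivative]
  push_cast
  ring

/-- Legendre's equation, the version of `LG/Defs.lean` over a field -/
private def FLeg (c : F) (y : PowerSeries F) : Prop :=
  (C c + X) * (1 - (C c + X)) * derivative F (derivative F y) +
      (1 - 2 * (C c + X)) * derivative F y - C (1 / 4) * y = 0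

private theorem fam_iff (c : F) (y : PowerSeries F) : FLeg c y ↔ ∀ n : ℕ,
    c * (1 - c) * ((n : F) + 2) * ((n : F) + 1) * coeff (n + 2) y =
      ((n : F) + 1 / 2) ^ 2 * coeff n y - (1 - 2 * c) * ((n : F) + 1) ^ 2 * coeff (n + 1) y := by
  unfold FLeg
  constructor
  · intro h n
    have h1 := fam_coeff c y n
    rw [h, map_zero] at h1
    exact (sub_eq_zero.1 h1.symm)
  · intro h
    ext n
    rw [fam_coeff, h n, sub_self, map_zero]

private theorem fam_basis (c : F) (hc0 : c ≠ 0) (hc1 : c ≠ 1) (y : PowerSeries F) (hy : FLeg c y) :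
    y = C (coeff 0 y) * gsF c 0 + C (coeff 1 y) * gsF c 1 := by
  have h3 : 1 - c ≠ 0 := sub_ne_zero.2 (Ne.symm hc1)
  have hr := (fam_iff c y).1 hy
  obtain ⟨i1, i2, i3, i4⟩ := fam_init c
  have key : ∀ n : ℕ, coeff n y = coeff 0 y * coeff n (gsF c 0) + coeff 1 y * coeff n (gsF c 1) ∧
      coeff (n + 1) y = coeff 0 y * coeff (n + 1) (gsF c 0) + coeff 1 y * coeff (n + 1) (gsF c 1) := by
    intro n
    induction n with
    | zero =>
      rw [zero_add, i1, i2, i3, i4]
      constructor <;> ring
    | succ n ih =>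
      refine ⟨ih.2, ?_⟩
      have h1 : (n : F) + 2 ≠ 0 := by exact_mod_cast Nat.succ_ne_zero (n + 1)
      have h2 : (n : F) + 1 ≠ 0 := by exact_mod_cast Nat.succ_ne_zero n
      have h4 : c * (1 - c) * ((n : F) + 2) * ((n : F) + 1) ≠ 0 :=
        mul_ne_zero (mul_ne_zero (mul_ne_zero hc0 h3) h1) h2
      apply mul_left_cancel₀ h4
      have a0 := fam_rec c hc0 hc1 0 n
      have a1 := fam_rec c hc0 hc1 1 n
      have a2 := hr n
      rw [show n + 1 + 1 = n + 2 from rfl]
      rw [a2, ih.1, ih.2]
      linear_combination (-(coeff 0 y)) * a0 - (coeff 1 y) * a1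
  ext n
  rw [map_add, coeff_C_mul, coeff_C_mul]
  exact (key n).1

/-- the Wronskian of a solution `u` with `u(0) = 1` and `g_1` -/
private theorem fam_wron (c : F) (hc0 : c ≠ 0) (hc1 : c ≠ 1) (u : PowerSeries F) (hu : FLeg c u)
    (hu0 : constantCoeff u = 1) :
    (C c + X) * (1 - (C c + X)) * (u * derivative F (gsF c 1) - derivative F u * gsF c 1) =
      C (c * (1 - c)) := by
  have l0 : FLeg c u := hu
  have l1 : FLeg c (gsF c 1) := (fam_iff c _).2 fun n => fam_rec c hc0 hc1 1 n
  unfold FLeg at l0 l1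
  obtain ⟨i1, i2, i3, i4⟩ := fam_init c
  apply PowerSeries.derivative.ext
  · rw [derivative_C]
    have hk : derivative F (C c + X) = 1 := by
      rw [map_add, derivative_C, derivative_X, zero_add]
    have hk1 : derivative F (1 - (C c + X)) = -1 := by
      rw [map_sub, hk]
      have : derivative F (1 : PowerSeries F) = 0 := by simp
      rw [this]
      ring
    simp only [Derivation.leibniz, map_sub, smul_eq_mul, hk, hk1] at *
    linear_combination u * l1 - (gsF c 1) * l0
  · simp only [map_mul, map_add, map_sub, constantCoeff_C, constantCoeff_X, map_one]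
    have j1 : constantCoeff (gsF c 1) = 0 := by
      rw [← coeff_zero_eq_constantCoeff_apply]; exact i3
    have j2 : constantCoeff (derivative F (gsF c 1)) = 1 := by
      rw [← coeff_zero_eq_constantCoeff_apply, coeff_derivative, zero_add, i4]
      simp
    rw [hu0, j1, j2]
    ring

end fieldPart

private theorem fam_subst_dd {R : Type} [CommRing R] (f s : PowerSeries R) (hs : constantCoeff s = 0) :
    dd (f.subst s) = (dd f).subst s * dd s :=
  derivative_subst (HasSubst.of_constantCoeff_zero' hs)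

private theorem fam_subst_map {R S : Type} [CommRing R] [CommRing S] (q : R →+* S) (f s : PowerSeries R)
    (hs : constantCoeff s = 0) :
    PowerSeries.map q (f.subst s) = (PowerSeries.map q f).subst (PowerSeries.map q s) :=
  map_subst (HasSubst.of_constantCoeff_zero' hs) f

private theorem fam_dd_map {R S : Type} [CommRing R] [CommRing S] (q : R →+* S) (f : PowerSeries R) :
    dd (PowerSeries.map q f) = PowerSeries.map q (dd f) := by
  ext n
  simp only [dd, coeff_derivative, coeff_map, map_mul, map_add, map_one, map_natCast]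

private theorem fam_kap {R : Type} [CommRing R] (c : R) (s : PowerSeries R) (hs : constantCoeff s = 0) :
    (C c + X : PowerSeries R).subst s = C c + s := by
  have h := HasSubst.of_constantCoeff_zero' hs
  rw [subst_add h, subst_X h]
  congr 1
  exact subst_C c

/-- the pull back of the equation -/
private theorem fam_OD {R : Type} [CommRing R] (c : R) (U : PowerSeries R) (hL : LegR c U)
    (s : PowerSeries R) (hs : constantCoeff s = 0) : OD (C c + s) (U.subst s) := by
  have h := HasSubst.of_constantCoeff_zero' hs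
  have e1 : dd (U.subst s) = (dd U).subst s * dd s := fam_subst_dd U s hs
  have e2 : dd (dd (U.subst s)) = (dd (dd U)).subst s * dd s * dd s + (dd U).subst s * dd (dd s) := by
    rw [e1]
    have e3 := fam_subst_dd (dd U) s hs
    simp only [dd] at e3 ⊢
    rw [Derivation.leibniz, e3]
    simp only [smul_eq_mul]
    ring
  have e4 : dd (C c + s) = dd s := by
    simp only [dd]
    rw [map_add, derivative_C, zero_add]
  have e5 : dd (ax (C c + s)) = dd s * (1 - 2 * (C c + s)) := by
    unfold ax
    have e6 : dd (1 - (C c + s)) = - dd s := by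
      have := e4
      simp only [dd] at this ⊢
      rw [map_sub, this]
      have : derivative R (1 : PowerSeries R) = 0 := by simp
      rw [this]
      ring
    simp only [dd] at e4 e6 ⊢
    rw [Derivation.leibniz, e4, e6]
    simp only [smul_eq_mul]
    ring
  have e7 : 4 * ((C c + s) * (1 - (C c + s)) * (dd (dd U)).subst s +
      (1 - 2 * (C c + s)) * (dd U).subst s) = U.subst s := by
    have h8 := congrArg (fun f : PowerSeries R => substAlgHom (R := R) h f) hL
    simp only [map_mul, map_add, map_sub, map_one, map_ofNat, coe_substAlgHom] at h8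
    have h9 : (C c : PowerSeries R).subst s = C c := subst_C c
    have h10 : (X : PowerSeries R).subst s = s := subst_X h
    rw [h9, h10] at h8
    exact h8
  unfold OD
  rw [e2, e1, e5, e4]
  unfold ax
  linear_combination (dd s) ^ 3 * e7

theorem fam (p : ℕ) [Fact p.Prime] (h2 : p ≠ 2) (c : ℤ_[p]) (hc : IsUnit (c * (1 - c)))
    (U : PowerSeries ℤ_[p]) (hU : constantCoeff U = 1) (hL : LegR c U) (s : PowerSeries ℤ_[p])
    (hs : constantCoeff s = 0) :
    ∃ (v : ℚ_[p]) (T : PowerSeries ℚ_[p]) (y1 W1 w : PowerSeries ℤ_[p]),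
      OD (C c + s) (U.subst s) ∧
      w * ax (C c + s) * U.subst s ^ 2 = C (c * (1 - c)) * dd (C c + s) ∧
      dd T = PowerSeries.map PadicInt.Coe.ringHom w ∧
      (dgF (c : ℚ_[p]) (0, 0)).subst (PowerSeries.map PadicInt.Coe.ringHom s) =
        (1 - C v * T) * PowerSeries.map PadicInt.Coe.ringHom (U.subst s) ∧
      (dgF (c : ℚ_[p]) (1, 0)).subst (PowerSeries.map PadicInt.Coe.ringHom s) =
        T * PowerSeries.map PadicInt.Coe.ringHom (U.subst s) ∧
      (dgF (c : ℚ_[p]) (0, 1)).subst (PowerSeries.map PadicInt.Coe.ringHom s) =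
        (1 - C v * T) * PowerSeries.map PadicInt.Coe.ringHom y1 -
          C v * PowerSeries.map PadicInt.Coe.ringHom W1 ∧
      (dgF (c : ℚ_[p]) (1, 1)).subst (PowerSeries.map PadicInt.Coe.ringHom s) =
        PowerSeries.map PadicInt.Coe.ringHom W1 + T * PowerSeries.map PadicInt.Coe.ringHom y1 := by
  classical
  set q : ℤ_[p] →+* ℚ_[p] := PadicInt.Coe.ringHom with hq
  have hqc : ∀ x : ℤ_[p], q x = (x : ℚ_[p]) := fun x => rfl
  set F := ℚ_[p] with hF
  have hc' : (c : ℚ_[p]) * (1 - (c : ℚ_[p])) ≠ 0 := by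
    have h1 := hc.map q
    rw [map_mul, map_sub, map_one, hqc] at h1
    exact h1.ne_zero
  have hc0 : (c : ℚ_[p]) ≠ 0 := left_ne_zero_of_mul hc'
  have hc1 : (c : ℚ_[p]) ≠ 1 := fun h => (right_ne_zero_of_mul hc') (by rw [h, sub_self])
  -- the solution over the field
  set u : PowerSeries ℚ_[p] := PowerSeries.map q U with hu
  have hu0 : constantCoeff u = 1 := by
    rw [hu, ← coeff_zero_eq_constantCoeff_apply, coeff_map, coeff_zero_eq_constantCoeff_apply, hU, map_one]
  have hmC : ∀ x : ℤ_[p], PowerSeries.map q (C x) = C (q x) := fun x => by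
    rw [PowerSeries.map_C]
  have hmX : PowerSeries.map q (X : PowerSeries ℤ_[p]) = X := PowerSeries.map_X q
  have hLu : FLeg (c : ℚ_[p]) u := by
    have h1 := congrArg (PowerSeries.map q) hL
    simp only [map_mul, map_add, map_sub, map_one, map_ofNat, hmX, hmC, hqc] at h1
    rw [← fam_dd_map, ← fam_dd_map] at h1
    have h4 : (C (1 / 4 : ℚ_[p]) : PowerSeries ℚ_[p]) * 4 = 1 := by
      have : (4 : PowerSeries ℚ_[p]) = C (4 : ℚ_[p]) := by
        rw [map_ofNat]
      rw [this, ← map_mul]
      norm_num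
    unfold FLeg
    simp only [dd] at h1
    linear_combination (C (1 / 4 : ℚ_[p]) : PowerSeries ℚ_[p]) * h1 - ((C (c : ℚ_[p]) + X) *
      (1 - (C (c : ℚ_[p]) + X)) * derivative ℚ_[p] (derivative ℚ_[p] u) +
      (1 - 2 * (C (c : ℚ_[p]) + X)) * derivative ℚ_[p] u) * h4
  set v : ℚ_[p] := coeff 1 u with hv
  set g0 : PowerSeries ℚ_[p] := gsF (c : ℚ_[p]) 0 with hg0
  set g1 : PowerSeries ℚ_[p] := gsF (c : ℚ_[p]) 1 with hg1
  have hbas : u = g0 + C v * g1 := by
    have h1 := fam_basis (c : ℚ_[p]) hc0 hc1 u hLu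
    rw [coeff_zero_eq_constantCoeff_apply, hu0, map_one, one_mul] at h1
    exact h1
  have hwr := fam_wron (c : ℚ_[p]) hc0 hc1 u hLu hu0
  -- units over the ring
  have hunA : IsUnit (ax (C c + X : PowerSeries ℤ_[p])) := by
    rw [isUnit_iff_constantCoeff]
    have : constantCoeff (ax (C c + X : PowerSeries ℤ_[p])) = c * (1 - c) := by
      unfold ax
      simp only [map_mul, map_add, map_sub, map_one, constantCoeff_C, constantCoeff_X, add_zero]
    rw [this]
    exact hc
  have hunU : IsUnit U := by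
    rw [isUnit_iff_constantCoeff, hU]
    exact isUnit_one
  obtain ⟨A, hA⟩ := hunA.exists_right_inv
  obtain ⟨B, hB⟩ := hunU.exists_right_inv
  set WZ : PowerSeries ℤ_[p] := C (c * (1 - c)) * A with hWZ
  have hWZ' : ax (C c + X : PowerSeries ℤ_[p]) * WZ = C (c * (1 - c)) := by
    rw [hWZ]
    linear_combination (C (c * (1 - c))) * hA
  set W : PowerSeries ℚ_[p] := u * derivative ℚ_[p] g1 - derivative ℚ_[p] u * g1 with hW
  have hmax : PowerSeries.map q (ax (C c + X : PowerSeries ℤ_[p])) =
      (C (c : ℚ_[p]) + X) * (1 - (C (c : ℚ_[p]) + X)) := by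
    unfold ax
    simp only [map_mul, map_add, map_sub, map_one, hmX, hmC, hqc]
  have hWm : PowerSeries.map q WZ = W := by
    have h1 : PowerSeries.map q (ax (C c + X : PowerSeries ℤ_[p])) * PowerSeries.map q WZ =
        PowerSeries.map q (ax (C c + X : PowerSeries ℤ_[p])) * W := by
      rw [← map_mul, hWZ', hmax, hwr, hmC, hqc]
      push_cast
      rfl
    have h3 : IsUnit (PowerSeries.map q (ax (C c + X : PowerSeries ℤ_[p]))) := hunA.map _
    exact h3.mul_left_cancel h1
  set b : PowerSeries ℚ_[p] := PowerSeries.map q B with hb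
  have hub : u * b = 1 := by
    rw [hu, hb, ← map_mul, hB, map_one]
  set T0 : PowerSeries ℚ_[p] := g1 * b with hT0
  have hT0u : g1 = T0 * u := by
    rw [hT0]
    linear_combination (-g1) * hub
  have hdub : derivative ℚ_[p] u * b + u * derivative ℚ_[p] b = 0 := by
    have h1 := congrArg (derivative ℚ_[p]) hub
    rw [Derivation.leibniz] at h1
    simp only [smul_eq_mul] at h1
    have : derivative ℚ_[p] (1 : PowerSeries ℚ_[p]) = 0 := by simp
    rw [this] at h1
    linear_combination h1
  have hdb : derivative ℚ_[p] b = - derivative ℚ_[p] u * b ^ 2 := by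
    linear_combination b * hdub - derivative ℚ_[p] b * hub
  have hdT0 : derivative ℚ_[p] T0 = W * b ^ 2 := by
    rw [hT0, Derivation.leibniz, hdb, hW]
    simp only [smul_eq_mul]
    linear_combination (-(derivative ℚ_[p] g1) * b) * hub
  have hg0e : g0 = (1 - C v * T0) * u := by
    linear_combination (-1 : PowerSeries ℚ_[p]) * hbas - C v * hT0u
  have hdg1 : derivative ℚ_[p] g1 = W * b + T0 * derivative ℚ_[p] u := by
    rw [hT0, hW]
    linear_combination (-(derivative ℚ_[p] g1)) * hub
  have hdg0 : derivative ℚ_[p] g0 = (1 - C v * T0) * derivative ℚ_[p] u - C v * (W * b) := by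
    have h1 := congrArg (derivative ℚ_[p]) hbas
    rw [map_add, Derivation.leibniz, derivative_C] at h1
    simp only [smul_eq_mul, mul_zero, add_zero] at h1
    linear_combination (-1 : PowerSeries ℚ_[p]) * h1 - C v * hdg1
  -- substitution
  set S : PowerSeries ℚ_[p] := PowerSeries.map q s with hS
  have hS0 : constantCoeff S = 0 := by
    rw [hS, ← coeff_zero_eq_constantCoeff_apply, coeff_map, coeff_zero_eq_constantCoeff_apply, hs, map_zero]
  have hsS := HasSubst.of_constantCoeff_zero' hS0
  have hss := HasSubst.of_constantCoeff_zero' hs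
  have hCS : ∀ x : ℚ_[p], (C x : PowerSeries ℚ_[p]).subst S = C x := fun x => subst_C x
  have hCs : ∀ x : ℤ_[p], (C x : PowerSeries ℤ_[p]).subst s = C x := fun x => subst_C x
  refine ⟨v, T0.subst S, (dd U).subst s, (WZ * B).subst s, (WZ * B ^ 2).subst s * dd s,
    fam_OD c U hL s hs, ?_, ?_, ?_, ?_, ?_, ?_⟩
  · have e4 : dd (C c + s) = dd s := by
      simp only [dd]
      rw [map_add, derivative_C, zero_add]
    rw [e4]
    have e5 : ax (C c + s) = (ax (C c + X : PowerSeries ℤ_[p])).subst s := by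
      unfold ax
      rw [subst_mul hss, ← coe_substAlgHom hss, map_sub, map_one, coe_substAlgHom, fam_kap c s hs]
    rw [e5]
    have e6 : (WZ * B ^ 2).subst s * (ax (C c + X : PowerSeries ℤ_[p])).subst s * U.subst s ^ 2 =
        C (c * (1 - c)) := by
      rw [← subst_mul hss, ← subst_pow hss, ← subst_mul hss, ← hCs (c * (1 - c))]
      congr 1
      linear_combination (B ^ 2 * U ^ 2) * hWZ' + C (c * (1 - c)) * (U * B + 1) * hB
    linear_combination (dd s) * e6
  · have e1 := fam_subst_dd T0 S hS0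
    rw [e1]
    have e2 : dd T0 = W * b ^ 2 := hdT0
    rw [e2, map_mul, fam_subst_map q _ s hs, map_mul, map_pow, hWm, ← fam_dd_map]
  · have e1 : dgF (c : ℚ_[p]) (0, 0) = g0 := by simp [dgF, hg0]
    rw [e1, fam_subst_map q _ s hs, hg0e, subst_mul hsS, ← coe_substAlgHom hsS, map_sub, map_one, map_mul,
      coe_substAlgHom, hCS]
  · have e1 : dgF (c : ℚ_[p]) (1, 0) = g1 := by simp [dgF, hg1]
    rw [e1, fam_subst_map q _ s hs, ← subst_mul hsS, ← hT0u]
  · have e1 : dgF (c : ℚ_[p]) (0, 1) = derivative ℚ_[p] g0 := by simp [dgF, hg0]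
    rw [e1, fam_subst_map q _ s hs, fam_subst_map q _ s hs, hdg0, ← fam_dd_map, map_mul, hWm]
    rw [← coe_substAlgHom hsS]
    simp only [map_sub, map_one, map_mul]
    rw [coe_substAlgHom, hCS]
  · have e1 : dgF (c : ℚ_[p]) (1, 1) = derivative ℚ_[p] g1 := by simp [dgF, hg1]
    rw [e1, fam_subst_map q _ s hs, fam_subst_map q _ s hs, hdg1, ← fam_dd_map, map_mul, hWm]
    rw [subst_add hsS, subst_mul hsS, subst_mul hsS, subst_mul hsS]

end Pool.Agent.H64.PV
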