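import Pool.Agent.H64.PV.PDef

/-!
# PV.Fun : functoriality

PROOFS. `map_dgF`: `gcF` is built from field operations (`map_div₀`, induction on `n`), `map` commutes with `dd`. `map_evF`: both sides are ring homomorphisms in `Q`; constants clear; variables: `PowerSeries.map_subst` (`HasSubst.of_constantCoeff_zero'`) and `map_dgF`. `map_DP`: `MvPolynomial.induction_on`, or both sides are derivations along `map f`; on variables `map_sum`, `map_C`, `map_X`. `dg_eq`: `gc = gcF` (induction). `evF_DP`: `DP (fun k a b => C (N k a b)) = ∑_{k,a,b} C (C (N k a b)) • DP (single k (E a b))`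
(compare on the variables, `MvPolynomial.derivation_ext`), apply `evF`.
-/

set_option autoImplicit false

namespace Pool.Agent.H64.PV

open Pool.H61.QF Pool.Agent.H64.LG PowerSeries

private theorem fun_gcF {F F' : Type} [Field F] [Field F'] (φ : F →+* F') (c a b : F) (n : ℕ) :
    gcF (φ c) (φ a) (φ b) n = (φ (gcF c a b n).1, φ (gcF c a b n).2) := by
  induction n with
  | zero => rfl
  | succ n ih =>
    simp only [gcF, ih, map_div₀, map_sub, map_mul, map_pow, map_add, map_natCast, map_one, map_ofNat]

private theorem fun_map_dd {R S : Type} [CommRing R] [CommRing S] (φ : R →+* S) (f : PowerSeries R) :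
    PowerSeries.map φ (dd f) = dd (PowerSeries.map φ f) := by
  ext n
  simp only [dd, PowerSeries.coeff_map, PowerSeries.coeff_derivative, map_mul, map_add, map_natCast,
    map_one]

private theorem fun_map_gsF {F F' : Type} [Field F] [Field F'] (φ : F →+* F') (c : F) (i : Fin 2) :
    PowerSeries.map φ (gsF c i) = gsF (φ c) i := by
  ext n
  have h1 : (if i = 0 then (1 : F') else 0) = φ (if i = 0 then (1 : F) else 0) := by
    split_ifs <;> simp
  have h2 : (if i = 0 then (0 : F') else 1) = φ (if i = 0 then (0 : F) else 1) := by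
    split_ifs <;> simp
  rw [PowerSeries.coeff_map, gsF, gsF, PowerSeries.coeff_mk, PowerSeries.coeff_mk, h1, h2, fun_gcF]

theorem map_dgF {F F' : Type} [Field F] [Field F'] (φ : F →+* F') (c : F) (x : Ff) :
    PowerSeries.map φ (dgF c x) = dgF (φ c) x := by
  unfold dgF
  split_ifs with h
  · exact fun_map_gsF φ c x.1
  · rw [fun_map_dd, fun_map_gsF]

theorem map_evF {F F' : Type} [Field F] [Field F'] (φ : F →+* F') {J : Type} (c : J → F)
    (τ : J → PowerSeries F) (hτ : ∀ j, constantCoeff (τ j) = 0)
    (Q : MvPolynomial (J × Ff) (PowerSeries F)) :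
    PowerSeries.map φ (evF c τ Q) = evF (fun j => φ (c j)) (fun j => PowerSeries.map φ (τ j))
      (MvPolynomial.map (PowerSeries.map φ) Q) := by
  have key : (PowerSeries.map φ).comp (evF c τ) =
      (evF (fun j => φ (c j)) (fun j => PowerSeries.map φ (τ j))).comp
        (MvPolynomial.map (PowerSeries.map φ)) := by
    apply MvPolynomial.ringHom_ext
    · intro a
      simp [evF]
    · intro x
      simp only [evF, RingHom.comp_apply, MvPolynomial.coe_eval₂Hom, MvPolynomial.eval₂_X,
        MvPolynomial.map_X]
      rw [← map_dgF]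
      exact PowerSeries.map_subst (HasSubst.of_constantCoeff_zero' (hτ x.1)) _
  exact RingHom.congr_fun key Q

theorem map_DP {R S J : Type} [CommRing R] [CommRing S] (f : R →+* S) (N : J → Fin 2 → Fin 2 → R)
    (Q : MvPolynomial (J × Ff) R) :
    MvPolynomial.map f (DP N Q) = DP (fun j i k => f (N j i k)) (MvPolynomial.map f Q) := by
  induction Q using MvPolynomial.induction_on with
  | C a => simp
  | add p q hp hq => simp only [map_add, hp, hq]
  | mul_X p x hp =>
    simp only [Derivation.leibniz, map_add, smul_eq_mul, map_mul, hp, MvPolynomial.map_X]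
    congr 2
    simp only [DP, MvPolynomial.mkDerivation_X, map_sum, map_mul, MvPolynomial.map_C,
      MvPolynomial.map_X]

private theorem fun_gc (c a b : Kbar) (n : ℕ) : gc c a b n = gcF c a b n := by
  induction n with
  | zero => rfl
  | succ n ih => simp only [gc, gcF, ih]

theorem dg_eq (c : Kbar) (x : Ff) : dg c x = dgF c x := by
  have h : ∀ i, gs c i = gsF c i := by
    intro i
    simp only [gs, gsF, fun_gc]
  simp only [dg, dgF, h, dd]

private theorem fun_sum_apply {R A ι : Type} [CommRing R] [CommRing A] [Algebra R A] (s : Finset ι)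
    (D : ι → Derivation R A A) (x : A) : (∑ i ∈ s, D i) x = ∑ i ∈ s, D i x := by
  classical
  induction s using Finset.induction_on with
  | empty => simp
  | insert a s ha ih => rw [Finset.sum_insert ha, Finset.sum_insert ha, Derivation.add_apply, ih]

theorem evF_DP {F : Type} [Field F] {J : Type} [Fintype J] [DecidableEq J] (c : J → F)
    (τ : J → PowerSeries F) (N : J → Fin 2 → Fin 2 → F) (Q : MvPolynomial (J × Ff) (PowerSeries F)) :
    evF c τ (DP (fun j i k => C (N j i k)) Q) = ∑ j, ∑ i : Fin 2, ∑ k : Fin 2, C (N j i k) *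
      evF c τ (DP (Pi.single j fun a b => if a = i ∧ b = k then 1 else 0) Q) := by
  have key : (DP (fun j i k => C (N j i k)) :
      Derivation (PowerSeries F) (MvPolynomial (J × Ff) (PowerSeries F)) (MvPolynomial (J × Ff) (PowerSeries F))) =
      ∑ j, ∑ i : Fin 2, ∑ k : Fin 2, (C (N j i k) : PowerSeries F) •
        DP (Pi.single j fun a b => if a = i ∧ b = k then 1 else 0) := by
    apply MvPolynomial.derivation_ext
    rintro ⟨j0, i0, l⟩
    rw [fun_sum_apply]
    simp only [fun_sum_apply, Derivation.smul_apply, DP, MvPolynomial.mkDerivation_X]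
    symm
    rw [Finset.sum_eq_single j0]
    · fin_cases i0 <;> simp [Fin.sum_univ_two, MvPolynomial.smul_eq_C_mul]
    · intro b _ hb
      apply Finset.sum_eq_zero
      intro i _
      apply Finset.sum_eq_zero
      intro k _
      simp [Pi.single_eq_of_ne hb.symm]
    · intro h
      exact absurd (Finset.mem_univ _) h
  rw [key]
  simp only [fun_sum_apply, Derivation.smul_apply, map_sum, MvPolynomial.smul_eq_C_mul, map_mul]
  apply Finset.sum_congr rfl
  intro j _
  apply Finset.sum_congr rfl
  intro i _
  apply Finset.sum_congr rfl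
  intro k _
  congr 1
  simp [evF]

end Pool.Agent.H64.PV
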