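import Pool.Agent.H64.PV.PDef

/-!
# PV.Gau : the gauge transformation

PROOF. Everything can be done in the field of fractions of `PowerSeries Kbar`, for the elements `κ_i, κ_i', κ_i''` and the third derivatives, `θ, θ', θ''`, `G, G', G''`. Let `a_i = ax κ_i`, `a_i' = κ_i' (1 - 2 κ_i)`, `a_i'' = κ_i'' (1 - 2 κ_i) - 2 κ_i'^2`, `A = κ₁' a₂`, `B = κ₂' a₁`. (T0) `θ^2 A = B`, (T1) `2 θ θ' A + θ^2 A' = B'`, (T2) `2 θ'^2 A + 2 θ θ'' A + 4 θ θ' A' + θ^2 A'' = B''` (differentiate). With `L_i = κ_i'' / κ_i' - a_i' / a_i` these say `θ' / θ = (L₂ - L₁) / 2 = ψ`,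
`θ'' / θ = ψ' + ψ^2`. `hG`: `G'' = L₁ G' + q₁ G`, `q_i = κ_i'^2 / (4 a_i)`. For `y = θ G`: `y'' - L₂ y' - q₂ y = θ G (ψ' + ψ^2 - L₂ ψ + q₁ - q₂)` and the bracket is `I₁' - I₂'` up to sign: `(L₂' / 2 - L₂^2 / 4 - q₂) - (L₁' / 2 - L₁^2 / 4 - q₁)`, where `4 (L' / 2 - L^2 / 4 - q) = Sn κ / (κ' a)^2` (`2 (third derivative) / κ' - 3 (κ'' / κ')^2 + κ'^2 (1 - a) / a^2`, use `(1 - 2 κ)^2 = 1 - 4 a`). So it vanishes by `h`. (Checked numerically.)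
In Lean: solve (T1), (T2), `hG` for `θ'`, `θ''`, `G''` and use `field_simp`, `linear_combination (..) * h`.
-/

set_option autoImplicit false

namespace Pool.Agent.H64.PV

open Pool.H61.QF Pool.Agent.H64.LG PowerSeries

private theorem gau_alg {R : Type} [CommRing R] [IsDomain R] (h4 : (4 : R) ≠ 0)
    (k1 u1 u2 u3 k2 v1 v2 v3 t t1 t2 g g1 g2 : R)
    (hu : u1 ≠ 0) (hv : v1 ≠ 0) (ha1 : k1 * (1 - k1) ≠ 0) (ha2 : k2 * (1 - k2) ≠ 0) (ht : t ≠ 0)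
    (h : ((2 * (u3 * u1) - 3 * u2 ^ 2) * (k1 * (1 - k1)) ^ 2 + u1 ^ 4 * (1 - k1 * (1 - k1))) *
        (v1 * (k2 * (1 - k2))) ^ 2 -
      ((2 * (v3 * v1) - 3 * v2 ^ 2) * (k2 * (1 - k2)) ^ 2 + v1 ^ 4 * (1 - k2 * (1 - k2))) *
        (u1 * (k1 * (1 - k1))) ^ 2 = 0)
    (A B A1 B1 A2 B2 : R) (eA : A = u1 * (k2 * (1 - k2))) (eB : B = v1 * (k1 * (1 - k1)))
    (eA1 : A1 = u2 * (k2 * (1 - k2)) + u1 * (v1 * (1 - 2 * k2)))
    (eB1 : B1 = v2 * (k1 * (1 - k1)) + v1 * (u1 * (1 - 2 * k1)))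
    (eA2 : A2 = u3 * (k2 * (1 - k2)) + 2 * (u2 * (v1 * (1 - 2 * k2))) + u1 * (v2 * (1 - 2 * k2) - 2 * v1 ^ 2))
    (eB2 : B2 = v3 * (k1 * (1 - k1)) + 2 * (v2 * (u1 * (1 - 2 * k1))) + v1 * (u2 * (1 - 2 * k1) - 2 * u1 ^ 2))
    (T0 : t ^ 2 * A = B) (T1 : 2 * t * t1 * A + t ^ 2 * A1 = B1)
    (T2 : 2 * t1 ^ 2 * A + 2 * t * t2 * A + 4 * t * t1 * A1 + t ^ 2 * A2 = B2)
    (hG : 4 * (u1 * (k1 * (1 - k1)) * g2 + (u1 * (u1 * (1 - 2 * k1)) - u2 * (k1 * (1 - k1))) * g1) =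
      u1 ^ 3 * g) :
    4 * (v1 * (k2 * (1 - k2)) * (t2 * g + 2 * t1 * g1 + t * g2) +
      (v1 * (v1 * (1 - 2 * k2)) - v2 * (k2 * (1 - k2))) * (t1 * g + t * g1)) = v1 ^ 3 * (t * g) := by
  have hA : A ≠ 0 := by rw [eA]; exact mul_ne_zero hu ha2
  have hB : B ≠ 0 := by rw [eB]; exact mul_ne_zero hv ha1
  have e1 : 2 * t * t1 * A ^ 2 = A * B1 - B * A1 := by
    linear_combination A * T1 - A1 * T0
  have e2 : 4 * t * t2 * (B * A ^ 3) = 2 * A ^ 2 * B * B2 - (A * B1 - B * A1) ^ 2 -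
      4 * B * A1 * (A * B1 - B * A1) - 2 * A * B ^ 2 * A2 := by
    linear_combination 2 * B * A ^ 2 * T2 - 4 * B * A1 * e1 - 2 * B * A * A2 * T0 -
      (2 * t * t1 * A ^ 2 + (A * B1 - B * A1)) * e1 + 4 * A ^ 3 * t1 ^ 2 * T0
  have key : v1 * (k2 * (1 - k2)) * (u1 * (k1 * (1 - k1))) * 4 * g *
        (2 * A ^ 2 * B * B2 - (A * B1 - B * A1) ^ 2 -
          4 * B * A1 * (A * B1 - B * A1) - 2 * A * B ^ 2 * A2) +
      (8 * (v1 * (k2 * (1 - k2))) * g1 + 4 * (v1 * (v1 * (1 - 2 * k2)) - v2 * (k2 * (1 - k2))) * g) * 2 *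
        B * A * (u1 * (k1 * (1 - k1))) * (A * B1 - B * A1) +
      4 * B ^ 2 * A ^ 2 * (v1 * (k2 * (1 - k2)) *
          (u1 ^ 3 * g - 4 * (u1 * (u1 * (1 - 2 * k1)) - u2 * (k1 * (1 - k1))) * g1) +
        4 * (v1 * (v1 * (1 - 2 * k2)) - v2 * (k2 * (1 - k2))) * (u1 * (k1 * (1 - k1))) * g1 -
        v1 ^ 3 * (u1 * (k1 * (1 - k1))) * g) = 0 := by
    subst eA eB eA1 eB1 eA2 eB2
    linear_combination (-4 * u1 * v1 * (k1 * (1 - k1)) * (k2 * (1 - k2)) * g) * h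
  have hne : 4 * B * A ^ 3 * (u1 * (k1 * (1 - k1))) * t ≠ 0 :=
    mul_ne_zero (mul_ne_zero (mul_ne_zero (mul_ne_zero h4 hB) (pow_ne_zero 3 hA)) (mul_ne_zero hu ha1)) ht
  apply mul_left_cancel₀ hne
  linear_combination key + (4 * (v1 * (k2 * (1 - k2))) * (u1 * (k1 * (1 - k1))) * g) * e2 +
    (8 * (v1 * (k2 * (1 - k2))) * g1 + 4 * (v1 * (v1 * (1 - 2 * k2)) - v2 * (k2 * (1 - k2))) * g) * 2 *
      B * A * (u1 * (k1 * (1 - k1))) * e1 +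
    4 * B * A ^ 2 * (v1 * (k2 * (1 - k2)) * (4 * (u1 * (k1 * (1 - k1))) * g2) +
      4 * (v1 * (v1 * (1 - 2 * k2)) - v2 * (k2 * (1 - k2))) * (u1 * (k1 * (1 - k1))) * g1 -
      v1 ^ 3 * (u1 * (k1 * (1 - k1))) * g) * T0 +
    4 * B ^ 2 * A ^ 2 * (v1 * (k2 * (1 - k2))) * hG

private theorem dd_mul {R : Type} [CommRing R] (a b : PowerSeries R) : dd (a * b) = dd a * b + a * dd b := by
  show PowerSeries.derivative R (a * b) = _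
  rw [Derivation.leibniz, smul_eq_mul, smul_eq_mul]
  ring

private theorem dd_ax {R : Type} [CommRing R] (κ : PowerSeries R) : dd (ax κ) = dd κ * (1 - 2 * κ) := by
  rw [ax, dd_mul]
  have h : dd (1 - κ) = -dd κ := by
    show PowerSeries.derivative R (1 - κ) = _
    rw [map_sub, Derivation.map_one_eq_zero, zero_sub]
  rw [h]
  ring

private theorem dd_dd_ax {R : Type} [CommRing R] (κ : PowerSeries R) :
    dd (dd (ax κ)) = dd (dd κ) * (1 - 2 * κ) - 2 * dd κ ^ 2 := by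
  rw [dd_ax, dd_mul]
  have h : dd (1 - 2 * κ) = -(2 * dd κ) := by
    have h2 : (2 : PowerSeries R) * κ = κ + κ := by ring
    show PowerSeries.derivative R (1 - 2 * κ) = _
    rw [h2, map_sub, Derivation.map_one_eq_zero, zero_sub, map_add]
    show -(dd κ + dd κ) = _
    ring
  rw [h]
  ring

theorem gau (κ₁ κ₂ θ G : PowerSeries Kbar) (h : SnD κ₁ κ₂ = 0)
    (hθ : θ ^ 2 * (dd κ₁ * ax κ₂) = dd κ₂ * ax κ₁) (h1 : dd κ₁ ≠ 0) (h2 : dd κ₂ ≠ 0)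
    (a1 : ax κ₁ ≠ 0) (a2 : ax κ₂ ≠ 0) (hθ0 : θ ≠ 0) (hG : OD κ₁ G) : OD κ₂ (θ * G) := by
  have h4 : (4 : PowerSeries Kbar) ≠ 0 := by
    intro h0
    have h5 := congrArg (PowerSeries.coeff 0) h0
    have h6 : (4 : PowerSeries Kbar) = PowerSeries.C (4 : Kbar) := by
      rw [map_ofNat]
    rw [h6, PowerSeries.coeff_zero_C, map_zero] at h5
    norm_num at h5
  have T1 : dd (θ ^ 2 * (dd κ₁ * ax κ₂)) = dd (dd κ₂ * ax κ₁) := congrArg dd hθ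
  have T2 : dd (dd (θ ^ 2 * (dd κ₁ * ax κ₂))) = dd (dd (dd κ₂ * ax κ₁)) := congrArg dd T1
  have dadd : ∀ a b : PowerSeries Kbar, dd (a + b) = dd a + dd b := fun a b =>
    map_add (PowerSeries.derivative Kbar) a b
  unfold OD at hG ⊢
  unfold SnD Sn at h
  have y1 : dd (θ * G) = dd θ * G + θ * dd G := dd_mul _ _
  have y2 : dd (dd (θ * G)) = dd (dd θ) * G + 2 * dd θ * dd G + θ * dd (dd G) := by
    rw [y1, dadd, dd_mul, dd_mul]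
    ring
  rw [y2, y1, dd_ax]
  rw [dd_ax] at hG
  refine gau_alg h4 κ₁ (dd κ₁) (dd (dd κ₁)) (dd (dd (dd κ₁))) κ₂ (dd κ₂) (dd (dd κ₂)) (dd (dd (dd κ₂)))
    θ (dd θ) (dd (dd θ)) G (dd G) (dd (dd G)) h1 h2 a1 a2 hθ0 h
    (dd κ₁ * ax κ₂) (dd κ₂ * ax κ₁) (dd (dd κ₁ * ax κ₂)) (dd (dd κ₂ * ax κ₁))
    (dd (dd (dd κ₁ * ax κ₂))) (dd (dd (dd κ₂ * ax κ₁))) rfl rfl ?_ ?_ ?_ ?_ hθ ?_ ?_ hG
  · rw [dd_mul, dd_ax]
    rfl
  · rw [dd_mul, dd_ax]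
    rfl
  · rw [dd_mul, dadd, dd_mul, dd_mul, dd_dd_ax, dd_ax]
    show _ = dd (dd (dd κ₁)) * ax κ₂ + _ + _
    ring
  · rw [dd_mul, dadd, dd_mul, dd_mul, dd_dd_ax, dd_ax]
    show _ = dd (dd (dd κ₂)) * ax κ₁ + _ + _
    ring
  · rw [dd_mul (θ ^ 2), pow_two, dd_mul θ θ] at T1
    linear_combination T1
  · rw [dd_mul (θ ^ 2), pow_two, dd_mul θ θ, dadd, dd_mul, dadd, dd_mul (dd θ) θ, dd_mul θ (dd θ),
      dd_mul (θ * θ), dd_mul θ θ] at T2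
    linear_combination T2

end Pool.Agent.H64.PV
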