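import Pool.Agent.H64.PV.PDef

/-!
# PV.HpO : the Hasse polynomial

PROOFS. `hp_coeff`: `coeff i (HP K M) = cb i cb (M - i)` for `i ≤ M`, `0` otherwise (`finset_sum_coeff`, `coeff_C_mul_X_pow`). `hp_eval`: definition of `aK`. `cb_ne`: `centralBinom i` is not divisible by `p` for `2 i < p` (it divides `(2 i)!`), `4 ≠ 0`. `hp_ode`: compare the coefficients of `x^i`: `4 (i + 1)^2 b_(i+1) = (2 i + 1)^2 b_i`, where in `ZMod p`: `2 (j + 1) cb (j + 1) = (2 j + 1) cb j`
(`Nat.succ_mul_centralBinom_succ`). For `i < m`, `k = m - i - 1`: `4 (i + 1)^2 b_(i+1) = 2 (i + 1) (2 i + 1) cb i cb k`, `2 (k + 1) cb (k + 1) = (2 k + 1) cb k` with `2 (k + 1) = 2 (m - i) = -(2 i + 1)`, `2 k + 1 = -2 (i + 1)` in `ZMod p` (`2 m + 1 = p = 0`), so `(2 i + 1) cb (m - i) = 2 (i + 1) cb k`. For `i = m` both sides are `0`, for `i > m` too.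
-/

set_option autoImplicit false

namespace Pool.Agent.H64.PV

open Pool.H61.QF Pool.Agent.H64.LG PowerSeries

theorem hp_coeff (K : Type) [Field K] (M i : ℕ) :
    (HP K M).coeff i = if i ≤ M then cb K i * cb K (M - i) else 0 := by
  classical
  unfold HP
  rw [Polynomial.finsetSum_coeff]
  simp only [Polynomial.coeff_C_mul_X_pow]
  rw [Finset.sum_ite_eq]
  simp only [Finset.mem_range, Nat.lt_succ_iff]

theorem hp_eval (K : Type) [Field K] (M : ℕ) (x : K) : (HP K M).eval x = aK x M := by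
  unfold HP aK
  rw [Polynomial.eval_finsetSum]
  refine Finset.sum_congr rfl fun i _ => ?_
  rw [Polynomial.eval_mul, Polynomial.eval_C, Polynomial.eval_pow, Polynomial.eval_X]

private theorem hpo_two_ne (p : ℕ) [Fact p.Prime] (h2 : p ≠ 2) : (2 : ZMod p) ≠ 0 := by
  intro h
  have h1 : ((2 : ℕ) : ZMod p) = 0 := by exact_mod_cast h
  rw [ZMod.natCast_eq_zero_iff] at h1
  exact h2 ((Nat.prime_dvd_prime_iff_eq (Fact.out : p.Prime) Nat.prime_two).1 h1)

private theorem hpo_four_ne (p : ℕ) [Fact p.Prime] (h2 : p ≠ 2) : (4 : ZMod p) ≠ 0 := by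
  have h : (4 : ZMod p) = 2 * 2 := by norm_num
  rw [h]
  exact mul_ne_zero (hpo_two_ne p h2) (hpo_two_ne p h2)

private theorem hpo_cb_succ (p : ℕ) [Fact p.Prime] (h2 : p ≠ 2) (j : ℕ) :
    2 * ((j : ZMod p) + 1) * cb (ZMod p) (j + 1) = (2 * (j : ZMod p) + 1) * cb (ZMod p) j := by
  have h4 := hpo_four_ne p h2
  have h1 : ((j : ZMod p) + 1) * (Nat.centralBinom (j + 1) : ZMod p) =
      2 * (2 * (j : ZMod p) + 1) * (Nat.centralBinom j : ZMod p) := by
    have := Nat.succ_mul_centralBinom_succ j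
    exact_mod_cast congrArg (Nat.cast : ℕ → ZMod p) this
  unfold cb
  rw [pow_succ]
  field_simp
  linear_combination 2 * h1

private theorem hpo_two_m (p : ℕ) [Fact p.Prime] (h2 : p ≠ 2) :
    2 * (((p - 1) / 2 : ℕ) : ZMod p) + 1 = 0 := by
  have hodd : Odd p := (Fact.out : p.Prime).odd_of_ne_two h2
  have h1 : 2 * ((p - 1) / 2) + 1 = p := by
    obtain ⟨k, hk⟩ := hodd
    omega
  have h3 : ((2 * ((p - 1) / 2) + 1 : ℕ) : ZMod p) = 0 := by
    rw [h1]
    exact ZMod.natCast_self p
  push_cast at h3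
  exact h3

private theorem hpo_rec (p : ℕ) [Fact p.Prime] (h2 : p ≠ 2) (i : ℕ) :
    4 * ((i : ZMod p) + 1) ^ 2 * (HP (ZMod p) ((p - 1) / 2)).coeff (i + 1) =
      (2 * (i : ZMod p) + 1) ^ 2 * (HP (ZMod p) ((p - 1) / 2)).coeff i := by
  have hm := hpo_two_m p h2
  set m := (p - 1) / 2 with hmdef
  rw [hp_coeff, hp_coeff]
  rcases lt_trichotomy i m with h | h | h
  · obtain ⟨k, hk⟩ : ∃ k, m = i + k + 1 := ⟨m - i - 1, by omega⟩
    rw [if_pos (by omega), if_pos (by omega)]
    have e1 : m - (i + 1) = k := by omega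
    have e2 : m - i = k + 1 := by omega
    rw [e1, e2]
    have c1 := hpo_cb_succ p h2 i
    have c2 := hpo_cb_succ p h2 k
    have hk' : (m : ZMod p) = (i : ZMod p) + k + 1 := by
      rw [hk]
      push_cast
      ring
    rw [hk'] at hm
    have hk2 : 2 * ((k : ZMod p) + 1) = -(2 * (i : ZMod p) + 1) := by linear_combination hm
    have hk3 : 2 * (k : ZMod p) + 1 = -(2 * ((i : ZMod p) + 1)) := by linear_combination hm
    rw [hk2, hk3] at c2
    have c3 : (2 * (i : ZMod p) + 1) * cb (ZMod p) (k + 1) =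
        2 * ((i : ZMod p) + 1) * cb (ZMod p) k := by linear_combination -c2
    calc 4 * ((i : ZMod p) + 1) ^ 2 * (cb (ZMod p) (i + 1) * cb (ZMod p) k)
        = 2 * ((i : ZMod p) + 1) * (2 * ((i : ZMod p) + 1) * cb (ZMod p) (i + 1)) *
          cb (ZMod p) k := by ring
      _ = (2 * (i : ZMod p) + 1) * cb (ZMod p) i * (2 * ((i : ZMod p) + 1) * cb (ZMod p) k) := by
          rw [c1]
          ring
      _ = (2 * (i : ZMod p) + 1) ^ 2 * (cb (ZMod p) i * cb (ZMod p) (k + 1)) := by
          rw [← c3]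
          ring
  · rw [if_neg (by omega), h, hm]
    ring
  · rw [if_neg (by omega), if_neg (by omega)]
    ring

theorem cb_ne (p : ℕ) [Fact p.Prime] (h2 : p ≠ 2) (i : ℕ) (hi : 2 * i < p) : cb (ZMod p) i ≠ 0 := by
  unfold cb
  refine div_ne_zero ?_ (pow_ne_zero _ (hpo_four_ne p h2))
  intro h
  rw [ZMod.natCast_eq_zero_iff] at h
  have h1 : Nat.centralBinom i ∣ (2 * i).factorial := by
    have h3 := Nat.add_choose_mul_factorial_mul_factorial i i
    rw [← two_mul] at h3
    rw [Nat.centralBinom, ← h3, mul_assoc]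
    exact dvd_mul_right _ _
  have h3 := h.trans h1
  rw [(Fact.out : p.Prime).dvd_factorial] at h3
  omega

theorem hp_ode (p : ℕ) [Fact p.Prime] (h2 : p ≠ 2) :
    4 * (Polynomial.X * (1 - Polynomial.X) *
        Polynomial.derivative (Polynomial.derivative (HP (ZMod p) ((p - 1) / 2))) +
      (1 - 2 * Polynomial.X) * Polynomial.derivative (HP (ZMod p) ((p - 1) / 2))) =
        HP (ZMod p) ((p - 1) / 2) := by
  have hrec := hpo_rec p h2
  set h : Polynomial (ZMod p) := HP (ZMod p) ((p - 1) / 2) with hh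
  have e : 4 * (Polynomial.X * (1 - Polynomial.X) *
        Polynomial.derivative (Polynomial.derivative h) +
      (1 - 2 * Polynomial.X) * Polynomial.derivative h) =
      Polynomial.C 4 * (Polynomial.X * (Polynomial.derivative (Polynomial.derivative h) -
        Polynomial.X * Polynomial.derivative (Polynomial.derivative h)) +
      (Polynomial.derivative h - Polynomial.C 2 * (Polynomial.X * Polynomial.derivative h))) := by
    have h4 : (Polynomial.C 4 : Polynomial (ZMod p)) = 4 := rfl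
    have h2' : (Polynomial.C 2 : Polynomial (ZMod p)) = 2 := rfl
    rw [h4, h2']
    ring
  rw [e]
  ext n
  have hn := hrec n
  rw [Polynomial.coeff_C_mul, Polynomial.coeff_add, Polynomial.coeff_sub, Polynomial.coeff_C_mul]
  rcases n with _ | _ | n
  · simp only [Polynomial.coeff_X_mul_zero, Polynomial.coeff_derivative]
    simp only [Nat.cast_zero, zero_add] at hn ⊢
    linear_combination hn
  · simp only [Polynomial.coeff_X_mul, Polynomial.coeff_sub, Polynomial.coeff_X_mul_zero,
      Polynomial.coeff_derivative, zero_add] at hn ⊢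
    push_cast at hn ⊢
    linear_combination hn
  · simp only [Polynomial.coeff_X_mul, Polynomial.coeff_sub, Polynomial.coeff_derivative] at hn ⊢
    push_cast at hn ⊢
    linear_combination hn

end Pool.Agent.H64.PV
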