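import Pool.Agent.H64.PV.PDef

/-!
# PV.LemW : a series with bounded derivative which is bounded after multiplication by a bounded series is bounded

PROOF. The norms of the coefficients of `a` are powers of `p` (or `0`), bounded, not all `0`, so the largest one `μ > 0` is attained, `μ = ‖a_k‖` (e.g. the set of the `n : ℤ` with `∃ i, ‖a_i‖ = p^n` is bounded above and not empty, `Padic.norm_values_discrete`..). Let `‖n g_n‖ ≤ p^B` for all `n` (`hg`, `coeff n (dd g) = (n + 1) g_(n+1)`). Suppose `g` is not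
bounded: for every `s` there is `n` with `‖g_n‖ ≥ p^s`; let `n_s` be the least one. For `s` large `n_s ≥ 1` (`‖g_0‖ < p^s`), and `‖n_s‖ ≤ p^B / ‖g_(n_s)‖ ≤ p^(B - s)`, so `p^(s - B) ∣ n_s` (`s > B`). Let also `p^(s - B) > k`. In `coeff (n_s + k) (a g) = ∑_{i + j = n_s + k} a_i g_j`: the term `j = n_s` has norm `μ ‖g_(n_s)‖ ≥ μ p^s`; if `j < n_s` then
`‖g_j‖ < p^s`, so `≤ p^(s-1)` and the term is `≤ μ p^(s-1)`; if `n_s < j ≤ n_s + k` then `p^(s-B)` does not divide `j`, so `‖j‖ ≥ p^(B-s+1)`, `‖g_j‖ ≤ p^B / ‖j‖ ≤ p^(s-1)`, and the term is `≤ μ p^(s-1)`. So the norm of the coefficient is `≥ μ p^s` (ultrametric: one term is larger than all others; `Padic.add_eq_max_of_ne` or `IsUltrametricDist`: the sum of the others is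
`≤ μ p^(s-1)`, if the total were `< μ p^s` then the large term = total - others would be too small). This contradicts `hag` for large `s`.
-/

set_option autoImplicit false

namespace Pool.Agent.H64.PV

open Pool.H61.QF Pool.Agent.H64.LG PowerSeries

/-- a bounded family of `p`-adic numbers, not all zero, has an element of largest norm -/
private theorem lemW_max (p : ℕ) [Fact p.Prime] (b : ℕ → ℚ_[p]) (M : ℕ)
    (hM : ∀ n, ‖b n‖ ≤ (p : ℝ) ^ M) (hb : ∃ i, b i ≠ 0) :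
    ∃ k, b k ≠ 0 ∧ ∀ i, ‖b i‖ ≤ ‖b k‖ := by
  have hp : (1 : ℝ) < p := by exact_mod_cast (Fact.out : p.Prime).one_lt
  have key : ∀ i, b i ≠ 0 → 0 ≤ (b i).valuation + (M : ℤ) := by
    intro i hi
    have h := hM i
    rw [Padic.norm_eq_zpow_neg_valuation hi, ← zpow_natCast, zpow_le_zpow_iff_right₀ hp] at h
    omega
  obtain ⟨k, hk, hmin⟩ := WellFounded.has_min
    (measure fun i : ℕ => ((b i).valuation + (M : ℤ)).toNat).wf {i | b i ≠ 0} hb
  refine ⟨k, hk, fun i => ?_⟩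
  by_cases hi : b i = 0
  · rw [hi, norm_zero]
    exact norm_nonneg _
  · have h1 := hmin i hi
    have h2 := key i hi
    have h3 := key k hk
    have h4 : ¬ ((b i).valuation + (M : ℤ)).toNat < ((b k).valuation + (M : ℤ)).toNat := h1
    rw [Padic.norm_eq_zpow_neg_valuation hi, Padic.norm_eq_zpow_neg_valuation hk,
      zpow_le_zpow_iff_right₀ hp]
    omega

theorem lemW (p : ℕ) [Fact p.Prime] (a g : PowerSeries ℚ_[p]) (ha : a ∈ Bd p) (ha0 : a ≠ 0)
    (hg : dd g ∈ Bd p) (hag : a * g ∈ Bd p) : g ∈ Bd p := by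
  classical
  have hp : (1 : ℝ) < p := by exact_mod_cast (Fact.out : p.Prime).one_lt
  have hp0 : (0 : ℝ) < p := by linarith
  obtain ⟨M, hM⟩ := (Bd_iff p a).1 ha
  obtain ⟨B, hB⟩ := (Bd_iff p _).1 hg
  obtain ⟨C, hC⟩ := (Bd_iff p _).1 hag
  have hne : ∃ i, coeff i a ≠ 0 := by
    by_contra hcon
    push Not at hcon
    exact ha0 (PowerSeries.ext fun n => by rw [hcon n, map_zero])
  obtain ⟨k, hk0, hk⟩ := lemW_max p (fun i => coeff i a) M hM hne
  have hμ : 0 < ‖coeff k a‖ := norm_pos_iff.2 hk0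
  rw [Bd_iff]
  by_contra hcon
  push Not at hcon
  obtain ⟨t, ht⟩ := pow_unbounded_of_one_lt ‖coeff 0 g‖ hp
  obtain ⟨u, hu⟩ := pow_unbounded_of_one_lt ((p : ℝ) ^ C / ‖coeff k a‖) hp
  set s : ℕ := B + (k + 1) + t + u with hs
  have hbig : ∃ n, (p : ℝ) ^ s ≤ ‖coeff n g‖ := by
    obtain ⟨n, hn⟩ := hcon s
    exact ⟨n, hn.le⟩
  set n := Nat.find hbig with hn
  have hn1 : (p : ℝ) ^ s ≤ ‖coeff n g‖ := Nat.find_spec hbig
  have hn2 : ∀ j, j < n → ‖coeff j g‖ < (p : ℝ) ^ s := fun j hj => not_le.1 (Nat.find_min hbig hj)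
  have hnpos : n ≠ 0 := by
    intro h0
    rw [h0] at hn1
    have h1 : (p : ℝ) ^ t ≤ (p : ℝ) ^ s := pow_le_pow_right₀ hp.le (by omega)
    linarith
  have hder : ∀ j, j ≠ 0 → ‖coeff j g‖ * ‖(j : ℚ_[p])‖ ≤ (p : ℝ) ^ B := by
    intro j hj
    obtain ⟨m, rfl⟩ := Nat.exists_eq_succ_of_ne_zero hj
    have h := hB m
    rw [PowerSeries.coeff_derivative, norm_mul] at h
    simpa using h
  -- `p ^ (s - B)` divides `n`
  have hdvd : (p ^ (s - B) : ℕ) ∣ n := by
    have h1 := hder n hnpos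
    have h2 : ‖(n : ℚ_[p])‖ ≤ (p : ℝ) ^ (-((s - B : ℕ) : ℤ)) := by
      have hps : (0 : ℝ) < (p : ℝ) ^ s := by positivity
      have h3 : (p : ℝ) ^ s * ‖(n : ℚ_[p])‖ ≤ (p : ℝ) ^ B :=
        (mul_le_mul_of_nonneg_right hn1 (norm_nonneg _)).trans h1
      have h4 : (p : ℝ) ^ s * (p : ℝ) ^ (-((s - B : ℕ) : ℤ)) = (p : ℝ) ^ B := by
        rw [← zpow_natCast, ← zpow_natCast, ← zpow_add₀ hp0.ne']
        congr 1
        omega
      rw [← h4] at h3
      exact le_of_mul_le_mul_left h3 hps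
    have h5 := (Padic.norm_int_le_pow_iff_dvd (p := p) (n : ℤ) (s - B)).1 (by exact_mod_cast h2)
    exact_mod_cast h5
  have hlarge : ∀ j, n < j → j ≤ n + k → ‖coeff j g‖ < (p : ℝ) ^ s := by
    intro j hj1 hj2
    have hnd : ¬ (p ^ (s - B) : ℕ) ∣ j := by
      intro hd
      have h1 : (p ^ (s - B) : ℕ) ∣ j - n := Nat.dvd_sub hd hdvd
      have h2 := Nat.le_of_dvd (by omega) h1
      have h3 : k + 1 < p ^ (k + 1) := Nat.lt_pow_self (Fact.out : p.Prime).one_lt
      have h4 : p ^ (k + 1) ≤ p ^ (s - B) :=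
        Nat.pow_le_pow_right (Fact.out : p.Prime).pos (by omega)
      omega
    have h1 : (p : ℝ) ^ (-((s - B : ℕ) : ℤ)) < ‖(j : ℚ_[p])‖ := by
      by_contra hc
      push Not at hc
      have h5 := (Padic.norm_int_le_pow_iff_dvd (p := p) (j : ℤ) (s - B)).1 (by exact_mod_cast hc)
      exact hnd (by exact_mod_cast h5)
    have h2 := hder j (by omega)
    by_contra hc
    push Not at hc
    have hps : (0 : ℝ) < (p : ℝ) ^ s := by positivity
    have h4 : (p : ℝ) ^ s * (p : ℝ) ^ (-((s - B : ℕ) : ℤ)) = (p : ℝ) ^ B := by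
      rw [← zpow_natCast, ← zpow_natCast, ← zpow_add₀ hp0.ne']
      congr 1
      omega
    have h5 : (p : ℝ) ^ s * (p : ℝ) ^ (-((s - B : ℕ) : ℤ)) < (p : ℝ) ^ s * ‖(j : ℚ_[p])‖ :=
      mul_lt_mul_of_pos_left h1 hps
    have h6 : (p : ℝ) ^ s * ‖(j : ℚ_[p])‖ ≤ ‖coeff j g‖ * ‖(j : ℚ_[p])‖ :=
      mul_le_mul_of_nonneg_right hc (norm_nonneg _)
    linarith
  have hsmall : ∀ j, j ≠ n → j ≤ n + k → ‖coeff j g‖ < (p : ℝ) ^ s := by
    intro j h1 h2
    rcases lt_or_gt_of_ne h1 with h | h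
    · exact hn2 j h
    · exact hlarge j h h2
  have hps : (0 : ℝ) < (p : ℝ) ^ s := by positivity
  -- the coefficient
  have hsum : coeff (n + k) (a * g) = coeff k a * coeff n g +
      ∑ x ∈ (Finset.HasAntidiagonal.antidiagonal (n + k)).erase (k, n), coeff x.1 a * coeff x.2 g := by
    rw [PowerSeries.coeff_mul]
    rw [← Finset.add_sum_erase _ _ (show (k, n) ∈ Finset.HasAntidiagonal.antidiagonal (n + k) by
      rw [Finset.HasAntidiagonal.mem_antidiagonal]; omega)]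
  have hoth : ‖∑ x ∈ (Finset.HasAntidiagonal.antidiagonal (n + k)).erase (k, n), coeff x.1 a * coeff x.2 g‖ <
      ‖coeff k a‖ * (p : ℝ) ^ s := by
    rcases Finset.eq_empty_or_nonempty ((Finset.HasAntidiagonal.antidiagonal (n + k)).erase (k, n)) with he | he
    · rw [he, Finset.sum_empty, norm_zero]
      positivity
    · obtain ⟨x, hx, hx2⟩ := IsUltrametricDist.exists_norm_finsetSum_le_of_nonempty he
        (fun x : ℕ × ℕ => coeff x.1 a * coeff x.2 g)
      refine lt_of_le_of_lt hx2 ?_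
      have hx3 := Finset.mem_erase.1 hx
      have hx4 := Finset.HasAntidiagonal.mem_antidiagonal.1 hx3.2
      have hx5 : x.2 ≠ n := by
        intro h
        apply hx3.1
        ext
        · simp only; omega
        · exact h
      have h1 := hsmall x.2 hx5 (by omega)
      rw [norm_mul]
      calc ‖coeff x.1 a‖ * ‖coeff x.2 g‖ ≤ ‖coeff k a‖ * ‖coeff x.2 g‖ :=
            mul_le_mul_of_nonneg_right (hk x.1) (norm_nonneg _)
        _ < ‖coeff k a‖ * (p : ℝ) ^ s := mul_lt_mul_of_pos_left h1 hμ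
  have hmain : ‖coeff k a‖ * (p : ℝ) ^ s ≤ ‖coeff k a * coeff n g‖ := by
    rw [norm_mul]
    exact mul_le_mul_of_nonneg_left hn1 hμ.le
  have htot : ‖coeff k a * coeff n g‖ ≤ ‖coeff (n + k) (a * g)‖ := by
    by_contra hc
    push Not at hc
    have h1 : coeff k a * coeff n g = coeff (n + k) (a * g) -
        ∑ x ∈ (Finset.HasAntidiagonal.antidiagonal (n + k)).erase (k, n), coeff x.1 a * coeff x.2 g := by
      rw [hsum]; ring
    have h2 := IsUltrametricDist.norm_add_le_max (coeff (n + k) (a * g))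
      (-∑ x ∈ (Finset.HasAntidiagonal.antidiagonal (n + k)).erase (k, n), coeff x.1 a * coeff x.2 g)
    rw [norm_neg, ← sub_eq_add_neg, ← h1] at h2
    rcases le_max_iff.1 h2 with h | h
    · linarith
    · linarith
  have h1 := hC (n + k)
  have h2 : (p : ℝ) ^ C < ‖coeff k a‖ * (p : ℝ) ^ s := by
    rw [div_lt_iff₀ hμ] at hu
    have h3 : (p : ℝ) ^ u ≤ (p : ℝ) ^ s := pow_le_pow_right₀ hp.le (by omega)
    have h4 : (p : ℝ) ^ u * ‖coeff k a‖ ≤ (p : ℝ) ^ s * ‖coeff k a‖ :=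
      mul_le_mul_of_nonneg_right h3 hμ.le
    linarith [mul_comm ‖coeff k a‖ ((p : ℝ) ^ s)]
  linarith

end Pool.Agent.H64.PV
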