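import Pool.Agent.H64.PV.PDef

/-!
# PV.Luc : Lucas congruence for the polynomials HP

PROOF. (a) `cb (ZMod p) (i₀ + p i₁) = cb i₀ * cb i₁` for `i₀ < p`: Lucas (`Choose.choose_modEq_choose_mod_mul_choose_div`) for `(2 i choose i)`, `i = i₀ + p i₁`: if `2 i₀ < p` then `2 i = 2 i₀ + p (2 i₁)`, so it is `(2 i₀ choose i₀) (2 i₁ choose i₁)`; if `2 i₀ > p` then `2 i = (2 i₀ - p) + p (2 i₁ + 1)` and `(2 i₀ - p choose i₀) = 0` as `2 i₀ - p < i₀`, and also
`(2 i₀ choose i₀) = 0` in `ZMod p` (the same with `i₁ = 0`). `4^i = 4^(i₀) 4^(i₁)` in `ZMod p` (Fermat). (b) `HP M ^ p = expand p (HP M)` (`ZMod.expand_card`). Compare the coefficients of `x^i`, `i = i₀ + p i₁`, `i₀ < p`, `m = (p - 1) / 2`: on the left `cb i cb (m + p M - i)` if `i ≤ m + p M`, else `0`; on the right `(coefficient i₀ of HP m) (coefficient i₁ of HP M)`, as `HP m` has degree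
`≤ m < p` (`coeff_mul`, only one term; or `HP m * expand p (HP M) = ∑∑`, uniqueness of the expansion). If `i₀ ≤ m` and `i₁ ≤ M`: `m + p M - i = (m - i₀) + p (M - i₁)` and (a). If `i₀ > m`: `cb i = cb i₀ cb i₁ = 0`. If `i₀ ≤ m`, `i₁ > M`: both sides `0`. (`coeff i (HP M) = cb i cb (M - i)` for `i ≤ M`, else `0`.)
-/

set_option autoImplicit false

namespace Pool.Agent.H64.PV

open Pool.H61.QF Pool.Agent.H64.LG PowerSeries

private lemma luc_cbz (p : ℕ) [Fact p.Prime] (i : ℕ) (h : i < p) (h' : p ≤ 2 * i) (j : ℕ) :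
    ((Nat.centralBinom (i + p * j) : ℕ) : ZMod p) = 0 := by
  have hp : 0 < p := (Fact.out : p.Prime).pos
  have h1 := Choose.choose_modEq_choose_mod_mul_choose_div_nat (p := p)
    (n := 2 * (i + p * j)) (k := i + p * j)
  have e1 : 2 * (i + p * j) % p = 2 * i - p := by
    have : 2 * (i + p * j) = (2 * i - p) + p * (2 * j + 1) := by
      have h3 : 2 * (i + p * j) = 2 * i + p * (2 * j) := by ring
      have h4 : p * (2 * j + 1) = p * (2 * j) + p := by ring
      omega
    rw [this, Nat.add_mul_mod_self_left, Nat.mod_eq_of_lt (by omega)]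
  have e2 : (i + p * j) % p = i := by
    rw [Nat.add_mul_mod_self_left, Nat.mod_eq_of_lt h]
  rw [e1, e2, Nat.choose_eq_zero_of_lt (by omega : 2 * i - p < i), zero_mul] at h1
  have h2 := (ZMod.natCast_eq_natCast_iff _ _ _).2 h1
  rw [Nat.centralBinom_eq_two_mul_choose, h2, Nat.cast_zero]

private lemma luc_cb (p : ℕ) [Fact p.Prime] (i j : ℕ) (h : i < p) :
    cb (ZMod p) (i + p * j) = cb (ZMod p) i * cb (ZMod p) j := by
  have hp : 0 < p := (Fact.out : p.Prime).pos
  have hb : ((Nat.centralBinom (i + p * j) : ℕ) : ZMod p) =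
      (Nat.centralBinom i : ℕ) * (Nat.centralBinom j : ℕ) := by
    rcases Nat.lt_or_ge (2 * i) p with h' | h'
    · have h1 := Choose.choose_modEq_choose_mod_mul_choose_div_nat (p := p)
        (n := 2 * (i + p * j)) (k := i + p * j)
      have e0 : 2 * (i + p * j) = 2 * i + p * (2 * j) := by ring
      have e1 : 2 * (i + p * j) % p = 2 * i := by
        rw [e0, Nat.add_mul_mod_self_left, Nat.mod_eq_of_lt h']
      have e2 : (i + p * j) % p = i := by
        rw [Nat.add_mul_mod_self_left, Nat.mod_eq_of_lt h]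
      have e3 : 2 * (i + p * j) / p = 2 * j := by
        rw [e0, Nat.add_mul_div_left _ _ hp, Nat.div_eq_of_lt h', zero_add]
      have e4 : (i + p * j) / p = j := by
        rw [Nat.add_mul_div_left _ _ hp, Nat.div_eq_of_lt h, zero_add]
      rw [e1, e2, e3, e4] at h1
      have h2 := (ZMod.natCast_eq_natCast_iff _ _ _).2 h1
      rw [Nat.centralBinom_eq_two_mul_choose, h2, Nat.cast_mul, Nat.centralBinom_eq_two_mul_choose,
        Nat.centralBinom_eq_two_mul_choose]
    · have h1 := luc_cbz p i h h' 0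
      rw [mul_zero, add_zero] at h1
      rw [luc_cbz p i h h' j, h1, zero_mul]
  unfold cb
  rw [hb, pow_add, pow_mul, ZMod.pow_card, div_mul_div_comm]

theorem luc (p : ℕ) [Fact p.Prime] (h2 : p ≠ 2) (M : ℕ) :
    HP (ZMod p) ((p - 1) / 2 + p * M) = HP (ZMod p) ((p - 1) / 2) * HP (ZMod p) M ^ p := by
  have hpp : p.Prime := Fact.out
  have hodd : p % 2 = 1 := by
    rcases hpp.eq_two_or_odd with h | h
    · exact absurd h h2
    · exact h
  obtain ⟨m, hm⟩ : ∃ m, m = (p - 1) / 2 := ⟨_, rfl⟩
  have hpm : p = 2 * m + 1 := by omega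
  rw [← hm, ← ZMod.expand_card]
  unfold HP
  rw [map_sum, Finset.sum_mul_sum, ← Finset.sum_product']
  symm
  refine Finset.sum_of_injOn (fun x : ℕ × ℕ => x.1 + p * x.2) ?_ ?_ ?_ ?_
  · rintro ⟨a, b⟩ hab ⟨c, d⟩ hcd h
    rw [Finset.mem_coe, Finset.mem_product, Finset.mem_range, Finset.mem_range] at hab hcd
    simp only at h hab hcd
    have h3 : a = c := by
      have := congrArg (· % p) h
      simp only [Nat.add_mul_mod_self_left] at this
      rwa [Nat.mod_eq_of_lt (by omega), Nat.mod_eq_of_lt (by omega)] at this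
    have h4 : b = d := by
      rw [h3] at h
      exact Nat.eq_of_mul_eq_mul_left hpp.pos (Nat.add_left_cancel h)
    rw [h3, h4]
  · rintro ⟨a, b⟩ hab
    rw [Finset.mem_coe, Finset.mem_product, Finset.mem_range, Finset.mem_range] at hab
    simp only at hab
    rw [Finset.mem_coe, Finset.mem_range]
    have h3 : p * b ≤ p * M := Nat.mul_le_mul_left _ (by omega)
    show a + p * b < m + p * M + 1
    omega
  · intro i hi hni
    have h3 : m < i % p := by
      by_contra hcon
      apply hni
      rw [Finset.mem_range] at hi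
      refine ⟨(i % p, i / p), ?_, Nat.mod_add_div i p⟩
      rw [Finset.mem_coe, Finset.mem_product, Finset.mem_range, Finset.mem_range]
      refine ⟨by simp only; omega, ?_⟩
      simp only
      rw [Nat.div_lt_iff_lt_mul hpp.pos]
      have h5 : (M + 1) * p = p * M + p := by ring
      omega
    have h4 : cb (ZMod p) i = 0 := by
      have h5 := luc_cbz p (i % p) (Nat.mod_lt _ hpp.pos) (by omega) (i / p)
      rw [Nat.mod_add_div] at h5
      unfold cb
      rw [h5, zero_div]
    rw [h4, zero_mul, map_zero, zero_mul]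
  · rintro ⟨a, b⟩ hab
    rw [Finset.mem_product, Finset.mem_range, Finset.mem_range] at hab
    simp only at hab
    simp only
    have e1 : m + p * M - (a + p * b) = (m - a) + p * (M - b) := by
      obtain ⟨c, rfl⟩ : ∃ c, M = b + c := ⟨M - b, by omega⟩
      have h3 : p * (b + c) = p * b + p * c := by ring
      rw [h3, Nat.add_sub_cancel_left]
      omega
    have e2 : (Polynomial.expand (ZMod p) p)
        (Polynomial.C (cb (ZMod p) b * cb (ZMod p) (M - b)) * Polynomial.X ^ b) =
        Polynomial.C (cb (ZMod p) b * cb (ZMod p) (M - b)) * Polynomial.X ^ (p * b) := by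
      rw [map_mul, map_pow, Polynomial.expand_C, Polynomial.expand_X, ← pow_mul]
    rw [e1, luc_cb p a b (by omega), luc_cb p (m - a) (M - b) (by omega), e2, pow_add]
    simp only [Polynomial.C_mul]
    ring

end Pool.Agent.H64.PV
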