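import Pool.Agent.H64.PV.Ad
import Pool.Agent.H64.PV.Exp
import Pool.Agent.H64.PV.Gau

/-!
# PV.Mat : gauge equivalent families

PROOF. `κ_i = C c_i + τ_i`, `a_i = ax κ_i` (constant coefficient `c_i (1 - c_i) ≠ 0`), `dd κ_i = X^(e-1) * u_i`, `u_i` with constant coefficient `e coeff e τ_i ≠ 0`. `φ = u₂ a₁ (u₁ a₂)⁻¹` (inverse of a power series with nonzero constant coefficient), so `φ * (dd κ₁ * a₂) = dd κ₂ * a₁`, and `φ ∈ A0` (`alg_of_mul` with `q = dd κ₁ * a₂ ≠ 0`; `A0_dd`, `cst_mem`). `A0_sqrt`: `θ ∈ A0`, `θ^2 = φ`, nonzero constant coefficient.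
By `od_gs` and `gau`, `θ * G_b` (`G_b = (gs c₁ b).subst τ₁`) satisfies `OD κ₂`, so by `od_two` it is `∑_a C (m b a) * (gs c₂ a).subst τ₂`. `ϑ = θ⁻¹ ∈ A0` (`alg_of_mul`, `θ * θ⁻¹ = 1`).
-/

set_option autoImplicit false

namespace Pool.Agent.H64.PV

open Pool.H61.QF Pool.Agent.H64.LG PowerSeries

private theorem mat_dd (c : Kbar) (τ : PowerSeries Kbar) (e : ℕ) (he : 1 ≤ e)
    (h1 : ∀ n, n < e → coeff n τ = 0) (h1' : coeff e τ ≠ 0) :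
    ∃ u : PowerSeries Kbar, dd (C c + τ) = X ^ (e - 1) * u ∧ constantCoeff u ≠ 0 := by
  have hd : dd (C c + τ) = dd τ := by
    have e1 : dd (C c + τ) = dd (C c) + dd τ := map_add _ _ _
    have e2 : dd (C c : PowerSeries Kbar) = 0 := derivative_C
    rw [e1, e2, zero_add]
  have hc : ∀ n, coeff n (dd τ) = coeff (n + 1) τ * (n + 1) := fun n => coeff_derivative τ n
  have hdv : X ^ (e - 1) ∣ dd τ := by
    rw [X_pow_dvd_iff]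
    intro n hn
    rw [hc, h1 (n + 1) (by omega), zero_mul]
  obtain ⟨u, hu⟩ := hdv
  refine ⟨u, by rw [hd, hu], ?_⟩
  have h3 : coeff (e - 1) (dd τ) = constantCoeff u := by
    rw [hu]
    have h4 := coeff_X_pow_mul u (e - 1) 0
    rw [zero_add, coeff_zero_eq_constantCoeff_apply] at h4
    exact h4
  rw [← h3, hc]
  have h5 : e - 1 + 1 = e := by omega
  rw [h5]
  refine mul_ne_zero h1' ?_
  have h6 : ((e - 1 : ℕ) : Kbar) + 1 = (e : Kbar) := by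
    have h7 : ((e - 1 + 1 : ℕ) : Kbar) = (e : Kbar) := by rw [h5]
    push_cast at h7
    exact h7
  rw [h6]
  exact_mod_cast (by omega : e ≠ 0)

private theorem mat_ax (c : Kbar) (h0 : c ≠ 0) (h1 : c ≠ 1) (τ : PowerSeries Kbar)
    (hτ : constantCoeff τ = 0) : constantCoeff (ax (C c + τ)) ≠ 0 := by
  unfold ax
  rw [map_mul, map_sub, map_one, map_add, hτ, constantCoeff_C, add_zero]
  exact mul_ne_zero h0 (sub_ne_zero.2 (Ne.symm h1))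

private theorem mat_axm (c : Kbar) (τ : PowerSeries Kbar) (hτ : τ ∈ A0) :
    C c + τ ∈ A0 ∧ ax (C c + τ) ∈ A0 := by
  have h : C c + τ ∈ A0 := A0.add_mem (cst_mem c) hτ
  exact ⟨h, A0.mul_mem h (A0.sub_mem A0.one_mem h)⟩

private theorem mat_ne {f : PowerSeries Kbar} (h : constantCoeff f ≠ 0) : f ≠ 0 := by
  rintro rfl
  exact h (map_zero _)

theorem gmat (c₁ c₂ : Kbar) (h10 : c₁ ≠ 0) (h11 : c₁ ≠ 1) (h20 : c₂ ≠ 0) (h21 : c₂ ≠ 1)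
    (τ₁ τ₂ : PowerSeries Kbar) (hτ₁ : τ₁ ∈ A0) (hτ₂ : τ₂ ∈ A0) (e : ℕ) (he : 1 ≤ e)
    (h1 : ∀ n, n < e → coeff n τ₁ = 0) (h1' : coeff e τ₁ ≠ 0)
    (h2 : ∀ n, n < e → coeff n τ₂ = 0) (h2' : coeff e τ₂ ≠ 0)
    (h : SnD (C c₁ + τ₁) (C c₂ + τ₂) = 0) :
    ∃ ϑ ∈ A0, ∃ m : Fin 2 → Fin 2 → Kbar, ∀ b, (gs c₁ b).subst τ₁ =
      ϑ * ∑ a : Fin 2, C (m b a) * (gs c₂ a).subst τ₂ := by
  have hz1 : constantCoeff τ₁ = 0 := by
    rw [← coeff_zero_eq_constantCoeff_apply]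
    exact h1 0 (by omega)
  have hz2 : constantCoeff τ₂ = 0 := by
    rw [← coeff_zero_eq_constantCoeff_apply]
    exact h2 0 (by omega)
  obtain ⟨u₁, hu₁, hu₁'⟩ := mat_dd c₁ τ₁ e he h1 h1'
  obtain ⟨u₂, hu₂, hu₂'⟩ := mat_dd c₂ τ₂ e he h2 h2'
  have ha1 := mat_ax c₁ h10 h11 τ₁ hz1
  have ha2 := mat_ax c₂ h20 h21 τ₂ hz2
  obtain ⟨hκ1, hax1⟩ := mat_axm c₁ τ₁ hτ₁
  obtain ⟨hκ2, hax2⟩ := mat_axm c₂ τ₂ hτ₂
  have hd1 : dd (C c₁ + τ₁) ≠ 0 := by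
    rw [hu₁]
    exact mul_ne_zero (pow_ne_zero _ X_ne_zero) (mat_ne hu₁')
  have hd2 : dd (C c₂ + τ₂) ≠ 0 := by
    rw [hu₂]
    exact mul_ne_zero (pow_ne_zero _ X_ne_zero) (mat_ne hu₂')
  have hua : constantCoeff (u₁ * ax (C c₂ + τ₂)) ≠ 0 := by
    rw [map_mul]
    exact mul_ne_zero hu₁' ha2
  have hinv : u₁ * ax (C c₂ + τ₂) * (u₁ * ax (C c₂ + τ₂))⁻¹ = 1 := PowerSeries.mul_inv_cancel _ hua
  generalize hw : (u₁ * ax (C c₂ + τ₂))⁻¹ = w at hinv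
  have hφ : u₂ * ax (C c₁ + τ₁) * w * (dd (C c₁ + τ₁) * ax (C c₂ + τ₂)) =
      dd (C c₂ + τ₂) * ax (C c₁ + τ₁) := by
    rw [hu₁, hu₂]
    linear_combination (X ^ (e - 1) * u₂ * ax (C c₁ + τ₁)) * hinv
  have hφ0 : constantCoeff (u₂ * ax (C c₁ + τ₁) * w) ≠ 0 := by
    have hw0 : constantCoeff w ≠ 0 := by
      intro h0
      have h3 := congrArg constantCoeff hinv
      rw [map_mul, h0, mul_zero, map_one] at h3
      exact zero_ne_one h3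
    rw [map_mul, map_mul]
    exact mul_ne_zero (mul_ne_zero hu₂' ha1) hw0
  generalize hφd : u₂ * ax (C c₁ + τ₁) * w = φ at hφ hφ0
  have hq0 : dd (C c₁ + τ₁) * ax (C c₂ + τ₂) ≠ 0 := mul_ne_zero hd1 (mat_ne ha2)
  have hφA : φ ∈ A0 := by
    refine alg_of_mul (A0.mul_mem (A0_dd hκ1) hax2) hq0 ?_
    rw [mul_comm, hφ]
    exact A0.mul_mem (A0_dd hκ2) hax1
  obtain ⟨θ, hθA, hθ2, hθ0⟩ := A0_sqrt hφA hφ0
  have hθne : θ ≠ 0 := mat_ne hθ0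
  have hθi : θ * θ⁻¹ = 1 := PowerSeries.mul_inv_cancel _ hθ0
  have hϑA : θ⁻¹ ∈ A0 := by
    refine alg_of_mul hθA hθne ?_
    rw [hθi]
    exact A0.one_mem
  have hod : ∀ b : Fin 2, OD (C c₂ + τ₂) (θ * (gs c₁ b).subst τ₁) := fun b =>
    gau (C c₁ + τ₁) (C c₂ + τ₂) θ _ h (by rw [hθ2, hφ]) hd1 hd2 (mat_ne ha1) (mat_ne ha2) hθne
      (od_gs c₁ h10 h11 τ₁ hz1 b)
  have htwo : ∀ b : Fin 2, ∃ α β : Kbar, θ * (gs c₁ b).subst τ₁ =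
      C α * (gs c₂ 0).subst τ₂ + C β * (gs c₂ 1).subst τ₂ := fun b =>
    od_two c₂ h20 h21 τ₂ e he h2 h2' _ (hod b)
  choose α β hαβ using htwo
  refine ⟨θ⁻¹, hϑA, fun b a => if a = 0 then α b else β b, fun b => ?_⟩
  have e1 : (if (1 : Fin 2) = 0 then α b else β b) = β b := if_neg (by decide)
  rw [Fin.sum_univ_two]
  simp only [if_true, e1]
  rw [← hαβ b, ← mul_assoc, mul_comm θ⁻¹ θ, hθi, one_mul]

end Pool.Agent.H64.PV
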