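import Pool.Agent.H64.PV.OrdA

/-!
# PV.Ord : every Legendre curve over F_p is ordinary if p = 1 mod 4

PROOF. Let `χ = quadraticChar (ZMod p)`, so `((x)^((p-1)/2) : ZMod p) = χ x` (`quadraticChar_eq_pow_of_char_ne_two'` ..). Let `S = ∑_x χ (x (x - 1) (x - c)) ∈ ℤ`; by `ordA`, `(S : ZMod p) = -aK c m`. The terms with `x ∈ {0, 1, c}` (three different elements) are `0`, the other `p - 3` are `1` or `-1`. Their product is `χ (∏_{x ≠ 0,1,c} x (x - 1) (x - c)) = 1`:
`∏_{x ≠ 0} x = -1` (Wilson, `ZMod.wilsons_lemma` / `FiniteField.prod_univ_units_id_eq_neg_one`), so `∏_{x ≠ 0,1,c} x = -1 / c`, `∏_{x ≠ 0,1,c} (x - 1) = -1 / ((0 - 1) (c - 1)) = 1 / (c - 1)`, `∏_{x ≠ 0,1,c} (x - c) = -1 / ((0 - c) (1 - c)) = 1 / (c (1 - c))`, product `= 1 / (c (1 - c))^2`, a nonzero square. So the number `n` of the terms `-1` is even and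
`S = p - 3 - 2 n = 2 mod 4` (`p = 1 mod 4`), `S ≠ 0`; `|S| ≤ p - 3 < p`. So `(S : ZMod p) ≠ 0`.
-/

set_option autoImplicit false

namespace Pool.Agent.H64.PV

open Pool.H61.QF Pool.Agent.H64.LG PowerSeries

private theorem ord_prod (p : ℕ) [Fact p.Prime] (a : ZMod p) :
    ∏ x ∈ (Finset.univ.erase a), (x - a) = -1 := by
  have h := FiniteField.prod_univ_units_id_eq_neg_one (K := ZMod p)
  have h2 : ∏ x : (ZMod p)ˣ, (x : ZMod p) = -1 := by
    rw [← Units.coe_prod, h]; simp
  rw [← h2]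
  symm
  refine Finset.prod_bij (fun (u : (ZMod p)ˣ) _ => (u : ZMod p) + a) ?_ ?_ ?_ ?_
  · intro u _
    simp [u.ne_zero]
  · intro u _ v _ h
    exact Units.ext (add_right_cancel h)
  · intro x hx
    have hne : x - a ≠ 0 := by
      have := (Finset.mem_erase.1 hx).1
      exact sub_ne_zero.2 this
    exact ⟨Units.mk0 (x - a) hne, Finset.mem_univ _, by simp⟩
  · intro u _
    ring

private theorem ord_mod {α : Type*} [DecidableEq α] (T : Finset α) (g : α → ℤ)
    (hg : ∀ x ∈ T, g x = 1 ∨ g x = -1) :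
    (4 : ℤ) ∣ (∑ x ∈ T, g x) - T.card - ∏ x ∈ T, g x + 1 ∧ (∏ x ∈ T, g x = 1 ∨ ∏ x ∈ T, g x = -1) ∧
      |∑ x ∈ T, g x| ≤ T.card := by
  induction T using Finset.induction_on with
  | empty => simp
  | insert a T ha ih =>
    obtain ⟨h1, h2, h3⟩ := ih fun x hx => hg x (Finset.mem_insert_of_mem hx)
    rw [Finset.sum_insert ha, Finset.prod_insert ha, Finset.card_insert_of_notMem ha]
    push_cast
    rw [abs_le] at h3 ⊢
    rcases hg a (Finset.mem_insert_self _ _) with h | h <;> rcases h2 with h2 | h2 <;>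
      rw [h, h2] <;> rw [h2] at h1 <;> refine ⟨?_, ?_, ?_, ?_⟩ <;>
      omega

theorem ord (p : ℕ) [Fact p.Prime] (h4 : p % 4 = 1) (c : ZMod p) (h0 : c ≠ 0) (h1 : c ≠ 1) :
    aK c ((p - 1) / 2) ≠ 0 := by
  classical
  have hp5 : 5 ≤ p := by
    have := (Fact.out : p.Prime).two_le
    omega
  have hp2 : p ≠ 2 := by omega
  have hA := ordA p hp2 c
  intro hz
  rw [hz, neg_zero] at hA
  set f : ZMod p → ZMod p := fun x => x * (x - 1) * (x - c) with hf
  have hchar : ringChar (ZMod p) ≠ 2 := by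
    rw [ZMod.ringChar_zmod_n]; exact hp2
  have hcast : ((∑ x : ZMod p, quadraticChar (ZMod p) (f x) : ℤ) : ZMod p) = 0 := by
    rw [← hA, Int.cast_sum]
    apply Finset.sum_congr rfl
    intro x _
    rw [quadraticChar_eq_pow_of_char_ne_two' hchar, ZMod.card]
    congr 1
    omega
  set T : Finset (ZMod p) := ((Finset.univ.erase 0).erase 1).erase c with hT
  have hmem : ∀ x, x ∈ T ↔ x ≠ 0 ∧ x ≠ 1 ∧ x ≠ c := by
    intro x
    simp only [hT, Finset.mem_erase, Finset.mem_univ, and_true]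
    tauto
  have h10 : (1 : ZMod p) ≠ 0 := one_ne_zero
  have hcard : T.card + 3 = p := by
    have e1 : (1 : ZMod p) ∈ Finset.univ.erase (0 : ZMod p) := by simp
    have e2 : c ∈ (Finset.univ.erase (0 : ZMod p)).erase 1 := by simp [h0, h1]
    rw [hT, Finset.card_erase_of_mem e2, Finset.card_erase_of_mem e1,
      Finset.card_erase_of_mem (Finset.mem_univ _), Finset.card_univ, ZMod.card]
    omega
  have hsum : ∑ x : ZMod p, quadraticChar (ZMod p) (f x) = ∑ x ∈ T, quadraticChar (ZMod p) (f x) := by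
    symm
    apply Finset.sum_subset (Finset.subset_univ _)
    intro x _ hx
    have hfx : f x = 0 := by
      rw [hmem] at hx
      simp only [hf]
      by_cases hx0 : x = 0
      · rw [hx0]; ring
      · by_cases hx1 : x = 1
        · rw [hx1]; ring
        · have hxc : x = c := by
            by_contra h
            exact hx ⟨hx0, hx1, h⟩
          rw [hxc]; ring
    rw [hfx, quadraticChar_zero]
  have hpm : ∀ x ∈ T, quadraticChar (ZMod p) (f x) = 1 ∨ quadraticChar (ZMod p) (f x) = -1 := by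
    intro x hx
    rw [hmem] at hx
    apply quadraticChar_dichotomy
    simp only [hf]
    exact mul_ne_zero (mul_ne_zero hx.1 (sub_ne_zero.2 hx.2.1)) (sub_ne_zero.2 hx.2.2)
  obtain ⟨k1, k2, k3⟩ := ord_mod T (fun x => quadraticChar (ZMod p) (f x)) hpm
  have hprod : ∏ x ∈ T, quadraticChar (ZMod p) (f x) = 1 := by
    rw [← map_prod]
    have hP : ∀ a b d : ZMod p, (a ≠ b ∧ a ≠ d ∧ b ≠ d) → (∀ x, x ∈ T ↔ x ≠ a ∧ x ≠ b ∧ x ≠ d) →
        (b - a) * ((d - a) * ∏ x ∈ T, (x - a)) = -1 := by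
      intro a b d hab hm
      have e0 : T = ((Finset.univ.erase a).erase b).erase d := by
        ext x
        rw [hm]
        simp only [Finset.mem_erase, Finset.mem_univ, and_true]
        tauto
      have e1 : b ∈ Finset.univ.erase a := by simp [hab.1.symm]
      have e2 : d ∈ (Finset.univ.erase a).erase b := by simp [hab.2.1.symm, hab.2.2.symm]
      rw [e0, Finset.mul_prod_erase _ (fun x => x - a) e2,
        Finset.mul_prod_erase _ (fun x => x - a) e1, ord_prod]
    have p0 := hP 0 1 c ⟨h10.symm, h0.symm, h1.symm⟩ hmem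
    have p1 := hP 1 0 c ⟨h10, h1.symm, h0.symm⟩ (fun x => by rw [hmem]; tauto)
    have pc := hP c 0 1 ⟨h0, h1, h10.symm⟩ (fun x => by rw [hmem]; tauto)
    have hfp : ∏ x ∈ T, f x = (∏ x ∈ T, (x - 0)) * (∏ x ∈ T, (x - 1)) * ∏ x ∈ T, (x - c) := by
      rw [← Finset.prod_mul_distrib, ← Finset.prod_mul_distrib]
      apply Finset.prod_congr rfl
      intro x _
      simp only [hf, sub_zero]
    have hc1 : c - 1 ≠ 0 := sub_ne_zero.2 h1
    have hval : (∏ x ∈ T, f x) * (c * (c - 1)) ^ 2 = 1 := by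
      rw [hfp]
      set A := ∏ x ∈ T, (x - 0) with hA'
      set B := ∏ x ∈ T, (x - 1) with hB'
      set C := ∏ x ∈ T, (x - c) with hC'
      have q0 : c * A = -1 := by rw [← p0]; ring
      have q1 : (c - 1) * B = 1 := by linear_combination (-1) * p1
      have qc : c * (c - 1) * C = -1 := by rw [← pc]; ring
      calc A * B * C * (c * (c - 1)) ^ 2 = (c * A) * ((c - 1) * B) * (c * (c - 1) * C) := by ring
        _ = 1 := by rw [q0, q1, qc]; ring
    have hsq : quadraticChar (ZMod p) ((c * (c - 1)) ^ 2) = 1 := by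
      apply quadraticChar_sq_one'
      exact mul_ne_zero h0 hc1
    have := congrArg (quadraticChar (ZMod p)) hval
    rw [map_mul, hsq, mul_one, map_one] at this
    exact this
  rw [hprod] at k1
  rw [hsum] at hcast
  set S := ∑ x ∈ T, quadraticChar (ZMod p) (f x) with hS
  rw [ZMod.intCast_zmod_eq_zero_iff_dvd] at hcast
  obtain ⟨t, ht⟩ := hcast
  rw [abs_le] at k3
  have hcZ : (T.card : ℤ) = (p : ℤ) - 3 := by
    have : ((T.card + 3 : ℕ) : ℤ) = (p : ℤ) := by rw [hcard]
    push_cast at this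
    linarith
  rw [hcZ] at k1 k3
  have ht0 : t = 0 := by
    have hpp : (0 : ℤ) < p := by positivity
    by_contra hne
    rcases lt_or_gt_of_ne hne with h | h
    · have : (p : ℤ) * t ≤ -p := by nlinarith
      linarith [k3.1]
    · have : (p : ℤ) ≤ p * t := by nlinarith
      linarith [k3.2]
  rw [ht0, mul_zero] at ht
  rw [ht] at k1
  obtain ⟨r, hr⟩ := k1
  have h4' : (p : ℤ) % 4 = 1 := by exact_mod_cast h4
  omega

end Pool.Agent.H64.PV
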