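import Pool.Agent.H64.PV.PDef

/-!
# PV.OrdA : the Hasse invariant is a character sum

PROOF. `m = (p - 1) / 2`. (i) `∑_x x^k` over `ZMod p` is `-1` if `k > 0` and `p - 1 ∣ k`, else `0` (`FiniteField.sum_pow_lt_card_sub_one`, `sum_pow_units`); `(x (x - 1) (x - c))^m` is a polynomial in `x` of degree `3 m < 2 (p - 1)`, so the sum is `-(coefficient of x^(p-1))` `= -(coefficient of x^m in ((x - 1)(x - c))^m)` `= -∑_{j} (coefficient of x^j in (x-1)^m) (coefficient of
x^(m-j) in (x-c)^m)` `= -∑_j (-1)^(m-j) (m choose j) (-c)^j (m choose (m - j))` `= -∑_j (-1)^m (m choose j)^2 c^j`. (ii) In `ZMod p`: `cb (ZMod p) j = (-1)^j (m choose j)` for `j ≤ m`: induction on `j`: `2 (j + 1) cb (j + 1) = (2 j + 1) cb j` (from `(j + 1) centralBinom (j + 1) = 2 (2 j + 1) centralBinom j`, `Nat.succ_mul_centralBinom_succ`), `(j + 1) (m choose (j + 1)) = (m - j) (m choose j)`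
and `2 (m - j) = -(2 j + 1)` in `ZMod p`. So `aK c m = ∑_j cb j cb (m - j) c^j = (-1)^m ∑_j (m choose j)^2 c^j`.
-/

set_option autoImplicit false

namespace Pool.Agent.H64.PV

open Pool.H61.QF Pool.Agent.H64.LG PowerSeries

private theorem ordA_sum (p : ℕ) [Fact p.Prime] (k : ℕ) (hk : 0 < k) :
    ∑ x : ZMod p, x ^ k = if p - 1 ∣ k then -1 else 0 := by
  classical
  have h1 := FiniteField.sum_pow_units (ZMod p) k
  rw [ZMod.card p] at h1
  rw [← h1]
  have e : ∑ x : ZMod p, x ^ k = ∑ x ∈ Finset.univ \ {(0 : ZMod p)}, x ^ k := by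
    rw [← Finset.sum_sdiff ({0} : Finset (ZMod p)).subset_univ, Finset.sum_singleton,
      zero_pow hk.ne', add_zero]
  rw [e]
  symm
  let φ : (ZMod p)ˣ ↪ ZMod p := ⟨fun x => x, Units.val_injective⟩
  have e2 : Finset.univ.map φ = Finset.univ \ {(0 : ZMod p)} := by
    ext x
    simp only [Finset.mem_map, Finset.mem_univ, true_and, Finset.mem_sdiff, Finset.mem_singleton]
    exact isUnit_iff_ne_zero
  rw [← e2, Finset.sum_map]
  simp [φ]

private theorem ordA_cb (p : ℕ) [Fact p.Prime] (h2 : p ≠ 2) (m : ℕ) (hm : p = 2 * m + 1) (j : ℕ)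
    (hj : j ≤ m) : cb (ZMod p) j = (-1) ^ j * (m.choose j : ZMod p) := by
  have hp : p.Prime := Fact.out
  have h2' : (2 : ZMod p) ≠ 0 := by
    have : ((2 : ℕ) : ZMod p) ≠ 0 := by
      rw [Ne, ZMod.natCast_eq_zero_iff]
      intro h
      exact h2 ((Nat.prime_dvd_prime_iff_eq hp Nat.prime_two).1 h)
    simpa using this
  have hpz : (2 * (m : ZMod p) + 1) = 0 := by
    have : ((2 * m + 1 : ℕ) : ZMod p) = 0 := by rw [← hm]; exact ZMod.natCast_self p
    push_cast at this
    exact this
  induction j with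
  | zero => simp [cb]
  | succ j ih =>
    have ih' := ih (by omega)
    have hj1 : ((j : ZMod p) + 1) ≠ 0 := by
      have : ((j + 1 : ℕ) : ZMod p) ≠ 0 := by
        rw [Ne, ZMod.natCast_eq_zero_iff]
        intro h
        have := Nat.le_of_dvd (by omega) h
        omega
      push_cast at this
      exact this
    have e1 : ((j : ZMod p) + 1) * (Nat.centralBinom (j + 1) : ZMod p) =
        2 * (2 * j + 1) * (Nat.centralBinom j : ZMod p) := by
      have := congrArg (Nat.cast : ℕ → ZMod p) (Nat.succ_mul_centralBinom_succ j)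
      push_cast at this
      linear_combination this
    have e2 : ((m.choose (j + 1) : ZMod p)) * ((j : ZMod p) + 1) = (m.choose j : ZMod p) * ((m : ZMod p) - j) := by
      have := congrArg (Nat.cast : ℕ → ZMod p) (Nat.choose_succ_right_eq m j)
      rw [Nat.cast_mul, Nat.cast_mul, Nat.cast_sub (by omega)] at this
      push_cast at this
      exact this
    have h4 : (4 : ZMod p) ≠ 0 := by
      have : (4 : ZMod p) = 2 * 2 := by norm_num
      rw [this]
      exact mul_ne_zero h2' h2'
    unfold cb at ih' ⊢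
    rw [div_eq_iff (pow_ne_zero _ h4)] at ih' ⊢
    have : ((j : ZMod p) + 1) * 1 * (Nat.centralBinom (j + 1) : ZMod p) = ((j : ZMod p) + 1) *
        ((-1) ^ (j + 1) * (m.choose (j + 1) : ZMod p) * 4 ^ (j + 1)) := by
      rw [pow_succ, pow_succ]
      linear_combination e1 + 2 * (2 * (j : ZMod p) + 1) * ih' + 4 * (-1) ^ j * 4 ^ j * e2 + 2 * (-1) ^ j * 4 ^ j * (m.choose j : ZMod p) * hpz
    rw [mul_one] at this
    exact mul_left_cancel₀ hj1 this

theorem ordA (p : ℕ) [Fact p.Prime] (h2 : p ≠ 2) (c : ZMod p) :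
    ∑ x : ZMod p, (x * (x - 1) * (x - c)) ^ ((p - 1) / 2) = -aK c ((p - 1) / 2) := by
  have hp : p.Prime := Fact.out
  obtain ⟨m, hm⟩ : ∃ m, p = 2 * m + 1 := by
    rcases hp.eq_two_or_odd' with h | h
    · exact absurd h h2
    · exact h
  have hm1 : 1 ≤ m := by
    rcases Nat.eq_zero_or_pos m with h | h
    · subst h
      exact absurd hp (by rw [hm]; exact Nat.not_prime_one)
    · exact h
  have hmm : (p - 1) / 2 = m := by omega
  have hp1 : p - 1 = 2 * m := by omega
  rw [hmm]
  have e1 : ∀ x : ZMod p, (x * (x - 1) * (x - c)) ^ m =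
      ∑ i ∈ Finset.range (m + 1), ∑ j ∈ Finset.range (m + 1),
        ((-1) ^ (m - i) * (m.choose i : ZMod p)) * ((-c) ^ (m - j) * (m.choose j : ZMod p)) * x ^ (m + i + j) := by
    intro x
    rw [mul_pow, mul_pow, sub_eq_add_neg x 1, sub_eq_add_neg x c, add_pow, add_pow, mul_assoc,
      Finset.sum_mul_sum, Finset.mul_sum]
    refine Finset.sum_congr rfl fun i _ => ?_
    rw [Finset.mul_sum]
    refine Finset.sum_congr rfl fun j _ => ?_
    rw [pow_add, pow_add]
    ring
  simp_rw [e1]
  rw [Finset.sum_comm]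
  have e2 : ∀ i ∈ Finset.range (m + 1), ∑ x : ZMod p, ∑ j ∈ Finset.range (m + 1),
        ((-1) ^ (m - i) * (m.choose i : ZMod p)) * ((-c) ^ (m - j) * (m.choose j : ZMod p)) * x ^ (m + i + j) =
        -(cb (ZMod p) i * cb (ZMod p) (m - i) * c ^ i) := by
    intro i hi
    rw [Finset.mem_range] at hi
    rw [Finset.sum_comm]
    rw [Finset.sum_eq_single (m - i)]
    · rw [← Finset.mul_sum, ordA_sum p _ (by omega), if_pos (by rw [hp1]; exact ⟨1, by omega⟩),
        ordA_cb p h2 m hm i (by omega), ordA_cb p h2 m hm (m - i) (by omega),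
        show m - (m - i) = i by omega, neg_pow c i]
      ring
    · intro j hj hji
      rw [Finset.mem_range] at hj
      rw [← Finset.mul_sum, ordA_sum p _ (by omega), if_neg, mul_zero]
      rw [hp1]
      rintro ⟨t, ht⟩
      have : t = 1 := by
        rcases Nat.lt_or_ge t 1 with h | h
        · have : t = 0 := by omega
          subst this
          omega
        · rcases Nat.lt_or_ge t 2 with h' | h'
          · omega
          · have : 2 * m * 2 ≤ 2 * m * t := Nat.mul_le_mul_left _ h'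
            omega
      subst this
      omega
    · intro h
      exact absurd (Finset.mem_range.2 (by omega)) h
  rw [Finset.sum_congr rfl e2, Finset.sum_neg_distrib]
  rfl

end Pool.Agent.H64.PV
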