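import Pool.Agent.H64.PV.LemW

/-!
# PV.Os1 : algebraic independence over the bounded series (Ostrowski)

PROOF. Suppose `F ≠ 0`. Among all nonzero `F` with `eval₂ ρ F = 0` take one with the least `totalDegree = d`, and among these with the least number of monomials of degree `d` in the support (strong induction on the pair, lexicographic). `d ≥ 1` (if `d = 0` then `F = C a`, `a = 0`). Let `α` be a monomial of degree `d`, `a = F.coeff α ≠ 0`. The derivative of a bounded series is bounded
(`‖n + 1‖ ≤ 1`). Let `∇F = F' + ∑_b ρ_b' ∂_b F` (`F'`: derivatives of the coefficients; `∂_b = pderiv b`); `eval₂ ρ (∇F) = dd (eval₂ ρ F) = 0` (for monomials: product rule; `Derivation.leibniz`, or induction on `F`). `G = a ∇F - a' F` has value `0`, `totalDegree ≤ d`, its coefficient at `γ` of degree `d` is `a f_γ' - a' f_γ`, so it is `0` for `γ = α` and for `γ` not in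
the support of `F`: fewer monomials of degree `d` (or smaller degree). By minimality `G = 0`. (1) For `γ` of degree `d`: `a f_γ' = a' f_γ`, so `f_γ = C x_γ * a` with `x_γ ∈ ℚ_p` (if `a f' = a' f`, `a ≠ 0`, compare the coefficients: with `m` = order of `a`, `x = f_m / a_m`, `f - C x a` satisfies the same equation and if `f - C x a ≠ 0` has order `n`, the lowest term of `a f' - a' f` is
`(n - m) a_m f_n`, so `n = m`, contradiction), `x_α = 1`. (2) For `β` of degree `d - 1`: coefficient of `G` at `β`: `a (f_β' + ∑_b (β_b + 1) f_(β + e_b) ρ_b') = a' f_β`; with `g = ∑_b C ((β_b + 1) x_(β + e_b)) ρ_b`: `a f_β' + a^2 g' = a' f_β`. So `(a g + f_β)` satisfies `a (a g + f_β)' - a' (a g + f_β) = a^2 g' + a f_β' - a' f_β = 0` and by (1) again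
`a g + f_β = C k * a`. Hence `a g = C k a - f_β ∈ Bd`, and `g' ∈ Bd`, so `g ∈ Bd` (`lemW`), and by `hli` all `(β_b + 1) x_(β + e_b) = 0`. Take `β = α - e_b` for some `b` with `α_b ≥ 1`: `x_α = 0`, a contradiction. (`C x ∈ Bd` for constants.)
-/

set_option autoImplicit false

namespace Pool.Agent.H64.PV

open Pool.H61.QF Pool.Agent.H64.LG PowerSeries

private theorem os1_ratio {K : Type} [Field K] [CharZero K] (a f : PowerSeries K) (ha : a ≠ 0)
    (h : a * dd f = dd a * f) : ∃ x : K, f = C x * a := by
  set m := a.order.toNat with hm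
  set u := PowerSeries.divXPowOrder a with hu
  have hau : X ^ m * u = a := PowerSeries.X_pow_order_mul_divXPowOrder
  obtain ⟨v, hv⟩ : IsUnit u := isUnit_divided_by_X_pow_order ha
  obtain ⟨k, hk⟩ : ∃ k, f = u * k := ⟨↑v⁻¹ * f, by rw [← mul_assoc, ← hv]; simp⟩
  have hX : X * dd ((X : PowerSeries K) ^ m) = (m : PowerSeries K) * X ^ m := by
    rw [dd, PowerSeries.derivative_pow, PowerSeries.derivative_X, mul_one]
    rcases Nat.eq_zero_or_pos m with h0 | h0
    · rw [h0]; simp
    · obtain ⟨j, hj⟩ := Nat.exists_eq_succ_of_ne_zero h0.ne'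
      rw [hj, Nat.succ_sub_one, pow_succ]
      ring
  have hda : dd a = dd (X ^ m) * u + X ^ m * dd u := by
    rw [← hau]
    simp only [dd, Derivation.leibniz, smul_eq_mul]
    ring
  have hdf : dd f = dd u * k + u * dd k := by
    rw [hk]
    simp only [dd, Derivation.leibniz, smul_eq_mul]
    ring
  have hXm : (X : PowerSeries K) ^ m ≠ 0 := pow_ne_zero _ PowerSeries.X_ne_zero
  have hu0 : u ≠ 0 := by
    intro h0
    rw [h0, mul_zero] at hau
    exact ha hau.symm
  have h1 : X * dd k = (m : PowerSeries K) * k := by
    have e : X ^ m * u ^ 2 * (X * dd k) = X ^ m * u ^ 2 * ((m : PowerSeries K) * k) := by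
      have e1 : X * (a * dd f) = X * (dd a * f) := by rw [h]
      rw [hda, hdf, hk, ← hau] at e1
      have e2 : X * (X ^ m * u * (dd u * k + u * dd k)) =
          (X * dd (X ^ m)) * u * (u * k) + X * X ^ m * dd u * (u * k) := by
        rw [e1]; ring
      rw [hX] at e2
      linear_combination e2
    exact mul_left_cancel₀ (mul_ne_zero hXm (pow_ne_zero _ hu0)) e
  have h2 : ∀ n, n ≠ m → coeff n k = 0 := by
    intro n hn
    have e := congrArg (coeff n) h1
    have e3 : coeff n ((m : PowerSeries K) * k) = (m : K) * coeff n k := by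
      rw [← map_natCast (C : K →+* PowerSeries K), coeff_C_mul]
    rw [e3] at e
    have e4 : coeff n (X * dd k) = (n : K) * coeff n k := by
      rcases n with _ | n
      · simp
      · rw [coeff_succ_X_mul, coeff_derivative]
        push_cast
        ring
    rw [e4] at e
    have e5 : ((n : K) - m) * coeff n k = 0 := by rw [sub_mul, e, sub_self]
    rcases mul_eq_zero.1 e5 with e6 | e6
    · exact absurd (by exact_mod_cast sub_eq_zero.1 e6) hn
    · exact e6
  refine ⟨coeff m k, ?_⟩
  have h3 : k = C (coeff m k) * X ^ m := by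
    ext n
    rw [coeff_C_mul, coeff_X_pow]
    split_ifs with hn
    · rw [hn, mul_one]
    · rw [h2 n hn, mul_zero]
  rw [hk, ← hau]
  nth_rw 1 [h3]
  ring

private theorem os1_dB (p : ℕ) [Fact p.Prime] (f : PowerSeries ℚ_[p]) (hf : f ∈ Bd p) :
    dd f ∈ Bd p := by
  obtain ⟨M, hM⟩ := hf
  refine ⟨M, fun n => ?_⟩
  rw [coeff_derivative, norm_mul]
  have h1 : ‖((n : ℚ_[p]) + 1)‖ ≤ 1 := by
    have := Padic.norm_int_le_one (p := p) ((n : ℤ) + 1)
    simpa using this
  calc ‖coeff (n + 1) f‖ * ‖((n : ℚ_[p]) + 1)‖ ≤ ‖coeff (n + 1) f‖ * 1 :=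
        mul_le_mul_of_nonneg_left h1 (norm_nonneg _)
    _ ≤ _ := by rw [mul_one]; exact hM _

private theorem os1_CB (p : ℕ) [Fact p.Prime] (x : ℚ_[p]) : C x ∈ Bd p := by
  have hp : (1 : ℝ) < p := by exact_mod_cast (Fact.out : p.Prime).one_lt
  obtain ⟨M, hM⟩ := pow_unbounded_of_one_lt ‖x‖ hp
  refine ⟨M, fun n => ?_⟩
  rw [coeff_C]
  split_ifs
  · exact hM.le
  · rw [norm_zero]; positivity

/-- the derivation of the bounded series -/
private noncomputable def os1_del (p : ℕ) [Fact p.Prime] : Bd p →+ Bd p where
  toFun a := ⟨dd a.1, os1_dB p a.1 a.2⟩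
  map_zero' := Subtype.ext (map_zero _)
  map_add' x y := Subtype.ext (map_add _ x.1 y.1)

private theorem os1_del_val (p : ℕ) [Fact p.Prime] (a : Bd p) :
    ((os1_del p a : Bd p) : PowerSeries ℚ_[p]) = dd (a : PowerSeries ℚ_[p]) := rfl

/-- derivatives of the coefficients -/
private noncomputable def os1_Dc (p : ℕ) [Fact p.Prime] {r : Type} (F : MvPolynomial r (Bd p)) :
    MvPolynomial r (Bd p) :=
  ∑ m ∈ F.support, MvPolynomial.monomial m (os1_del p (F.coeff m))

private theorem os1_coeff (p : ℕ) [Fact p.Prime] {r : Type} (F : MvPolynomial r (Bd p))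
    (m : r →₀ ℕ) : (os1_Dc p F).coeff m = os1_del p (F.coeff m) := by
  classical
  rw [os1_Dc, MvPolynomial.coeff_sum]
  simp only [MvPolynomial.coeff_monomial]
  rw [Finset.sum_ite_eq']
  split_ifs with h
  · rfl
  · rw [MvPolynomial.notMem_support_iff.1 h, map_zero]

private noncomputable def os1_nab (p : ℕ) [Fact p.Prime] {r : Type} [Fintype r] (σ : r → Bd p)
    (F : MvPolynomial r (Bd p)) : MvPolynomial r (Bd p) :=
  os1_Dc p F + ∑ b, MvPolynomial.C (σ b) * MvPolynomial.pderiv b F

private theorem os1_eval (p : ℕ) [Fact p.Prime] {r : Type} [Fintype r] (ρ : r → PowerSeries ℚ_[p])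
    (hρ : ∀ a, dd (ρ a) ∈ Bd p) (F : MvPolynomial r (Bd p)) :
    MvPolynomial.eval₂Hom (Bd p).subtype ρ (os1_nab p (fun b => ⟨dd (ρ b), hρ b⟩) F) =
      dd (MvPolynomial.eval₂Hom (Bd p).subtype ρ F) := by
  classical
  set σ : r → Bd p := fun b => ⟨dd (ρ b), hρ b⟩ with hσ
  induction F using MvPolynomial.induction_on with
  | C c =>
    have h1 : os1_nab p σ (MvPolynomial.C c) = MvPolynomial.C (os1_del p c) := by
      rw [os1_nab]
      have h2 : os1_Dc p (MvPolynomial.C c : MvPolynomial r (Bd p)) =
          MvPolynomial.C (os1_del p c) := by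
        ext1 m
        rw [os1_coeff, MvPolynomial.coeff_C, MvPolynomial.coeff_C]
        split_ifs
        · rfl
        · exact map_zero _
      rw [h2]
      simp
    rw [h1]
    simp only [MvPolynomial.coe_eval₂Hom, MvPolynomial.eval₂_C]
    rfl
  | add f g hf hg =>
    have h1 : os1_nab p σ (f + g) = os1_nab p σ f + os1_nab p σ g := by
      rw [os1_nab, os1_nab, os1_nab]
      have h2 : os1_Dc p (f + g) = os1_Dc p f + os1_Dc p g := by
        ext1 m
        rw [os1_coeff, MvPolynomial.coeff_add, MvPolynomial.coeff_add, os1_coeff, os1_coeff,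
          map_add]
      rw [h2]
      simp only [map_add, mul_add, Finset.sum_add_distrib]
      ring
    rw [h1, map_add, hf, hg, map_add]
    exact (map_add (PowerSeries.derivative ℚ_[p]) _ _).symm
  | mul_X f b hf =>
    have h1 : os1_nab p σ (f * MvPolynomial.X b) =
        os1_nab p σ f * MvPolynomial.X b + f * MvPolynomial.C (σ b) := by
      rw [os1_nab, os1_nab]
      have h2 : os1_Dc p (f * MvPolynomial.X b) = os1_Dc p f * MvPolynomial.X b := by
        ext1 m
        rw [os1_coeff, MvPolynomial.coeff_mul_X', MvPolynomial.coeff_mul_X']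
        split_ifs
        · rw [os1_coeff]
        · exact map_zero _
      have h3 : ∀ c, MvPolynomial.C (σ c) * MvPolynomial.pderiv c (f * MvPolynomial.X b) =
          MvPolynomial.C (σ c) * MvPolynomial.pderiv c f * MvPolynomial.X b +
            (if c = b then f * MvPolynomial.C (σ c) else 0) := by
        intro c
        rw [MvPolynomial.pderiv_mul, MvPolynomial.pderiv_X]
        by_cases hcb : c = b
        · subst hcb
          rw [Pi.single_eq_same, if_pos rfl]
          ring
        · rw [Pi.single_eq_of_ne (Ne.symm hcb), if_neg hcb]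
          ring
      rw [h2]
      simp only [h3, Finset.sum_add_distrib, Finset.sum_ite_eq', Finset.mem_univ, if_true]
      rw [← Finset.sum_mul]
      ring
    rw [h1, map_add, map_mul, map_mul, map_mul, hf]
    simp only [MvPolynomial.coe_eval₂Hom, MvPolynomial.eval₂_C, MvPolynomial.eval₂_X]
    simp only [dd, Derivation.leibniz, smul_eq_mul]
    have h4 : (Bd p).subtype (σ b) = d⁄dX ℚ_[p] (ρ b) := rfl
    rw [h4]
    ring

private theorem os1_main (p : ℕ) [Fact p.Prime] {r : Type} [Fintype r] (ρ : r → PowerSeries ℚ_[p])
    (hρ : ∀ a, dd (ρ a) ∈ Bd p)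
    (hli : ∀ x : r → ℚ_[p], ∑ a, C (x a) * ρ a ∈ Bd p → x = 0) (d : ℕ) :
    ∀ (F : MvPolynomial r (Bd p)), (∀ m, F.coeff m ≠ 0 → m.degree ≤ d) →
      MvPolynomial.eval₂Hom (Bd p).subtype ρ F = 0 → F = 0 := by
  classical
  induction d with
  | zero =>
    intro F hF h0
    have h1 : F = MvPolynomial.C (F.coeff 0) := by
      ext1 m
      rw [MvPolynomial.coeff_C]
      split_ifs with h
      · rw [h]
      · by_contra h2
        exact h ((Finsupp.degree_eq_zero_iff m).1 (Nat.le_zero.1 (hF m h2))).symm
    rw [h1] at h0
    simp only [MvPolynomial.coe_eval₂Hom, MvPolynomial.eval₂_C] at h0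
    have h2 : F.coeff 0 = 0 := Subtype.ext h0
    rw [h1, h2, map_zero]
  | succ d ihd =>
    have key : ∀ N : ℕ, ∀ F : MvPolynomial r (Bd p), (∀ m, F.coeff m ≠ 0 → m.degree ≤ d + 1) →
        (F.support.filter fun m => m.degree = d + 1).card ≤ N →
        MvPolynomial.eval₂Hom (Bd p).subtype ρ F = 0 → F = 0 := by
      intro N
      induction N with
      | zero =>
        intro F hF hN h0
        refine ihd F (fun m hm => ?_) h0
        have h1 := hF m hm
        have h2 : m ∉ F.support.filter fun m => m.degree = d + 1 := by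
          rw [Finset.card_eq_zero.1 (Nat.le_zero.1 hN)]
          exact Finset.notMem_empty _
        rw [Finset.mem_filter, not_and] at h2
        have h3 := h2 (MvPolynomial.mem_support_iff.2 hm)
        omega
      | succ N ihN =>
        intro F hF hN h0
        by_contra hF0
        -- a monomial of degree `d + 1`
        obtain ⟨α, hα, hαd⟩ : ∃ α, F.coeff α ≠ 0 ∧ α.degree = d + 1 := by
          by_contra hne
          push Not at hne
          exact hF0 (ihd F (fun m hm => by have := hF m hm; have := hne m hm; omega) h0)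
        set σ : r → Bd p := fun b => ⟨dd (ρ b), hρ b⟩ with hσ
        set a := F.coeff α with haa
        set G : MvPolynomial r (Bd p) := MvPolynomial.C a * os1_nab p σ F -
          MvPolynomial.C (os1_del p a) * F with hG
        have hcG : ∀ γ, G.coeff γ = a * (os1_del p (F.coeff γ) +
            ∑ b, σ b * (F.coeff (γ + Finsupp.single b 1) * (γ b + 1))) -
              os1_del p a * F.coeff γ := by
          intro γ
          rw [hG, MvPolynomial.coeff_sub, MvPolynomial.coeff_C_mul, MvPolynomial.coeff_C_mul,
            os1_nab, MvPolynomial.coeff_add, os1_coeff, MvPolynomial.coeff_sum]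
          simp only [MvPolynomial.coeff_C_mul, MvPolynomial.coeff_pderiv]
        have hdeg : ∀ (γ : r →₀ ℕ) (b : r), (γ + Finsupp.single b 1).degree = γ.degree + 1 := by
          intro γ b
          rw [map_add, Finsupp.degree_single]
        have hcG1 : ∀ γ, d + 1 ≤ γ.degree →
            G.coeff γ = a * os1_del p (F.coeff γ) - os1_del p a * F.coeff γ := by
          intro γ hγ
          rw [hcG]
          have h1 : ∀ b, σ b * (F.coeff (γ + Finsupp.single b 1) * (γ b + 1)) = 0 := by
            intro b
            have h2 : F.coeff (γ + Finsupp.single b 1) = 0 := by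
              by_contra h3
              have := hF _ h3
              rw [hdeg] at this
              omega
            rw [h2, zero_mul, mul_zero]
          simp only [h1, Finset.sum_const_zero, add_zero]
        have hG0 : G = 0 := by
          refine ihN G (fun m hm => ?_) ?_ ?_
          · by_contra hlt
            push Not at hlt
            apply hm
            rw [hcG1 m (by omega)]
            have h1 : F.coeff m = 0 := by
              by_contra h3
              have := hF _ h3
              omega
            rw [h1, map_zero, mul_zero, mul_zero, sub_zero]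
          · have hsub : (G.support.filter fun m => m.degree = d + 1) ⊆
                (F.support.filter fun m => m.degree = d + 1).erase α := by
              intro m hm
              rw [Finset.mem_filter, MvPolynomial.mem_support_iff] at hm
              have h1 := hcG1 m (by omega)
              rw [Finset.mem_erase, Finset.mem_filter, MvPolynomial.mem_support_iff]
              refine ⟨?_, ?_, hm.2⟩
              · intro h2
                apply hm.1
                rw [h1, h2, ← haa]
                ring
              · intro h2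
                apply hm.1
                rw [h1, h2, map_zero, mul_zero, mul_zero, sub_zero]
            have hαm : α ∈ F.support.filter fun m => m.degree = d + 1 := by
              rw [Finset.mem_filter, MvPolynomial.mem_support_iff]
              exact ⟨hα, hαd⟩
            have h2 := Finset.card_le_card hsub
            rw [Finset.card_erase_of_mem hαm] at h2
            omega
          · rw [hG, map_sub, map_mul, map_mul, os1_eval p ρ hρ F, h0, mul_zero, sub_zero]
            have h1 : dd (0 : PowerSeries ℚ_[p]) = 0 := map_zero _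
            rw [h1, mul_zero]
        have ha0 : (a : PowerSeries ℚ_[p]) ≠ 0 := fun h => hα (Subtype.ext h)
        -- (1)
        have hx : ∀ γ : r →₀ ℕ, γ.degree = d + 1 → ∃ x : ℚ_[p],
            (F.coeff γ).1 = C x * (a : PowerSeries ℚ_[p]) := by
          intro γ hγ
          have h1 := hcG1 γ (by omega)
          rw [hG0, MvPolynomial.coeff_zero] at h1
          have h2 := congrArg (Subtype.val) h1
          refine os1_ratio _ _ ha0 ?_
          have h3 : (0 : PowerSeries ℚ_[p]) = (a : PowerSeries ℚ_[p]) * dd (F.coeff γ).1 -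
            dd (a : PowerSeries ℚ_[p]) * (F.coeff γ).1 := h2
          exact (sub_eq_zero.1 h3.symm)
        choose! x hx using hx
        -- (2)
        obtain ⟨b, hb⟩ : ∃ b, α b ≠ 0 := by
          by_contra hne
          push Not at hne
          have : α = 0 := Finsupp.ext hne
          rw [this, map_zero] at hαd
          omega
        obtain ⟨β, hβ⟩ : ∃ β : r →₀ ℕ, β + Finsupp.single b 1 = α := by
          refine ⟨α - Finsupp.single b 1, ?_⟩
          apply tsub_add_cancel_of_le
          rw [Finsupp.single_le_iff]
          omega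
        have hβd : β.degree = d := by
          have := hdeg β b
          rw [hβ, hαd] at this
          omega
        set g : PowerSeries ℚ_[p] :=
          ∑ c, C (((β c : ℚ_[p]) + 1) * x (β + Finsupp.single c 1)) * ρ c with hg
        have hdg : dd g = ∑ c, C (((β c : ℚ_[p]) + 1) * x (β + Finsupp.single c 1)) * dd (ρ c) := by
          rw [hg, dd, map_sum]
          refine Finset.sum_congr rfl fun c _ => ?_
          rw [Derivation.leibniz, PowerSeries.derivative_C, smul_zero, add_zero, smul_eq_mul]
        have hdgB : dd g ∈ Bd p := by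
          rw [hdg]
          exact Subring.sum_mem _ fun c _ => Subring.mul_mem _ (os1_CB p _) (hρ c)
        have hco : (a : PowerSeries ℚ_[p]) * dd (F.coeff β).1 + (a : PowerSeries ℚ_[p]) ^ 2 * dd g =
            dd (a : PowerSeries ℚ_[p]) * (F.coeff β).1 := by
          have h1 := hcG β
          rw [hG0, MvPolynomial.coeff_zero] at h1
          have h2 := congrArg (Subtype.val) h1
          have h3 : (((∑ c, σ c * (F.coeff (β + Finsupp.single c 1) * (β c + 1)) : Bd p)) :
              PowerSeries ℚ_[p]) = (a : PowerSeries ℚ_[p]) * dd g := by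
            rw [hdg, Finset.mul_sum, AddSubmonoidClass.coe_finset_sum]
            refine Finset.sum_congr rfl fun c _ => ?_
            have h4 : (((σ c * (F.coeff (β + Finsupp.single c 1) * (β c + 1)) : Bd p)) :
              PowerSeries ℚ_[p]) = dd (ρ c) * ((F.coeff (β + Finsupp.single c 1)).1 *
                ((β c : PowerSeries ℚ_[p]) + 1)) := rfl
            rw [h4, hx _ (by rw [hdeg, hβd]), map_mul, map_add, map_one, map_natCast]
            ring
          have h5 : (0 : PowerSeries ℚ_[p]) = (a : PowerSeries ℚ_[p]) * (dd (F.coeff β).1 +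
            (((∑ c, σ c * (F.coeff (β + Finsupp.single c 1) * (β c + 1)) : Bd p)) :
              PowerSeries ℚ_[p])) - dd (a : PowerSeries ℚ_[p]) * (F.coeff β).1 := h2
          rw [h3] at h5
          linear_combination -h5
        obtain ⟨k, hk⟩ : ∃ k : ℚ_[p], (a : PowerSeries ℚ_[p]) * g + (F.coeff β).1 =
            C k * (a : PowerSeries ℚ_[p]) := by
          refine os1_ratio _ _ ha0 ?_
          have h1 : dd ((a : PowerSeries ℚ_[p]) * g + (F.coeff β).1) =
              dd (a : PowerSeries ℚ_[p]) * g + (a : PowerSeries ℚ_[p]) * dd g +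
                dd (F.coeff β).1 := by
            simp only [dd, map_add, Derivation.leibniz, smul_eq_mul]
            ring
          rw [h1]
          linear_combination hco
        have hagB : (a : PowerSeries ℚ_[p]) * g ∈ Bd p := by
          have h1 : (a : PowerSeries ℚ_[p]) * g = C k * (a : PowerSeries ℚ_[p]) -
            (F.coeff β).1 := by rw [← hk]; ring
          rw [h1]
          exact Subring.sub_mem _ (Subring.mul_mem _ (os1_CB p _) a.2) (F.coeff β).2
        have hgB : g ∈ Bd p := lemW p _ _ a.2 ha0 hdgB hagB
        have hz := congrFun (hli _ hgB) b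
        simp only [hβ, Pi.zero_apply] at hz
        have hxα : x α = 1 := by
          have h1 := hx α hαd
          have h2 : (C (x α) - 1) * (a : PowerSeries ℚ_[p]) = 0 := by
            rw [sub_mul, ← h1, one_mul, haa, sub_self]
          rcases mul_eq_zero.1 h2 with h3 | h3
          · have h4 := congrArg (coeff 0) h3
            simpa [sub_eq_zero] using h4
          · exact absurd h3 ha0
        rw [hxα, mul_one] at hz
        have : ((β b + 1 : ℕ) : ℚ_[p]) = 0 := by push_cast; exact hz
        exact absurd (Nat.cast_eq_zero.1 this) (Nat.succ_ne_zero _)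
    intro F hF h0
    exact key _ F hF le_rfl h0

theorem os1 (p : ℕ) [Fact p.Prime] {r : Type} [Fintype r] (ρ : r → PowerSeries ℚ_[p])
    (hρ : ∀ a, dd (ρ a) ∈ Bd p)
    (hli : ∀ x : r → ℚ_[p], ∑ a, C (x a) * ρ a ∈ Bd p → x = 0)
    (F : MvPolynomial r (Bd p)) (hF : MvPolynomial.eval₂ (Bd p).subtype ρ F = 0) : F = 0 := by
  refine os1_main p ρ hρ hli (F.support.sup fun m => m.degree) F (fun m hm => ?_) hF
  exact Finset.le_sup (f := fun m : r →₀ ℕ => m.degree) (MvPolynomial.mem_support_iff.2 hm)

end Pool.Agent.H64.PV
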