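import Pool.Agent.H64.PV.Os1

/-!
# PV.Os2 : linear functionals which vanish on the bounded series

PROOF. `V` = the `ℚ_p`-span of the `ρ j` in the quotient vector space `PowerSeries ℚ_p / Bd` (`Bd` as a `ℚ_p`-subspace: constants are bounded), finite dimensional. Choose a basis of `V` and lifts `σ_a` (`a : Fin r`) in the span of the `ρ j` in `PowerSeries ℚ_p`. So: `dd (σ_a) ∈ Bd`; `∑ C (x_a) σ_a ∈ Bd → x = 0`; and `ρ_j = ∑_a C (x_(j,a)) σ_a + g_j`, `g_j ∈ Bd`.
Let `A : MvPolynomial J (Bd p) → MvPolynomial (Fin r) (Bd p)` be the substitution `X_j ↦ ∑_a C (C x_(j,a)) X_a + C g_j` and `G = A F`. `eval₂ σ G = eval₂ ρ F = b ∈ Bd`, so `eval₂ σ (G - C b) = 0` and `G = C b` (`os1`), `pderiv a G = 0`. Chain rule: `pderiv a (A F) = ∑_j C (C x_(j,a)) * A (pderiv j F)` (both sides are derivations along `A`, compare on `X_j`, or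
`MvPolynomial.induction_on`). Finally `L (ρ j) = ∑_a x_(j,a) L (σ_a)` (`L (C x * f) = x L f`, `C x * f = x • f`; `L (g_j) = 0`), so `∑_j C (L (ρ j)) eval₂ ρ (pderiv j F) = ∑_a C (L (σ_a)) ∑_j C x_(j,a) eval₂ σ (A (pderiv j F)) = ∑_a C (L (σ_a)) eval₂ σ (pderiv a G) = 0`.
-/

set_option autoImplicit false

namespace Pool.Agent.H64.PV

open Pool.H61.QF Pool.Agent.H64.LG PowerSeries

private theorem os2_CB (p : ℕ) [Fact p.Prime] (x : ℚ_[p]) : C x ∈ Bd p := by
  have hp : (1 : ℝ) < p := by exact_mod_cast (Fact.out : p.Prime).one_lt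
  obtain ⟨M, hM⟩ := pow_unbounded_of_one_lt ‖x‖ hp
  refine ⟨M, fun n => ?_⟩
  rw [coeff_C]
  split_ifs
  · exact hM.le
  · rw [norm_zero]; positivity

/-- the bounded series as a subspace -/
private noncomputable def os2_B (p : ℕ) [Fact p.Prime] : Submodule ℚ_[p] (PowerSeries ℚ_[p]) where
  carrier := {f | f ∈ Bd p}
  zero_mem' := (Bd p).zero_mem
  add_mem' := fun h1 h2 => (Bd p).add_mem h1 h2
  smul_mem' := fun c f hf => by
    have h1 : c • f = C c * f := PowerSeries.smul_eq_C_mul f c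
    rw [h1]
    exact (Bd p).mul_mem (os2_CB p c) hf

private theorem os2_mem (p : ℕ) [Fact p.Prime] (f : PowerSeries ℚ_[p]) :
    f ∈ os2_B p ↔ f ∈ Bd p := Iff.rfl

private theorem os2_red (p : ℕ) [Fact p.Prime] {J : Type} [Fintype J]
    (ρ : J → PowerSeries ℚ_[p]) :
    ∃ (κ : Type) (_ : Fintype κ) (_ : DecidableEq κ) (a : κ → J) (x : J → κ → ℚ_[p])
      (g : J → Bd p), (∀ y : κ → ℚ_[p], ∑ k, C (y k) * ρ (a k) ∈ Bd p → y = 0) ∧
      ∀ j, ρ j = ∑ k, C (x j k) * ρ (a k) + (g j : PowerSeries ℚ_[p]) := by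
  classical
  obtain ⟨κ, a, hinj, hspan, hli⟩ := exists_linearIndependent' ℚ_[p]
    (fun j => (os2_B p).mkQ (ρ j))
  have : Finite κ := Finite.of_injective a hinj
  let _ : Fintype κ := Fintype.ofFinite κ
  have hsum : ∀ y : κ → ℚ_[p], ∑ k, y k • (os2_B p).mkQ (ρ (a k)) =
      (os2_B p).mkQ (∑ k, C (y k) * ρ (a k)) := by
    intro y
    rw [map_sum]
    refine Finset.sum_congr rfl fun k _ => ?_
    rw [← map_smul, PowerSeries.smul_eq_C_mul]
  have h2 : ∀ j, ∃ x : κ → ℚ_[p], ρ j - ∑ k, C (x k) * ρ (a k) ∈ Bd p := by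
    intro j
    have h3 : (os2_B p).mkQ (ρ j) ∈ Submodule.span ℚ_[p]
        (Set.range fun j => (os2_B p).mkQ (ρ j)) := Submodule.subset_span ⟨j, rfl⟩
    rw [← hspan, Submodule.mem_span_range_iff_exists_fun] at h3
    obtain ⟨x, hx⟩ := h3
    refine ⟨x, ?_⟩
    have h4 : (os2_B p).mkQ (ρ j - ∑ k, C (x k) * ρ (a k)) = 0 := by
      rw [map_sub, ← hsum, ← hx]
      exact sub_self _
    exact (os2_mem p _).1 ((Submodule.Quotient.mk_eq_zero _).1 h4)
  choose x hx using h2
  refine ⟨κ, inferInstance, Classical.decEq κ, a, x, fun j => ⟨_, hx j⟩, ?_, ?_⟩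
  · intro y hy
    rw [Fintype.linearIndependent_iff] at hli
    refine funext fun k => hli y ?_ k
    have h5 : ∑ k, y k • (os2_B p).mkQ (ρ (a k)) = 0 := by
      rw [hsum]
      exact (Submodule.Quotient.mk_eq_zero _).2 ((os2_mem p _).2 hy)
    exact h5
  · intro j
    simp only
    ring

theorem os2 (p : ℕ) [Fact p.Prime] {J : Type} [Fintype J] [DecidableEq J] (ρ : J → PowerSeries ℚ_[p])
    (hρ : ∀ j, dd (ρ j) ∈ Bd p) (F : MvPolynomial J (Bd p))
    (hF : MvPolynomial.eval₂ (Bd p).subtype ρ F ∈ Bd p)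
    (L : PowerSeries ℚ_[p] →ₗ[ℚ_[p]] ℚ_[p]) (hL : ∀ f ∈ Bd p, L f = 0) :
    ∑ j, C (L (ρ j)) * MvPolynomial.eval₂ (Bd p).subtype ρ (MvPolynomial.pderiv j F) = 0 := by
  classical
  obtain ⟨κ, _, _, a, x, g, hli, hρa⟩ := os2_red p ρ
  -- the substitution
  set Y : J → MvPolynomial κ (Bd p) := fun j =>
    ∑ k, MvPolynomial.C (⟨C (x j k), os2_CB p _⟩ : Bd p) * MvPolynomial.X k +
      MvPolynomial.C (g j) with hY
  set A : MvPolynomial J (Bd p) →+* MvPolynomial κ (Bd p) :=
    MvPolynomial.eval₂Hom MvPolynomial.C Y with hA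
  have hAX : ∀ j, A (MvPolynomial.X j) = Y j := fun j => MvPolynomial.eval₂Hom_X' _ _ _
  have hAC : ∀ c, A (MvPolynomial.C c) = MvPolynomial.C c := fun c =>
    MvPolynomial.eval₂Hom_C _ _ _
  set σ : κ → PowerSeries ℚ_[p] := fun k => ρ (a k) with hσ
  have hev : ∀ H : MvPolynomial J (Bd p), MvPolynomial.eval₂ (Bd p).subtype σ (A H) =
      MvPolynomial.eval₂ (Bd p).subtype ρ H := by
    intro H
    have h1 : (MvPolynomial.eval₂Hom (Bd p).subtype σ).comp A =
        MvPolynomial.eval₂Hom (Bd p).subtype ρ := by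
      refine MvPolynomial.ringHom_ext (fun c => ?_) (fun j => ?_)
      · rw [RingHom.comp_apply, hAC, MvPolynomial.eval₂Hom_C, MvPolynomial.eval₂Hom_C]
      · rw [RingHom.comp_apply, hAX, MvPolynomial.eval₂Hom_X', hY]
        simp only [map_add, map_sum, map_mul, MvPolynomial.eval₂Hom_C, MvPolynomial.eval₂Hom_X']
        exact (hρa j).symm
    exact congrArg (fun f => f H) h1
  -- the value is a constant
  set b : Bd p := ⟨_, hF⟩ with hb
  have h0 : A F - MvPolynomial.C b = 0 := by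
    refine os1 p σ (fun k => hρ (a k)) hli _ ?_
    rw [← MvPolynomial.coe_eval₂Hom, map_sub, MvPolynomial.eval₂Hom_C,
      MvPolynomial.coe_eval₂Hom, hev]
    exact sub_self _
  have h1 : A F = MvPolynomial.C b := sub_eq_zero.1 h0
  -- chain rule
  have hch : ∀ (k : κ) (H : MvPolynomial J (Bd p)), MvPolynomial.pderiv k (A H) =
      ∑ j, MvPolynomial.C (⟨C (x j k), os2_CB p _⟩ : Bd p) * A (MvPolynomial.pderiv j H) := by
    intro k H
    induction H using MvPolynomial.induction_on with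
    | C c =>
      rw [hAC, MvPolynomial.pderiv_C]
      simp
    | add H1 H2 ih1 ih2 =>
      rw [map_add, map_add, ih1, ih2, ← Finset.sum_add_distrib]
      refine Finset.sum_congr rfl fun j _ => ?_
      rw [map_add, map_add, mul_add]
    | mul_X H i ih =>
      have h2 : MvPolynomial.pderiv k (Y i) =
          MvPolynomial.C (⟨C (x i k), os2_CB p _⟩ : Bd p) := by
        rw [hY]
        simp only [map_add, map_sum, MvPolynomial.pderiv_C, add_zero, MvPolynomial.pderiv_mul,
          MvPolynomial.pderiv_X, zero_mul, zero_add]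
        rw [Finset.sum_eq_single k]
        · rw [Pi.single_eq_same, mul_one]
        · intro l _ hl
          rw [Pi.single_eq_of_ne hl, mul_zero]
        · intro hk
          exact absurd (Finset.mem_univ k) hk
      have h3 : ∀ j, A (MvPolynomial.pderiv j (H * MvPolynomial.X i)) =
          A (MvPolynomial.pderiv j H) * Y i + (if j = i then A H else 0) := by
        intro j
        rw [MvPolynomial.pderiv_mul, MvPolynomial.pderiv_X, map_add, map_mul, map_mul, hAX]
        by_cases hji : j = i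
        · rw [hji, Pi.single_eq_same, if_pos rfl, map_one, mul_one]
        · rw [Pi.single_eq_of_ne (Ne.symm hji), if_neg hji, map_zero, mul_zero]
      rw [map_mul, hAX, MvPolynomial.pderiv_mul, ih, h2]
      simp only [h3, mul_add, Finset.sum_add_distrib, mul_ite, mul_zero]
      rw [Finset.sum_ite_eq' Finset.univ i, if_pos (Finset.mem_univ i), Finset.sum_mul]
      congr 1
      · exact Finset.sum_congr rfl fun j _ => by ring
      · ring
  have hLs : ∀ (y : ℚ_[p]) (f : PowerSeries ℚ_[p]), L (C y * f) = y * L f := by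
    intro y f
    rw [← PowerSeries.smul_eq_C_mul, map_smul, smul_eq_mul]
  have hLρ : ∀ j, L (ρ j) = ∑ k, x j k * L (σ k) := by
    intro j
    rw [hρa j, map_add, hL _ (g j).2, add_zero, map_sum]
    exact Finset.sum_congr rfl fun k _ => hLs _ _
  have h5 : ∀ k, ∑ j, C (x j k) * MvPolynomial.eval₂ (Bd p).subtype ρ
      (MvPolynomial.pderiv j F) = 0 := by
    intro k
    have h6 := hch k F
    rw [h1, MvPolynomial.pderiv_C] at h6
    have h7 := congrArg (MvPolynomial.eval₂Hom (Bd p).subtype σ) h6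
    rw [map_zero, map_sum] at h7
    rw [h7]
    refine Finset.sum_congr rfl fun j _ => ?_
    rw [map_mul, MvPolynomial.eval₂Hom_C, MvPolynomial.coe_eval₂Hom, hev]
    rfl
  calc ∑ j, C (L (ρ j)) * MvPolynomial.eval₂ (Bd p).subtype ρ (MvPolynomial.pderiv j F)
      = ∑ j, ∑ k, C (L (σ k)) * (C (x j k) * MvPolynomial.eval₂ (Bd p).subtype ρ
          (MvPolynomial.pderiv j F)) := by
        refine Finset.sum_congr rfl fun j _ => ?_
        rw [hLρ j, map_sum, Finset.sum_mul]
        refine Finset.sum_congr rfl fun k _ => ?_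
        rw [map_mul]
        ring
    _ = ∑ k, C (L (σ k)) * ∑ j, C (x j k) * MvPolynomial.eval₂ (Bd p).subtype ρ
          (MvPolynomial.pderiv j F) := by
        rw [Finset.sum_comm]
        exact Finset.sum_congr rfl fun k _ => (Finset.mul_sum _ _ _).symm
    _ = 0 := Finset.sum_eq_zero fun k _ => by rw [h5 k, mul_zero]

end Pool.Agent.H64.PV
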