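import Pool.Agent.H64.PV.PLoc
import Pool.Agent.H64.LG.Shp

/-!
# PV.PAnn : functionals which vanish on the projection of SV vanish on the p-curvature

PROOF. `pquad` as `squad` in `LG/SQud.lean` (for almost all places all hypotheses of `ploc` hold: `ev_mem`, `ev_alg`, `ev_gb`, `ev_gt`, and `ev_Q` for the index type `J × Ff`: copy its proof). `pann` as `sann` in `LG/SAnn.lean`, with `SV`, `flP c τ Q n j i k` in place of `Sp`, `fl (c j) (τ j) (Q j) n i k` and `evP_DPK` in place of `ev_DK` (copy the private lemmas `mem_span_of_dual`, `rel`, `rel_span`).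
-/

set_option autoImplicit false

namespace Pool.Agent.H64.PV

open Pool.H61.QF Pool.Agent.H64.LG PowerSeries

private theorem pa_evQ {J : Type} (Q : MvPolynomial (J × Ff) A0) :
    ∀ᶠ v in pl, ∀ m n, PowerSeries.coeff n ((Q.coeff m : A0) : PowerSeries Kbar) ∈
      LocInt (Place.p v) := by
  classical
  have h1 : ∀ᶠ v in pl, ∀ m ∈ Q.support, ∀ n,
      PowerSeries.coeff n ((Q.coeff m : A0) : PowerSeries Kbar) ∈ LocInt (Place.p v) := by
    rw [Filter.eventually_all_finset]
    intro m _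
    exact ev_alg _ (Q.coeff m).2
  filter_upwards [h1] with v hv m n
  by_cases hm : m ∈ Q.support
  · exact hv m hm n
  · rw [MvPolynomial.notMem_support_iff.1 hm]
    have : PowerSeries.coeff n (((0 : A0)) : PowerSeries Kbar) = 0 := by simp
    rw [this]
    exact (LocInt v.p).zero_mem

theorem pquad {J : Type} [Fintype J] [DecidableEq J] (c : J → Kbar) (hc0 : ∀ j, c j ≠ 0)
    (hc1 : ∀ j, c j ≠ 1) (τ : J → PowerSeries Kbar) (hτ : ∀ j, τ j ∈ A0) (e : ℕ) (he : 1 ≤ e)
    (hτe : ∀ j n, n < e → coeff n (τ j) = 0) (Q : MvPolynomial (J × Ff) A0)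
    (hQ : GloballyBounded (evP c τ Q)) (n : ℕ) :
    ∀ᶠ v in pl, ∑ j, Place.red v (coeff e (τ j)) ^ Place.p v *
      ∑ i : Fin 2, ∑ l : Fin 2,
        Place.red v (Np (c j) (Place.p v) i l) * Place.red v (flP c τ Q n j i l) = 0 := by
  have w1 : ∀ᶠ v in pl, ∀ j, c j ∈ LocInt (Place.p v) := Filter.eventually_all.2 fun j => ev_mem (c j)
  have w2 : ∀ᶠ v in pl, ∀ j, (c j * (1 - c j))⁻¹ ∈ LocInt (Place.p v) :=
    Filter.eventually_all.2 fun j => ev_mem _
  have w3 := Filter.eventually_all.2 fun j => ev_alg (τ j) (hτ j)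
  have w4 := pa_evQ Q
  have w5 : ∀ᶠ v in pl, ∀ j, ∀ i l : Fin 2, flP c τ Q n j i l ∈ LocInt (Place.p v) :=
    Filter.eventually_all.2 fun j => Filter.eventually_all.2 fun i =>
      Filter.eventually_all.2 fun l => ev_mem _
  filter_upwards [ev_gt 5, ev_gt (n + 1), w1, w2, w3, w4, w5, ev_gb _ hQ] with v v1 v2 v3 v4 v5 v6 v7 v8
  exact ploc v c v3 v4 hc0 hc1 (by omega) τ v5 e he hτe Q v6 v8 n (by omega) v7

/-- finite dimensional duality -/
private theorem pa_dual {ι : Type} [Fintype ι] [DecidableEq ι] (𝓕 : Set (ι → Kbar)) (L : ι → Kbar)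
    (h : ∀ N : ι → Kbar, (∀ F ∈ 𝓕, ∑ x, N x * F x = 0) → ∑ x, N x * L x = 0) :
    L ∈ Submodule.span Kbar 𝓕 := by
  by_contra hL
  obtain ⟨f, hf, hk⟩ := Submodule.exists_le_ker_of_notMem hL
  have hsum : ∀ F : ι → Kbar, f F = ∑ x, f (fun y => if x = y then 1 else 0) * F x := by
    intro F
    rw [LinearMap.pi_apply_eq_sum_univ]
    refine Finset.sum_congr rfl fun x _ => ?_
    rw [smul_eq_mul, mul_comm]
  apply hf
  rw [hsum]
  apply h
  intro F hF
  rw [← hsum]
  exact hk (Submodule.subset_span hF)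

private theorem pa_red_add (v : Place) {x y : Kbar} (hx : x ∈ LocInt v.p) (hy : y ∈ LocInt v.p) :
    v.red (x + y) = v.red x + v.red y := rho_add v.φ hx hy

private theorem pa_red_mul (v : Place) {x y : Kbar} (hx : x ∈ LocInt v.p) (hy : y ∈ LocInt v.p) :
    v.red (x * y) = v.red x * v.red y := rho_mul v.φ hx hy

private theorem pa_red_zero (v : Place) : v.red 0 = 0 := rho_zero v.φ

/-- the relation at a place -/
private noncomputable def pa_rel {J : Type} [Fintype J] (c : J → Kbar) (τ : J → PowerSeries Kbar)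
    (e : ℕ) (v : Place) (F : J × Fin 2 × Fin 2 → Kbar) : v.k :=
  ∑ x : J × Fin 2 × Fin 2, v.red (coeff e (τ x.1)) ^ v.p * v.red (Np (c x.1) v.p x.2.1 x.2.2) * v.red (F x)

private theorem pa_rel_span {J : Type} [Fintype J] (c : J → Kbar) (τ : J → PowerSeries Kbar) (e : ℕ)
    (𝓕 : Set (J × Fin 2 × Fin 2 → Kbar)) (h : ∀ F ∈ 𝓕, ∀ᶠ v in pl, pa_rel c τ e v F = 0)
    (L : J × Fin 2 × Fin 2 → Kbar) (hL : L ∈ Submodule.span Kbar 𝓕) :
    ∀ᶠ v in pl, pa_rel c τ e v L = 0 := by
  induction hL using Submodule.span_induction with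
  | mem F hF => exact h F hF
  | zero =>
    refine Filter.Eventually.of_forall fun v => ?_
    unfold pa_rel
    refine Finset.sum_eq_zero fun x _ => ?_
    rw [Pi.zero_apply, pa_red_zero, mul_zero]
  | add F G _ _ hF hG =>
    filter_upwards [hF, hG, Filter.eventually_all.2 fun x => ev_mem (F x),
      Filter.eventually_all.2 fun x => ev_mem (G x)] with v h1 h2 m1 m2
    have e1 : pa_rel c τ e v (F + G) = pa_rel c τ e v F + pa_rel c τ e v G := by
      unfold pa_rel
      rw [← Finset.sum_add_distrib]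
      refine Finset.sum_congr rfl fun x _ => ?_
      rw [Pi.add_apply, pa_red_add v (m1 x) (m2 x), mul_add]
    rw [e1, h1, h2, add_zero]
  | smul a F _ hF =>
    filter_upwards [hF, ev_mem a, Filter.eventually_all.2 fun x => ev_mem (F x)] with v h1 ma m1
    have e1 : pa_rel c τ e v (a • F) = v.red a * pa_rel c τ e v F := by
      unfold pa_rel
      rw [Finset.mul_sum]
      refine Finset.sum_congr rfl fun x _ => ?_
      rw [Pi.smul_apply, smul_eq_mul, pa_red_mul v ma (m1 x)]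
      ring
    rw [e1, h1, mul_zero]

theorem pann {J : Type} [Fintype J] [DecidableEq J] (c : J → Kbar) (hc0 : ∀ j, c j ≠ 0)
    (hc1 : ∀ j, c j ≠ 1) (τ : J → PowerSeries Kbar) (hτ : ∀ j, τ j ∈ A0) (e : ℕ) (he : 1 ≤ e)
    (hτe : ∀ j n, n < e → coeff n (τ j) = 0) (j0 : J) (hj0 : coeff e (τ j0) ≠ 0)
    (l : Fin 2 → Fin 2 → Kbar)
    (hl : ∀ N : J → Fin 2 → Fin 2 → Kbar, SV c τ e N → ∑ i : Fin 2, ∑ k : Fin 2, N j0 i k * l i k = 0) :
    ∀ᶠ v in pl, -(Place.red v (l 1 0) * al v (c j0) ^ 2) +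
      (Place.red v (l 0 0) - Place.red v (l 1 1)) * (al v (c j0) * be v (c j0)) +
      Place.red v (l 0 1) * be v (c j0) ^ 2 = 0 := by
  let 𝓕 : Set (J × Fin 2 × Fin 2 → Kbar) :=
    {F | (∃ (Q : MvPolynomial (J × Ff) A0) (n : ℕ), GloballyBounded (evP c τ Q) ∧
      F = fun x => flP c τ Q n x.1 x.2.1 x.2.2) ∨
      ∃ x : J × Fin 2 × Fin 2, coeff e (τ x.1) = 0 ∧ F = fun y => if x = y then 1 else 0}
  let L : J × Fin 2 × Fin 2 → Kbar := fun x => if x.1 = j0 then l x.2.1 x.2.2 else 0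
  have hsum3 : ∀ (R : Type) [AddCommMonoid R] (G : J → Fin 2 → Fin 2 → R),
      ∑ x : J × Fin 2 × Fin 2, G x.1 x.2.1 x.2.2 = ∑ j, ∑ i : Fin 2, ∑ k : Fin 2, G j i k := by
    intro R _ G
    rw [Fintype.sum_prod_type]
    refine Finset.sum_congr rfl fun j _ => ?_
    rw [Fintype.sum_prod_type]
  have hLspan : L ∈ Submodule.span Kbar 𝓕 := by
    apply pa_dual
    intro N hN
    let N' : J → Fin 2 → Fin 2 → Kbar := fun j i k => N (j, i, k)
    have hSp : SV c τ e N' := by
      refine ⟨fun j hj => ?_, fun Q hQ => ?_⟩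
      · funext i k
        have h1 := hN (fun y => if ((j, i, k) : J × Fin 2 × Fin 2) = y then 1 else 0) (Or.inr ⟨(j, i, k), hj, rfl⟩)
        simp only [mul_ite, mul_one, mul_zero, Finset.sum_ite_eq, Finset.mem_univ, if_true] at h1
        exact h1
      · ext n
        have h1 := hN _ (Or.inl ⟨Q, n, hQ, rfl⟩)
        have h2 : ∑ x : J × Fin 2 × Fin 2, N x * flP c τ Q n x.1 x.2.1 x.2.2 =
            ∑ j, ∑ i : Fin 2, ∑ k : Fin 2, N' j i k * flP c τ Q n j i k :=
          hsum3 Kbar (fun j i k => N' j i k * flP c τ Q n j i k)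
        rw [h2] at h1
        rw [map_zero, evP_DPK]
        exact h1
    have h3 := hl N' hSp
    have h4 : ∑ x, N x * L x = ∑ j, ∑ i : Fin 2, ∑ k : Fin 2, N' j i k * (if j = j0 then l i k else 0) :=
      hsum3 Kbar (fun j i k => N' j i k * (if j = j0 then l i k else 0))
    rw [h4, Finset.sum_eq_single j0]
    · simp only [if_true]
      exact h3
    · intro j _ hj
      simp only [if_neg hj, mul_zero, Finset.sum_const_zero]
    · intro h
      exact absurd (Finset.mem_univ j0) h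
  have hrel := pa_rel_span c τ e 𝓕 (by
    rintro F (⟨Q, n, hQ, rfl⟩ | ⟨x, hx, rfl⟩)
    · filter_upwards [pquad c hc0 hc1 τ hτ e he hτe Q hQ n] with v hv
      have h2 : pa_rel c τ e v (fun x => flP c τ Q n x.1 x.2.1 x.2.2) =
          ∑ j, ∑ i : Fin 2, ∑ k : Fin 2, v.red (coeff e (τ j)) ^ v.p * v.red (Np (c j) v.p i k) *
            v.red (flP c τ Q n j i k) :=
        hsum3 v.k (fun j i k => v.red (coeff e (τ j)) ^ v.p * v.red (Np (c j) v.p i k) *
            v.red (flP c τ Q n j i k))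
      rw [h2, ← hv]
      refine Finset.sum_congr rfl fun j _ => ?_
      rw [Finset.mul_sum]
      refine Finset.sum_congr rfl fun i _ => ?_
      rw [Finset.mul_sum]
      refine Finset.sum_congr rfl fun k _ => ?_
      ring
    · refine Filter.Eventually.of_forall fun v => ?_
      unfold pa_rel
      refine Finset.sum_eq_zero fun y _ => ?_
      by_cases hxy : x = y
      · subst hxy
        rw [hx, pa_red_zero, zero_pow v.hp.out.ne_zero, zero_mul, zero_mul]
      · show _ * v.red (if x = y then 1 else 0) = 0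
        rw [if_neg hxy, pa_red_zero, mul_zero]) L hLspan
  filter_upwards [hrel, ev_ne _ hj0, ev_mem (c j0), ev_mem ((c j0 * (1 - c j0))⁻¹), ev_gt 4]
    with v h1 h2 h3 h4 h5
  obtain ⟨ν, hν, s00, s01, s10, s11⟩ := shape v (c j0) h3 h4 (hc0 j0) (hc1 j0) (by omega)
  have h6 : pa_rel c τ e v L =
      ∑ j, ∑ i : Fin 2, ∑ k : Fin 2, v.red (coeff e (τ j)) ^ v.p * v.red (Np (c j) v.p i k) *
        v.red (if j = j0 then l i k else 0) :=
    hsum3 v.k (fun j i k => v.red (coeff e (τ j)) ^ v.p * v.red (Np (c j) v.p i k) *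
        v.red (if j = j0 then l i k else 0))
  rw [h6, Finset.sum_eq_single j0] at h1
  · simp only [if_true, Fin.sum_univ_two] at h1
    rw [s00, s01, s10, s11] at h1
    have h7 : v.red (coeff e (τ j0)) ^ v.p * ν * (-(v.red (l 1 0) * al v (c j0) ^ 2) +
      (v.red (l 0 0) - v.red (l 1 1)) * (al v (c j0) * be v (c j0)) +
      v.red (l 0 1) * be v (c j0) ^ 2) = 0 := by
      linear_combination h1
    exact (mul_eq_zero.1 h7).resolve_left (mul_ne_zero (pow_ne_zero _ h2) hν)
  · intro j _ hj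
    simp only [if_neg hj, pa_red_zero, mul_zero, Finset.sum_const_zero]
  · intro h
    exact absurd (Finset.mem_univ j0) h

end Pool.Agent.H64.PV
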