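import Pool.Agent.H64.LG.Defs

/-!
# PV.PDef : the Picard-Vessiot ring of several families of elliptic curves (MP_40f29e)

THEOREM (`PFin`). Let `κ_j = c_j + τ_j` (`j ∈ J` finite) be algebraic power series over `Qbar`, `c_j ≠ 0, 1`, and `f` a power series which is a polynomial with algebraic coefficients in ALL `dg (c_j) (i, l) (τ_j)` (solutions of Legendre's equation at `κ_j` and their
derivatives; one polynomial in all `4 |J|` variables). If the coefficients of `f` are in `Zbar[1/N]` then `f` is algebraic. (`LG.SFin` is the case of sums of polynomials in the variables of one family each.)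

NOTATION.
* variables `(j, (i, l))`: family `j`, solution `i`, derivative `l`. `evP` : evaluation. `DP N`, `DPK N` : derivation with matrices `N j`. `SP` : the tuples `N` which kill all globally bounded elements; `SV` : those supported in the families with `coeff e (τ j) ≠ 0`.
* the same over any field `F`: `gsF`, `dgF` (`gsF c i = gs c i` for `F = Kbar`), `evF` (coefficients are all power series).
* `Bd p` : bounded power series over `ℚ_p`. `HP K M = ∑ cb i cb (M - i) x^i` (`aK c M` is its value at `c`). `Ct` : Cartier operator. `LegR` : Legendre's equation over a ring; `OD κ y` : its pull back to `κ`. `ax κ = κ (1 - κ)`, `Sn κ` : `2 {κ, t} + ..`, numerator of the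
  Schwarzian derivative of the quotient of two solutions at `κ`, `SnD κ₁ κ₂ = 0`: the two Schwarzian derivatives agree.
-/

set_option autoImplicit false

namespace Pool.Agent.H64.PV

open Pool.H61.QF Pool.Agent.H64.LG

/-- the variables of one family: (solution, derivative) -/
abbrev Ff := Fin 2 × Fin 2

/-- the derivative -/
noncomputable abbrev dd {R : Type} [CommRing R] (f : PowerSeries R) : PowerSeries R :=
  PowerSeries.derivative R f

/-! ### any field -/

/-- coefficients of the solution of Legendre's equation at `c` with initial values `(a, b)` -/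
noncomputable def gcF {F : Type} [Field F] (c a b : F) : ℕ → F × F
  | 0 => (a, b)
  | n + 1 => ((gcF c a b n).2, (((n : F) + 1 / 2) ^ 2 * (gcF c a b n).1 -
      (1 - 2 * c) * ((n : F) + 1) ^ 2 * (gcF c a b n).2) / (c * (1 - c) * ((n : F) + 2) * ((n : F) + 1)))

/-- the two solutions -/
noncomputable def gsF {F : Type} [Field F] (c : F) (i : Fin 2) : PowerSeries F :=
  PowerSeries.mk fun n => (gcF c (if i = 0 then 1 else 0) (if i = 0 then 0 else 1) n).1

/-- the solutions and their derivatives -/
noncomputable def dgF {F : Type} [Field F] (c : F) (x : Ff) : PowerSeries F :=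
  if x.2 = 0 then gsF c x.1 else dd (gsF c x.1)

/-- evaluation of polynomials whose coefficients are power series -/
noncomputable def evF {F : Type} [Field F] {J : Type} (c : J → F) (τ : J → PowerSeries F) :
    MvPolynomial (J × Ff) (PowerSeries F) →+* PowerSeries F :=
  MvPolynomial.eval₂Hom (RingHom.id _) fun x => (dgF (c x.1) x.2).subst (τ x.1)

/-- the derivation `X (j, (i, l)) ↦ ∑ k, N j i k X (j, (k, l))` -/
noncomputable def DP {J R : Type} [CommRing R] (N : J → Fin 2 → Fin 2 → R) :
    Derivation R (MvPolynomial (J × Ff) R) (MvPolynomial (J × Ff) R) :=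
  MvPolynomial.mkDerivation R fun x =>
    ∑ k : Fin 2, MvPolynomial.C (N x.1 x.2.1 k) * MvPolynomial.X (x.1, (k, x.2.2))

/-! ### algebraic coefficients -/

/-- evaluation at the solutions of all families -/
noncomputable def evP {J : Type} (c : J → Kbar) (τ : J → PowerSeries Kbar) :
    MvPolynomial (J × Ff) A0 →+* PowerSeries Kbar :=
  MvPolynomial.eval₂Hom A0.subtype fun x => (dg (c x.1) x.2).subst (τ x.1)

/-- the derivation with constant matrices -/
noncomputable def DPK {J : Type} (N : J → Fin 2 → Fin 2 → Kbar) :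
    Derivation A0 (MvPolynomial (J × Ff) A0) (MvPolynomial (J × Ff) A0) :=
  DP fun j i k => cst (N j i k)

/-- the functional `N ↦ coeff n (evP (DPK N Q))` on the elementary matrices -/
noncomputable def flP {J : Type} [DecidableEq J] (c : J → Kbar) (τ : J → PowerSeries Kbar)
    (Q : MvPolynomial (J × Ff) A0) (n : ℕ) (j : J) (i k : Fin 2) : Kbar :=
  PowerSeries.coeff n (evP c τ (DPK (Pi.single j (Em i k)) Q))

/-- the tuples which kill the globally bounded elements -/
def SP {J : Type} (c : J → Kbar) (τ : J → PowerSeries Kbar) (N : J → Fin 2 → Fin 2 → Kbar) : Prop :=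
  ∀ Q : MvPolynomial (J × Ff) A0, GloballyBounded (evP c τ Q) → evP c τ (DPK N Q) = 0

/-- those supported in the families of order `e` -/
def SV {J : Type} (c : J → Kbar) (τ : J → PowerSeries Kbar) (e : ℕ) (N : J → Fin 2 → Fin 2 → Kbar) : Prop :=
  (∀ j, PowerSeries.coeff e (τ j) = 0 → N j = 0) ∧ SP c τ N

/-- the matrix of `d / dτ` -/
def Nv {F : Type} [Field F] (v : F) : Fin 2 → Fin 2 → F := ![![-v, -v ^ 2], ![1, v]]

/-! ### bounded series -/

/-- the bounded power series over `ℚ_p` -/
noncomputable def Bd (p : ℕ) [Fact p.Prime] : Subring (PowerSeries ℚ_[p]) where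
  carrier := {f | ∃ M : ℕ, ∀ n, ‖PowerSeries.coeff n f‖ ≤ (p : ℝ) ^ M}
  mul_mem' := by
    rintro f g ⟨M, hM⟩ ⟨M', hM'⟩
    refine ⟨M + M', fun n => ?_⟩
    rw [PowerSeries.coeff_mul]
    refine IsUltrametricDist.norm_sum_le_of_forall_le_of_nonneg (by positivity) fun x _ => ?_
    rw [norm_mul, pow_add]
    exact mul_le_mul (hM _) (hM' _) (norm_nonneg _) (by positivity)
  one_mem' := by
    refine ⟨0, fun n => ?_⟩
    rw [PowerSeries.coeff_one, pow_zero]
    split_ifs
    · simp
    · simp
  add_mem' := by
    rintro f g ⟨M, hM⟩ ⟨M', hM'⟩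
    have hp : (1 : ℝ) ≤ p := by exact_mod_cast (Fact.out : p.Prime).one_lt.le
    refine ⟨max M M', fun n => ?_⟩
    rw [map_add]
    refine (IsUltrametricDist.norm_add_le_max _ _).trans (max_le ?_ ?_)
    · exact (hM n).trans (pow_le_pow_right₀ hp (le_max_left _ _))
    · exact (hM' n).trans (pow_le_pow_right₀ hp (le_max_right _ _))
  zero_mem' := ⟨0, fun n => by simp⟩
  neg_mem' := by
    rintro f ⟨M, hM⟩
    exact ⟨M, fun n => by rw [map_neg, norm_neg]; exact hM n⟩

theorem Bd_iff (p : ℕ) [Fact p.Prime] (f : PowerSeries ℚ_[p]) :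
    f ∈ Bd p ↔ ∃ M : ℕ, ∀ n, ‖PowerSeries.coeff n f‖ ≤ (p : ℝ) ^ M := Iff.rfl

/-! ### the Hasse polynomial and the Cartier operator -/

/-- the polynomial `∑ cb i cb (M - i) x^i` -/
noncomputable def HP (K : Type) [Field K] (M : ℕ) : Polynomial K :=
  ∑ i ∈ Finset.range (M + 1), Polynomial.C (cb K i * cb K (M - i)) * Polynomial.X ^ i

/-- the polynomial `h (c + x)`, `h = HP (ZMod p) ((p - 1) / 2)` -/
noncomputable def Hs {p : ℕ} [Fact p.Prime] (c : ZMod p) : PowerSeries (ZMod p) :=
  (((HP (ZMod p) ((p - 1) / 2)).comp (Polynomial.C c + Polynomial.X) : Polynomial (ZMod p)) :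
    PowerSeries (ZMod p))

/-- the Cartier operator on power series over `F_p` -/
noncomputable def Ct {p : ℕ} [Fact p.Prime] (f : PowerSeries (ZMod p)) : PowerSeries (ZMod p) :=
  PowerSeries.mk fun m => PowerSeries.coeff (p * m + (p - 1)) f

/-! ### Legendre's equation over a ring, pull back, Schwarzian derivative -/

/-- Legendre's equation at `c + x`, times `4` -/
def LegR {R : Type} [CommRing R] (c : R) (y : PowerSeries R) : Prop :=
  4 * ((PowerSeries.C c + PowerSeries.X) * (1 - (PowerSeries.C c + PowerSeries.X)) * dd (dd y) +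
    (1 - 2 * (PowerSeries.C c + PowerSeries.X)) * dd y) = y

/-- `κ (1 - κ)` -/
noncomputable def ax {R : Type} [CommRing R] (κ : PowerSeries R) : PowerSeries R := κ * (1 - κ)

/-- the pull back of Legendre's equation to `κ` -/
def OD {R : Type} [CommRing R] (κ y : PowerSeries R) : Prop :=
  4 * (dd κ * ax κ * dd (dd y) + (dd κ * dd (ax κ) - dd (dd κ) * ax κ) * dd y) = dd κ ^ 3 * y

/-- numerator of the Schwarzian derivative of the quotient of two solutions -/
noncomputable def Sn {R : Type} [CommRing R] (κ : PowerSeries R) : PowerSeries R :=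
  (2 * (dd (dd (dd κ)) * dd κ) - 3 * dd (dd κ) ^ 2) * ax κ ^ 2 + dd κ ^ 4 * (1 - ax κ)

/-- difference of the Schwarzian derivatives -/
noncomputable def SnD {R : Type} [CommRing R] (κ₁ κ₂ : PowerSeries R) : PowerSeries R :=
  Sn κ₁ * (dd κ₂ * ax κ₂) ^ 2 - Sn κ₂ * (dd κ₁ * ax κ₁) ^ 2

end Pool.Agent.H64.PV
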