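import Pool.Agent.H64.PV.PDk

/-!
# PV.PIde : a Lie algebra argument

PROOF. Bracket `[M, N] = fun j i l => ∑ k, (N j i k * M j k l - M j i k * N j k l)` (`SP_comm`); it is `0` at `j` if `M j = 0` or `N j = 0`. `vis = {j : coeff e (τ j) ≠ 0}`. For a finite set `T ⊆ vis \ {i}` let `V_T` = the set of the traceless `x` such that there is `M` with `SV c τ e M`, `M j = 0` for `j ∈ T`, `M i = x`: a subspace (`SP_add`, `SP_smul`, `SP_zero`). CLAIM: `V_T` contains all traceless `x`. Induction on `T`. `T = ∅`: `hpr`. `T = {j}`: take `N` from `hsep`, and `Y` from `hpr` for a traceless `y`: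
`[N, Y]` is in `SV` (its components outside `vis` vanish with those of `Y`), is `0` at `j`, and is the commutator of `N i` and `y` at `i` (traceless); since `N i 1 0 ≠ 0` it is not `0` for a suitable `y` (`y = E_01` : the commutator of `N i` and `E_01` has the diagonal entries `∓ N i 1 0`). So `V_{j} ≠ 0`, and `V_{j}` is stable under commutators with all traceless `y` (bracket with a lift of `y`); such a nonzero subspace of the traceless
`2 × 2` matrices is everything (take commutators with `E_01`, `E_10` and `diag(1, -1)`). `T ∪ {j}` from `T` and `{j}`: `V_(T ∪ {j})` contains the commutators of elements of `V_T` and `V_{j}`, and every traceless matrix is a sum of commutators of traceless matrices (`[H, E] = 2 E`, `[H, F] = -2 F`, `[E, F] = H`). Finally `T = vis \ {i}`: `M ∈ SV` with `M j = 0` for `j ≠ i` and `M i = N` is `Pi.single i N`.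
-/

set_option autoImplicit false

namespace Pool.Agent.H64.PV

open Pool.H61.QF Pool.Agent.H64.LG PowerSeries

private noncomputable def pideC (A B : Fin 2 → Fin 2 → Kbar) : Fin 2 → Fin 2 → Kbar :=
  fun i l => ∑ k : Fin 2, (B i k * A k l - A i k * B k l)

private noncomputable def pideV {J : Type} (c : J → Kbar) (τ : J → PowerSeries Kbar) (e : ℕ) (i : J)
    (T : Finset J) (x : Fin 2 → Fin 2 → Kbar) : Prop :=
  ∃ M : J → Fin 2 → Fin 2 → Kbar, SV c τ e M ∧ (∀ j ∈ T, M j = 0) ∧ M i = x

private theorem pideC_zero_left (B : Fin 2 → Fin 2 → Kbar) : pideC 0 B = 0 := by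
  funext i l
  simp [pideC]

private theorem pideC_zero_right (A : Fin 2 → Fin 2 → Kbar) : pideC A 0 = 0 := by
  funext i l
  simp [pideC]

private theorem pideV_add {J : Type} {c : J → Kbar} {τ : J → PowerSeries Kbar} {e : ℕ} {i : J}
    {T : Finset J} {x y : Fin 2 → Fin 2 → Kbar} (hx : pideV c τ e i T x)
    (hy : pideV c τ e i T y) : pideV c τ e i T (x + y) := by
  obtain ⟨M, hM, hMT, hMi⟩ := hx
  obtain ⟨N, hN, hNT, hNi⟩ := hy
  refine ⟨M + N, ⟨fun j hj => ?_, SP_add c τ M N hM.2 hN.2⟩, fun j hj => ?_, ?_⟩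
  · rw [Pi.add_apply, hM.1 j hj, hN.1 j hj, add_zero]
  · rw [Pi.add_apply, hMT j hj, hNT j hj, add_zero]
  · rw [Pi.add_apply, hMi, hNi]

private theorem pideV_smul {J : Type} {c : J → Kbar} {τ : J → PowerSeries Kbar} {e : ℕ} {i : J}
    {T : Finset J} {x : Fin 2 → Fin 2 → Kbar} (a : Kbar) (hx : pideV c τ e i T x) :
    pideV c τ e i T (a • x) := by
  obtain ⟨M, hM, hMT, hMi⟩ := hx
  refine ⟨a • M, ⟨fun j hj => ?_, SP_smul c τ a M hM.2⟩, fun j hj => ?_, ?_⟩
  · rw [Pi.smul_apply, hM.1 j hj, smul_zero]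
  · rw [Pi.smul_apply, hMT j hj, smul_zero]
  · rw [Pi.smul_apply, hMi]

/-- brackets of a lift which vanishes on `T` and one which vanishes on `T'`; only one of them
needs to be in `SV` -/
private theorem pideV_br {J : Type} [DecidableEq J] {c : J → Kbar} {τ : J → PowerSeries Kbar}
    {e : ℕ} {i : J} {T T' : Finset J} (M : J → Fin 2 → Fin 2 → Kbar) (hM : SP c τ M)
    (hMT : ∀ j ∈ T, M j = 0) {y : Fin 2 → Fin 2 → Kbar} (hy : pideV c τ e i T' y) :
    pideV c τ e i (T ∪ T') (pideC (M i) y) := by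
  obtain ⟨N, hN, hNT, hNi⟩ := hy
  refine ⟨fun j => pideC (M j) (N j), ⟨fun j hj => ?_, ?_⟩, fun j hj => ?_, ?_⟩
  · show pideC (M j) (N j) = 0
    rw [hN.1 j hj, pideC_zero_right]
  · exact SP_comm c τ M N hM hN.2
  · show pideC (M j) (N j) = 0
    rcases Finset.mem_union.1 hj with h | h
    · rw [hMT j h, pideC_zero_left]
    · rw [hNT j h, pideC_zero_right]
  · show pideC (M i) (N i) = _
    rw [hNi]

private theorem pideV_comm {J : Type} [DecidableEq J] {c : J → Kbar} {τ : J → PowerSeries Kbar}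
    {e : ℕ} {i : J} {T T' : Finset J} {x y : Fin 2 → Fin 2 → Kbar} (hx : pideV c τ e i T x)
    (hy : pideV c τ e i T' y) : pideV c τ e i (T ∪ T') (pideC x y) := by
  obtain ⟨M, hM, hMT, hMi⟩ := hx
  rw [← hMi]
  exact pideV_br M hM.2 hMT hy

/-- the standard basis of the traceless matrices -/
private noncomputable def pideE : Fin 2 → Fin 2 → Kbar := ![![0, 1], ![0, 0]]
private noncomputable def pideF : Fin 2 → Fin 2 → Kbar := ![![0, 0], ![1, 0]]
private noncomputable def pideH : Fin 2 → Fin 2 → Kbar := ![![1, 0], ![0, -1]]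

private theorem pide_ext {x y : Fin 2 → Fin 2 → Kbar} (h00 : x 0 0 = y 0 0) (h01 : x 0 1 = y 0 1)
    (h10 : x 1 0 = y 1 0) (h11 : x 1 1 = y 1 1) : x = y := by
  funext a b
  fin_cases a <;> fin_cases b
  · exact h00
  · exact h01
  · exact h10
  · exact h11

private theorem pide_dec (x : Fin 2 → Fin 2 → Kbar) (hx : x 0 0 + x 1 1 = 0) :
    x = x 0 0 • pideH + x 0 1 • pideE + x 1 0 • pideF := by
  have h : x 1 1 = -x 0 0 := by linear_combination hx
  apply pide_ext
  · simp [pideH, pideE, pideF]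
  · simp [pideH, pideE, pideF]
  · simp [pideH, pideE, pideF]
  · simp [pideH, pideE, pideF, h]

private theorem pideV_all {J : Type} {c : J → Kbar} {τ : J → PowerSeries Kbar} {e : ℕ} {i : J}
    {T : Finset J} (hH : pideV c τ e i T pideH) (hE : pideV c τ e i T pideE)
    (hF : pideV c τ e i T pideF) (x : Fin 2 → Fin 2 → Kbar) (hx : x 0 0 + x 1 1 = 0) :
    pideV c τ e i T x := by
  rw [pide_dec x hx]
  exact pideV_add (pideV_add (pideV_smul _ hH) (pideV_smul _ hE)) (pideV_smul _ hF)

private theorem pideC_EF : pideC pideE pideF = (-1 : Kbar) • pideH := by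
  apply pide_ext <;> simp [pideC, pideE, pideF, pideH]

private theorem pideC_HF : pideC pideH pideF = (2 : Kbar) • pideF := by
  apply pide_ext <;> simp [pideC, pideF, pideH] <;> norm_num

private theorem pideC_HE : pideC pideH pideE = (-2 : Kbar) • pideE := by
  apply pide_ext <;> simp [pideC, pideE, pideH] <;> norm_num

private theorem pideV_cancel {J : Type} {c : J → Kbar} {τ : J → PowerSeries Kbar} {e : ℕ} {i : J}
    {T : Finset J} {x : Fin 2 → Fin 2 → Kbar} {a : Kbar} (ha : a ≠ 0)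
    (hx : pideV c τ e i T (a • x)) : pideV c τ e i T x := by
  have h := pideV_smul a⁻¹ hx
  rwa [smul_smul, inv_mul_cancel₀ ha, one_smul] at h

private theorem pideV_union {J : Type} [DecidableEq J] {c : J → Kbar} {τ : J → PowerSeries Kbar}
    {e : ℕ} {i : J} {T T' : Finset J}
    (hT : ∀ x : Fin 2 → Fin 2 → Kbar, x 0 0 + x 1 1 = 0 → pideV c τ e i T x)
    (hT' : ∀ x : Fin 2 → Fin 2 → Kbar, x 0 0 + x 1 1 = 0 → pideV c τ e i T' x)
    (x : Fin 2 → Fin 2 → Kbar) (hx : x 0 0 + x 1 1 = 0) : pideV c τ e i (T ∪ T') x := by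
  have tE : pideE 0 0 + pideE 1 1 = 0 := by simp [pideE]
  have tF : pideF 0 0 + pideF 1 1 = 0 := by simp [pideF]
  have tH : pideH 0 0 + pideH 1 1 = 0 := by simp [pideH]
  refine pideV_all ?_ ?_ ?_ x hx
  · have h := pideV_comm (hT _ tE) (hT' _ tF)
    rw [pideC_EF] at h
    exact pideV_cancel (by norm_num) h
  · have h := pideV_comm (hT _ tH) (hT' _ tE)
    rw [pideC_HE] at h
    exact pideV_cancel (by norm_num) h
  · have h := pideV_comm (hT _ tH) (hT' _ tF)
    rw [pideC_HF] at h
    exact pideV_cancel (by norm_num) h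

theorem pide {J : Type} [Fintype J] [DecidableEq J] (c : J → Kbar) (τ : J → PowerSeries Kbar) (e : ℕ)
    (i : J) (hi : coeff e (τ i) ≠ 0)
    (hpr : ∀ N : Fin 2 → Fin 2 → Kbar, N 0 0 + N 1 1 = 0 →
      ∃ M : J → Fin 2 → Fin 2 → Kbar, SV c τ e M ∧ M i = N)
    (hsep : ∀ j, j ≠ i → coeff e (τ j) ≠ 0 →
      ∃ N : J → Fin 2 → Fin 2 → Kbar, SP c τ N ∧ N j = 0 ∧ N i 1 0 ≠ 0)
    (N : Fin 2 → Fin 2 → Kbar) (hN : N 0 0 + N 1 1 = 0) : SP c τ (Pi.single i N) := by
  have tE : pideE 0 0 + pideE 1 1 = 0 := by simp [pideE]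
  have tF : pideF 0 0 + pideF 1 1 = 0 := by simp [pideF]
  have tH : pideH 0 0 + pideH 1 1 = 0 := by simp [pideH]
  have h0 : ∀ x : Fin 2 → Fin 2 → Kbar, x 0 0 + x 1 1 = 0 → pideV c τ e i ∅ x := by
    intro x hx
    obtain ⟨M, hM, hMi⟩ := hpr x hx
    exact ⟨M, hM, fun j hj => absurd hj (Finset.notMem_empty j), hMi⟩
  have h1 : ∀ j, j ≠ i → coeff e (τ j) ≠ 0 →
      ∀ x : Fin 2 → Fin 2 → Kbar, x 0 0 + x 1 1 = 0 → pideV c τ e i {j} x := by
    intro j hj hcj
    obtain ⟨P, hP, hPj, hPi⟩ := hsep j hj hcj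
    have a1 : pideV c τ e i {j} (pideC (P i) pideE) := by
      have h := pideV_br (T := {j}) P hP
        (fun k hk => by rw [Finset.mem_singleton.1 hk]; exact hPj) (h0 _ tE)
      rwa [Finset.union_empty] at h
    have a2 : pideV c τ e i {j} pideE := by
      have h := pideV_comm a1 (h0 _ tE)
      rw [Finset.union_empty] at h
      have h2 : pideC (pideC (P i) pideE) pideE = (-2 * P i 1 0) • pideE := by
        apply pide_ext <;> simp [pideC, pideE]
        ring
      rw [h2] at h
      exact pideV_cancel (mul_ne_zero (by norm_num) hPi) h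
    have a3 : pideV c τ e i {j} pideH := by
      have h := pideV_comm a2 (h0 _ tF)
      rw [Finset.union_empty, pideC_EF] at h
      exact pideV_cancel (by norm_num) h
    have a4 : pideV c τ e i {j} pideF := by
      have h := pideV_comm a3 (h0 _ tF)
      rw [Finset.union_empty, pideC_HF] at h
      exact pideV_cancel (by norm_num) h
    exact pideV_all a3 a2 a4
  have hT : ∀ T : Finset J, (∀ j ∈ T, j ≠ i ∧ coeff e (τ j) ≠ 0) →
      ∀ x : Fin 2 → Fin 2 → Kbar, x 0 0 + x 1 1 = 0 → pideV c τ e i T x := by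
    intro T
    induction T using Finset.induction_on with
    | empty => exact fun _ => h0
    | insert j T hjT ih =>
      intro h
      have h2 := h j (Finset.mem_insert_self j T)
      have h3 := pideV_union (h1 j h2.1 h2.2)
        (ih fun k hk => h k (Finset.mem_insert_of_mem hk))
      rwa [← Finset.insert_eq] at h3
  classical
  obtain ⟨M, hM, hMT, hMi⟩ := hT (Finset.univ.filter fun j => j ≠ i ∧ coeff e (τ j) ≠ 0)
    (fun j hj => (Finset.mem_filter.1 hj).2) N hN
  have hMs : M = Pi.single i N := by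
    funext j
    by_cases hji : j = i
    · subst hji
      rw [hMi, Pi.single_eq_same]
    · rw [Pi.single_eq_of_ne hji]
      by_cases hcj : coeff e (τ j) = 0
      · exact hM.1 j hcj
      · exact hMT j (Finset.mem_filter.2 ⟨Finset.mem_univ j, hji, hcj⟩)
  rw [← hMs]
  exact hM.2

end Pool.Agent.H64.PV
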