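import Pool.Agent.H64.PV.PAnn
import Pool.Agent.H64.LG.Quf

/-!
# PV.PPr : the projection of SV to one family contains sl_2

PROOF. As `spr` in `LG/SPr.lean`: `SV` is closed under sums, multiples and commutators (`SP_add`, `SP_smul`, `SP_comm`, and the support condition), contains `0`; `quf` for `c j0` and the functionals vanishing on `{M j0 : M ∈ SV}`, with `pann`.
-/

set_option autoImplicit false

namespace Pool.Agent.H64.PV

open Pool.H61.QF Pool.Agent.H64.LG PowerSeries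

/-- the values at `j0` of the tuples in `SV` -/
private noncomputable def ppr_prj {J : Type} (c : J → Kbar) (τ : J → PowerSeries Kbar) (e : ℕ)
    (j0 : J) : Submodule Kbar (Fin 2 → Fin 2 → Kbar) where
  carrier := {B | ∃ M : J → Fin 2 → Fin 2 → Kbar, SV c τ e M ∧ M j0 = B}
  add_mem' := by
    rintro a b ⟨M, hM, rfl⟩ ⟨N, hN, rfl⟩
    refine ⟨M + N, ⟨fun j hj => ?_, SP_add c τ M N hM.2 hN.2⟩, rfl⟩
    rw [Pi.add_apply, hM.1 j hj, hN.1 j hj, add_zero]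
  zero_mem' := ⟨0, ⟨fun j _ => rfl, SP_zero c τ⟩, rfl⟩
  smul_mem' := by
    rintro x a ⟨M, hM, rfl⟩
    refine ⟨x • M, ⟨fun j hj => ?_, SP_smul c τ x M hM.2⟩, rfl⟩
    rw [Pi.smul_apply, hM.1 j hj, smul_zero]

private lemma ppr_dual_apply (φ : Module.Dual Kbar (Fin 2 → Fin 2 → Kbar))
    (B : Fin 2 → Fin 2 → Kbar) :
    φ B = ∑ i : Fin 2, ∑ k : Fin 2, B i k * φ (Pi.single i (Pi.single k 1)) := by
  have h : B = ∑ i : Fin 2, ∑ k : Fin 2, B i k • (Pi.single i (Pi.single k 1) : Fin 2 → Fin 2 → Kbar) := by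
    funext i k
    simp only [Fin.sum_univ_two, Pi.add_apply, Pi.smul_apply, smul_eq_mul]
    fin_cases i <;> fin_cases k <;> simp
  conv_lhs => rw [h]
  rw [map_sum]
  refine Finset.sum_congr rfl fun i _ => ?_
  rw [map_sum]
  refine Finset.sum_congr rfl fun k _ => ?_
  rw [map_smul, smul_eq_mul]

private lemma ppr_mem_prj {P : Submodule Kbar (Fin 2 → Fin 2 → Kbar)} {B : Fin 2 → Fin 2 → Kbar}
    (h : ∀ l : Fin 2 → Fin 2 → Kbar, (∀ A ∈ P, ∑ i : Fin 2, ∑ k : Fin 2, A i k * l i k = 0) →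
      ∑ i : Fin 2, ∑ k : Fin 2, B i k * l i k = 0) : B ∈ P := by
  rw [← Subspace.dualAnnihilator_dualCoannihilator_eq (W := P), Submodule.mem_dualCoannihilator]
  intro φ hφ
  rw [Submodule.mem_dualAnnihilator] at hφ
  rw [ppr_dual_apply]
  refine h (fun i k => φ (Pi.single i (Pi.single k 1))) fun A hA => ?_
  rw [← ppr_dual_apply]
  exact hφ A hA

theorem ppr {J : Type} [Fintype J] [DecidableEq J] (c : J → Kbar) (hc0 : ∀ j, c j ≠ 0)
    (hc1 : ∀ j, c j ≠ 1) (τ : J → PowerSeries Kbar) (hτ : ∀ j, τ j ∈ A0) (e : ℕ) (he : 1 ≤ e)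
    (hτe : ∀ j n, n < e → coeff n (τ j) = 0) (j0 : J) (hj0 : coeff e (τ j0) ≠ 0)
    (hlin : ∀ u w : Kbar, ¬ (u = 0 ∧ w = 0) →
      ¬ ∀ᶠ v in pl, Place.red v u * al v (c j0) + Place.red v w * be v (c j0) = 0)
    (N : Fin 2 → Fin 2 → Kbar) (hN : N 0 0 + N 1 1 = 0) :
    ∃ M : J → Fin 2 → Fin 2 → Kbar, SV c τ e M ∧ M j0 = N := by
  have hab : ∀ᶠ v in pl, al v (c j0) ≠ 0 ∨ be v (c j0) ≠ 0 := by
    filter_upwards [ev_mem (c j0), ev_mem (c j0 * (1 - c j0))⁻¹, ev_gt 4] with v h1 h2 h3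
    exact al_be v (c j0) h1 h2 (hc0 j0) (hc1 j0) h3
  set 𝓛 : Set (Fin 2 → Fin 2 → Kbar) :=
    {l | ∀ A ∈ ppr_prj c τ e j0, ∑ i : Fin 2, ∑ k : Fin 2, A i k * l i k = 0} with h𝓛
  have hq := quf (c j0) hlin hab 𝓛
    (fun l hl => pann c hc0 hc1 τ hτ e he hτe j0 hj0 l fun M hM => hl (M j0) ⟨M, hM, rfl⟩)
    (by
      intro A B hA hB l hl
      obtain ⟨M, hM, rfl⟩ : A ∈ ppr_prj c τ e j0 := ppr_mem_prj hA
      obtain ⟨M', hM', rfl⟩ : B ∈ ppr_prj c τ e j0 := ppr_mem_prj hB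
      refine hl _ ⟨_, ⟨fun j hj => ?_, SP_comm c τ M M' hM.2 hM'.2⟩, rfl⟩
      funext i l'
      simp only [hM.1 j hj, hM'.1 j hj, Pi.zero_apply, mul_zero, sub_zero, Finset.sum_const_zero])
  have h : N ∈ ppr_prj c τ e j0 := by
    refine ppr_mem_prj fun l hl => ?_
    obtain ⟨a1, a2, a3⟩ := hq l hl
    simp only [Fin.sum_univ_two]
    linear_combination (l 1 1) * hN + N 0 1 * a1 + N 1 0 * a2 + N 0 0 * a3
  exact h

end Pool.Agent.H64.PV
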