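import Pool.Agent.H64.PV.CasR
import Pool.Agent.H64.PV.PDk
import Pool.Agent.H64.LG.Rec

/-!
# PV.PSpl : elimination of a family whose sl_2 acts trivially

PROOF. `J' = {k // k ≠ i}`, `R = MvPolynomial (J' × Ff) A0`, `φ = evP (c ∘ val) (τ ∘ val) : R → PowerSeries Kbar`, `κ = C ∘ cst`, `G x = (dg (c i) x).subst (τ i)`, `w = C (det)`, where `det = G (0,0) G (1,1) - G (1,0) G (0,1) ∈ A0` (`det_mem` in `LG/SCas.lean`, private there: copy it), `Pr = GloballyBounded` (`gb_zero`). Let `back : MvPolynomial Ff R → MvPolynomial (J × Ff) A0` be the ring homomorphism with `X x ↦ X (i, x)` and `R → ..` the renaming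
`(k, x) ↦ (k.1, x)`; then `evP c τ (back P) = eval₂Hom φ G P` and `evP c τ (DPK (Pi.single i N) (back P)) = eval₂Hom φ G (DN (fun a b => κ (N a b)) P)`, because `DPK (Pi.single i N) (back P) = back (DN (fun a b => κ (N a b)) P)` (`MvPolynomial.induction_on`; on `R` the derivation vanishes, on `X x` clear). So `hker` of `casR` follows from `hsl`. Conversely let `split : MvPolynomial (J × Ff) A0 → MvPolynomial Ff R` be the ring homomorphism with
`X (k, x) ↦ C (X (⟨k, _⟩, x))` for `k ≠ i`, `X (i, x) ↦ X x`; `eval₂Hom φ G (split Q) = evP c τ Q`. Apply `casR` to `split Q`.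
-/

set_option autoImplicit false

namespace Pool.Agent.H64.PV

open Pool.H61.QF Pool.Agent.H64.LG PowerSeries

private theorem pspl_det_mem (c : Kbar) (hc0 : c ≠ 0) (hc1 : c ≠ 1) (τ : PowerSeries Kbar) (hτ : τ ∈ A0)
    (hτ0 : constantCoeff τ = 0) :
    (dg c (0, 0)).subst τ * (dg c (1, 1)).subst τ - (dg c (1, 0)).subst τ * (dg c (0, 1)).subst τ ∈ A0 := by
  have hs : HasSubst τ := HasSubst.of_constantCoeff_zero' hτ0
  have h1 := congrArg (fun f => substAlgHom (R := Kbar) hs f) (wron c hc0 hc1)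
  simp only [map_mul, map_sub, map_add, map_one] at h1
  have hX : substAlgHom (R := Kbar) hs (X : PowerSeries Kbar) = τ := substAlgHom_X hs
  have hC : ∀ x : Kbar, (C x : PowerSeries Kbar).subst τ = (C x : PowerSeries Kbar) := by
    intro x
    rw [← coe_substAlgHom hs]
    exact (substAlgHom (R := Kbar) hs).commutes x
  rw [hX] at h1
  simp only [coe_substAlgHom, hC] at h1
  have hc : c * (1 - c) ≠ 0 := mul_ne_zero hc0 (sub_ne_zero.2 (Ne.symm hc1))
  have hCne : (C (c * (1 - c)) : PowerSeries Kbar) ≠ 0 := by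
    intro h
    apply hc
    have h3 := congrArg (fun f => coeff 0 f) h
    simpa using h3
  have hq : (C c + τ) * (1 - (C c + τ)) ∈ A0 :=
    A0.mul_mem (A0.add_mem (cst_mem c) hτ) (A0.sub_mem A0.one_mem (A0.add_mem (cst_mem c) hτ))
  refine alg_of_mul hq ?_ ?_
  · intro h0
    rw [h0, zero_mul] at h1
    apply hCne
    rw [map_mul, map_sub, map_one]
    exact h1.symm
  · rw [h1]
    exact A0.mul_mem (cst_mem _) (A0.sub_mem A0.one_mem (cst_mem _))

private theorem pspl_evP_C {J : Type} (c : J → Kbar) (τ : J → PowerSeries Kbar) (x : A0) :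
    evP c τ (MvPolynomial.C x) = (x : PowerSeries Kbar) := by
  unfold evP
  rw [MvPolynomial.coe_eval₂Hom, MvPolynomial.eval₂_C]
  rfl

private theorem pspl_evP_X {J : Type} (c : J → Kbar) (τ : J → PowerSeries Kbar) (x : J × Ff) :
    evP c τ (MvPolynomial.X x) = (dg (c x.1) x.2).subst (τ x.1) := by
  unfold evP
  rw [MvPolynomial.coe_eval₂Hom, MvPolynomial.eval₂_X]

/-- the embedding of the polynomials in the other families -/
private noncomputable def pspl_ren {J : Type} (i : J) :
    MvPolynomial ({k : J // k ≠ i} × Ff) A0 →+* MvPolynomial (J × Ff) A0 :=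
  (MvPolynomial.rename (fun x : {k : J // k ≠ i} × Ff => ((x.1.1, x.2) : J × Ff))).toRingHom

private theorem pspl_ren_C {J : Type} (i : J) (a : A0) :
    pspl_ren i (MvPolynomial.C a) = MvPolynomial.C a := by
  unfold pspl_ren
  show MvPolynomial.rename _ (MvPolynomial.C a) = _
  rw [MvPolynomial.rename_C]

private theorem pspl_ren_X {J : Type} (i : J) (x : {k : J // k ≠ i} × Ff) :
    pspl_ren i (MvPolynomial.X x) = MvPolynomial.X (x.1.1, x.2) := by
  unfold pspl_ren
  show MvPolynomial.rename _ (MvPolynomial.X x) = _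
  rw [MvPolynomial.rename_X]

/-- back to all families -/
private noncomputable def pspl_back {J : Type} (i : J) :
    MvPolynomial Ff (MvPolynomial ({k : J // k ≠ i} × Ff) A0) →+* MvPolynomial (J × Ff) A0 :=
  MvPolynomial.eval₂Hom (pspl_ren i) fun x => MvPolynomial.X (i, x)

private theorem pspl_back_C {J : Type} (i : J) (r : MvPolynomial ({k : J // k ≠ i} × Ff) A0) :
    pspl_back i (MvPolynomial.C r) = pspl_ren i r := by
  unfold pspl_back
  rw [MvPolynomial.coe_eval₂Hom, MvPolynomial.eval₂_C]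

private theorem pspl_back_X {J : Type} (i : J) (x : Ff) :
    pspl_back i (MvPolynomial.X x) = MvPolynomial.X (i, x) := by
  unfold pspl_back
  rw [MvPolynomial.coe_eval₂Hom, MvPolynomial.eval₂_X]

private theorem pspl_D_X {J : Type} [DecidableEq J] (i : J) (N : Fin 2 → Fin 2 → Kbar) (x : J × Ff) :
    DPK (Pi.single i N) (MvPolynomial.X x) =
      ∑ k : Fin 2, MvPolynomial.C (cst ((Pi.single i N : J → Fin 2 → Fin 2 → Kbar) x.1 x.2.1 k)) *
        MvPolynomial.X (x.1, (k, x.2.2)) := by
  unfold DPK DP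
  rw [MvPolynomial.mkDerivation_X]

private theorem pspl_D_C {J : Type} (M : J → Fin 2 → Fin 2 → Kbar) (a : A0) :
    DPK M (MvPolynomial.C a) = 0 :=
  MvPolynomial.derivation_C _ a

private theorem pspl_D_ren {J : Type} [DecidableEq J] (i : J) (N : Fin 2 → Fin 2 → Kbar)
    (r : MvPolynomial ({k : J // k ≠ i} × Ff) A0) : DPK (Pi.single i N) (pspl_ren i r) = 0 := by
  induction r using MvPolynomial.induction_on with
  | C a => rw [pspl_ren_C, pspl_D_C]
  | add p q hp hq => rw [map_add, map_add, hp, hq, add_zero]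
  | mul_X p x hp =>
    rw [map_mul, Derivation.leibniz, hp, smul_zero, add_zero, pspl_ren_X, pspl_D_X]
    have h : (Pi.single i N : J → Fin 2 → Fin 2 → Kbar) x.1.1 = 0 := by
      rw [Pi.single_apply, if_neg x.1.2]
    simp [h]

private theorem pspl_D_back {J : Type} [DecidableEq J] (i : J) (N : Fin 2 → Fin 2 → Kbar)
    (P : MvPolynomial Ff (MvPolynomial ({k : J // k ≠ i} × Ff) A0)) :
    DPK (Pi.single i N) (pspl_back i P) =
      pspl_back i (DN (fun a b => (MvPolynomial.C (cst (N a b)) : MvPolynomial ({k : J // k ≠ i} × Ff) A0)) P) := by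
  induction P using MvPolynomial.induction_on with
  | C r =>
    have h : DN (fun a b => (MvPolynomial.C (cst (N a b)) : MvPolynomial ({k : J // k ≠ i} × Ff) A0))
        (MvPolynomial.C r) = 0 := MvPolynomial.derivation_C _ r
    rw [pspl_back_C, pspl_D_ren, h, map_zero]
  | add p q hp hq => simp only [map_add, hp, hq]
  | mul_X p x hp =>
    rw [map_mul, Derivation.leibniz, hp, pspl_back_X, pspl_D_X, Derivation.leibniz]
    have h : DN (fun a b => (MvPolynomial.C (cst (N a b)) : MvPolynomial ({k : J // k ≠ i} × Ff) A0))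
        (MvPolynomial.X x) = ∑ l : Fin 2, MvPolynomial.C (MvPolynomial.C (cst (N x.1 l))) *
          MvPolynomial.X (l, x.2) := by
      unfold DN
      rw [MvPolynomial.mkDerivation_X]
    rw [h, smul_eq_mul, smul_eq_mul, smul_eq_mul, smul_eq_mul, map_add, map_mul, map_mul, map_sum, pspl_back_X]
    congr 2
    refine Finset.sum_congr rfl fun l _ => ?_
    rw [map_mul, pspl_back_C, pspl_ren_C, pspl_back_X, Pi.single_eq_same]

private theorem pspl_ev_ren {J : Type} (c : J → Kbar) (τ : J → PowerSeries Kbar) (i : J)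
    (r : MvPolynomial ({k : J // k ≠ i} × Ff) A0) :
    evP c τ (pspl_ren i r) = evP (fun k : {k : J // k ≠ i} => c k.1) (fun k => τ k.1) r := by
  induction r using MvPolynomial.induction_on with
  | C a => rw [pspl_ren_C, pspl_evP_C, pspl_evP_C]
  | add p q hp hq => simp only [map_add, hp, hq]
  | mul_X p x hp => rw [map_mul, map_mul, map_mul, hp, pspl_ren_X, pspl_evP_X, pspl_evP_X]

private theorem pspl_ev_back {J : Type} (c : J → Kbar) (τ : J → PowerSeries Kbar) (i : J)
    (P : MvPolynomial Ff (MvPolynomial ({k : J // k ≠ i} × Ff) A0)) :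
    evP c τ (pspl_back i P) =
      MvPolynomial.eval₂Hom (evP (fun k : {k : J // k ≠ i} => c k.1) (fun k => τ k.1))
        (fun x => (dg (c i) x).subst (τ i)) P := by
  induction P using MvPolynomial.induction_on with
  | C r =>
    rw [pspl_back_C, pspl_ev_ren, MvPolynomial.coe_eval₂Hom, MvPolynomial.eval₂_C]
  | add p q hp hq => simp only [map_add, hp, hq]
  | mul_X p x hp =>
    rw [map_mul, map_mul, map_mul, hp, pspl_back_X, pspl_evP_X]
    congr 1
    rw [MvPolynomial.coe_eval₂Hom, MvPolynomial.eval₂_X]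

/-- polynomials in the variables of family `i` over the others -/
private noncomputable def pspl_split {J : Type} [DecidableEq J] (i : J) :
    MvPolynomial (J × Ff) A0 →+* MvPolynomial Ff (MvPolynomial ({k : J // k ≠ i} × Ff) A0) :=
  MvPolynomial.eval₂Hom ((MvPolynomial.C).comp MvPolynomial.C) fun x =>
    if h : x.1 = i then MvPolynomial.X x.2 else MvPolynomial.C (MvPolynomial.X (⟨x.1, h⟩, x.2))

private theorem pspl_ev_split {J : Type} [DecidableEq J] (c : J → Kbar) (τ : J → PowerSeries Kbar) (i : J)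
    (Q : MvPolynomial (J × Ff) A0) :
    MvPolynomial.eval₂Hom (evP (fun k : {k : J // k ≠ i} => c k.1) (fun k => τ k.1))
        (fun x => (dg (c i) x).subst (τ i)) (pspl_split i Q) = evP c τ Q := by
  induction Q using MvPolynomial.induction_on with
  | C a =>
    have h : pspl_split i (MvPolynomial.C a) = MvPolynomial.C (MvPolynomial.C a) := by
      unfold pspl_split
      rw [MvPolynomial.coe_eval₂Hom, MvPolynomial.eval₂_C]
      rfl
    rw [h, MvPolynomial.coe_eval₂Hom, MvPolynomial.eval₂_C, pspl_evP_C, pspl_evP_C]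
  | add p q hp hq => simp only [map_add, hp, hq]
  | mul_X p x hp =>
    have h : pspl_split i (MvPolynomial.X x) =
        if h : x.1 = i then MvPolynomial.X x.2 else MvPolynomial.C (MvPolynomial.X (⟨x.1, h⟩, x.2)) := by
      unfold pspl_split
      rw [MvPolynomial.coe_eval₂Hom, MvPolynomial.eval₂_X]
    rw [map_mul, map_mul, map_mul, hp, h, pspl_evP_X]
    congr 1
    split_ifs with h1
    · rw [MvPolynomial.coe_eval₂Hom, MvPolynomial.eval₂_X, h1]
    · rw [MvPolynomial.coe_eval₂Hom, MvPolynomial.eval₂_C, pspl_evP_X]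

theorem pspl {J : Type} [DecidableEq J] (c : J → Kbar) (hc0 : ∀ j, c j ≠ 0) (hc1 : ∀ j, c j ≠ 1)
    (τ : J → PowerSeries Kbar) (hτ : ∀ j, τ j ∈ A0) (hτ0 : ∀ j, constantCoeff (τ j) = 0) (i : J)
    (hsl : ∀ N : Fin 2 → Fin 2 → Kbar, N 0 0 + N 1 1 = 0 → SP c τ (Pi.single i N))
    (Q : MvPolynomial (J × Ff) A0) (hQ : GloballyBounded (evP c τ Q)) :
    ∃ Q' : MvPolynomial ({k : J // k ≠ i} × Ff) A0,
      evP (fun k : {k : J // k ≠ i} => c k.1) (fun k => τ k.1) Q' = evP c τ Q := by
  obtain ⟨r, hr⟩ := casR (R := MvPolynomial ({k : J // k ≠ i} × Ff) A0)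
    ((MvPolynomial.C).comp cst)
    (evP (fun k : {k : J // k ≠ i} => c k.1) (fun k => τ k.1))
    (fun x => (dg (c i) x).subst (τ i))
    (MvPolynomial.C ⟨_, pspl_det_mem (c i) (hc0 i) (hc1 i) (τ i) (hτ i) (hτ0 i)⟩)
    (by rw [pspl_evP_C]) GloballyBounded gb_zero
    (by
      intro P hP N hN
      have h1 := hsl N hN (pspl_back i P) (by rw [pspl_ev_back]; exact hP)
      rw [pspl_D_back, pspl_ev_back] at h1
      exact h1)
    (pspl_split i Q) (by rw [pspl_ev_split]; exact hQ)
  exact ⟨r, by rw [← hr, pspl_ev_split]⟩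

end Pool.Agent.H64.PV
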