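import Pool.Agent.H64.PV.Dic
import Pool.Agent.H64.PV.Mat
import Pool.Agent.H64.PV.Elm
import Pool.Agent.H64.PV.PPr
import Pool.Agent.H64.PV.PIde
import Pool.Agent.H64.PV.PSpl
import Pool.Agent.H64.LG.Cor

/-!
# PV.PFin : globally bounded elements of the Picard-Vessiot ring are algebraic

PROOF. Induction on the number of elements `k` of `J`. `k = 0`: `Q = C a` (no variables, `MvPolynomial.isEmpty..`), value in `A0`. `k ≥ 1`: let `e ≥ 1` be the least order of the `τ j` and `i` with `coeff e (τ i) ≠ 0` (see `sfin` in `LG/SFin.lean`). CASE 1: there is `j ≠ i` with `coeff e (τ j) ≠ 0` and `SnD (C (c i) + τ i) (C (c j) + τ j) = 0`. `gmat` and `elm`: `dd (τ i)^d * evP c τ Q = evP' Q'` with one family less. `dd (τ i) ∈ A0` (`A0_dd`) is globally bounded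
(`gb_of_mem`, `gb_mul`), so `evP' Q'` is globally bounded and algebraic by induction; `dd (τ i) ≠ 0`, so `evP c τ Q ∈ A0` (`alg_of_mul`). CASE 2: otherwise, by `dic`, for all `j ≠ i` with `coeff e (τ j) ≠ 0` there is `N` as in `hsep` of `pide`; `hpr` is `ppr` with `lin` (`LG/Cor.lean`). So `pide` and `pspl` give `Q'` with one family less and the same value; induction.
-/

set_option autoImplicit false

namespace Pool.Agent.H64.PV

open Pool.H61.QF Pool.Agent.H64.LG PowerSeries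

private theorem pfin_dd (τ : PowerSeries Kbar) (e : ℕ) (he : 1 ≤ e) (h : coeff e τ ≠ 0) :
    dd τ ≠ 0 := by
  intro h0
  have h1 : coeff (e - 1) (dd τ) = coeff (e - 1 + 1) τ * (((e - 1 : ℕ) : Kbar) + 1) :=
    coeff_derivative τ (e - 1)
  have h5 : e - 1 + 1 = e := by omega
  rw [h0, map_zero, h5] at h1
  have h6 : ((e - 1 : ℕ) : Kbar) + 1 = (e : Kbar) := by
    have h7 : ((e - 1 + 1 : ℕ) : Kbar) = (e : Kbar) := by rw [h5]
    push_cast at h7
    exact h7
  rw [h6] at h1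
  refine mul_ne_zero h ?_ h1.symm
  exact_mod_cast (by omega : e ≠ 0)

theorem pfin (k : ℕ) : ∀ (J : Type) [Fintype J] [DecidableEq J], Fintype.card J = k →
    ∀ (c : J → Kbar), (∀ j, c j ≠ 0) → (∀ j, c j ≠ 1) → ∀ (τ : J → PowerSeries Kbar),
    (∀ j, τ j ∈ A0) → (∀ j, constantCoeff (τ j) = 0) → (∀ j, τ j ≠ 0) →
    ∀ (Q : MvPolynomial (J × Ff) A0), GloballyBounded (evP c τ Q) → evP c τ Q ∈ A0 := by
  induction k using Nat.strong_induction_on with
  | _ k IH =>
  intro J _ _ hk c hc0 hc1 τ hτ hτ0 hτn Q hQ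
  rcases isEmpty_or_nonempty J with hE | hNE
  · obtain ⟨a, rfl⟩ : ∃ a, Q = MvPolynomial.C a := ⟨_, MvPolynomial.eq_C_of_isEmpty Q⟩
    rw [evP_C]
    exact a.2
  · obtain ⟨e, i, hi, hmin⟩ : ∃ e, ∃ i, coeff e (τ i) ≠ 0 ∧ ∀ j n, n < e → coeff n (τ j) = 0 := by
      classical
      have hex : ∃ e, ∃ j, coeff e (τ j) ≠ 0 := by
        obtain ⟨j⟩ := hNE
        by_contra hcon
        push Not at hcon
        exact hτn j (PowerSeries.ext fun n => by rw [hcon n j, map_zero])
      obtain ⟨i, hi⟩ : ∃ j, coeff (Nat.find hex) (τ j) ≠ 0 := Nat.find_spec hex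
      refine ⟨Nat.find hex, i, hi, ?_⟩
      intro j n hn
      by_contra hne
      exact Nat.find_min hex hn ⟨j, hne⟩
    have he : 1 ≤ e := by
      rcases Nat.eq_zero_or_pos e with h | h
      · rw [h, coeff_zero_eq_constantCoeff_apply] at hi
        exact absurd (hτ0 i) hi
      · exact h
    have hcard : Fintype.card {k : J // k ≠ i} < k := by
      rw [← hk]
      exact Fintype.card_subtype_lt (x := i) (by simp)
    have ih : ∀ Q' : MvPolynomial ({k : J // k ≠ i} × Ff) A0,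
        GloballyBounded (evP (fun k : {k : J // k ≠ i} => c k.1) (fun k => τ k.1) Q') →
        evP (fun k : {k : J // k ≠ i} => c k.1) (fun k => τ k.1) Q' ∈ A0 := fun Q' hQ' =>
      IH _ hcard {k : J // k ≠ i} rfl (fun k => c k.1) (fun j => hc0 j.1) (fun j => hc1 j.1)
        (fun k => τ k.1) (fun j => hτ j.1) (fun j => hτ0 j.1) (fun j => hτn j.1) Q' hQ'
    by_cases hcase : ∃ j, j ≠ i ∧ coeff e (τ j) ≠ 0 ∧ SnD (C (c i) + τ i) (C (c j) + τ j) = 0
    · obtain ⟨j, hji, hj, hS⟩ := hcase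
      obtain ⟨ϑ, hϑ, m, hm⟩ := gmat (c i) (c j) (hc0 i) (hc1 i) (hc0 j) (hc1 j) (τ i) (τ j) (hτ i)
        (hτ j) e he (hmin i) hi (hmin j) hj hS
      obtain ⟨d, Q', hQ'⟩ := elm c τ hτ hτ0 i j hji ϑ hϑ m hm Q
      have hd : dd (τ i) ^ d ∈ A0 := A0.pow_mem (A0_dd (hτ i)) d
      refine alg_of_mul hd (pow_ne_zero d (pfin_dd (τ i) e he hi)) ?_
      rw [hQ']
      apply ih
      rw [← hQ']
      exact gb_mul (gb_of_mem hd) hQ
    · push Not at hcase
      have hsl := pide c τ e i hi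
        (fun N hN => ppr c hc0 hc1 τ hτ e he hmin i hi
          (fun u w h => lin (c i) (hc0 i) (hc1 i) u w h) N hN)
        (fun j hji hj => (dic c hc0 hc1 τ hτ hτ0 hτn i j (Ne.symm hji)).resolve_right
          (hcase j hji hj))
      obtain ⟨Q', hQ'⟩ := pspl c hc0 hc1 τ hτ hτ0 i hsl Q hQ
      rw [← hQ']
      apply ih
      rw [hQ']
      exact hQ

end Pool.Agent.H64.PV
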