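import Pool.Agent.H64.PV.PTay
import Pool.Agent.H64.PV.PDk
import Pool.Agent.H64.LG.LocA
import Pool.Agent.H64.LG.Pls

/-!
# PV.PLoc : the p-curvatures kill the elements which are integral at p

PROOF. As `sloc` in `LG/SLoc.lean` (copy the private lemmas there). For each `j` take `a_j` from `locA` (`v.p`, `c j`, `τ j`); its second claim for `Q = X (i, l)`: `(dg (c j) (i, l)).subst (τ j) = a_j (i, l) + C (p⁻¹) τ_j^p ∑_k C (Np (c j) p i k) a_j (k, l) + τ_j^(2p-1) z`. `ptay` with `ι = A0.subtype`, `N j i k = cst (Np (c j) p i k)`, `ε_j = C (p⁻¹) τ_j^p`, `I = (X^(e (2p-1)))` (`ε_j ε_j'` is divisible by `X^(2 e p)`), gives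
`evP c τ Q = eval₂ a Q + ∑_j C (p⁻¹) τ_j^p h_j + X^(e (2p-1)) z`, `h_j = eval₂ a (DP (Pi.single j (N j)) Q)`. The coefficients of `eval₂ a Q` and `h_j` are in `LocInt p` (as `evG_int`, `DK_int`, `np_mem`). For `n' = e p + n < e (2 p - 1)`: `p⁻¹ coeff n' (∑_j τ_j^p h_j) ∈ LocInt p`, so `red (coeff n' (∑ τ_j^p h_j)) = 0`, and as in `sloc` this is
`∑_j red (coeff e τ_j)^p red (coeff n h_j)`. Finally `coeff n h_j = coeff n (evP c τ (DP (Pi.single j (N j)) Q))` for `n < p` (the third claim of `locA` for the variables: `dg .. = a_j + τ_j^p z`, so `evP Q' = eval₂ a Q' mod X^(e p)`), `= ∑_{i,l} Np (c j) p i l * flP c τ Q n j i l` (`evP_DPK` for `Pi.single j (Np (c j) p)`, as `cst` of it is `Pi.single j (N j)`); reduce.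
-/

set_option autoImplicit false

namespace Pool.Agent.H64.PV

open Pool.H61.QF Pool.Agent.H64.LG PowerSeries

private theorem pl_redS_mul {p : ℕ} [Fact p.Prime] {k : Type} [Field k] (φ : LocInt p →+* k)
    {F F' : PowerSeries Kbar} (h : ∀ n, coeff n F ∈ LocInt p) (h' : ∀ n, coeff n F' ∈ LocInt p) :
    redS φ (F * F') = redS φ F * redS φ F' := by
  ext n
  rw [coeff_redS]
  exact redS_mul φ (L := n + 1) (fun m _ => h m) (fun m _ => h' m) n (Nat.lt_succ_self n)

private theorem pl_mul_int {p : ℕ} [Fact p.Prime] {F F' : PowerSeries Kbar}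
    (h : ∀ n, coeff n F ∈ LocInt p) (h' : ∀ n, coeff n F' ∈ LocInt p) (n : ℕ) :
    coeff n (F * F') ∈ LocInt p :=
  coeff_mul_mem (L := n + 1) (fun m _ => h m) (fun m _ => h' m) n (Nat.lt_succ_self n)

private theorem pl_pow_int {p : ℕ} [Fact p.Prime] {F : PowerSeries Kbar}
    (h : ∀ n, coeff n F ∈ LocInt p) (m : ℕ) : ∀ n, coeff n (F ^ m) ∈ LocInt p := by
  induction m with
  | zero =>
    intro n
    rw [pow_zero, coeff_one]
    split_ifs
    · exact (LocInt p).one_mem
    · exact (LocInt p).zero_mem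
  | succ m ih =>
    rw [pow_succ]
    exact pl_mul_int ih h

private theorem pl_redS_one {p : ℕ} [Fact p.Prime] {k : Type} [Field k] (φ : LocInt p →+* k) :
    redS φ (1 : PowerSeries Kbar) = 1 := by
  ext n
  rw [coeff_redS, coeff_one, coeff_one]
  split_ifs
  · exact rho_one φ
  · exact rho_zero φ

private theorem pl_redS_pow {p : ℕ} [Fact p.Prime] {k : Type} [Field k] (φ : LocInt p →+* k)
    {F : PowerSeries Kbar} (h : ∀ n, coeff n F ∈ LocInt p) (m : ℕ) :
    redS φ (F ^ m) = redS φ F ^ m := by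
  induction m with
  | zero => rw [pow_zero, pow_zero, pl_redS_one]
  | succ m ih => rw [pow_succ, pow_succ, pl_redS_mul φ (pl_pow_int h m) h, ih]

private theorem pl_coeff_pow {k : Type} [Field k] {p : ℕ} [hp : Fact p.Prime] [CharP k p]
    (w : PowerSeries k) (n : ℕ) :
    coeff n (w ^ p) = if p ∣ n then (coeff (n / p) w) ^ p else 0 := by
  have hp0 : p ≠ 0 := hp.out.ne_zero
  have hE : ExpChar k p := ExpChar.prime hp.out
  have h : w ^ p = PowerSeries.map (frobenius k p) (PowerSeries.expand p hp0 w) :=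
    (MvPowerSeries.map_frobenius_expand p hp0).symm
  rw [h, PowerSeries.coeff_map, PowerSeries.coeff_expand]
  split_ifs with hd
  · rfl
  · exact map_zero _

/-- the coefficient of `X ^ (e p + n)`, `n < p`, in `g ^ p * h`, `g = X ^ e * U` -/
private theorem pl_coeff {k : Type} [Field k] {p : ℕ} [hp : Fact p.Prime] [CharP k p]
    (g h : PowerSeries k) (e n : ℕ) (hn : n < p) (hg : ∀ m, m < e → coeff m g = 0) :
    coeff (e * p + n) (g ^ p * h) = (coeff e g) ^ p * coeff n h := by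
  obtain ⟨U, hU⟩ := X_pow_dvd_iff.2 hg
  have h1 : coeff e g = coeff 0 U := by
    rw [hU]
    have h8 := coeff_X_pow_mul U e 0
    rwa [zero_add] at h8
  have h2 : g ^ p * h = X ^ (e * p) * (U ^ p * h) := by
    rw [hU, mul_pow, ← pow_mul, mul_assoc]
  rw [h2, add_comm, coeff_X_pow_mul, h1, coeff_mul, Finset.sum_eq_single (0, n)]
  · simp only
    rw [pl_coeff_pow, if_pos (dvd_zero p), Nat.zero_div]
  · rintro ⟨i, j⟩ hij hne
    rw [Finset.HasAntidiagonal.mem_antidiagonal] at hij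
    simp only at hij ⊢
    rw [pl_coeff_pow, if_neg, zero_mul]
    intro hd
    have hi : i = 0 := Nat.eq_zero_of_dvd_of_lt hd (by omega)
    apply hne
    rw [hi] at hij ⊢
    rw [zero_add] at hij
    rw [hij]
  · intro h3
    exact absurd (Finset.HasAntidiagonal.mem_antidiagonal.2 (zero_add n)) h3


/-- the power series with coefficients in `LocInt p` -/
private noncomputable def plSI (p : ℕ) [Fact p.Prime] : Subring (PowerSeries Kbar) where
  carrier := {f | ∀ n, coeff n f ∈ LocInt p}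
  mul_mem' := by
    intro f g hf hg n
    rw [PowerSeries.coeff_mul]
    exact (LocInt p).sum_mem fun x _ => (LocInt p).mul_mem (hf _) (hg _)
  one_mem' := by
    intro n
    rw [PowerSeries.coeff_one]
    split_ifs
    · exact (LocInt p).one_mem
    · exact (LocInt p).zero_mem
  add_mem' := by
    intro f g hf hg n
    rw [map_add]
    exact (LocInt p).add_mem (hf n) (hg n)
  zero_mem' := by
    intro n
    rw [map_zero]
    exact (LocInt p).zero_mem
  neg_mem' := by
    intro f hf n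
    rw [map_neg]
    exact (LocInt p).neg_mem (hf n)

private theorem plC_mem_SI (p : ℕ) [Fact p.Prime] (x : Kbar) (hx : x ∈ LocInt p) :
    (C x : PowerSeries Kbar) ∈ plSI p := by
  intro n
  rw [PowerSeries.coeff_C]
  split_ifs
  · exact hx
  · exact (LocInt p).zero_mem

/-- polynomials with all coefficients in a subring -/
private noncomputable def plTC {σ R : Type} [CommRing R] (S : Subring R) : Subring (MvPolynomial σ R) where
  carrier := {Q | ∀ m, MvPolynomial.coeff m Q ∈ S}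
  mul_mem' := by
    classical
    intro f g hf hg n
    rw [MvPolynomial.coeff_mul]
    exact S.sum_mem fun x _ => S.mul_mem (hf _) (hg _)
  one_mem' := by
    classical
    intro n
    rw [MvPolynomial.coeff_one]
    split_ifs
    · exact S.one_mem
    · exact S.zero_mem
  add_mem' := by
    intro f g hf hg n
    rw [MvPolynomial.coeff_add]
    exact S.add_mem (hf n) (hg n)
  zero_mem' := by
    intro n
    rw [MvPolynomial.coeff_zero]
    exact S.zero_mem
  neg_mem' := by
    intro f hf n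
    rw [MvPolynomial.coeff_neg]
    exact S.neg_mem (hf n)

private theorem plC_mem_TC {σ R : Type} [CommRing R] (S : Subring R) (x : R) (hx : x ∈ S) :
    (MvPolynomial.C x : MvPolynomial σ R) ∈ plTC S := by
  classical
  intro m
  rw [MvPolynomial.coeff_C]
  split_ifs
  · exact hx
  · exact S.zero_mem

private theorem plX_mem_TC {σ R : Type} [CommRing R] (S : Subring R) (i : σ) :
    (MvPolynomial.X i : MvPolynomial σ R) ∈ plTC S := by
  classical
  intro m
  rw [MvPolynomial.coeff_X]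
  split_ifs
  · exact S.one_mem
  · exact S.zero_mem

private theorem plmon_mem_TC {σ R : Type} [CommRing R] (S : Subring R) (m : σ →₀ ℕ) (x : R) (hx : x ∈ S) :
    (MvPolynomial.monomial m x : MvPolynomial σ R) ∈ plTC S := by
  classical
  intro m'
  rw [MvPolynomial.coeff_monomial]
  split_ifs
  · exact hx
  · exact S.zero_mem

private theorem plder_mem_TC {σ R : Type} [CommRing R] (S : Subring R)
    (f : σ → MvPolynomial σ R) (hf : ∀ i, f i ∈ plTC S)
    (Q : MvPolynomial σ R) (hQ : Q ∈ plTC S) : MvPolynomial.mkDerivation R f Q ∈ plTC S := by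
  classical
  have h1 : MvPolynomial.mkDerivation R f Q =
      ∑ m ∈ Q.support, MvPolynomial.mkDerivation R f (MvPolynomial.monomial m (MvPolynomial.coeff m Q)) := by
    rw [← map_sum, MvPolynomial.support_sum_monomial_coeff]
  rw [h1]
  refine (plTC S).sum_mem fun m _ => ?_
  rw [MvPolynomial.mkDerivation_monomial, MvPolynomial.smul_eq_C_mul]
  refine (plTC S).mul_mem (plC_mem_TC S _ (hQ m)) ?_
  rw [Finsupp.sum]
  refine (plTC S).sum_mem fun i _ => ?_
  rw [smul_eq_mul]
  refine (plTC S).mul_mem (plmon_mem_TC S _ _ ?_) (hf i)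
  exact natCast_mem S _

private theorem pl_eval_int {σ : Type} (p : ℕ) [Fact p.Prime] (a : σ → PowerSeries Kbar)
    (ha : ∀ x, a x ∈ plSI p) (Q : MvPolynomial σ A0)
    (hQ : Q ∈ plTC (σ := σ) ((plSI p).comap A0.subtype)) :
    MvPolynomial.eval₂ A0.subtype a Q ∈ plSI p := by
  rw [MvPolynomial.eval₂_eq]
  refine (plSI p).sum_mem fun d _ => (plSI p).mul_mem (hQ d) ?_
  exact (plSI p).prod_mem fun i _ => (plSI p).pow_mem (ha i) _

private theorem pl_DP_mem {J : Type} (p : ℕ) [Fact p.Prime] (N : J → Fin 2 → Fin 2 → A0)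
    (hN : ∀ j i k, N j i k ∈ (plSI p).comap A0.subtype) (Q : MvPolynomial (J × Ff) A0)
    (hQ : Q ∈ plTC (σ := J × Ff) ((plSI p).comap A0.subtype)) :
    DP N Q ∈ plTC (σ := J × Ff) ((plSI p).comap A0.subtype) := by
  unfold DP
  refine plder_mem_TC _ _ (fun x => ?_) Q hQ
  refine Subring.sum_mem _ fun l _ => ?_
  exact Subring.mul_mem _ (plC_mem_TC _ _ (hN _ _ _)) (plX_mem_TC _ _)

/-- congruences pass through polynomials -/
private theorem pl_congr {σ R0 R : Type} [CommRing R0] [CommRing R] (ι : R0 →+* R) (f g : σ → R)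
    (I : Ideal R) (h : ∀ x, f x - g x ∈ I) (Q : MvPolynomial σ R0) :
    MvPolynomial.eval₂ ι f Q - MvPolynomial.eval₂ ι g Q ∈ I := by
  rw [← Ideal.Quotient.eq, MvPolynomial.eval₂_comp_left, MvPolynomial.eval₂_comp_left]
  congr 1
  funext x
  exact Ideal.Quotient.eq.2 (h x)

theorem ploc {J : Type} [Fintype J] [DecidableEq J] (v : Place) (c : J → Kbar)
    (hc : ∀ j, c j ∈ LocInt v.p) (hci : ∀ j, (c j * (1 - c j))⁻¹ ∈ LocInt v.p)
    (hc0 : ∀ j, c j ≠ 0) (hc1 : ∀ j, c j ≠ 1) (h5 : 5 ≤ v.p)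
    (τ : J → PowerSeries Kbar) (hτ : ∀ j n, coeff n (τ j) ∈ LocInt v.p)
    (e : ℕ) (he : 1 ≤ e) (hτe : ∀ j n, n < e → coeff n (τ j) = 0)
    (Q : MvPolynomial (J × Ff) A0)
    (hQ : ∀ m n, coeff n ((Q.coeff m : A0) : PowerSeries Kbar) ∈ LocInt v.p)
    (hf : ∀ n, coeff n (evP c τ Q) ∈ LocInt v.p) (n : ℕ) (hn : n < v.p - 1)
    (hfl : ∀ j i l, flP c τ Q n j i l ∈ LocInt v.p) :
    ∑ j, v.red (coeff e (τ j)) ^ v.p *
      ∑ i : Fin 2, ∑ l : Fin 2, v.red (Np (c j) v.p i l) * v.red (flP c τ Q n j i l) = 0 := by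
  classical
  have hp0 : (v.p : Kbar) ≠ 0 := by
    have := v.hp.out.pos
    exact_mod_cast this.ne'
  have hpp : 1 ≤ v.p := v.hp.out.one_lt.le
  have hlocA := fun j => locA v.p (c j) (hc j) (hci j) (hc0 j) (hc1 j) h5 (τ j) (hτ j)
    (hτe j 0 (by omega))
  choose a ha h1 h2 using hlocA
  have hN : ∀ j i l, Np (c j) v.p i l ∈ LocInt v.p := fun j =>
    np_mem v.p (c j) (hc j) (hci j) (hc0 j) (hc1 j) h5
  have hτp : ∀ j n, coeff n (τ j ^ v.p) ∈ LocInt v.p := fun j => pl_pow_int (hτ j) v.p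
  have hXm : ∀ j m, (X : PowerSeries Kbar) ^ (e * m) ∣ τ j ^ m := by
    intro j m
    rw [pow_mul]
    exact pow_dvd_pow_of_dvd (X_pow_dvd_iff.2 (hτe j)) m
  have hexp : e * (2 * v.p - 1) = e * v.p + e * (v.p - 1) := by
    rw [← mul_add]
    congr 1
    omega
  have hnn : n < e * (v.p - 1) := lt_of_lt_of_le hn (Nat.le_mul_of_pos_left _ (by omega))
  -- the variables
  have hevX : ∀ (j : J) (x : Ff), ev (c j) (τ j) (MvPolynomial.X x) = (dg (c j) x).subst (τ j) := by
    intro j x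
    unfold ev evG
    rw [MvPolynomial.coe_eval₂Hom, MvPolynomial.eval₂_X]
  have hGX : ∀ (j : J) (x : Ff), evG (a j) (MvPolynomial.X x) = a j x := by
    intro j x
    unfold evG
    rw [MvPolynomial.coe_eval₂Hom, MvPolynomial.eval₂_X]
  have hGD : ∀ (j : J) (x : Ff), evG (a j) (DK (Np (c j) v.p) (MvPolynomial.X x)) =
      ∑ l : Fin 2, A0.subtype (cst (Np (c j) v.p x.1 l)) * a j (l, x.2) := by
    intro j x
    unfold DK DN
    rw [MvPolynomial.mkDerivation_X, map_sum]
    refine Finset.sum_congr rfl fun l _ => ?_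
    rw [map_mul, hGX]
    congr 1
    unfold evG
    rw [MvPolynomial.coe_eval₂Hom, MvPolynomial.eval₂_C]
  have hz : ∀ (j : J) (x : Ff), ∃ z : PowerSeries Kbar, (dg (c j) x).subst (τ j) =
      a j x + C ((v.p : Kbar)⁻¹) * τ j ^ v.p *
        ∑ l : Fin 2, A0.subtype (cst (Np (c j) v.p x.1 l)) * a j (l, x.2) +
        τ j ^ (2 * v.p - 1) * z := by
    intro j x
    obtain ⟨z, hz⟩ := h1 j (MvPolynomial.X x)
    rw [hevX, hGX, hGD] at hz
    exact ⟨z, hz⟩
  choose z hz using hz
  -- the point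
  let A : J × Ff → PowerSeries Kbar := fun x => a x.1 x.2
  let N : J → Fin 2 → Fin 2 → A0 := fun j i k => cst (Np (c j) v.p i k)
  let h : J → PowerSeries Kbar := fun j => MvPolynomial.eval₂ A0.subtype A (DP (Pi.single j (N j)) Q)
  have hA : ∀ x, A x ∈ plSI v.p := fun x => ha x.1 x.2
  have hQ' : Q ∈ plTC (σ := J × Ff) ((plSI v.p).comap A0.subtype) := fun m => hQ m
  have hNs : ∀ j j' i k, (Pi.single j (N j) : J → Fin 2 → Fin 2 → A0) j' i k ∈
      (plSI v.p).comap A0.subtype := by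
    intro j j' i k
    rcases eq_or_ne j' j with rfl | hne
    · rw [Pi.single_eq_same]
      exact plC_mem_SI v.p _ (hN j' i k)
    · rw [Pi.single_eq_of_ne hne]
      exact Subring.zero_mem _
  have hg : ∀ n, coeff n (MvPolynomial.eval₂ A0.subtype A Q) ∈ LocInt v.p :=
    pl_eval_int v.p A hA Q hQ'
  have hh : ∀ j n, coeff n (h j) ∈ LocInt v.p := fun j =>
    pl_eval_int v.p A hA _ (pl_DP_mem v.p _ (hNs j) Q hQ')
  -- Taylor
  have hT := ptay A0.subtype N A (fun x => τ x.1 ^ (2 * v.p - 1) * z x.1 x.2)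
    (fun j => C ((v.p : Kbar)⁻¹) * τ j ^ v.p) (Ideal.span {(X : PowerSeries Kbar) ^ (e * (2 * v.p - 1))})
    (fun j j' => by
      rw [Ideal.mem_span_singleton]
      have h3 : (X : PowerSeries Kbar) ^ (e * (2 * v.p - 1)) ∣ X ^ (e * v.p) * X ^ (e * v.p) := by
        rw [← pow_add]
        refine pow_dvd_pow _ ?_
        rw [← mul_add]
        exact Nat.mul_le_mul_left e (by omega)
      have h4 : (X : PowerSeries Kbar) ^ (e * v.p) * X ^ (e * v.p) ∣ τ j ^ v.p * τ j' ^ v.p :=
        mul_dvd_mul (hXm j v.p) (hXm j' v.p)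
      have h5 : C ((v.p : Kbar)⁻¹) * τ j ^ v.p * (C ((v.p : Kbar)⁻¹) * τ j' ^ v.p) =
          C ((v.p : Kbar)⁻¹) * C ((v.p : Kbar)⁻¹) * (τ j ^ v.p * τ j' ^ v.p) := by ring
      show (X : PowerSeries Kbar) ^ (e * (2 * v.p - 1)) ∣
        C ((v.p : Kbar)⁻¹) * τ j ^ v.p * (C ((v.p : Kbar)⁻¹) * τ j' ^ v.p)
      rw [h5]
      exact Dvd.dvd.mul_left (h3.trans h4) _)
    (fun x => by
      rw [Ideal.mem_span_singleton]
      exact Dvd.dvd.mul_right (hXm x.1 (2 * v.p - 1)) _) Q
  have hpt : (fun x : J × Ff => A x + C ((v.p : Kbar)⁻¹) * τ x.1 ^ v.p *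
      ∑ l : Fin 2, A0.subtype (N x.1 x.2.1 l) * A (x.1, (l, x.2.2)) +
      τ x.1 ^ (2 * v.p - 1) * z x.1 x.2) = fun x : J × Ff => (dg (c x.1) x.2).subst (τ x.1) := by
    funext x
    exact (hz x.1 x.2).symm
  have hT2 : evP c τ Q - (MvPolynomial.eval₂ A0.subtype A Q +
      ∑ j, C ((v.p : Kbar)⁻¹) * τ j ^ v.p * h j) ∈
      Ideal.span {(X : PowerSeries Kbar) ^ (e * (2 * v.p - 1))} := by
    have e1 : evP c τ Q = MvPolynomial.eval₂ A0.subtype
      (fun x : J × Ff => (dg (c x.1) x.2).subst (τ x.1)) Q := rfl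
    rw [e1, ← hpt]
    exact hT
  rw [Ideal.mem_span_singleton] at hT2
  -- the coefficient of the sum of the polar parts vanishes at v
  have hlow : rho v.φ (coeff (e * v.p + n) (∑ j, τ j ^ v.p * h j)) = 0 := by
    have hm : e * v.p + n < e * (2 * v.p - 1) := by omega
    have h3 : (v.p : Kbar)⁻¹ * coeff (e * v.p + n) (∑ j, τ j ^ v.p * h j) =
        coeff (e * v.p + n) (evP c τ Q) - coeff (e * v.p + n) (MvPolynomial.eval₂ A0.subtype A Q) := by
      have h4 := X_pow_dvd_iff.1 hT2 _ hm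
      rw [map_sub, map_add, sub_eq_zero] at h4
      rw [h4, add_sub_cancel_left, map_sum, map_sum, Finset.mul_sum]
      refine Finset.sum_congr rfl fun j _ => ?_
      rw [mul_assoc, coeff_C_mul]
    have h4 : (v.p : Kbar)⁻¹ * coeff (e * v.p + n) (∑ j, τ j ^ v.p * h j) ∈ LocInt v.p := by
      rw [h3]
      exact (LocInt v.p).sub_mem (hf _) (hg _)
    have h5' : coeff (e * v.p + n) (∑ j, τ j ^ v.p * h j) =
        (v.p : Kbar) * ((v.p : Kbar)⁻¹ * coeff (e * v.p + n) (∑ j, τ j ^ v.p * h j)) := by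
      rw [← mul_assoc, mul_inv_cancel₀ hp0, one_mul]
    rw [h5', rho_mul v.φ (natCast_mem _ _) h4]
    have h6 : rho v.φ (v.p : Kbar) = 0 := red_p v
    rw [h6, zero_mul]
  -- the same coefficient, family by family
  have hterm : ∀ j, rho v.φ (coeff (e * v.p + n) (τ j ^ v.p * h j)) =
      v.red (coeff e (τ j)) ^ v.p * rho v.φ (coeff n (h j)) := by
    intro j
    rw [← coeff_redS, pl_redS_mul v.φ (hτp j) (hh j), pl_redS_pow v.φ (hτ j),
      pl_coeff (redS v.φ (τ j)) _ e n (by omega) (fun m hm => by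
        rw [coeff_redS, hτe j m hm, rho_zero]), coeff_redS, coeff_redS]
    rfl
  rw [map_sum, rho_sum _ _ _ (fun j _ => pl_mul_int (hτp j) (hh j) _)] at hlow
  rw [← hlow]
  refine Finset.sum_congr rfl fun j _ => ?_
  rw [hterm j]
  congr 1
  -- the coefficient of evP (D Q)
  have hnp : n < e * v.p := lt_of_lt_of_le hnn (Nat.mul_le_mul_left e (Nat.sub_le _ _))
  have hDP : DPK (Pi.single j (Np (c j) v.p)) = DP (Pi.single j (N j)) := by
    unfold DPK
    congr 1
    funext j' i k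
    rcases eq_or_ne j' j with rfl | hne
    · rw [Pi.single_eq_same, Pi.single_eq_same]
    · rw [Pi.single_eq_of_ne hne, Pi.single_eq_of_ne hne]
      exact map_zero cst
  have hev : coeff n (h j) = coeff n (evP c τ (DPK (Pi.single j (Np (c j) v.p)) Q)) := by
    have h3 : ∀ x : J × Ff, (dg (c x.1) x.2).subst (τ x.1) - A x ∈
        Ideal.span {(X : PowerSeries Kbar) ^ (e * v.p)} := by
      intro x
      rw [Ideal.mem_span_singleton]
      obtain ⟨w, hw⟩ := h2 x.1 (MvPolynomial.X x.2)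
      rw [hevX, hGX] at hw
      rw [hw]
      show (X : PowerSeries Kbar) ^ (e * v.p) ∣ a x.1 x.2 + τ x.1 ^ v.p * w - a x.1 x.2
      rw [add_sub_cancel_left]
      exact Dvd.dvd.mul_right (hXm x.1 v.p) _
    have h4 := pl_congr A0.subtype _ _ _ h3 (DP (Pi.single j (N j)) Q)
    rw [Ideal.mem_span_singleton] at h4
    have h5' := X_pow_dvd_iff.1 h4 n hnp
    rw [map_sub, sub_eq_zero] at h5'
    rw [hDP]
    exact h5'.symm
  rw [hev, evP_DPK, Finset.sum_eq_single j]
  · rw [rho_sum]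
    · refine Finset.sum_congr rfl fun i _ => ?_
      rw [rho_sum]
      · refine Finset.sum_congr rfl fun l _ => ?_
        rw [Pi.single_eq_same, rho_mul v.φ (hN j i l) (hfl j i l)]
        rfl
      · intro l _
        rw [Pi.single_eq_same]
        exact (LocInt v.p).mul_mem (hN j i l) (hfl j i l)
    · intro i _
      refine (LocInt v.p).sum_mem fun l _ => ?_
      rw [Pi.single_eq_same]
      exact (LocInt v.p).mul_mem (hN j i l) (hfl j i l)
  · intro j' _ hne
    refine Finset.sum_eq_zero fun i _ => Finset.sum_eq_zero fun l _ => ?_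
    rw [Pi.single_eq_of_ne hne]
    exact zero_mul _
  · intro hj
    exact absurd (Finset.mem_univ j) hj

end Pool.Agent.H64.PV
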