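import Pool.Agent.H64.PV.PFin

/-!
# PV.PPul : the final theorem

PROOF. As `LG/SPul.lean`. `c j = coeff 0 (κ j)`, `τ j = κ j - C (c j)`, `J = {j : Fin m // τ j ≠ 0}`. By `leg_basis` (`LG/Rec.lean`) `y₁ j = C a * gs (c j) 0 + C b * gs (c j) 1` and the same for `y₂ j` and the derivatives, so for `j ∈ J` each of the four series is `evP` of a linear polynomial in the `X (j, ..)` with constant coefficients; if `τ j = 0` it is a constant (`y.subst 0 = C (coeff 0 y)`). So the value of `P` is `evP c τ Q` for the polynomial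
`Q = ∑_{m ∈ support P} C ⟨P.coeff m, _⟩ * ∏ x, (L x)^(m x)` over `A0` (`mem_of_algSeries`). `q ∈ A0` and `f` are globally bounded (`gb_of_mem`), so is `q f` (`gb_mul`); `pfin`: `q f ∈ A0`, `alg_of_mul`: `f ∈ A0`, `algSeries_of_mem`.
-/

set_option autoImplicit false

namespace Pool.Agent.H64.PV

open Pool.H61.QF Pool.Agent.H64.LG PowerSeries

private theorem ppul_hs (κ : PowerSeries Kbar) : HasSubst (κ - C (coeff 0 κ)) := by
  apply HasSubst.of_constantCoeff_zero'
  simp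

private theorem ppul_lin {τ : PowerSeries Kbar} (hτ : HasSubst τ) (a b : Kbar)
    (f g : PowerSeries Kbar) :
    (C a * f + C b * g).subst τ = C a * f.subst τ + C b * g.subst τ := by
  have hC : ∀ x : Kbar, (C x : PowerSeries Kbar).subst τ = C x := fun x => subst_C (a := τ) x
  rw [subst_add hτ, subst_mul hτ, subst_mul hτ, hC, hC]

private theorem ppul_der (a b : Kbar) (f g : PowerSeries Kbar) :
    derivative Kbar (C a * f + C b * g) = C a * derivative Kbar f + C b * derivative Kbar g := by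
  have h : ∀ (x : Kbar) (u : PowerSeries Kbar), derivative Kbar (C x * u) = C x * derivative Kbar u := by
    intro x u
    rw [← smul_eq_C_mul, ← smul_eq_C_mul, Derivation.map_smul]
  rw [map_add, h, h]

private theorem ppul_evC {J : Type} (c : J → Kbar) (τ : J → PowerSeries Kbar) (a : A0) :
    evP c τ (MvPolynomial.C a) = (a : PowerSeries Kbar) := by
  unfold evP
  rw [MvPolynomial.coe_eval₂Hom, MvPolynomial.eval₂_C]
  rfl

private theorem ppul_evX {J : Type} (c : J → Kbar) (τ : J → PowerSeries Kbar) (x : J × Ff) :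
    evP c τ (MvPolynomial.X x) = (dg (c x.1) x.2).subst (τ x.1) := by
  unfold evP
  rw [MvPolynomial.coe_eval₂Hom, MvPolynomial.eval₂_X]

/-- the linear form -/
private noncomputable def ppulL {J : Type} (j : J) (a b : Kbar) (l : Fin 2) :
    MvPolynomial (J × Ff) A0 :=
  MvPolynomial.C (cst a) * MvPolynomial.X (j, ((0 : Fin 2), l)) +
    MvPolynomial.C (cst b) * MvPolynomial.X (j, ((1 : Fin 2), l))

private theorem ppul_evL {J : Type} (c : J → Kbar) (τ : J → PowerSeries Kbar) (j : J)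
    (hτ : HasSubst (τ j)) (a b : Kbar) (l : Fin 2) :
    evP c τ (ppulL j a b l) = (C a * dg (c j) (0, l) + C b * dg (c j) (1, l)).subst (τ j) := by
  unfold ppulL
  rw [map_add, map_mul, map_mul, ppul_evC, ppul_evC, ppul_evX, ppul_evX, ppul_lin hτ]
  rfl

private theorem ppul_zero (y : PowerSeries Kbar) : y.subst (0 : PowerSeries Kbar) = C (coeff 0 y) := by
  have h0 : HasSubst (0 : PowerSeries Kbar) := HasSubst.zero'
  have e : y = C (coeff 0 y) + (y - C (coeff 0 y)) := by ring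
  have h1 : (y - C (coeff 0 y)).subst (0 : PowerSeries Kbar) = 0 :=
    subst_zero_of_constantCoeff_zero (by simp)
  have hC : (C (coeff 0 y) : PowerSeries Kbar).subst (0 : PowerSeries Kbar) = C (coeff 0 y) :=
    subst_C (a := (0 : PowerSeries Kbar)) _
  have h2 : y.subst (0 : PowerSeries Kbar) =
      (C (coeff 0 y) + (y - C (coeff 0 y))).subst (0 : PowerSeries Kbar) :=
    congrArg (fun z : PowerSeries Kbar => z.subst (0 : PowerSeries Kbar)) e
  rw [subst_add h0, h1, hC, add_zero] at h2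
  exact h2

/-- one solution or its derivative -/
private theorem ppul_one {m : ℕ} (κ : Fin m → PowerSeries Kbar)
    (h0 : ∀ j, coeff 0 (κ j) ≠ 0) (h1 : ∀ j, coeff 0 (κ j) ≠ 1) (j : Fin m)
    (y : PowerSeries Kbar) (hy : Leg (coeff 0 (κ j)) y) (l : Fin 2) :
    ∃ L : MvPolynomial ({j : Fin m // ¬ (κ j - C (coeff 0 (κ j)) = 0)} × Ff) A0,
      evP (fun j => coeff 0 (κ j.1)) (fun j => κ j.1 - C (coeff 0 (κ j.1))) L =
        (if l = 0 then y else derivative Kbar y).subst (κ j - C (coeff 0 (κ j))) := by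
  have hb : C (coeff 0 y) * dg (coeff 0 (κ j)) (0, l) + C (coeff 1 y) * dg (coeff 0 (κ j)) (1, l) =
      if l = 0 then y else derivative Kbar y := by
    have e0 := leg_basis _ (h0 j) (h1 j) y hy
    fin_cases l
    · exact e0.symm
    · have e := congrArg (derivative Kbar) e0
      rw [ppul_der] at e
      exact e.symm
  by_cases h : κ j - C (coeff 0 (κ j)) = 0
  · refine ⟨MvPolynomial.C (cst (coeff 0 (if l = 0 then y else derivative Kbar y))), ?_⟩
    rw [ppul_evC, h, ppul_zero]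
    rfl
  · refine ⟨ppulL ⟨j, h⟩ (coeff 0 y) (coeff 1 y) l, ?_⟩
    rw [ppul_evL _ _ (⟨j, h⟩ : {j : Fin m // ¬ (κ j - C (coeff 0 (κ j)) = 0)}) (ppul_hs (κ j)), ← hb]

/-- substitution into a polynomial -/
private theorem ppul_Q {J X : Type} [Fintype X] (c : J → Kbar) (τ : J → PowerSeries Kbar)
    (L : X → MvPolynomial (J × Ff) A0) (v : X → PowerSeries Kbar) (hL : ∀ i, evP c τ (L i) = v i)
    (P : MvPolynomial X (PowerSeries Kbar)) (hP : ∀ m, P.coeff m ∈ A0) :
    ∃ Q : MvPolynomial (J × Ff) A0, evP c τ Q = MvPolynomial.eval v P := by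
  refine ⟨∑ m ∈ P.support, MvPolynomial.C (⟨P.coeff m, hP m⟩ : A0) * ∏ i, L i ^ m i, ?_⟩
  rw [MvPolynomial.eval_eq', map_sum]
  refine Finset.sum_congr rfl fun m _ => ?_
  rw [map_mul, ppul_evC, map_prod]
  refine congrArg (fun z => P.coeff m * z) (Finset.prod_congr rfl fun i _ => ?_)
  rw [map_pow, hL]

theorem main4 (m : ℕ) (κ : Fin m → PowerSeries Kbar) (hκ : ∀ j, AlgSeries (κ j))
    (h0 : ∀ j, coeff 0 (κ j) ≠ 0) (h1 : ∀ j, coeff 0 (κ j) ≠ 1)
    (y₁ y₂ : Fin m → PowerSeries Kbar) (hy₁ : ∀ j, Leg (coeff 0 (κ j)) (y₁ j))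
    (hy₂ : ∀ j, Leg (coeff 0 (κ j)) (y₂ j))
    (P : MvPolynomial (Fin m × Fin 4) (PowerSeries Kbar)) (hP : ∀ r, AlgSeries (P.coeff r))
    (q f : PowerSeries Kbar) (hq : AlgSeries q) (hq0 : q ≠ 0)
    (hf : q * f = MvPolynomial.eval (fun x => ![(y₁ x.1).subst (κ x.1 - C (coeff 0 (κ x.1))),
      (y₂ x.1).subst (κ x.1 - C (coeff 0 (κ x.1))),
      (derivative Kbar (y₁ x.1)).subst (κ x.1 - C (coeff 0 (κ x.1))),
      (derivative Kbar (y₂ x.1)).subst (κ x.1 - C (coeff 0 (κ x.1)))] x.2) P)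
    (hb : GloballyBounded f) : AlgSeries f := by
  classical
  have hex : ∀ x : Fin m × Fin 4,
      ∃ L : MvPolynomial ({j : Fin m // ¬ (κ j - C (coeff 0 (κ j)) = 0)} × Ff) A0,
        evP (fun j => coeff 0 (κ j.1)) (fun j => κ j.1 - C (coeff 0 (κ j.1))) L =
          ![(y₁ x.1).subst (κ x.1 - C (coeff 0 (κ x.1))),
            (y₂ x.1).subst (κ x.1 - C (coeff 0 (κ x.1))),
            (derivative Kbar (y₁ x.1)).subst (κ x.1 - C (coeff 0 (κ x.1))),
            (derivative Kbar (y₂ x.1)).subst (κ x.1 - C (coeff 0 (κ x.1)))] x.2 := by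
    rintro ⟨j, i⟩
    fin_cases i
    · exact ppul_one κ h0 h1 j (y₁ j) (hy₁ j) 0
    · exact ppul_one κ h0 h1 j (y₂ j) (hy₂ j) 0
    · exact ppul_one κ h0 h1 j (y₁ j) (hy₁ j) 1
    · exact ppul_one κ h0 h1 j (y₂ j) (hy₂ j) 1
  choose L hL using hex
  obtain ⟨Q, hQ⟩ := ppul_Q _ _ L _ hL P (fun r => mem_of_algSeries (hP r))
  have hqf : q * f = evP (fun j : {j : Fin m // ¬ (κ j - C (coeff 0 (κ j)) = 0)} => coeff 0 (κ j.1))
      (fun j => κ j.1 - C (coeff 0 (κ j.1))) Q := by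
    rw [hf, hQ]
  have hq' : q ∈ A0 := mem_of_algSeries hq
  have hgb : GloballyBounded (evP
      (fun j : {j : Fin m // ¬ (κ j - C (coeff 0 (κ j)) = 0)} => coeff 0 (κ j.1))
      (fun j => κ j.1 - C (coeff 0 (κ j.1))) Q) := by
    rw [← hqf]
    exact gb_mul (gb_of_mem hq') hb
  have hmem := pfin _ {j : Fin m // ¬ (κ j - C (coeff 0 (κ j)) = 0)} rfl
    (fun j => coeff 0 (κ j.1)) (fun j => h0 j.1) (fun j => h1 j.1)
    (fun j => κ j.1 - C (coeff 0 (κ j.1)))
    (fun j => A0.sub_mem (mem_of_algSeries (hκ j.1)) (cst_mem _)) (fun j => by simp)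
    (fun j => j.2) Q hgb
  have hqfm : q * f ∈ A0 := by
    rw [hqf]
    exact hmem
  exact algSeries_of_mem (alg_of_mul hq' hq0 hqfm)

end Pool.Agent.H64.PV
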