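import Pool.Agent.H64.PV.PDef

/-!
# PV.PTay : Taylor formula for several families

PROOF. As `taylor` in `LG/Tay.lean` (induction on `Q`, `MvPolynomial.induction_on`): `E' = ` value of `P` at the perturbed point, `E, F_j` = values of `P`, `DP (Pi.single j (N j)) P` at `a`; for `P * X x`, `x = (j₀, (i, l))`: `DP (Pi.single j (N j)) (X x)` is `∑ C (N j₀ i k) X (j₀, (k, l))` if `j = j₀` and `0` otherwise (with value `S`), so
`E' (a x + ε_(j₀) S + r x) - (E a x + ∑_j ε_j F_j a x + ε_(j₀) E S) = (E' - E - ∑ ε_j F_j) (a x + ε_(j₀) S + r x) + (E + ∑ ε_j F_j) r x + ∑_j ε_j ε_(j₀) F_j S`, all in `I`.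
-/

set_option autoImplicit false

namespace Pool.Agent.H64.PV

open Pool.H61.QF Pool.Agent.H64.LG PowerSeries

theorem ptay {J R0 R : Type} [Fintype J] [DecidableEq J] [CommRing R0] [CommRing R] (ι : R0 →+* R)
    (N : J → Fin 2 → Fin 2 → R0) (a r : J × Ff → R) (ε : J → R) (I : Ideal R)
    (hε : ∀ j j', ε j * ε j' ∈ I) (hr : ∀ x, r x ∈ I) (Q : MvPolynomial (J × Ff) R0) :
    MvPolynomial.eval₂ ι (fun x => a x + ε x.1 * ∑ l : Fin 2, ι (N x.1 x.2.1 l) * a (x.1, (l, x.2.2)) + r x) Q -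
      (MvPolynomial.eval₂ ι a Q +
        ∑ j, ε j * MvPolynomial.eval₂ ι a (DP (Pi.single j (N j)) Q)) ∈ I := by
  induction Q using MvPolynomial.induction_on with
  | C x =>
    have h : ∀ M : J → Fin 2 → Fin 2 → R0, DP M (MvPolynomial.C x) = 0 := by
      intro M
      rw [← MvPolynomial.algebraMap_eq]
      exact Derivation.map_algebraMap _ x
    simp [h]
  | add P Q hP hQ =>
    have hs : (∑ j, ε j * MvPolynomial.eval₂ ι a (DP (Pi.single j (N j)) (P + Q))) =
        (∑ j, ε j * MvPolynomial.eval₂ ι a (DP (Pi.single j (N j)) P)) +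
        ∑ j, ε j * MvPolynomial.eval₂ ι a (DP (Pi.single j (N j)) Q) := by
      rw [← Finset.sum_add_distrib]
      refine Finset.sum_congr rfl fun j _ => ?_
      rw [map_add, MvPolynomial.eval₂_add, mul_add]
    rw [hs, MvPolynomial.eval₂_add, MvPolynomial.eval₂_add]
    have := I.add_mem hP hQ
    refine (congrArg (· ∈ I) ?_).mp this
    ring
  | mul_X P x hP =>
    obtain ⟨S, hS⟩ : ∃ S : R, S = ∑ l : Fin 2, ι (N x.1 x.2.1 l) * a (x.1, (l, x.2.2)) := ⟨_, rfl⟩
    have hD : ∀ j, MvPolynomial.eval₂ ι a (DP (Pi.single j (N j)) (P * MvPolynomial.X x)) =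
        MvPolynomial.eval₂ ι a P * (if j = x.1 then S else 0) +
          a x * MvPolynomial.eval₂ ι a (DP (Pi.single j (N j)) P) := by
      intro j
      rw [Derivation.leibniz, smul_eq_mul, smul_eq_mul, MvPolynomial.eval₂_add, MvPolynomial.eval₂_mul,
        MvPolynomial.eval₂_mul, MvPolynomial.eval₂_X]
      congr 2
      unfold DP
      rw [MvPolynomial.mkDerivation_X, MvPolynomial.eval₂_sum]
      by_cases hj : j = x.1
      · rw [if_pos hj, hS]
        refine Finset.sum_congr rfl fun k _ => ?_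
        rw [MvPolynomial.eval₂_mul, MvPolynomial.eval₂_C, MvPolynomial.eval₂_X, hj, Pi.single_eq_same]
      · rw [if_neg hj]
        refine Finset.sum_eq_zero fun k _ => ?_
        rw [MvPolynomial.eval₂_mul, MvPolynomial.eval₂_C, Pi.single_eq_of_ne (fun h => hj h.symm)]
        simp
    have hs : (∑ j, ε j * MvPolynomial.eval₂ ι a (DP (Pi.single j (N j)) (P * MvPolynomial.X x))) =
        MvPolynomial.eval₂ ι a P * (ε x.1 * S) +
          a x * ∑ j, ε j * MvPolynomial.eval₂ ι a (DP (Pi.single j (N j)) P) := by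
      have h1 : ∀ j, ε j * MvPolynomial.eval₂ ι a (DP (Pi.single j (N j)) (P * MvPolynomial.X x)) =
          (if j = x.1 then MvPolynomial.eval₂ ι a P * (ε x.1 * S) else 0) +
            a x * (ε j * MvPolynomial.eval₂ ι a (DP (Pi.single j (N j)) P)) := by
        intro j
        rw [hD j]
        by_cases hj : j = x.1
        · rw [if_pos hj, if_pos hj, hj]
          ring
        · rw [if_neg hj, if_neg hj]
          ring
      rw [Finset.sum_congr rfl fun j _ => h1 j, Finset.sum_add_distrib, ← Finset.mul_sum,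
        Finset.sum_ite_eq' Finset.univ x.1, if_pos (Finset.mem_univ _)]
    rw [hs, MvPolynomial.eval₂_mul, MvPolynomial.eval₂_mul, MvPolynomial.eval₂_X, MvPolynomial.eval₂_X, ← hS]
    obtain ⟨T, hT⟩ : ∃ T : R, T = ∑ j, ε j * MvPolynomial.eval₂ ι a (DP (Pi.single j (N j)) P) := ⟨_, rfl⟩
    have hεT : ε x.1 * T ∈ I := by
      rw [hT, Finset.mul_sum]
      refine I.sum_mem fun j _ => ?_
      rw [← mul_assoc]
      exact I.mul_mem_right _ (hε _ _)
    rw [← hT] at hP ⊢
    generalize MvPolynomial.eval₂ ι (fun x => a x + ε x.1 * ∑ l : Fin 2, ι (N x.1 x.2.1 l) * a (x.1, (l, x.2.2)) + r x) P = E' at hP ⊢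
    generalize MvPolynomial.eval₂ ι a P = E at hP ⊢
    have h1 : (E' - (E + T)) * (a x + ε x.1 * S + r x) ∈ I := I.mul_mem_right _ hP
    have h2 : (E + T) * r x ∈ I := I.mul_mem_left _ (hr x)
    have h3 : ε x.1 * T * S ∈ I := I.mul_mem_right _ hεT
    have h4 := I.add_mem (I.add_mem h1 h2) h3
    refine (congrArg (· ∈ I) ?_).mp h4
    ring

end Pool.Agent.H64.PV
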