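import Pool.Agent.H64.PV.PDef

/-!
# PV.Sch : the Schwarzian derivative

PROOF. Work with elements of the field of fractions (or cancel at the end; `R` is a domain, so `PowerSeries R` is a domain). Write `a = ax κ`, `k1 = κ'`, `k2`, `k3`, `y1 = y'`, `y2 = y''`, `a1 = a' = k1 (1 - 2 κ)`, `a2 = a'' = k2 (1 - 2 κ) - 2 k1^2`. Differentiate `hw` twice: (R1) `w1 a y^2 + w a1 y^2 + 2 w a y y1 = C C0 k2`, (R2) `w2 a y^2 + 2 w1 a1 y^2 + 4 w1 a y y1 + w a2 y^2 + 4 w a1 y y1 + 2 w a y1^2 + 2 w a y y2 = C C0 k3`.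
With `C C0 k1 = w a y^2` multiply (R1), (R2) by `k1` to eliminate `C C0`: `k1 w1 a y^2 = w (k2 a y^2 - k1 a1 y^2 - 2 k1 a y y1)`, i.e. `w1 / w = L - 2 z` with `L = k2 / k1 - a1 / a`, `z = y1 / y` (if `k1 = 0` then `w = 0` by `hw` and both sides vanish). Then `2 w w2 - 3 w1^2 = w^2 (2 L' - L^2 - 4 (z' + z^2) + 4 L z)` and `hy` says `4 (z' + z^2) = 4 L z + k1^2 / a`. So `(2 w w2 - 3 w1^2) / w^2 = 2 L' - L^2 - k1^2 / a =
2 k3 / k1 - 3 (k2 / k1)^2 + k1^2 (1 - a) / a^2` (use `(1 - 2 κ)^2 = 1 - 4 a`). (In Lean: in the fraction field, solve for `w1, w2, y2` and `field_simp; ring`; checked numerically.)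
-/

set_option autoImplicit false

namespace Pool.Agent.H64.PV

open Pool.H61.QF Pool.Agent.H64.LG PowerSeries

private theorem sch_field {K : Type} [Field K] (κ k1 k2 k3 y y1 y2 w w1 w2 c : K) (h4 : (4 : K) ≠ 0)
    (ha : κ * (1 - κ) ≠ 0) (hy0 : y ≠ 0) (hk : k1 ≠ 0)
    (hw : w * (κ * (1 - κ)) * y ^ 2 = c * k1)
    (R1 : w1 * (κ * (1 - κ)) * y ^ 2 + w * (k1 * (1 - 2 * κ)) * y ^ 2 +
      2 * w * (κ * (1 - κ)) * y * y1 = c * k2)
    (R2 : w2 * (κ * (1 - κ)) * y ^ 2 + 2 * w1 * (k1 * (1 - 2 * κ)) * y ^ 2 +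
      4 * w1 * (κ * (1 - κ)) * y * y1 + w * (k2 * (1 - 2 * κ) - 2 * k1 ^ 2) * y ^ 2 +
      4 * w * (k1 * (1 - 2 * κ)) * y * y1 + 2 * w * (κ * (1 - κ)) * y1 ^ 2 +
      2 * w * (κ * (1 - κ)) * y * y2 = c * k3)
    (hy : 4 * (k1 * (κ * (1 - κ)) * y2 + (k1 * (k1 * (1 - 2 * κ)) - k2 * (κ * (1 - κ))) * y1) =
      k1 ^ 3 * y) :
    (2 * (w * w2) - 3 * w1 ^ 2) * (k1 * (κ * (1 - κ))) ^ 2 =
      ((2 * (k3 * k1) - 3 * k2 ^ 2) * (κ * (1 - κ)) ^ 2 + k1 ^ 4 * (1 - κ * (1 - κ))) * w ^ 2 := by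
  have hκ : κ ≠ 0 := left_ne_zero_of_mul ha
  have hκ' : 1 - κ ≠ 0 := right_ne_zero_of_mul ha
  have hc : c = w * (κ * (1 - κ)) * y ^ 2 / k1 := by
    rw [eq_div_iff hk, hw]
  subst hc
  have hz : w1 = w * (k2 / k1 - k1 * (1 - 2 * κ) / (κ * (1 - κ)) - 2 * (y1 / y)) := by
    have : (κ * (1 - κ)) * y ^ 2 ≠ 0 := mul_ne_zero ha (pow_ne_zero _ hy0)
    apply mul_right_cancel₀ this
    field_simp
    field_simp at R1
    linear_combination R1
  have hy2 : y2 = (k1 ^ 3 * y / 4 - (k1 * (k1 * (1 - 2 * κ)) - k2 * (κ * (1 - κ))) * y1) /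
      (k1 * (κ * (1 - κ))) := by
    rw [eq_div_iff (mul_ne_zero hk ha)]
    field_simp
    linear_combination hy
  have hw2 : w2 = (w * (κ * (1 - κ)) * y ^ 2 / k1 * k3 - (2 * w1 * (k1 * (1 - 2 * κ)) * y ^ 2 +
      4 * w1 * (κ * (1 - κ)) * y * y1 + w * (k2 * (1 - 2 * κ) - 2 * k1 ^ 2) * y ^ 2 +
      4 * w * (k1 * (1 - 2 * κ)) * y * y1 + 2 * w * (κ * (1 - κ)) * y1 ^ 2 +
      2 * w * (κ * (1 - κ)) * y * y2)) / ((κ * (1 - κ)) * y ^ 2) := by
    rw [eq_div_iff (mul_ne_zero ha (pow_ne_zero _ hy0))]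
    linear_combination R2
  rw [hw2, hy2, hz]
  field_simp
  ring

theorem sch {R : Type} [CommRing R] [IsDomain R] (κ y w : PowerSeries R) (C0 : R)
    (hw : w * ax κ * y ^ 2 = C C0 * dd κ) (hy : OD κ y) (hy0 : y ≠ 0) (ha : ax κ ≠ 0) :
    (2 * (w * dd (dd w)) - 3 * dd w ^ 2) * (dd κ * ax κ) ^ 2 = Sn κ * w ^ 2 := by
  have ha1 : dd (ax κ) = dd κ * (1 - 2 * κ) := by
    simp only [dd, ax, Derivation.leibniz, map_sub, Derivation.map_one_eq_zero, smul_eq_mul]
    ring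
  have ha2 : dd (dd (ax κ)) = dd (dd κ) * (1 - 2 * κ) - 2 * dd κ ^ 2 := by
    rw [ha1]
    have h2 : dd (2 * κ) = 2 * dd κ := by
      have : (2 : PowerSeries R) * κ = κ + κ := by ring
      rw [this]
      simp only [dd, map_add]
      ring
    have : dd (dd κ * (1 - 2 * κ)) = dd κ * dd (1 - 2 * κ) + (1 - 2 * κ) * dd (dd κ) := by
      simp only [dd, Derivation.leibniz, smul_eq_mul]
    rw [this]
    have : dd (1 - 2 * κ) = - (2 * dd κ) := by
      rw [← h2]
      simp only [dd, map_sub, Derivation.map_one_eq_zero, zero_sub]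
    rw [this]
    ring
  have hC : dd (C C0 : PowerSeries R) = 0 := by
    simp [dd]
  have hyy : dd (y ^ 2) = 2 * y * dd y := by
    have : y ^ 2 = y * y := by ring
    rw [this]
    simp only [dd, Derivation.leibniz, smul_eq_mul]
    ring
  have R1 : dd w * ax κ * y ^ 2 + w * dd (ax κ) * y ^ 2 + 2 * w * ax κ * y * dd y =
      C C0 * dd (dd κ) := by
    have h := congrArg dd hw
    have e1 : dd (w * ax κ * y ^ 2) = w * ax κ * dd (y ^ 2) + y ^ 2 * (w * dd (ax κ) + ax κ * dd w) := by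
      simp only [dd, Derivation.leibniz, smul_eq_mul]
    have e2 : dd (C C0 * dd κ) = C C0 * dd (dd κ) + dd κ * dd (C C0) := by
      simp only [dd, Derivation.leibniz, smul_eq_mul]
    rw [e1, e2, hC, hyy] at h
    linear_combination h
  have R2 : dd (dd w) * ax κ * y ^ 2 + 2 * dd w * dd (ax κ) * y ^ 2 +
      4 * dd w * ax κ * y * dd y + w * dd (dd (ax κ)) * y ^ 2 +
      4 * w * dd (ax κ) * y * dd y + 2 * w * ax κ * dd y ^ 2 +
      2 * w * ax κ * y * dd (dd y) = C C0 * dd (dd (dd κ)) := by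
    have h := congrArg dd R1
    have e1 : dd (dd w * ax κ * y ^ 2 + w * dd (ax κ) * y ^ 2 + 2 * w * ax κ * y * dd y) =
        dd w * ax κ * dd (y ^ 2) + y ^ 2 * (dd w * dd (ax κ) + ax κ * dd (dd w)) +
        (w * dd (ax κ) * dd (y ^ 2) + y ^ 2 * (w * dd (dd (ax κ)) + dd (ax κ) * dd w)) +
        2 * (w * ax κ * y * dd (dd y) + dd y * (w * ax κ * dd y + y * (w * dd (ax κ) + ax κ * dd w))) := by
      have e3 : 2 * w * ax κ * y * dd y = w * ax κ * y * dd y + w * ax κ * y * dd y := by ring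
      rw [e3]
      simp only [dd, Derivation.leibniz, smul_eq_mul, map_add]
      ring
    have e2 : dd (C C0 * dd (dd κ)) = C C0 * dd (dd (dd κ)) + dd (dd κ) * dd (C C0) := by
      simp only [dd, Derivation.leibniz, smul_eq_mul]
    rw [e1, e2, hC, hyy] at h
    linear_combination h
  by_cases hk : dd κ = 0
  · have h0 : dd (0 : PowerSeries R) = 0 := by simp [dd]
    rw [Sn, hk, h0]
    ring
  · have h4 : (4 : PowerSeries R) ≠ 0 := by
      intro h4
      rw [OD, h4, zero_mul] at hy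
      exact mul_ne_zero (pow_ne_zero 3 hk) hy0 hy.symm
    rw [ha2, ha1] at R2
    rw [ha1] at R1
    rw [OD, ha1] at hy
    let K := FractionRing (PowerSeries R)
    let f : PowerSeries R →+* K := algebraMap (PowerSeries R) K
    have hf : Function.Injective f := IsFractionRing.injective (PowerSeries R) K
    have hne : ∀ x : PowerSeries R, x ≠ 0 → f x ≠ 0 := fun x hx h0 =>
      hx (hf (by rw [h0, map_zero]))
    have key := sch_field (f κ) (f (dd κ)) (f (dd (dd κ))) (f (dd (dd (dd κ)))) (f y) (f (dd y))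
      (f (dd (dd y))) (f w) (f (dd w)) (f (dd (dd w))) (f (C C0))
      (by have := hne _ h4; rwa [map_ofNat] at this)
      (by have := hne _ ha; rwa [ax, map_mul, map_sub, map_one] at this)
      (hne _ hy0) (hne _ hk)
      (by have := congrArg f hw; simpa only [ax, map_mul, map_sub, map_one, map_pow] using this)
      (by have := congrArg f R1
          simpa only [ax, map_mul, map_add, map_sub, map_one, map_pow, map_ofNat] using this)
      (by have := congrArg f R2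
          simpa only [ax, map_mul, map_add, map_sub, map_one, map_pow, map_ofNat] using this)
      (by have := congrArg f hy
          simpa only [ax, map_mul, map_add, map_sub, map_one, map_pow, map_ofNat] using this)
    apply hf
    simpa only [Sn, ax, map_mul, map_add, map_sub, map_one, map_pow, map_ofNat] using key

end Pool.Agent.H64.PV
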