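import Pool.Agent.H64.PV.PadA
import Pool.Agent.H64.PV.Chn
import Pool.Agent.H64.PV.Os2
import Pool.Agent.H64.PV.Dpm
import Pool.Agent.H64.PV.Sch

/-!
# PV.Pad : the dichotomy for two families at a prime

PROOF. `q = PadicInt.Coe.ringHom`. Take the data `v_k, T_k, y_k, y1_k, W1_k, w_k, ε_k` of `padA` for all `k : J`. CASE 1: `T_i = C x * T_j + g` with `x ∈ ℚ_p`, `g ∈ Bd`. Derivative: `map q w_i = C x * map q w_j + dd g`, so `dpm` gives `w̄_i = C ρ * w̄_j`, `ρ ≠ 0` (bars: `map toZMod`). `sch` for `i` and `j` (over `ℤ_p`), reduced: `S(w̄_i) A_i^2 = Sn_i w̄_i^2`, `S(w̄_j) A_j^2 = Sn_j w̄_j^2` with `S(w) = 2 w w'' - 3 w'^2`, `A = κ' ax κ`;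
`S(w̄_i) = ρ^2 S(w̄_j)`, `w̄_i^2 = ρ^2 w̄_j^2`. So `w̄_i^2 w̄_j^2 (Sn_i A_j^2 - Sn_j A_i^2) = A_i^2 A_j^2 (S(w̄_i) w̄_j^2 - S(w̄_j) w̄_i^2) = 0`, cancel: `map toZMod (SnD ..) = 0`, i.e. `p` divides all coefficients (`toZMod x = 0 ↔ p ∣ x`: `PadicInt.ker_toZMod`, maximal ideal). (`y_k ≠ 0`, `ax ≠ 0` because of the reductions / constant coefficient `c (1 - c) ≠ 0`.)
CASE 2: no such `x, g`. `Z = Bd + ℚ_p T_j` is a `ℚ_p`-subspace (`C x * f = x • f`; constants are bounded) and `T_i ∉ Z`: there is a linear `L` with `L(Z) = 0`, `L(T_i) ≠ 0` (`Submodule.exists_le_ker_of_notMem`). `N k i' l = L (T_k) * Nv (v_k) i' l`: `N j = 0`, `N i 1 0 = L (T_i) ≠ 0`. Let `Q` be as in the claim; `chn` gives `F`; `eval₂ T F = evF Q ∈ Bd`, `dd T_k ∈ Bd`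
(image of `ℤ_p`-series), so by `os2`: `0 = ∑_k C (L (T_k)) eval₂ T (pderiv k F) = ∑_k C (L (T_k)) evF (DP (Pi.single k (Nv v_k)) Q) = evF (DP N Q)` (`DP` is linear in the matrices: `DP N = ∑_k C (..) • DP (Pi.single k ..)`, compare on the variables).
-/

set_option autoImplicit false

namespace Pool.Agent.H64.PV

open Pool.H61.QF Pool.Agent.H64.LG PowerSeries

private theorem pad_map_dd {R S : Type} [CommRing R] [CommRing S] (φ : R →+* S) (f : PowerSeries R) :
    PowerSeries.map φ (dd f) = dd (PowerSeries.map φ f) := by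
  ext n
  simp [PowerSeries.coeff_map, PowerSeries.coeff_derivative]

private theorem pad_map_Sn {R S : Type} [CommRing R] [CommRing S] (φ : R →+* S) (f : PowerSeries R) :
    PowerSeries.map φ (Sn f) = Sn (PowerSeries.map φ f) := by
  simp only [Sn, ax, map_sub, map_mul, map_add, map_pow, pad_map_dd, map_one, map_ofNat]

private theorem pad_dd_C {R : Type} [CommRing R] (a : R) (f : PowerSeries R) :
    dd (C a * f) = C a * dd f := by
  ext n
  simp [PowerSeries.coeff_derivative]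

/-- the algebra of case 1 -/
private theorem pad_alg {R : Type} [CommRing R] [IsDomain R] (κ₁ κ₂ w₁ w₂ : PowerSeries R) (ρ : R)
    (hρ : ρ ≠ 0) (hw : w₂ ≠ 0) (h : w₁ = C ρ * w₂)
    (h1 : (2 * (w₁ * dd (dd w₁)) - 3 * dd w₁ ^ 2) * (dd κ₁ * ax κ₁) ^ 2 = Sn κ₁ * w₁ ^ 2)
    (h2 : (2 * (w₂ * dd (dd w₂)) - 3 * dd w₂ ^ 2) * (dd κ₂ * ax κ₂) ^ 2 = Sn κ₂ * w₂ ^ 2) :
    SnD κ₁ κ₂ = 0 := by
  have hC : (C ρ : PowerSeries R) ≠ 0 := by
    intro h0
    apply hρ
    simpa using congrArg (PowerSeries.constantCoeff) h0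
  subst h
  rw [pad_dd_C, pad_dd_C] at h1
  have e : (C ρ : PowerSeries R) ^ 2 * w₂ ^ 2 * SnD κ₁ κ₂ = 0 := by
    unfold SnD
    linear_combination (-(dd κ₂ * ax κ₂) ^ 2) * h1 + C ρ ^ 2 * (dd κ₁ * ax κ₁) ^ 2 * h2
  rcases mul_eq_zero.1 e with h3 | h3
  · exact absurd h3 (mul_ne_zero (pow_ne_zero _ hC) (pow_ne_zero _ hw))
  · exact h3

private theorem pad_C (p : ℕ) [Fact p.Prime] (x : ℚ_[p]) : C x ∈ Bd p := by
  have hp : (1 : ℝ) < p := by exact_mod_cast (Fact.out : p.Prime).one_lt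
  obtain ⟨M, hM⟩ := pow_unbounded_of_one_lt ‖x‖ hp
  refine ⟨M, fun n => ?_⟩
  rw [PowerSeries.coeff_C]
  split_ifs
  · exact hM.le
  · simp

private theorem pad_int (p : ℕ) [Fact p.Prime] (f : PowerSeries ℤ_[p]) :
    PowerSeries.map PadicInt.Coe.ringHom f ∈ Bd p := by
  refine ⟨0, fun n => ?_⟩
  rw [PowerSeries.coeff_map, pow_zero]
  exact PadicInt.norm_le_one _

/-- the bounded series as a subspace -/
private noncomputable def padBd (p : ℕ) [Fact p.Prime] : Submodule ℚ_[p] (PowerSeries ℚ_[p]) where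
  carrier := Bd p
  add_mem' := (Bd p).add_mem
  zero_mem' := (Bd p).zero_mem
  smul_mem' := fun x f hf => by
    rw [PowerSeries.smul_eq_C_mul]
    exact (Bd p).mul_mem (pad_C p x) hf

/-- a functional which kills the bounded series and `T_j` but not `T_i` -/
private theorem pad_fun (p : ℕ) [Fact p.Prime] (Ti Tj : PowerSeries ℚ_[p])
    (h : ¬ ∃ (x : ℚ_[p]) (g : PowerSeries ℚ_[p]), g ∈ Bd p ∧ Ti = C x * Tj + g) :
    ∃ L : PowerSeries ℚ_[p] →ₗ[ℚ_[p]] ℚ_[p], (∀ f ∈ Bd p, L f = 0) ∧ L Tj = 0 ∧ L Ti ≠ 0 := by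
  have hn : Ti ∉ padBd p ⊔ Submodule.span ℚ_[p] {Tj} := by
    intro hm
    rw [Submodule.mem_sup] at hm
    obtain ⟨g, hg, z, hz, e⟩ := hm
    obtain ⟨x, rfl⟩ := Submodule.mem_span_singleton.1 hz
    refine h ⟨x, g, hg, ?_⟩
    rw [← e, PowerSeries.smul_eq_C_mul, add_comm]
  obtain ⟨L, hL1, hL2⟩ := Submodule.exists_le_ker_of_notMem hn
  refine ⟨L, fun f hf => ?_, ?_, hL1⟩
  · exact LinearMap.mem_ker.1 (hL2 (Submodule.mem_sup_left hf))
  · exact LinearMap.mem_ker.1 (hL2 (Submodule.mem_sup_right (Submodule.mem_span_singleton_self _)))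

/-- `DP` is linear in the matrices -/
private theorem pad_DP {R J : Type} [CommRing R] [Fintype J] [DecidableEq J] (l : J → R)
    (M : J → Fin 2 → Fin 2 → R) (Q : MvPolynomial (J × Ff) R) :
    DP (fun k a b => l k * M k a b) Q =
      ∑ k, MvPolynomial.C (l k) * DP (Pi.single k (M k)) Q := by
  induction Q using MvPolynomial.induction_on with
  | C a => simp
  | add P Q hP hQ => simp only [map_add, hP, hQ, mul_add, Finset.sum_add_distrib]
  | mul_X P x hP =>
    simp only [Derivation.leibniz, hP, smul_eq_mul]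
    have e : DP (fun k a b => l k * M k a b) (MvPolynomial.X x) =
        ∑ k, MvPolynomial.C (l k) * DP (Pi.single k (M k)) (MvPolynomial.X x) := by
      unfold DP
      simp only [MvPolynomial.mkDerivation_X]
      rw [Finset.sum_eq_single x.1]
      · simp only [Pi.single_eq_same, Finset.mul_sum, map_mul, mul_assoc]
      · intro k _ hk
        rw [Pi.single_eq_of_ne (Ne.symm hk)]
        simp
      · intro hk
        exact absurd (Finset.mem_univ _) hk
    rw [e]
    simp only [mul_add, Finset.sum_add_distrib, Finset.mul_sum]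
    congr 1
    · exact Finset.sum_congr rfl fun k _ => by ring
    · exact Finset.sum_congr rfl fun k _ => by ring

theorem pad (p : ℕ) [Fact p.Prime] (h4 : p % 4 = 1) {J : Type} [Fintype J] [DecidableEq J]
    (c : J → ℤ_[p]) (hc : ∀ j, IsUnit (c j * (1 - c j))) (s : J → PowerSeries ℤ_[p])
    (hs : ∀ j, constantCoeff (s j) = 0)
    (hs1 : ∀ j, PowerSeries.map PadicInt.toZMod (dd (s j)) ≠ 0) (i j : J) (hij : i ≠ j) :
    (∃ N : J → Fin 2 → Fin 2 → ℚ_[p], N j = 0 ∧ N i 1 0 ≠ 0 ∧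
      ∀ Q : MvPolynomial (J × Ff) (PowerSeries ℚ_[p]), (∀ m, Q.coeff m ∈ Bd p) →
        evF (fun k => (c k : ℚ_[p])) (fun k => PowerSeries.map PadicInt.Coe.ringHom (s k)) Q ∈ Bd p →
        evF (fun k => (c k : ℚ_[p])) (fun k => PowerSeries.map PadicInt.Coe.ringHom (s k))
          (DP (fun k a b => C (N k a b)) Q) = 0) ∨
    ∀ n, (p : ℤ_[p]) ∣ coeff n (SnD (C (c i) + s i) (C (c j) + s j)) := by
  classical
  choose v T y y1 W1 w ε hOD hy hw hε hw0 hCt hT h00 h10 h01 h11 using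
    fun k => padA p h4 (c k) (hc k) (s k) (hs k) (hs1 k)
  by_cases hcase : ∃ (x : ℚ_[p]) (g : PowerSeries ℚ_[p]), g ∈ Bd p ∧ T i = C x * T j + g
  · right
    obtain ⟨x, g, hg, hx⟩ := hcase
    have hd : PowerSeries.map PadicInt.Coe.ringHom (w i) =
        C x * PowerSeries.map PadicInt.Coe.ringHom (w j) + dd g := by
      rw [← hT i, ← hT j, ← pad_dd_C, ← map_add, ← hx]
    obtain ⟨ρ, hρ, hρ1⟩ := dpm p (w i) (w j) (ε i) (ε j) (hε i) (hε j) (hCt i) (hCt j) (hw0 i) (hw0 j)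
      x g hg hd
    have hyz : ∀ k, y k ≠ 0 := fun k h0 => hy k (by rw [h0, map_zero])
    have haz : ∀ k, ax (C (c k) + s k) ≠ 0 := by
      intro k h0
      have h1 := congrArg (PowerSeries.constantCoeff) h0
      simp only [ax, map_mul, map_sub, map_add, map_one, hs k, PowerSeries.constantCoeff_C, add_zero,
        map_zero] at h1
      exact (hc k).ne_zero h1
    have hsch : ∀ k, (2 * (PowerSeries.map PadicInt.toZMod (w k) *
        dd (dd (PowerSeries.map PadicInt.toZMod (w k)))) -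
        3 * dd (PowerSeries.map PadicInt.toZMod (w k)) ^ 2) *
        (dd (PowerSeries.map PadicInt.toZMod (C (c k) + s k)) *
          ax (PowerSeries.map PadicInt.toZMod (C (c k) + s k))) ^ 2 =
        Sn (PowerSeries.map PadicInt.toZMod (C (c k) + s k)) *
          PowerSeries.map PadicInt.toZMod (w k) ^ 2 := by
      intro k
      have h1 := congrArg (PowerSeries.map PadicInt.toZMod)
        (sch (C (c k) + s k) (y k) (w k) _ (hw k) (hOD k) (hyz k) (haz k))
      simp only [map_mul, map_sub, map_pow, pad_map_dd, pad_map_Sn, map_ofNat] at h1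
      simpa only [ax, map_mul, map_sub, map_one] using h1
    have hS := pad_alg _ _ _ _ ρ hρ (hw0 j) hρ1 (hsch i) (hsch j)
    have hS' : PowerSeries.map PadicInt.toZMod (SnD (C (c i) + s i) (C (c j) + s j)) = 0 := by
      rw [← hS]
      simp only [SnD, ax, map_sub, map_mul, map_pow, pad_map_dd, pad_map_Sn, map_one]
    intro n
    have h2 := congrArg (coeff n) hS'
    rw [PowerSeries.coeff_map, map_zero] at h2
    have h3 : coeff n (SnD (C (c i) + s i) (C (c j) + s j)) ∈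
        RingHom.ker (PadicInt.toZMod : ℤ_[p] →+* ZMod p) := h2
    rw [PadicInt.ker_toZMod, PadicInt.maximalIdeal_eq_span_p] at h3
    exact Ideal.mem_span_singleton.1 h3
  · left
    obtain ⟨L, hL, hLj, hLi⟩ := pad_fun p (T i) (T j) hcase
    refine ⟨fun k a b => L (T k) * Nv (v k) a b, ?_, ?_, ?_⟩
    · funext a b
      simp [hLj]
    · simpa [Nv] using hLi
    intro Q hQ hev
    obtain ⟨F, hF, hF1⟩ := chn p (fun k => (c k : ℚ_[p]))
      (fun k => PowerSeries.map PadicInt.Coe.ringHom (s k)) v T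
      (fun k => PowerSeries.map PadicInt.Coe.ringHom (y k))
      (fun k => PowerSeries.map PadicInt.Coe.ringHom (y1 k))
      (fun k => PowerSeries.map PadicInt.Coe.ringHom (W1 k))
      (fun k => pad_int p _) (fun k => pad_int p _) (fun k => pad_int p _) h00 h10 h01 h11 Q hQ
    have hos := os2 p T (fun k => by rw [hT k]; exact pad_int p _) F (by rw [hF]; exact hev) L hL
    have e : (fun k a b => C (L (T k) * Nv (v k) a b) : J → Fin 2 → Fin 2 → PowerSeries ℚ_[p]) =
        fun k a b => C (L (T k)) * C (Nv (v k) a b) := by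
      funext k a b
      rw [map_mul]
    have e2 := pad_DP (fun k => C (L (T k))) (fun k a b => C (Nv (v k) a b)) Q
    rw [e, e2, map_sum]
    rw [← hos]
    refine Finset.sum_congr rfl fun k _ => ?_
    rw [map_mul, hF1 k]
    congr 1
    simp [evF]

end Pool.Agent.H64.PV
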