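import Pool.Agent.H64.PV.UniA

/-!
# PV.Uni : the bounded solution

PROOF. `U n` from `uniA`, `c̄ = toZMod c`, `a = aK c̄ m`. `ℤ_p` is compact: along the ultrafilter `Filter.hyperfilter ℕ` every coefficient `n ↦ coeff k (U n)` converges to some `u_k` (`Ultrafilter.le_nhds_lim` for the image ultrafilter); `U = mk u`. `constantCoeff U = 1`. `LegR c U`: the `k`-th coefficient of `4 (..) - U` is a fixed polynomial expression in finitely many coefficients of `U`, so it is
the limit of the corresponding coefficients for `U n` (`Tendsto.add`, `.mul`, finite sums in `coeff_mul`; `coeff_derivative`), which are divisible by `p^n`, so of norm `≤ p^(-n)`, and tend to `0` (`hyperfilter ≤ cofinite = atTop`). Reduction: let `V n = map toZMod (U n)`. `X^(n+1) ∣ V (n+1) - V n` for all `n`: induction; `C a * (V (n+2) - V (n+1)) = Hs c̄ * (V (n+1) - V n)^p` (Frobenius, `sub_pow_char`/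
`sub_pow_expChar`), `p (n + 1) ≥ n + 2`; for `n = 0`: both have constant coefficient `1`. `toZMod` is continuous (locally constant: `‖x - y‖ < 1` implies equal images), so `coeff k (map toZMod U)` is the limit of the eventually constant sequence `coeff k (V n)` (`n ≥ k`): `coeff k (map toZMod U) = coeff k (V n)` for all `n ≥ k`. So the equation `C a * V (n+1) = Hs c̄ * V n ^ p` gives
the claim coefficientwise (take `n` large: `coeff k` of `V n ^ p` only involves the coefficients `≤ k`, `X^(k+1) ∣ map U - V n`).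
-/

set_option autoImplicit false

namespace Pool.Agent.H64.PV

open Pool.H61.QF Pool.Agent.H64.LG PowerSeries
open scoped PowerSeries.WithPiTopology

private theorem uni_lim (p : ℕ) [Fact p.Prime] (U : ℕ → PowerSeries ℤ_[p]) :
    ∃ W : PowerSeries ℤ_[p], Filter.Tendsto U (Filter.hyperfilter ℕ : Filter ℕ) (nhds W) := by
  let f : ℕ → (ℕ → ℤ_[p]) := fun n k => coeff k (U n)
  obtain ⟨u, -, hu⟩ := IsCompact.ultrafilter_le_nhds (isCompact_univ (X := ℕ → ℤ_[p]))
    ((Filter.hyperfilter ℕ).map f) (by simp)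
  refine ⟨PowerSeries.mk u, ?_⟩
  rw [PowerSeries.WithPiTopology.tendsto_iff_coeff_tendsto]
  intro k
  have h : Filter.Tendsto f (Filter.hyperfilter ℕ : Filter ℕ) (nhds u) := hu
  rw [tendsto_pi_nhds] at h
  rw [coeff_mk]
  exact h k

private theorem uni_dd (p : ℕ) [Fact p.Prime] {l : Filter ℕ} (U : ℕ → PowerSeries ℤ_[p])
    (W : PowerSeries ℤ_[p]) (h : Filter.Tendsto U l (nhds W)) :
    Filter.Tendsto (fun n => dd (U n)) l (nhds (dd W)) := by
  rw [PowerSeries.WithPiTopology.tendsto_iff_coeff_tendsto] at h ⊢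
  intro k
  have h1 := (h (k + 1)).mul_const ((k : ℤ_[p]) + 1)
  simpa only [dd, coeff_derivative] using h1

private theorem uni_red (p : ℕ) [Fact p.Prime] (x y : ℤ_[p]) (h : ‖x - y‖ < 1) :
    PadicInt.toZMod x = PadicInt.toZMod y := by
  have h1 : x - y ∈ RingHom.ker (PadicInt.toZMod (p := p)) := by
    rw [PadicInt.ker_toZMod, IsLocalRing.mem_maximalIdeal]
    exact PadicInt.mem_nonunits.2 h
  rw [RingHom.mem_ker, map_sub, sub_eq_zero] at h1
  exact h1

private theorem uni_zero (p : ℕ) [Fact p.Prime] (x : ℕ → ℤ_[p]) (y : ℤ_[p])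
    (h : Filter.Tendsto x (Filter.hyperfilter ℕ : Filter ℕ) (nhds y))
    (hx : ∀ n, (p : ℤ_[p]) ^ n ∣ x n) : y = 0 := by
  have hp : p.Prime := Fact.out
  refine tendsto_nhds_unique h ?_
  refine squeeze_zero_norm (a := fun n : ℕ => ((p : ℝ)⁻¹) ^ n) (fun n => ?_) ?_
  · have h1 := (PadicInt.norm_le_pow_iff_mem_span_pow (x n) n).2 (Ideal.mem_span_singleton.2 (hx n))
    rw [inv_pow]
    simpa [zpow_neg] using h1
  · refine (tendsto_pow_atTop_nhds_zero_of_lt_one (by positivity) ?_).mono_left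
      Nat.hyperfilter_le_atTop
    exact inv_lt_one_of_one_lt₀ (by exact_mod_cast hp.one_lt)

private theorem uni_charP (p : ℕ) [Fact p.Prime] : CharP (PowerSeries (ZMod p)) p :=
  charP_of_injective_ringHom (PowerSeries.C_injective (R := ZMod p)) p

private theorem uni_V (p : ℕ) [Fact p.Prime] (a : ZMod p) (ha : a ≠ 0)
    (H : PowerSeries (ZMod p)) (V : ℕ → PowerSeries (ZMod p)) (h0 : ∀ n, constantCoeff (V n) = 1)
    (hV : ∀ n, C a * V (n + 1) = H * V n ^ p) (n : ℕ) : (X : PowerSeries (ZMod p)) ^ (n + 1) ∣ V (n + 1) - V n := by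
  have := uni_charP p
  have hp : p.Prime := Fact.out
  induction n with
  | zero =>
    rw [zero_add, pow_one, X_dvd_iff, map_sub, h0, h0, sub_self]
  | succ n ih =>
    have h1 : V (n + 1 + 1) - V (n + 1) = C a⁻¹ * (H * (V (n + 1) - V n) ^ p) := by
      have h2 : C a * (V (n + 1 + 1) - V (n + 1)) = H * (V (n + 1) - V n) ^ p := by
        rw [sub_pow_char, mul_sub, mul_sub, hV, hV]
      rw [← h2, ← mul_assoc, ← map_mul, inv_mul_cancel₀ ha, map_one, one_mul]
    rw [h1]
    refine Dvd.dvd.mul_left (Dvd.dvd.mul_left ?_ _) _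
    refine dvd_trans (pow_dvd_pow _ ?_) ((pow_mul (X : PowerSeries (ZMod p)) (n + 1) p) ▸ pow_dvd_pow_of_dvd ih p)
    nlinarith [hp.two_le]

private theorem uni_V2 (p : ℕ) [Fact p.Prime] (a : ZMod p) (ha : a ≠ 0)
    (H : PowerSeries (ZMod p)) (V : ℕ → PowerSeries (ZMod p)) (h0 : ∀ n, constantCoeff (V n) = 1)
    (hV : ∀ n, C a * V (n + 1) = H * V n ^ p) (k m : ℕ) : coeff k (V (k + m)) = coeff k (V k) := by
  induction m with
  | zero => rfl
  | succ m ih =>
    have h1 := uni_V p a ha H V h0 hV (k + m)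
    rw [X_pow_dvd_iff] at h1
    have h2 := h1 k (by omega)
    rw [map_sub, sub_eq_zero] at h2
    rw [← ih, ← h2]
    rfl

theorem uni (p : ℕ) [Fact p.Prime] (h2 : p ≠ 2) (c : ℤ_[p])
    (hc : aK (PadicInt.toZMod c) ((p - 1) / 2) ≠ 0) :
    ∃ U : PowerSeries ℤ_[p], constantCoeff U = 1 ∧ LegR c U ∧
      C (aK (PadicInt.toZMod c) ((p - 1) / 2)) * PowerSeries.map PadicInt.toZMod U =
        Hs (PadicInt.toZMod c) * PowerSeries.map PadicInt.toZMod U ^ p := by
  obtain ⟨U, hU0, hU1, hU2⟩ := uniA p h2 c hc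
  obtain ⟨W, hW⟩ := uni_lim p U
  have hWc := (PowerSeries.WithPiTopology.tendsto_iff_coeff_tendsto (R := ℤ_[p]) U
    (Filter.hyperfilter ℕ : Filter ℕ) W).1 hW
  refine ⟨W, ?_, ?_, ?_⟩
  · have h1 := hWc 0
    have h3 : (fun n => coeff 0 (U n)) = fun _ => (1 : ℤ_[p]) := by
      funext n
      rw [coeff_zero_eq_constantCoeff_apply, hU0]
    rw [h3] at h1
    have h4 := tendsto_nhds_unique h1 tendsto_const_nhds
    rw [coeff_zero_eq_constantCoeff_apply] at h4
    exact h4
  · rw [LegR, ← sub_eq_zero]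
    have hd1 := uni_dd p U W hW
    have hd2 := uni_dd p _ _ hd1
    have hE : Filter.Tendsto (fun n => 4 * ((C c + X) * (1 - (C c + X)) * dd (dd (U n)) +
        (1 - 2 * (C c + X)) * dd (U n)) - U n) (Filter.hyperfilter ℕ : Filter ℕ)
        (nhds (4 * ((C c + X) * (1 - (C c + X)) * dd (dd W) +
        (1 - 2 * (C c + X)) * dd W) - W)) :=
      (((hd2.const_mul _).add (hd1.const_mul _)).const_mul _).sub hW
    ext k
    rw [PowerSeries.WithPiTopology.tendsto_iff_coeff_tendsto] at hE
    rw [map_zero]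
    exact uni_zero p _ _ (hE k) fun n => hU1 n k
  · have ha := hc
    set a := aK (PadicInt.toZMod c) ((p - 1) / 2) with hadef
    set H := Hs (PadicInt.toZMod c) with hHdef
    set V : ℕ → PowerSeries (ZMod p) := fun n => PowerSeries.map PadicInt.toZMod (U n) with hVdef
    have hV0 : ∀ n, constantCoeff (V n) = 1 := by
      intro n
      show constantCoeff (PowerSeries.map PadicInt.toZMod (U n)) = 1
      rw [← coeff_zero_eq_constantCoeff_apply, coeff_map, coeff_zero_eq_constantCoeff_apply, hU0,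
        map_one]
    have hV1 : ∀ n, C a * V (n + 1) = H * V n ^ p := hU2
    have hlim : ∀ k m, coeff k (PowerSeries.map PadicInt.toZMod W) = coeff k (V (k + m)) := by
      intro k m
      rw [uni_V2 p a ha H V hV0 hV1]
      have h1 := hWc k
      rw [Metric.tendsto_nhds] at h1
      have h3 := h1 1 one_pos
      have h4 : ∀ᶠ n in (Filter.hyperfilter ℕ : Filter ℕ), k ≤ n :=
        Nat.hyperfilter_le_atTop (Filter.eventually_ge_atTop k)
      obtain ⟨n, hn1, hn2⟩ := (h3.and h4).exists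
      obtain ⟨m', rfl⟩ := Nat.exists_eq_add_of_le hn2
      rw [← uni_V2 p a ha H V hV0 hV1 k m']
      show coeff k (PowerSeries.map PadicInt.toZMod W) =
        coeff k (PowerSeries.map PadicInt.toZMod (U (k + m')))
      rw [coeff_map, coeff_map]
      rw [dist_eq_norm] at hn1
      exact (uni_red p _ _ hn1).symm
    ext k
    have e1 : coeff k (C a * PowerSeries.map PadicInt.toZMod W) = coeff k (C a * V (k + 1)) := by
      rw [PowerSeries.coeff_C_mul, PowerSeries.coeff_C_mul, hlim k 1]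
    rw [e1, hV1 k]
    have hdiv : (X : PowerSeries (ZMod p)) ^ (k + 1) ∣ PowerSeries.map PadicInt.toZMod W - V k := by
      rw [X_pow_dvd_iff]
      intro j hj
      obtain ⟨m, rfl⟩ := Nat.exists_eq_add_of_le (Nat.lt_succ_iff.1 hj)
      rw [map_sub, hlim j m, sub_self]
    have hdiv2 : (X : PowerSeries (ZMod p)) ^ (k + 1) ∣
        H * (PowerSeries.map PadicInt.toZMod W ^ p - V k ^ p) :=
      Dvd.dvd.mul_left (hdiv.trans (sub_dvd_pow_sub_pow _ _ p)) _
    rw [X_pow_dvd_iff] at hdiv2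
    have h5 := hdiv2 k (Nat.lt_succ_self k)
    rw [mul_sub, map_sub, sub_eq_zero] at h5
    exact h5.symm

end Pool.Agent.H64.PV
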