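import Pool.Agent.H64.PV.Fam
import Pool.Agent.H64.PV.Uni
import Pool.Agent.H64.PV.Ord
import Pool.Agent.H64.PV.Eig

/-!
# PV.PadA : one family at a prime p = 1 mod 4

PROOF. `c̄ = toZMod c ≠ 0, 1` (`c (1 - c)` is a unit), `m = (p - 1) / 2`, `p ≥ 5`. `ord`: `a = aK c̄ m ≠ 0`. `uni`: `U`. `fam` with this `U`; `y = U.subst s`. Reduction (`PowerSeries.map_subst`): `ȳ = Ū.subst s̄`, constant coefficient `1` (so `ȳ ≠ 0`), and `C a * Ū = Hs c̄ * Ū^p` gives `C a * ȳ = (Hs c̄).subst s̄ * ȳ^p`; `(Hs c̄).subst s̄ = aeval (C c̄ + s̄) (HP (ZMod p) m)` (`PowerSeries.subst_coe`, `Polynomial.aeval_comp`). `eig` with `κ = C c̄ + s̄ = map toZMod (C c + s)` (constant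
coefficient `c̄`), `C0 = c̄ (1 - c̄)`, `w̄ = map toZMod w` (`map toZMod` commutes with `dd` and `ax`): `Ct w̄ = C ε * w̄`, `ε = cb m ^ (p - 3) * a^2 ≠ 0` (`cb_ne`). `w̄ ≠ 0`, because `w̄ ax κ̄ ȳ^2 = C (c̄ (1 - c̄)) * dd s̄ ≠ 0`.
-/

set_option autoImplicit false

namespace Pool.Agent.H64.PV

open Pool.H61.QF Pool.Agent.H64.LG PowerSeries

private lemma padA_map {R S : Type} [CommRing R] [CommRing S] (h : R →+* S) (f s : PowerSeries R)
    (hs : constantCoeff s = 0) :
    PowerSeries.map h (f.subst s) = (PowerSeries.map h f).subst (PowerSeries.map h s) := by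
  exact PowerSeries.map_subst (PowerSeries.HasSubst.of_constantCoeff_zero' hs) f

private lemma padA_dd {R S : Type} [CommRing R] [CommRing S] (h : R →+* S) (f : PowerSeries R) :
    PowerSeries.map h (dd f) = dd (PowerSeries.map h f) := by
  ext n
  simp [dd, PowerSeries.coeff_map, PowerSeries.coeff_derivative]

private lemma padA_cc {R : Type} [CommRing R] (f s : PowerSeries R)
    (hs : constantCoeff s = 0) : constantCoeff (f.subst s) = constantCoeff f := by
  have hS := PowerSeries.HasSubst.of_constantCoeff_zero' hs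
  have h1 : f = (f - C (constantCoeff f)) + C (constantCoeff f) := by ring
  have h2 : constantCoeff ((f - C (constantCoeff f)).subst s) = 0 :=
    PowerSeries.constantCoeff_subst_eq_zero hs _ (by simp)
  have h3 : f.subst s = (f - C (constantCoeff f)).subst s + (C (constantCoeff f)).subst s := by
    rw [← PowerSeries.subst_add hS, ← h1]
  rw [h3, map_add, h2, zero_add, PowerSeries.subst_C]
  exact PowerSeries.constantCoeff_C _

theorem padA (p : ℕ) [Fact p.Prime] (h4 : p % 4 = 1) (c : ℤ_[p]) (hc : IsUnit (c * (1 - c)))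
    (s : PowerSeries ℤ_[p]) (hs : constantCoeff s = 0)
    (hs1 : PowerSeries.map PadicInt.toZMod (dd s) ≠ 0) :
    ∃ (v : ℚ_[p]) (T : PowerSeries ℚ_[p]) (y y1 W1 w : PowerSeries ℤ_[p]) (ε : ZMod p),
      OD (C c + s) y ∧ PowerSeries.map PadicInt.toZMod y ≠ 0 ∧
      w * ax (C c + s) * y ^ 2 = C (c * (1 - c)) * dd (C c + s) ∧
      ε ≠ 0 ∧ PowerSeries.map PadicInt.toZMod w ≠ 0 ∧
      Ct (PowerSeries.map PadicInt.toZMod w) = C ε * PowerSeries.map PadicInt.toZMod w ∧
      dd T = PowerSeries.map PadicInt.Coe.ringHom w ∧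
      (dgF (c : ℚ_[p]) (0, 0)).subst (PowerSeries.map PadicInt.Coe.ringHom s) =
        (1 - C v * T) * PowerSeries.map PadicInt.Coe.ringHom y ∧
      (dgF (c : ℚ_[p]) (1, 0)).subst (PowerSeries.map PadicInt.Coe.ringHom s) =
        T * PowerSeries.map PadicInt.Coe.ringHom y ∧
      (dgF (c : ℚ_[p]) (0, 1)).subst (PowerSeries.map PadicInt.Coe.ringHom s) =
        (1 - C v * T) * PowerSeries.map PadicInt.Coe.ringHom y1 -
          C v * PowerSeries.map PadicInt.Coe.ringHom W1 ∧
      (dgF (c : ℚ_[p]) (1, 1)).subst (PowerSeries.map PadicInt.Coe.ringHom s) =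
        PowerSeries.map PadicInt.Coe.ringHom W1 + T * PowerSeries.map PadicInt.Coe.ringHom y1 := by
  have hpp : p.Prime := Fact.out
  have h5 : 5 ≤ p := by
    have := hpp.two_le
    by_contra hlt
    interval_cases p <;> omega
  set φ : ℤ_[p] →+* ZMod p := PadicInt.toZMod with hφ
  have hcu : IsUnit (φ c * (1 - φ c)) := by
    have := hc.map φ
    rwa [map_mul, map_sub, map_one] at this
  have hcne : φ c * (1 - φ c) ≠ 0 := hcu.ne_zero
  have hc0 : φ c ≠ 0 := left_ne_zero_of_mul hcne
  have hc1 : φ c ≠ 1 := by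
    intro h
    apply hcne
    rw [h]; ring
  have ha : aK (φ c) ((p - 1) / 2) ≠ 0 := ord p h4 (φ c) hc0 hc1
  obtain ⟨U, hU0, hUL, hUb⟩ := uni p (by omega) c ha
  obtain ⟨v, T, y1, W1, w, h1, h2, h3, h6, h7, h8, h9⟩ := fam p (by omega) c hc U hU0 hUL s hs
  set y := U.subst s with hy
  have hsb : constantCoeff (PowerSeries.map φ s) = 0 := by
    rw [← PowerSeries.coeff_zero_eq_constantCoeff_apply, PowerSeries.coeff_map,
      PowerSeries.coeff_zero_eq_constantCoeff_apply, hs, map_zero]
  have hSb := PowerSeries.HasSubst.of_constantCoeff_zero' hsb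
  have hyb : PowerSeries.map φ y = (PowerSeries.map φ U).subst (PowerSeries.map φ s) :=
    padA_map φ U s hs
  have hyc : constantCoeff (PowerSeries.map φ y) = 1 := by
    rw [← PowerSeries.coeff_zero_eq_constantCoeff_apply, PowerSeries.coeff_map,
      PowerSeries.coeff_zero_eq_constantCoeff_apply, hy, padA_cc U s hs, hU0, map_one]
  have hyne : PowerSeries.map φ y ≠ 0 := by
    intro h
    rw [h, map_zero] at hyc
    exact zero_ne_one hyc
  have hk : PowerSeries.map φ (C c + s) = C (φ c) + PowerSeries.map φ s := by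
    rw [map_add, PowerSeries.map_C]
  have hkc : constantCoeff (C (φ c) + PowerSeries.map φ s) = φ c := by
    rw [map_add, hsb, add_zero, PowerSeries.constantCoeff_C]
  have hax : PowerSeries.map φ (ax (C c + s)) = ax (C (φ c) + PowerSeries.map φ s) := by
    unfold ax
    rw [map_mul, map_sub, map_one, hk]
  have hw : PowerSeries.map φ w * ax (C (φ c) + PowerSeries.map φ s) * PowerSeries.map φ y ^ 2 =
      C (φ c * (1 - φ c)) * dd (C (φ c) + PowerSeries.map φ s) := by
    have := congrArg (PowerSeries.map φ) h2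
    rw [map_mul, map_mul, map_pow, map_mul, hax, padA_dd, hk, PowerSeries.map_C, map_mul, map_sub,
      map_one] at this
    exact this
  have hddk : dd (C (φ c) + PowerSeries.map φ s) = PowerSeries.map φ (dd s) := by
    rw [padA_dd]
    simp [dd]
  have hwne : PowerSeries.map φ w ≠ 0 := by
    intro h
    rw [h, zero_mul, zero_mul, hddk] at hw
    rcases mul_eq_zero.1 hw.symm with h0 | h0
    · refine hcne ?_
      have h01 := congrArg constantCoeff h0
      rwa [PowerSeries.constantCoeff_C, map_zero] at h01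
    · exact hs1 h0
  have hyeq : C (aK (φ c) ((p - 1) / 2)) * PowerSeries.map φ y =
      Polynomial.aeval (C (φ c) + PowerSeries.map φ s) (HP (ZMod p) ((p - 1) / 2)) *
        PowerSeries.map φ y ^ p := by
    have h := congrArg (PowerSeries.subst (PowerSeries.map φ s)) hUb
    rw [PowerSeries.subst_mul hSb, PowerSeries.subst_mul hSb, PowerSeries.subst_pow hSb, ← hyb] at h
    have e1 : (C (aK (φ c) ((p - 1) / 2)) : PowerSeries (ZMod p)).subst (PowerSeries.map φ s) =
        C (aK (φ c) ((p - 1) / 2)) := PowerSeries.subst_C _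
    have e2 : (Hs (φ c)).subst (PowerSeries.map φ s) =
        Polynomial.aeval (C (φ c) + PowerSeries.map φ s) (HP (ZMod p) ((p - 1) / 2)) := by
      unfold Hs
      rw [PowerSeries.subst_coe hSb, Polynomial.aeval_comp]
      congr 2
      simp
    rw [e1, e2] at h
    exact h
  refine ⟨v, T, y, y1, W1, w, cb (ZMod p) ((p - 1) / 2) ^ (p - 3) * aK (φ c) ((p - 1) / 2) ^ 2,
    h1, hyne, h2, ?_, hwne, ?_, h3, h6, h7, h8, h9⟩
  · exact mul_ne_zero (pow_ne_zero _ (cb_ne p (by omega) _ (by omega))) (pow_ne_zero _ ha)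
  · have := eig p h5 (C (φ c) + PowerSeries.map φ s) (PowerSeries.map φ y) (PowerSeries.map φ w)
      (φ c * (1 - φ c)) (by rw [hkc]; exact hc0) (by rw [hkc]; exact hc1) (by rw [hkc]; exact ha) hyc
      (by rw [hkc]; exact hyeq) hw
    rw [hkc] at this
    exact this

end Pool.Agent.H64.PV
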