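import Pool.Agent.H64.PV.Luc
import Pool.Agent.H64.PV.Apx

/-!
# PV.UniA : approximate bounded solutions

PROOF. `M_n = (p^n - 1) / 2`, so `M_0 = 0` and `M_(n+1) = m + p M_n`, `m = (p - 1) / 2`. There is a polynomial `P_n` over `ℤ_p` with `map (ℤ_p → ℚ_p) P_n = HP ℚ_p M_n` and `map toZMod P_n = HP (ZMod p) M_n` (take `∑ (z_i z_(M-i)) x^i` with `z_i ∈ ℤ_p`, `z_i = centralBinom i * (4⁻¹)^i`, `4⁻¹ ∈ ℤ_p` as `4` is a unit, `p ≠ 2`). Let `c̄ = toZMod c`. `(HP K M).eval x = aK x M`.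
By `luc`: `aK c̄ M_(n+1) = aK c̄ m * (aK c̄ M_n)^p`, `aK c̄ 0 = 1`, so `aK c̄ M_n ≠ 0` and `u_n = P_n(c)` is a unit of `ℤ_p` (`toZMod` of it is not `0`). Let `U n = C (u_n⁻¹) * P_n(c + X)` (the polynomial `P_n.comp (C c + X)` as a power series). Constant coefficient `u_n⁻¹ u_n = 1`. (2) The polynomial `E_n = 4 (X (1 - X) P_n'' + (1 - 2 X) P_n') - P_n` over `ℤ_p` has all coefficients
divisible by `p^n` (`apx` and `‖x‖ ≤ p^(-n) ↔ p^n ∣ x`, `PadicInt.norm_le_pow_iff_mem_span_pow`), and the series in (2) is `C (u_n⁻¹) * E_n(c + X)`, whose coefficients are `ℤ_p`-combinations of those of `E_n` (if `E_n = C (p^n) * E'` then `E_n.comp (..) = C (p^n) * E'.comp (..)`). (3) `map toZMod (U (n+1)) = C (aK c̄ M_(n+1))⁻¹ * (HP M_(n+1)).comp (C c̄ + X)`, and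
by `luc` this is `C (aK c̄ M_(n+1))⁻¹ * Hs c̄ * ((HP M_n).comp ..)^p`, `aK c̄ m * (aK c̄ M_(n+1))⁻¹ = ((aK c̄ M_n)⁻¹)^p`.
-/

set_option autoImplicit false

namespace Pool.Agent.H64.PV

open Pool.H61.QF Pool.Agent.H64.LG PowerSeries

/-- the coefficients of `(1 - x)^(-1/2)` in a ring in which `4` has the inverse `q` -/
private noncomputable def zc {R : Type} [CommRing R] (q : R) (i : ℕ) : R := (Nat.centralBinom i : R) * q ^ i

private noncomputable def ZP {R : Type} [CommRing R] (q : R) (M : ℕ) : Polynomial R :=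
  ∑ i ∈ Finset.range (M + 1), Polynomial.C (zc q i * zc q (M - i)) * Polynomial.X ^ i

private theorem zc_map {R K : Type} [CommRing R] [Field K] (φ : R →+* K) (q : R) (hq : 4 * q = 1)
    (i : ℕ) : φ (zc q i) = cb K i := by
  have h4 : (4 : K) * φ q = 1 := by
    have := congrArg φ hq
    rw [map_mul, map_one, map_ofNat φ 4] at this
    exact this
  have h4' : (4 : K) ≠ 0 := left_ne_zero_of_mul_eq_one h4
  have hq' : φ q = (4 : K)⁻¹ := (eq_inv_of_mul_eq_one_right h4)
  rw [zc, cb, map_mul, map_natCast, map_pow, hq', inv_pow, div_eq_mul_inv]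

private theorem ZP_map {R K : Type} [CommRing R] [Field K] (φ : R →+* K) (q : R) (hq : 4 * q = 1)
    (M : ℕ) : (ZP q M).map φ = HP K M := by
  rw [ZP, HP, Polynomial.map_sum]
  refine Finset.sum_congr rfl fun i _ => ?_
  rw [Polynomial.map_mul, Polynomial.map_C, Polynomial.map_pow, Polynomial.map_X, map_mul,
    zc_map φ q hq, zc_map φ q hq]

private theorem HP_eval {K : Type} [Field K] (M : ℕ) (x : K) : (HP K M).eval x = aK x M := by
  rw [HP, aK, Polynomial.eval_finsetSum]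
  refine Finset.sum_congr rfl fun i _ => ?_
  simp

private theorem Mn_succ (p : ℕ) [Fact p.Prime] (h2 : p ≠ 2) (n : ℕ) :
    (p ^ (n + 1) - 1) / 2 = (p - 1) / 2 + p * ((p ^ n - 1) / 2) := by
  have hp : p.Prime := Fact.out
  obtain ⟨m, hm⟩ := hp.odd_of_ne_two h2
  obtain ⟨k, hk⟩ := (hp.odd_of_ne_two h2).pow (n := n)
  rw [pow_succ, hk]
  have e1 : (2 * k + 1) * p = 2 * (m + p * k) + 1 := by
    nlinarith [hm]
  have e2 : (p - 1) / 2 = m := by omega
  have e3 : (2 * k + 1 - 1) / 2 = k := by omega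
  rw [e2, e1, e3]
  omega

private theorem aK_succ (p : ℕ) [Fact p.Prime] (h2 : p ≠ 2) (c : ZMod p) (n : ℕ) :
    aK c ((p ^ (n + 1) - 1) / 2) = aK c ((p - 1) / 2) * aK c ((p ^ n - 1) / 2) ^ p := by
  rw [Mn_succ p h2 n, ← HP_eval, ← HP_eval, ← HP_eval, luc p h2, Polynomial.eval_mul,
    Polynomial.eval_pow]

private theorem aK_ne (p : ℕ) [Fact p.Prime] (h2 : p ≠ 2) (c : ZMod p)
    (hc : aK c ((p - 1) / 2) ≠ 0) (n : ℕ) : aK c ((p ^ n - 1) / 2) ≠ 0 := by
  induction n with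
  | zero => simp [aK, cb]
  | succ n ih =>
    rw [aK_succ p h2]
    exact mul_ne_zero hc (pow_ne_zero _ ih)

private theorem four_inv (p : ℕ) [Fact p.Prime] (h2 : p ≠ 2) : ∃ q : ℤ_[p], 4 * q = 1 := by
  have hp : p.Prime := Fact.out
  have h : IsUnit ((4 : ℕ) : ℤ_[p]) := by
    rw [PadicInt.isUnit_iff, PadicInt.norm_natCast_eq_one_iff]
    have : Nat.Coprime p (2 ^ 2) :=
      Nat.Coprime.pow_right 2 ((Nat.coprime_primes hp Nat.prime_two).2 h2)
    simpa using this
  obtain ⟨u, hu⟩ := h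
  refine ⟨((u⁻¹ : ℤ_[p]ˣ) : ℤ_[p]), ?_⟩
  have := u.mul_inv
  rw [hu] at this
  simpa using this

/-- the equation of Legendre for polynomials -/
private noncomputable def LE {R : Type} [CommRing R] (P : Polynomial R) : Polynomial R :=
  4 * (Polynomial.X * (1 - Polynomial.X) * Polynomial.derivative (Polynomial.derivative P) +
      (1 - 2 * Polynomial.X) * Polynomial.derivative P) - P

private theorem LE_map {R S : Type} [CommRing R] [CommRing S] (φ : R →+* S) (P : Polynomial R) :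
    (LE P).map φ = LE (P.map φ) := by
  simp only [LE, Polynomial.map_sub, Polynomial.map_mul, Polynomial.map_add, Polynomial.map_X,
    Polynomial.map_one, Polynomial.map_ofNat, Polynomial.derivative_map]

private theorem LE_dvd (p : ℕ) [Fact p.Prime] (h2 : p ≠ 2) (q : ℤ_[p]) (hq : 4 * q = 1) (n : ℕ) :
    Polynomial.C ((p : ℤ_[p]) ^ n) ∣ LE (ZP q ((p ^ n - 1) / 2)) := by
  rw [Polynomial.C_dvd_iff_dvd_coeff]
  intro i
  rw [← Ideal.mem_span_singleton, ← PadicInt.norm_le_pow_iff_mem_span_pow]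
  have h := apx p h2 n i
  have e : ((LE (ZP q ((p ^ n - 1) / 2))).map (PadicInt.Coe.ringHom (p := p))).coeff i =
      (((LE (ZP q ((p ^ n - 1) / 2))).coeff i : ℤ_[p]) : ℚ_[p]) := by
    rw [Polynomial.coeff_map]
    rfl
  rw [PadicInt.norm_def, ← e, LE_map, ZP_map _ q hq]
  exact h

private theorem LE_comp {R : Type} [CommRing R] (c v : R) (P : Polynomial R) :
    4 * ((C c + X) * (1 - (C c + X)) * dd (dd (C v * ((P.comp (Polynomial.C c + Polynomial.X) : Polynomial R) : PowerSeries R))) +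
        (1 - 2 * (C c + X)) * dd (C v * ((P.comp (Polynomial.C c + Polynomial.X) : Polynomial R) : PowerSeries R))) -
        C v * ((P.comp (Polynomial.C c + Polynomial.X) : Polynomial R) : PowerSeries R) =
      C v * (((LE P).comp (Polynomial.C c + Polynomial.X) : Polynomial R) : PowerSeries R) := by
  have hd : ∀ Q : Polynomial R, dd (C v * ((Q.comp (Polynomial.C c + Polynomial.X) : Polynomial R) : PowerSeries R)) =
      C v * (((Polynomial.derivative Q).comp (Polynomial.C c + Polynomial.X) : Polynomial R) : PowerSeries R) := by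
    intro Q
    rw [dd, Derivation.leibniz, PowerSeries.derivative_C, PowerSeries.derivative_coe,
      Polynomial.derivative_comp]
    simp
  rw [hd, hd, LE]
  simp only [Polynomial.sub_comp, Polynomial.mul_comp, Polynomial.add_comp, Polynomial.X_comp,
    Polynomial.one_comp, Polynomial.ofNat_comp, Polynomial.coe_sub, Polynomial.coe_mul,
    Polynomial.coe_add, Polynomial.coe_one, Polynomial.coe_C, Polynomial.coe_X, Nat.cast_ofNat]
  have e2 : (((2 : Polynomial R)) : PowerSeries R) = 2 := by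
    rw [show (2 : Polynomial R) = Polynomial.C 2 from rfl, Polynomial.coe_C]
    rfl
  have e4 : (((4 : Polynomial R)) : PowerSeries R) = 4 := by
    rw [show (4 : Polynomial R) = Polynomial.C 4 from rfl, Polynomial.coe_C]
    rfl
  rw [e2, e4]
  ring

theorem uniA (p : ℕ) [Fact p.Prime] (h2 : p ≠ 2) (c : ℤ_[p])
    (hc : aK (PadicInt.toZMod c) ((p - 1) / 2) ≠ 0) :
    ∃ U : ℕ → PowerSeries ℤ_[p], (∀ n, constantCoeff (U n) = 1) ∧
      (∀ n k, (p : ℤ_[p]) ^ n ∣ coeff k (4 * ((C c + X) * (1 - (C c + X)) * dd (dd (U n)) +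
        (1 - 2 * (C c + X)) * dd (U n)) - U n)) ∧
      ∀ n, C (aK (PadicInt.toZMod c) ((p - 1) / 2)) * PowerSeries.map PadicInt.toZMod (U (n + 1)) =
        Hs (PadicInt.toZMod c) * PowerSeries.map PadicInt.toZMod (U n) ^ p := by
  obtain ⟨q, hq⟩ := four_inv p h2
  have hu0 : ∀ n, PadicInt.toZMod ((ZP q ((p ^ n - 1) / 2)).eval c) =
      aK (PadicInt.toZMod c) ((p ^ n - 1) / 2) := by
    intro n
    rw [← HP_eval, ← ZP_map (PadicInt.toZMod (p := p)) q hq, Polynomial.eval_map_apply]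
  have hu : ∀ n, IsUnit ((ZP q ((p ^ n - 1) / 2)).eval c) := by
    intro n
    have h1 : ¬ ((ZP q ((p ^ n - 1) / 2)).eval c ∈ IsLocalRing.maximalIdeal ℤ_[p]) := by
      rw [← PadicInt.ker_toZMod, RingHom.mem_ker, hu0]
      exact aK_ne p h2 _ hc n
    exact IsLocalRing.notMem_maximalIdeal.1 h1
  have hv : ∀ n, ∃ v : ℤ_[p], v * (ZP q ((p ^ n - 1) / 2)).eval c = 1 := by
    intro n
    obtain ⟨u, hu⟩ := hu n
    exact ⟨((u⁻¹ : ℤ_[p]ˣ) : ℤ_[p]), by rw [← hu]; exact u.inv_mul⟩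
  choose v hv using hv
  have hvz : ∀ n, PadicInt.toZMod (v n) = (aK (PadicInt.toZMod c) ((p ^ n - 1) / 2))⁻¹ := by
    intro n
    refine eq_inv_of_mul_eq_one_left ?_
    rw [← hu0, ← map_mul, hv, map_one]
  refine ⟨fun n => C (v n) * (((ZP q ((p ^ n - 1) / 2)).comp (Polynomial.C c + Polynomial.X) :
    Polynomial ℤ_[p]) : PowerSeries ℤ_[p]), fun n => ?_, fun n k => ?_, fun n => ?_⟩
  · show constantCoeff (C (v n) * _) = 1
    rw [map_mul, constantCoeff_C, Polynomial.constantCoeff_coe, Polynomial.coeff_zero_eq_eval_zero,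
      Polynomial.eval_comp]
    simpa using hv n
  · show _ ∣ coeff k (4 * ((C c + X) * (1 - (C c + X)) * dd (dd (C (v n) * _)) +
        (1 - 2 * (C c + X)) * dd (C (v n) * _)) - C (v n) * _)
    rw [LE_comp, PowerSeries.coeff_C_mul, Polynomial.coeff_coe]
    refine Dvd.dvd.mul_left ?_ _
    have h := map_dvd (Polynomial.compRingHom (Polynomial.C c + Polynomial.X)) (LE_dvd p h2 q hq n)
    rw [Polynomial.coe_compRingHom_apply, Polynomial.coe_compRingHom_apply, Polynomial.C_comp,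
      Polynomial.C_dvd_iff_dvd_coeff] at h
    exact h k
  · show C _ * PowerSeries.map PadicInt.toZMod (C (v (n + 1)) * _) =
      Hs _ * PowerSeries.map PadicInt.toZMod (C (v n) * _) ^ p
    have hm : ∀ M, PowerSeries.map (PadicInt.toZMod (p := p))
        (((ZP q M).comp (Polynomial.C c + Polynomial.X) : Polynomial ℤ_[p]) : PowerSeries ℤ_[p]) =
        (((HP (ZMod p) M).comp (Polynomial.C (PadicInt.toZMod c) + Polynomial.X) :
          Polynomial (ZMod p)) : PowerSeries (ZMod p)) := by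
      intro M
      rw [← Polynomial.polynomial_map_coe, Polynomial.map_comp, ZP_map _ q hq, Polynomial.map_add,
        Polynomial.map_C, Polynomial.map_X]
    rw [map_mul, map_mul, hm, hm, PowerSeries.map_C, PowerSeries.map_C, hvz, hvz, Mn_succ p h2 n,
      luc p h2, ← Mn_succ p h2 n, aK_succ p h2, Hs, Polynomial.mul_comp, Polynomial.pow_comp,
      Polynomial.coe_mul, Polynomial.coe_pow, mul_pow, mul_inv, map_mul]
    have e1 : (C (aK (PadicInt.toZMod c) ((p - 1) / 2)) : PowerSeries (ZMod p)) *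
        C (aK (PadicInt.toZMod c) ((p - 1) / 2))⁻¹ = 1 := by
      rw [← map_mul, mul_inv_cancel₀ hc, map_one]
    have e2 : (C (aK (PadicInt.toZMod c) ((p ^ n - 1) / 2) ^ p)⁻¹ : PowerSeries (ZMod p)) =
        C (aK (PadicInt.toZMod c) ((p ^ n - 1) / 2))⁻¹ ^ p := by
      rw [← map_pow, inv_pow]
    rw [e2]
    linear_combination (((HP (ZMod p) ((p - 1) / 2)).comp (Polynomial.C (PadicInt.toZMod c) + Polynomial.X) :
          Polynomial (ZMod p)) : PowerSeries (ZMod p)) *
      C (aK (PadicInt.toZMod c) ((p ^ n - 1) / 2))⁻¹ ^ p *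
      (((HP (ZMod p) ((p ^ n - 1) / 2)).comp (Polynomial.C (PadicInt.toZMod c) + Polynomial.X) :
          Polynomial (ZMod p)) : PowerSeries (ZMod p)) ^ p * e1

end Pool.Agent.H64.PV
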